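import Pool.Agent.Work.MP_992d6e_an.SM.Defs

/-!
MODULE Der (MP_992d6e_an, smoothed analysis): derivative of the field and bounds for `Dg`.

`‖Dg u v‖^2 = |u|^{-6} (|v|^2 + 3 (u·v)^2/|u|^2)` lies between `|u|^{-6}|v|^2` and `4|u|^{-6}|v|^2`.
(`Dg u v = |u|^{-3} v - 3 |u|^{-5} (u·v) u`.)
`norm_Dg_apply_le` also holds for `u = 0` (both sides are `0`).
-/

set_option autoImplicit false

namespace SM992

variable {n : ℕ}

theorem Dg_apply (u v : E) :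
    Dg u v = (‖u‖ ^ 3)⁻¹ • v - (3 * (‖u‖ ^ 5)⁻¹ * inner ℝ u v) • u := by
  simp only [Dg, sub_apply, smul_apply,
    ContinuousLinearMap.id_apply, ContinuousLinearMap.smulRight_apply, innerSL_apply_apply, smul_smul]

private theorem t1 {u : E} (hu : u ≠ 0) :
    HasStrictFDerivAt (fun y : E => ‖y‖) (‖u‖⁻¹ • innerSL ℝ u) u := by
  have h0 : 0 < ‖u‖ := norm_pos_iff.2 hu
  have h1 := (hasStrictFDerivAt_norm_sq u).sqrt (by positivity)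
  have h2 : (fun y : E => √(‖y‖ ^ 2)) = fun y => ‖y‖ := by
    funext y
    exact Real.sqrt_sq (norm_nonneg y)
  rw [h2, Real.sqrt_sq (norm_nonneg u)] at h1
  have h3 : (1 / (2 * ‖u‖)) • (2 • innerSL ℝ u) = ‖u‖⁻¹ • innerSL ℝ u := by
    rw [two_nsmul, ← two_smul ℝ, smul_smul]
    congr 1
    field_simp
  rw [h3] at h1
  exact h1

private theorem t2 {s : ℝ} (hs : s ≠ 0) :
    HasStrictDerivAt (fun s : ℝ => (s ^ 3)⁻¹) (-(3 * (s ^ 4)⁻¹)) s := by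
  have h1 : HasStrictDerivAt (fun s : ℝ => (s ^ 3)⁻¹)
      (-((s ^ 3) ^ 2)⁻¹ * (((3 : ℕ) : ℝ) * s ^ (3 - 1))) s :=
    HasStrictDerivAt.comp (h₂ := fun z : ℝ => z⁻¹) (h := fun s : ℝ => s ^ 3) s
      (hasStrictDerivAt_inv (pow_ne_zero 3 hs)) (hasStrictDerivAt_pow 3 s)
  have h2 : -((s ^ 3) ^ 2)⁻¹ * (((3 : ℕ) : ℝ) * s ^ (3 - 1)) = -(3 * (s ^ 4)⁻¹) := by
    push_cast
    field_simp
  rw [h2] at h1
  exact h1

theorem hasStrictFDerivAt_g {u : E} (hu : u ≠ 0) : HasStrictFDerivAt g (Dg u) u := by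
  have h0 : 0 < ‖u‖ := norm_pos_iff.2 hu
  have h1 := (t2 h0.ne').comp_hasStrictFDerivAt u (t1 hu)
  have h2 : HasStrictFDerivAt g ((‖u‖ ^ 3)⁻¹ • ContinuousLinearMap.id ℝ E +
      (-(3 * (‖u‖ ^ 4)⁻¹) • ‖u‖⁻¹ • innerSL ℝ u).smulRight u) u :=
    h1.smul (hasStrictFDerivAt_id u)
  convert h2 using 1
  ext1 w
  rw [Dg_apply]
  simp only [add_apply, smul_apply,
    ContinuousLinearMap.id_apply, ContinuousLinearMap.smulRight_apply, innerSL_apply_apply,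
    smul_eq_mul, sub_eq_add_neg, ← neg_smul]
  congr 2
  field_simp

theorem hasStrictFDerivAt_F (q : Fin n → ℝ) (a : Fin n → E) {x : E} (hx : ∀ l, x ≠ a l) :
    HasStrictFDerivAt (F q a) (DF q a x) x := by
  have h1 : ∀ l ∈ (Finset.univ : Finset (Fin n)),
      HasStrictFDerivAt (fun y => q l • g (y - a l)) (q l • Dg (x - a l)) x := by
    intro l _
    have h2 : HasStrictFDerivAt (fun y : E => y - a l) (ContinuousLinearMap.id ℝ E) x :=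
      (hasStrictFDerivAt_id x).sub_const (a l)
    have h3 : HasStrictFDerivAt (fun y : E => g (y - a l))
        ((Dg (x - a l)).comp (ContinuousLinearMap.id ℝ E)) x :=
      HasStrictFDerivAt.comp (g := g) x (hasStrictFDerivAt_g (sub_ne_zero.2 (hx l))) h2
    rw [ContinuousLinearMap.comp_id] at h3
    exact h3.const_smul (q l)
  exact HasStrictFDerivAt.fun_sum h1

theorem norm_g (u : E) : ‖g u‖ = (‖u‖ ^ 2)⁻¹ := by
  rw [g, norm_smul, norm_inv, norm_pow, norm_norm]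
  rcases eq_or_ne ‖u‖ 0 with h | h
  · rw [h]
    norm_num
  · field_simp

private theorem t3 {u : E} (hu : u ≠ 0) (v : E) :
    ‖Dg u v‖ ^ 2 = (‖u‖ ^ 6)⁻¹ * (‖v‖ ^ 2 + 3 * (inner ℝ u v) ^ 2 / ‖u‖ ^ 2) := by
  have h0 : 0 < ‖u‖ := norm_pos_iff.2 hu
  rw [Dg_apply, norm_sub_sq_real, norm_smul, norm_smul, inner_smul_left, inner_smul_right,
    real_inner_comm u v, mul_pow, mul_pow, Real.norm_eq_abs, Real.norm_eq_abs, sq_abs, sq_abs]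
  simp only [conj_trivial]
  field_simp
  ring

theorem norm_Dg_apply_le (u v : E) : ‖Dg u v‖ ≤ 2 * (‖u‖ ^ 3)⁻¹ * ‖v‖ := by
  rcases eq_or_ne u 0 with rfl | hu
  · rw [Dg_apply]
    simp
  have h0 : 0 < ‖u‖ := norm_pos_iff.2 hu
  have h1 : (inner ℝ u v) ^ 2 ≤ ‖u‖ ^ 2 * ‖v‖ ^ 2 := by
    rw [← mul_pow, ← sq_abs]
    exact pow_le_pow_left₀ (abs_nonneg _) (abs_real_inner_le_norm u v) 2
  have h2 : 3 * (inner ℝ u v) ^ 2 / ‖u‖ ^ 2 ≤ 3 * ‖v‖ ^ 2 := by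
    rw [div_le_iff₀ (by positivity)]
    nlinarith
  refine le_of_sq_le_sq ?_ (by positivity)
  rw [t3 hu]
  calc (‖u‖ ^ 6)⁻¹ * (‖v‖ ^ 2 + 3 * (inner ℝ u v) ^ 2 / ‖u‖ ^ 2)
      ≤ (‖u‖ ^ 6)⁻¹ * (‖v‖ ^ 2 + 3 * ‖v‖ ^ 2) := by gcongr
    _ = (2 * (‖u‖ ^ 3)⁻¹ * ‖v‖) ^ 2 := by
        field_simp
        norm_num

theorem le_norm_Dg_apply (u v : E) : (‖u‖ ^ 3)⁻¹ * ‖v‖ ≤ ‖Dg u v‖ := by
  rcases eq_or_ne u 0 with rfl | hu
  · simp
  have h0 : 0 < ‖u‖ := norm_pos_iff.2 hu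
  refine le_of_sq_le_sq ?_ (norm_nonneg _)
  rw [t3 hu]
  calc ((‖u‖ ^ 3)⁻¹ * ‖v‖) ^ 2 = (‖u‖ ^ 6)⁻¹ * (‖v‖ ^ 2 + 0) := by
        rw [mul_pow, inv_pow, ← pow_mul, add_zero]
    _ ≤ (‖u‖ ^ 6)⁻¹ * (‖v‖ ^ 2 + 3 * (inner ℝ u v) ^ 2 / ‖u‖ ^ 2) := by
        gcongr
        positivity

theorem norm_DF_apply_le (q : Fin n → ℝ) (a : Fin n → E) (x v : E) :
    ‖DF q a x v‖ ≤ (∑ l, |q l| * (2 * (‖x - a l‖ ^ 3)⁻¹)) * ‖v‖ := by
  rw [DF, sum_apply, Finset.sum_mul]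
  refine (norm_sum_le _ _).trans (Finset.sum_le_sum fun l _ => ?_)
  rw [smul_apply, norm_smul, Real.norm_eq_abs, mul_assoc]
  exact mul_le_mul_of_nonneg_left (norm_Dg_apply_le _ _) (abs_nonneg _)

end SM992
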