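import Pool.Agent.Work.MP_992d6e_an.SM.Defs
import Pool.Agent.Work.MP_992d6e_an.Final

/-!
MODULE Grad (MP_992d6e_an, smoothed analysis): equilibria in terms of the field.

`PC992.gradient_eq_zero_iff` (Work/MP_992d6e_an/Final.lean) reduces `∇ V x = 0` to `fderiv ℝ V x = 0`;
`PC992.Sard.hasFDerivAt_inv_dist` (Sard.lean) gives the derivative
`Σ_j -(q_j * (‖x - a j‖^3)⁻¹) • innerSL ℝ (x - a j)` of the potential at `x ∉ range a`
(`HasFDerivAt.fun_sum`); it is `-(innerSL ℝ (F q a x))`, and `innerSL ℝ w = 0 ↔ w = 0`.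
-/

set_option autoImplicit false

namespace SM992

open N62f3cee0

variable {n : ℕ}

private theorem t1 (q : Fin n → ℝ) (a : Fin n → E) {x : E} (hx : ∀ l, x ≠ a l) :
    HasFDerivAt (potential q a) (-(innerSL ℝ (F q a x))) x := by
  have h1 : ∀ l ∈ (Finset.univ : Finset (Fin n)),
      HasFDerivAt (fun y : E => q l / dist y (a l))
        (-(q l * (‖x - a l‖ ^ 3)⁻¹) • innerSL ℝ (x - a l)) x :=
    fun l _ => PC992.Sard.hasFDerivAt_inv_dist (q l) (hx l)
  have h2 := HasFDerivAt.fun_sum h1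
  have h3 : ∑ l, -(q l * (‖x - a l‖ ^ 3)⁻¹) • innerSL ℝ (x - a l) = -(innerSL ℝ (F q a x)) := by
    rw [F, map_sum, ← Finset.sum_neg_distrib]
    refine Finset.sum_congr rfl fun l _ => ?_
    rw [map_smul, g, map_smul, smul_smul, neg_smul]
  rw [h3] at h2
  exact h2

theorem mem_equilibria_iff (q : Fin n → ℝ) (a : Fin n → E) (x : E) :
    x ∈ equilibria q a ↔ IsEq q a x := by
  have h0 : x ∉ Set.range a ↔ ∀ l, x ≠ a l := by
    simp only [Set.mem_range, not_exists, ne_eq, eq_comm]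
  unfold equilibria IsEq
  rw [Set.mem_setOf_eq, h0]
  refine and_congr_right fun hx => ?_
  rw [PC992.gradient_eq_zero_iff, (t1 q a hx).fderiv, neg_eq_zero]
  constructor
  · intro h
    have h1 : innerSL ℝ (F q a x) (F q a x) = 0 := by
      rw [h]
      rfl
    rwa [innerSL_apply_apply, inner_self_eq_zero] at h1
  · intro h
    rw [h, map_zero]

end SM992
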