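import Mathlib
import Pool.Prelude.Def_F_d420a142

/-!
MP_992d6e_an, smoothed analysis and condition numbers: common definitions.
-/

set_option autoImplicit false

namespace SM992

open MeasureTheory Metric

/-- Euclidean three-space. -/
abbrev E := EuclideanSpace ℝ (Fin 3)

/-- the field of a unit charge at the origin -/
noncomputable def g (u : E) : E := (‖u‖ ^ 3)⁻¹ • u

/-- the derivative of `g` -/
noncomputable def Dg (u : E) : E →L[ℝ] E :=
  (‖u‖ ^ 3)⁻¹ • ContinuousLinearMap.id ℝ E - (3 * (‖u‖ ^ 5)⁻¹) • (innerSL ℝ u).smulRight u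

variable {n : ℕ}

/-- the field of the charges `q` at the points `a` -/
noncomputable def F (q : Fin n → ℝ) (a : Fin n → E) (x : E) : E := ∑ l, q l • g (x - a l)

/-- the derivative of the field -/
noncomputable def DF (q : Fin n → ℝ) (a : Fin n → E) (x : E) : E →L[ℝ] E :=
  ∑ l, q l • Dg (x - a l)

/-- the total strength -/
noncomputable def S (q : Fin n → ℝ) : ℝ := ∑ l, |q l|

/-- the sum of the absolute values of the fields of the charges at `x` -/
noncomputable def M (q : Fin n → ℝ) (a : Fin n → E) (x : E) : ℝ := ∑ l, |q l| / ‖x - a l‖ ^ 2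

/-- the dipole moment -/
noncomputable def dip (q : Fin n → ℝ) (a : Fin n → E) : E := ∑ l, q l • a l

/-- the field of the other charges at the charge `j` -/
noncomputable def Ej (q : Fin n → ℝ) (a : Fin n → E) (j : Fin n) : E :=
  ∑ l ∈ Finset.univ.erase j, q l • g (a j - a l)

/-- the sum of the absolute values of the fields of the other charges at the charge `j` -/
noncomputable def Mj (q : Fin n → ℝ) (a : Fin n → E) (j : Fin n) : ℝ :=
  ∑ l ∈ Finset.univ.erase j, |q l| / ‖a j - a l‖ ^ 2

/-- `x` is an equilibrium -/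
def IsEq (q : Fin n → ℝ) (a : Fin n → E) (x : E) : Prop := (∀ l, x ≠ a l) ∧ F q a x = 0

end SM992
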