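import Pool.Agent.Work.MP_992d6e_an.SM.Defs

/-!
MODULE Fub (MP_992d6e_an, smoothed analysis): product measures by conditioning on one coordinate.

`MeasureTheory.lmarginal`: `∫⁻ f d(pi μ) = (∫⋯∫⁻_univ, f ∂μ) a`, split off `l`
(`lmarginal_insert'`/`lmarginal_erase`, `lmarginal_singleton`), the inner integral over coordinate `l`
is `μ l {z | update a l z ∈ s} ≤ β`, and the outer one is over probability measures.  Or use
`measurePreserving_piFinSuccAbove` and `Measure.prod_apply`.
-/

set_option autoImplicit false

namespace SM992

open MeasureTheory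

theorem pi_le {n : ℕ} (μ : Fin n → Measure E) [∀ j, IsProbabilityMeasure (μ j)] (l : Fin n)
    {s : Set (Fin n → E)} (hs : MeasurableSet s) {β : ENNReal}
    (h : ∀ a : Fin n → E, μ l {z | Function.update a l z ∈ s} ≤ β) :
    Measure.pi μ s ≤ β := by
  classical
  obtain ⟨f, hf⟩ : ∃ f : (Fin n → E) → ENNReal, f = s.indicator 1 := ⟨_, rfl⟩
  have hfm : Measurable f := by
    rw [hf]
    exact measurable_one.indicator hs
  have h0 : Measure.pi μ s = ∫⁻ x, f x ∂Measure.pi μ := by
    rw [hf, lintegral_indicator_one hs]
  have hins : (Finset.univ : Finset (Fin n)) = insert l (Finset.univ.erase l) := by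
    rw [Finset.insert_erase (Finset.mem_univ l)]
  have hin : ∀ x : Fin n → E, ∫⁻ z, f (Function.update x l z) ∂μ l ≤ β := by
    intro x
    have hm : MeasurableSet {z | Function.update x l z ∈ s} :=
      measurable_update x hs
    have h1 : (fun z => f (Function.update x l z)) = {z | Function.update x l z ∈ s}.indicator 1 := by
      funext z
      rw [hf]
      by_cases hz : Function.update x l z ∈ s
      · rw [Set.indicator_of_mem hz, Set.indicator_of_mem (show z ∈ {z | Function.update x l z ∈ s} from hz)]
        rfl
      · rw [Set.indicator_of_notMem hz,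
          Set.indicator_of_notMem (show z ∉ {z | Function.update x l z ∈ s} from hz)]
    rw [h1, lintegral_indicator_one hm]
    exact h x
  rw [h0, lintegral_eq_lmarginal_univ (μ := μ) (f := f) (fun _ => 0), hins,
    lmarginal_insert' f hfm (Finset.notMem_erase l _)]
  refine (lmarginal_mono (g := fun _ => β) (fun x => hin x) _).trans ?_
  rw [lmarginal, lintegral_const, measure_univ, mul_one]

end SM992
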