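import Pool.Agent.Work.MP_992d6e_an.SM.IllA

/-!
MODULE IllV (MP_992d6e_an, smoothed analysis): few positions of the charge `l` have an ill-conditioned
equilibrium in the middle region.

Let `β = 2 τ (R+1)^9/(η^3 ρ₀^6)` and `s = {x ∈ closedBall 0 R | DifferentiableAt ℝ (Am q a l) x ∧
|(fderiv ℝ (Am q a l) x).det| ≤ β}`, a measurable set (`measurableSet_of_differentiableAt`,
`measurable_fderiv`, `ContinuousLinearMap.continuous_det`).  The set is contained in `Am q a l '' s` by
`am_eq`, `am_det_le`, and `addHaar_image_le_lintegral_abs_det_fderiv` gives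
`volume (Am '' s) ≤ ∫⁻ x in s, ofReal |det| ≤ ofReal β * volume (closedBall 0 R)
 = ofReal β * (ofReal R)^3 * ofReal (π * 4/3) ≤ ofReal (5 β R^3)`
(`EuclideanSpace.volume_closedBall_fin_three`, `π * 4/3 < 5`, as `π < 3.15`).
-/

set_option autoImplicit false

namespace SM992

open MeasureTheory

variable {n : ℕ}

/-- positions `z` of the charge `l` for which there is an equilibrium with a small singular value -/
def Ill (q : Fin n → ℝ) (a : Fin n → E) (l : Fin n) (ρ₀ R τ : ℝ) : Set E :=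
  {z | ‖z‖ ≤ 1 ∧ ∃ x, ‖x‖ ≤ R ∧ (∀ i, ρ₀ ≤ ‖x - Function.update a l z i‖) ∧
    F q (Function.update a l z) x = 0 ∧ ∃ v, ‖v‖ = 1 ∧
      ‖DF q (Function.update a l z) x v‖ ≤ τ * S q}

theorem ill_vol (q : Fin n → ℝ) (a : Fin n → E) (l : Fin n) {ρ₀ R τ η : ℝ}
    (hq : q l ≠ 0) (hρ : 0 < ρ₀) (hR : 1 ≤ R) (hτ : 0 ≤ τ) (hη : 0 < η) (hηl : η * S q ≤ |q l|) :
    volume (Ill q a l ρ₀ R τ) ≤ ENNReal.ofReal (10 * τ * (R + 1) ^ 12 / (η ^ 3 * ρ₀ ^ 6)) := by
  obtain ⟨β, hβ⟩ : ∃ β : ℝ, β = 2 * τ * (R + 1) ^ 9 / (η ^ 3 * ρ₀ ^ 6) := ⟨_, rfl⟩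
  have hβ0 : 0 ≤ β := by
    rw [hβ]
    positivity
  obtain ⟨s, hs⟩ : ∃ s : Set E, s = {x | x ∈ Metric.closedBall (0 : E) R ∧
    DifferentiableAt ℝ (Am q a l) x ∧ |(fderiv ℝ (Am q a l) x).det| ≤ β} := ⟨_, rfl⟩
  have hmeas : MeasurableSet s := by
    have h1 : MeasurableSet {x : E | DifferentiableAt ℝ (Am q a l) x} :=
      measurableSet_of_differentiableAt ℝ (Am q a l)
    have h2 : Measurable fun x : E => |(fderiv ℝ (Am q a l) x).det| :=
      (ContinuousLinearMap.continuous_det.measurable.comp (measurable_fderiv ℝ (Am q a l))).abs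
    have h3 : MeasurableSet {x : E | |(fderiv ℝ (Am q a l) x).det| ≤ β} :=
      measurableSet_le h2 measurable_const
    rw [hs]
    exact Metric.isClosed_closedBall.measurableSet.inter (h1.inter h3)
  have hsub : Ill q a l ρ₀ R τ ⊆ Am q a l '' s := by
    rintro z ⟨hz1, x, hxR, hx, hF, hv⟩
    have hxz : ρ₀ ≤ ‖x - z‖ := by
      have := hx l
      rwa [Function.update_self] at this
    have hxi : ∀ i, i ≠ l → ρ₀ ≤ ‖x - a i‖ := by
      intro i hi
      have := hx i
      rwa [Function.update_of_ne hi] at this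
    have hne : x ≠ z := by
      rintro rfl
      rw [sub_self, norm_zero] at hxz
      linarith
    obtain ⟨hd, hdet⟩ := am_det_le q a l hq hρ hτ hη hηl hxi hxz hxR hz1 hF hv
    refine ⟨x, ?_, am_eq q a l hq hne hF⟩
    rw [hs]
    refine ⟨?_, hd, ?_⟩
    · rw [mem_closedBall_zero_iff]
      exact hxR
    · rw [hβ]
      exact hdet
  have h1 : volume (Am q a l '' s) ≤ ∫⁻ x in s, ENNReal.ofReal |(fderiv ℝ (Am q a l) x).det| := by
    refine addHaar_image_le_lintegral_abs_det_fderiv volume hmeas ?_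
    intro x hx
    rw [hs] at hx
    exact hx.2.1.hasFDerivAt.hasFDerivWithinAt
  have h2 : ∫⁻ x in s, ENNReal.ofReal |(fderiv ℝ (Am q a l) x).det| ≤
      ENNReal.ofReal β * volume s := by
    rw [← setLIntegral_const]
    refine setLIntegral_mono measurable_const ?_
    intro x hx
    rw [hs] at hx
    exact ENNReal.ofReal_le_ofReal hx.2.2
  have h3 : volume s ≤ volume (Metric.closedBall (0 : E) R) := by
    refine measure_mono ?_
    intro x hx
    rw [hs] at hx
    exact hx.1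
  refine (measure_mono hsub).trans (h1.trans (h2.trans ?_))
  calc ENNReal.ofReal β * volume s ≤ ENNReal.ofReal β * volume (Metric.closedBall (0 : E) R) := by
        gcongr
    _ = ENNReal.ofReal (β * (R ^ 3 * (Real.pi * 4 / 3))) := by
        rw [EuclideanSpace.volume_closedBall_fin_three, ← ENNReal.ofReal_pow (by linarith),
          ← ENNReal.ofReal_mul (by positivity), ← ENNReal.ofReal_mul hβ0]
    _ ≤ ENNReal.ofReal (10 * τ * (R + 1) ^ 12 / (η ^ 3 * ρ₀ ^ 6)) := by
        refine ENNReal.ofReal_le_ofReal ?_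
        have hpi : Real.pi * 4 / 3 ≤ 5 := by
          have := Real.pi_lt_d2
          linarith
        have hR3 : R ^ 3 ≤ (R + 1) ^ 3 := pow_le_pow_left₀ (by linarith) (by linarith) 3
        calc β * (R ^ 3 * (Real.pi * 4 / 3)) ≤ β * ((R + 1) ^ 3 * 5) := by
              refine mul_le_mul_of_nonneg_left ?_ hβ0
              exact mul_le_mul hR3 hpi (by positivity) (by positivity)
          _ = 10 * τ * (R + 1) ^ 12 / (η ^ 3 * ρ₀ ^ 6) := by
              rw [hβ]
              ring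

end SM992
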