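import Pool.Agent.Work.MP_992d6e_an.SM.Der

/-!
MODULE Meas (MP_992d6e_an, smoothed analysis): measurability of the bad sets in the space of
configurations.

`ill_closed`: the set is the image under the first projection of the compact set of all `(a, x, v)` with
`‖a i‖ ≤ 1`, `‖x‖ ≤ R`, `‖v‖ = 1`, `ρ₀ ≤ ‖x - a i‖`, `F q a x = 0`, `‖DF q a x v‖ ≤ τ S`: bounded, and closed because
`(a, x) ↦ F q a x` and `(a, x, v) ↦ DF q a x v` are continuous on the closed set `{ρ₀ ≤ ‖x - a i‖ ∀ i}`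
(`ContinuousOn.preimage_isClosed_of_isClosed`).  Hence it is compact, so closed and measurable.
`meas_ej`, `meas_dip`: `g` is measurable (`norm`, `smul`), so both sides of the strict inequalities are
measurable functions of `a` (`measurableSet_lt`).
-/

set_option autoImplicit false

namespace SM992

variable {n : ℕ}

/-- configurations in the unit ball with an ill-conditioned equilibrium -/
def IllC (q : Fin n → ℝ) (ρ₀ R τ : ℝ) : Set (Fin n → E) :=
  {a | (∀ i, ‖a i‖ ≤ 1) ∧ ∃ x, ‖x‖ ≤ R ∧ (∀ i, ρ₀ ≤ ‖x - a i‖) ∧ F q a x = 0 ∧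
    ∃ v, ‖v‖ = 1 ∧ ‖DF q a x v‖ ≤ τ * S q}

private abbrev T (n : ℕ) : Type := (Fin n → E) × E × E

private def D (n : ℕ) (ρ₀ : ℝ) : Set (T n) := {p | ∀ i, ρ₀ ≤ ‖p.2.1 - p.1 i‖}

private theorem closed_D (ρ₀ : ℝ) : IsClosed (D n ρ₀) := by
  have h : D n ρ₀ = ⋂ i, {p : T n | ρ₀ ≤ ‖p.2.1 - p.1 i‖} := by
    ext p
    simp [D]
  rw [h]
  refine isClosed_iInter fun i => isClosed_le continuous_const ?_
  fun_prop

private theorem cont_F (q : Fin n → ℝ) {ρ₀ : ℝ} (hρ : 0 < ρ₀) :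
    ContinuousOn (fun p : T n => F q p.1 p.2.1) (D n ρ₀) := by
  unfold F g
  refine continuousOn_finsetSum _ fun l _ => ?_
  have h0 : ∀ p ∈ D n ρ₀, ‖p.2.1 - p.1 l‖ ^ 3 ≠ 0 := by
    intro p hp
    have h : ρ₀ ≤ ‖p.2.1 - p.1 l‖ := hp l
    exact pow_ne_zero 3 (by linarith)
  have h1 : ContinuousOn (fun p : T n => ‖p.2.1 - p.1 l‖ ^ 3) (D n ρ₀) := by fun_prop
  have h2 : ContinuousOn (fun p : T n => p.2.1 - p.1 l) (D n ρ₀) := by fun_prop
  exact ((h1.inv₀ h0).smul h2).const_smul (q l)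

private theorem cont_DF (q : Fin n → ℝ) {ρ₀ : ℝ} (hρ : 0 < ρ₀) :
    ContinuousOn (fun p : T n => ‖DF q p.1 p.2.1 p.2.2‖) (D n ρ₀) := by
  refine ContinuousOn.norm ?_
  have h : (fun p : T n => DF q p.1 p.2.1 p.2.2) = fun p : T n => ∑ l, q l •
      ((‖p.2.1 - p.1 l‖ ^ 3)⁻¹ • p.2.2 -
        (3 * (‖p.2.1 - p.1 l‖ ^ 5)⁻¹ * inner ℝ (p.2.1 - p.1 l) p.2.2) • (p.2.1 - p.1 l)) := by
    funext p
    unfold DF
    simp only [sum_apply, smul_apply, Dg_apply]
  rw [h]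
  refine continuousOn_finsetSum _ fun l _ => ?_
  have h0 : ∀ p ∈ D n ρ₀, ‖p.2.1 - p.1 l‖ ≠ 0 := by
    intro p hp
    have h : ρ₀ ≤ ‖p.2.1 - p.1 l‖ := hp l
    linarith
  have h1 : ContinuousOn (fun p : T n => ‖p.2.1 - p.1 l‖ ^ 3) (D n ρ₀) := by fun_prop
  have h2 : ContinuousOn (fun p : T n => p.2.1 - p.1 l) (D n ρ₀) := by fun_prop
  have h3 : ContinuousOn (fun p : T n => ‖p.2.1 - p.1 l‖ ^ 5) (D n ρ₀) := by fun_prop
  have h4 : ContinuousOn (fun p : T n => p.2.2) (D n ρ₀) := by fun_prop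
  have h5 : ContinuousOn (fun p : T n => inner ℝ (p.2.1 - p.1 l) p.2.2) (D n ρ₀) :=
    h2.inner h4
  have h6 : ContinuousOn (fun p : T n => 3 * (‖p.2.1 - p.1 l‖ ^ 5)⁻¹) (D n ρ₀) :=
    continuousOn_const.mul (h3.inv₀ fun p hp => pow_ne_zero 5 (h0 p hp))
  exact (((h1.inv₀ fun p hp => pow_ne_zero 3 (h0 p hp)).smul h4).sub
    ((h6.mul h5).smul h2)).const_smul (q l)

theorem measurable_ill (q : Fin n → ℝ) {ρ₀ R τ : ℝ} (hρ : 0 < ρ₀) :
    MeasurableSet (IllC q ρ₀ R τ) := by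
  refine IsClosed.measurableSet (IsCompact.isClosed ?_)
  obtain ⟨B, hB⟩ : ∃ B : Set (T n), B = (Set.pi Set.univ fun _ => Metric.closedBall (0 : E) 1) ×ˢ
    (Metric.closedBall (0 : E) R ×ˢ Metric.closedBall (0 : E) 1) := ⟨_, rfl⟩
  have hBc : IsCompact B := by
    rw [hB]
    exact (isCompact_univ_pi fun _ => isCompact_closedBall _ _).prod
      ((isCompact_closedBall _ _).prod (isCompact_closedBall _ _))
  have h1 : IsClosed (D n ρ₀ ∩ (fun p : T n => F q p.1 p.2.1) ⁻¹' {0}) :=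
    (cont_F q hρ).preimage_isClosed_of_isClosed (closed_D ρ₀) isClosed_singleton
  have h2 : IsClosed (D n ρ₀ ∩ (fun p : T n => ‖DF q p.1 p.2.1 p.2.2‖) ⁻¹' Set.Iic (τ * S q)) :=
    (cont_DF q hρ).preimage_isClosed_of_isClosed (closed_D ρ₀) isClosed_Iic
  have h3 : IsClosed {p : T n | ‖p.2.2‖ = 1} :=
    isClosed_eq (by fun_prop) continuous_const
  have hK : IsCompact (B ∩ ((D n ρ₀ ∩ (fun p : T n => F q p.1 p.2.1) ⁻¹' {0}) ∩
      (D n ρ₀ ∩ (fun p : T n => ‖DF q p.1 p.2.1 p.2.2‖) ⁻¹' Set.Iic (τ * S q)) ∩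
      {p : T n | ‖p.2.2‖ = 1})) :=
    hBc.inter_right ((h1.inter h2).inter h3)
  have hI : IllC q ρ₀ R τ = Prod.fst '' (B ∩ ((D n ρ₀ ∩ (fun p : T n => F q p.1 p.2.1) ⁻¹' {0}) ∩
      (D n ρ₀ ∩ (fun p : T n => ‖DF q p.1 p.2.1 p.2.2‖) ⁻¹' Set.Iic (τ * S q)) ∩
      {p : T n | ‖p.2.2‖ = 1})) := by
    ext a
    constructor
    · rintro ⟨ha, x, hx, hd, hF, v, hv, hD⟩
      refine ⟨(a, x, v), ⟨?_, ⟨⟨hd, hF⟩, ⟨hd, hD⟩⟩, hv⟩, rfl⟩
      rw [hB]
      refine ⟨?_, ?_, ?_⟩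
      · intro i _
        rw [mem_closedBall_zero_iff]
        exact ha i
      · rw [mem_closedBall_zero_iff]
        exact hx
      · rw [mem_closedBall_zero_iff]
        exact hv.le
    · rintro ⟨⟨a', x, v⟩, ⟨hb, ⟨⟨hd, hF⟩, ⟨_, hD⟩⟩, hv⟩, rfl⟩
      rw [hB] at hb
      refine ⟨?_, x, ?_, hd, hF, v, hv, hD⟩
      · intro i
        have := hb.1 i (Set.mem_univ i)
        rwa [mem_closedBall_zero_iff] at this
      · have := hb.2.1
        rwa [mem_closedBall_zero_iff] at this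
  rw [hI]
  exact hK.image continuous_fst

private theorem meas_g : Measurable g := by
  unfold g
  fun_prop

theorem measurable_ej (q : Fin n → ℝ) (j : Fin n) (d κ : ℝ) :
    MeasurableSet {a : Fin n → E | (∀ i, ‖a i‖ ≤ 1) ∧ (∀ i, i ≠ j → d ≤ ‖a j - a i‖) ∧
      ‖Ej q a j‖ < κ * Mj q a j} := by
  have h1 : MeasurableSet {a : Fin n → E | ∀ i, ‖a i‖ ≤ 1} := by
    have h : {a : Fin n → E | ∀ i, ‖a i‖ ≤ 1} = ⋂ i, {a : Fin n → E | ‖a i‖ ≤ 1} := by
      ext a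
      simp
    rw [h]
    refine MeasurableSet.iInter fun i => ?_
    exact measurableSet_le (by fun_prop) measurable_const
  have h2 : MeasurableSet {a : Fin n → E | ∀ i, i ≠ j → d ≤ ‖a j - a i‖} := by
    have h : {a : Fin n → E | ∀ i, i ≠ j → d ≤ ‖a j - a i‖} =
        ⋂ i, {a : Fin n → E | i ≠ j → d ≤ ‖a j - a i‖} := by
      ext a
      simp
    rw [h]
    refine MeasurableSet.iInter fun i => ?_
    by_cases hi : i = j
    · have h' : {a : Fin n → E | i ≠ j → d ≤ ‖a j - a i‖} = Set.univ := by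
        ext a
        simp [hi]
      rw [h']
      exact MeasurableSet.univ
    · have h' : {a : Fin n → E | i ≠ j → d ≤ ‖a j - a i‖} = {a | d ≤ ‖a j - a i‖} := by
        ext a
        simp [hi]
      rw [h']
      exact measurableSet_le measurable_const (by fun_prop)
  have h3 : MeasurableSet {a : Fin n → E | ‖Ej q a j‖ < κ * Mj q a j} := by
    refine measurableSet_lt ?_ ?_
    · unfold Ej
      refine Measurable.norm (Finset.measurable_sum _ fun l _ => ?_)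
      exact (meas_g.comp (by fun_prop : Measurable fun a : Fin n → E => a j - a l)).const_smul (q l)
    · unfold Mj
      refine Measurable.const_mul (Finset.measurable_sum _ fun l _ => ?_) κ
      fun_prop
  exact h1.inter (h2.inter h3)

theorem measurable_dip (q : Fin n → ℝ) (κ : ℝ) :
    MeasurableSet {a : Fin n → E | (∀ i, ‖a i‖ ≤ 1) ∧ ‖dip q a‖ < κ * S q} := by
  have h1 : MeasurableSet {a : Fin n → E | ∀ i, ‖a i‖ ≤ 1} := by
    have h : {a : Fin n → E | ∀ i, ‖a i‖ ≤ 1} = ⋂ i, {a : Fin n → E | ‖a i‖ ≤ 1} := by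
      ext a
      simp
    rw [h]
    refine MeasurableSet.iInter fun i => ?_
    exact measurableSet_le (by fun_prop) measurable_const
  have h2 : MeasurableSet {a : Fin n → E | ‖dip q a‖ < κ * S q} := by
    refine measurableSet_lt ?_ measurable_const
    unfold dip
    fun_prop
  exact h1.inter h2

end SM992
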