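import Pool.Agent.Work.MP_992d6e_an.SM.InvL

/-!
MODULE Vol (MP_992d6e_an, smoothed analysis): positions of the charge `l` with a small field at another
charge, or with a small dipole moment.

`ej_ball`: if the set is empty any `c` works; otherwise take `c` in it.  For `z, z'` in the set
`Mj ≤ S/d^2`, so `‖Ej(z) - Ej(z')‖ = |q_l| ‖g (a_j - z) - g (a_j - z')‖ ≤ 2 κ S/d^2`, hence
`‖g (a_j - z) - g (a_j - z')‖ ≤ 2κ/(d^2 η)` and `inv_lip` with `r = 2` gives `‖z - z'‖ ≤ 16 κ/(d^2 η)`
(`a_j - z ≠ 0` since `d > 0`).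
`dip_ball`: `‖q_l (z - z')‖ ≤ 2 κ S`.
-/

set_option autoImplicit false

namespace SM992

variable {n : ℕ}

private theorem v0 (q : Fin n → ℝ) : 0 ≤ S q := Finset.sum_nonneg fun _ _ => abs_nonneg _

theorem ej_ball (q : Fin n → ℝ) (a : Fin n → E) (l j : Fin n) (hj : j ≠ l) {d κ η : ℝ}
    (hq : q l ≠ 0) (hd : 0 < d) (hκ : 0 ≤ κ) (hη : 0 < η) (hηl : η * S q ≤ |q l|) (ha : ‖a j‖ ≤ 1) :
    ∃ c : E, {z : E | ‖z‖ ≤ 1 ∧
      (∀ i, i ≠ j → d ≤ ‖Function.update a l z j - Function.update a l z i‖) ∧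
      ‖Ej q (Function.update a l z) j‖ < κ * Mj q (Function.update a l z) j} ⊆
      Metric.closedBall c (16 * κ / (d ^ 2 * η)) := by
  classical
  set A := {z : E | ‖z‖ ≤ 1 ∧
      (∀ i, i ≠ j → d ≤ ‖Function.update a l z j - Function.update a l z i‖) ∧
      ‖Ej q (Function.update a l z) j‖ < κ * Mj q (Function.update a l z) j} with hA
  rcases A.eq_empty_or_nonempty with h | ⟨c, hc⟩
  · exact ⟨0, by rw [h]; exact Set.empty_subset _⟩
  refine ⟨c, fun z hz => ?_⟩
  rw [Metric.mem_closedBall, dist_eq_norm]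
  have hM : ∀ w : E, (∀ i, i ≠ j → d ≤ ‖Function.update a l w j - Function.update a l w i‖) →
      Mj q (Function.update a l w) j ≤ S q / d ^ 2 := by
    intro w hw
    unfold Mj S
    rw [Finset.sum_div]
    refine (Finset.sum_le_sum fun i hi => ?_).trans
      (Finset.sum_le_sum_of_subset_of_nonneg (Finset.erase_subset _ _) fun i _ _ => by positivity)
    have h1 := hw i (Finset.ne_of_mem_erase hi)
    exact div_le_div_of_nonneg_left (abs_nonneg _) (by positivity) (pow_le_pow_left₀ hd.le h1 2)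
  have hE : Ej q (Function.update a l z) j - Ej q (Function.update a l c) j =
      q l • (g (a j - z) - g (a j - c)) := by
    unfold Ej
    rw [← Finset.sum_sub_distrib]
    rw [Finset.sum_eq_single l]
    · rw [Function.update_of_ne hj, Function.update_of_ne hj, Function.update_self,
        Function.update_self, smul_sub]
    · intro i _ hil
      rw [Function.update_of_ne hj, Function.update_of_ne hj, Function.update_of_ne hil,
        Function.update_of_ne hil, sub_self]
    · intro h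
      exact absurd (Finset.mem_erase.2 ⟨hj.symm, Finset.mem_univ _⟩) h
  have h1 : ‖q l • (g (a j - z) - g (a j - c))‖ ≤ 2 * κ * (S q / d ^ 2) := by
    rw [← hE]
    refine (norm_sub_le _ _).trans ?_
    have h2 := hz.2.2.le
    have h3 := hc.2.2.le
    have h4 := mul_le_mul_of_nonneg_left (hM z hz.2.1) hκ
    have h5 := mul_le_mul_of_nonneg_left (hM c hc.2.1) hκ
    linarith
  rw [norm_smul, Real.norm_eq_abs] at h1
  have hql : 0 < |q l| := abs_pos.2 hq
  have h2 : ‖g (a j - z) - g (a j - c)‖ ≤ 2 * κ / (d ^ 2 * η) := by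
    rw [le_div_iff₀ (by positivity)]
    have h3 : |q l| * (‖g (a j - z) - g (a j - c)‖ * (d ^ 2 * η)) ≤ |q l| * (2 * κ) := by
      have h4 : 2 * κ * (S q / d ^ 2) * (d ^ 2 * η) = 2 * κ * (η * S q) := by
        field_simp
      have h5 : |q l| * ‖g (a j - z) - g (a j - c)‖ * (d ^ 2 * η) ≤
          2 * κ * (S q / d ^ 2) * (d ^ 2 * η) := mul_le_mul_of_nonneg_right h1 (by positivity)
      have h6 : 2 * κ * (η * S q) ≤ 2 * κ * |q l| := mul_le_mul_of_nonneg_left hηl (by positivity)
      calc |q l| * (‖g (a j - z) - g (a j - c)‖ * (d ^ 2 * η)) =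
          |q l| * ‖g (a j - z) - g (a j - c)‖ * (d ^ 2 * η) := by ring
        _ ≤ 2 * κ * |q l| := by linarith
        _ = |q l| * (2 * κ) := by ring
    exact le_of_mul_le_mul_left h3 hql
  have hne : ∀ w : E, w ∈ A → a j - w ≠ 0 := by
    intro w hw h0
    have h3 := hw.2.1 l hj.symm
    rw [Function.update_of_ne hj, Function.update_self, h0, norm_zero] at h3
    linarith
  have hr : ∀ w : E, w ∈ A → ‖a j - w‖ ≤ 2 := by
    intro w hw
    have := norm_sub_le (a j) w
    linarith [hw.1]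
  have h3 := inv_lip (hne c hc) (hne z hz) (hr c hc) (hr z hz)
  have h4 : z - c = (a j - c) - (a j - z) := by abel
  rw [h4]
  refine h3.trans ?_
  rw [norm_sub_rev]
  have h5 : (2 : ℝ) ^ 3 * ‖g (a j - z) - g (a j - c)‖ ≤ 2 ^ 3 * (2 * κ / (d ^ 2 * η)) :=
    mul_le_mul_of_nonneg_left h2 (by norm_num)
  refine h5.trans (le_of_eq ?_)
  ring

theorem dip_ball (q : Fin n → ℝ) (a : Fin n → E) (l : Fin n) {κ η : ℝ}
    (hq : q l ≠ 0) (hκ : 0 ≤ κ) (hη : 0 < η) (hηl : η * S q ≤ |q l|) :
    ∃ c : E, {z : E | ‖dip q (Function.update a l z)‖ < κ * S q} ⊆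
      Metric.closedBall c (2 * κ / η) := by
  classical
  set A := {z : E | ‖dip q (Function.update a l z)‖ < κ * S q} with hA
  rcases A.eq_empty_or_nonempty with h | ⟨c, hc⟩
  · exact ⟨0, by rw [h]; exact Set.empty_subset _⟩
  refine ⟨c, fun z hz => ?_⟩
  rw [Metric.mem_closedBall, dist_eq_norm]
  have hE : dip q (Function.update a l z) - dip q (Function.update a l c) = q l • (z - c) := by
    unfold dip
    rw [← Finset.sum_sub_distrib, Finset.sum_eq_single l]
    · rw [Function.update_self, Function.update_self, smul_sub]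
    · intro i _ hil
      rw [Function.update_of_ne hil, Function.update_of_ne hil, sub_self]
    · intro h
      exact absurd (Finset.mem_univ _) h
  have h1 : ‖q l • (z - c)‖ ≤ 2 * κ * S q := by
    rw [← hE]
    refine (norm_sub_le _ _).trans ?_
    have h2 : ‖dip q (Function.update a l z)‖ < κ * S q := hz
    have h3 : ‖dip q (Function.update a l c)‖ < κ * S q := hc
    linarith
  rw [norm_smul, Real.norm_eq_abs] at h1
  have hql : 0 < |q l| := abs_pos.2 hq
  rw [le_div_iff₀ hη]
  have h3 : |q l| * (‖z - c‖ * η) ≤ |q l| * (2 * κ) := by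
    have h5 : |q l| * ‖z - c‖ * η ≤ 2 * κ * S q * η := mul_le_mul_of_nonneg_right h1 hη.le
    have h6 : 2 * κ * (η * S q) ≤ 2 * κ * |q l| := mul_le_mul_of_nonneg_left hηl (by positivity)
    calc |q l| * (‖z - c‖ * η) = |q l| * ‖z - c‖ * η := by ring
      _ ≤ 2 * κ * (η * S q) := by linarith
      _ ≤ 2 * κ * |q l| := h6
      _ = |q l| * (2 * κ) := by ring
  exact le_of_mul_le_mul_left h3 hql

end SM992
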