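import Pool.Agent.Work.MP_992d6e_an.SM.Det
import Pool.Agent.Work.MP_992d6e_an.SM.IllV
import Pool.Agent.Work.MP_992d6e_an.SM.Vol
import Pool.Agent.Work.MP_992d6e_an.SM.Fub
import Pool.Agent.Work.MP_992d6e_an.SM.Meas
import Pool.Agent.Work.MP_992d6e_an.SM.Grad

/-!
MODULE All (MP_992d6e_an, smoothed analysis): all charges random.

Let `l` maximise `|q_l|`, so `|q_l| ≥ S/n`.  For `δ ≤ 1/2` with `δ ≤ 1/n` the hypotheses of `det_count` fail for
`a` in the unit ball only if `a` lies in one of the sets (all measurable, each estimated by `pi_le`)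
* `{‖a_i - a_j‖ < δ}`, `i ≠ j` (coordinate `i`): `≤ Λ 5 δ^3`, `n^2` pairs;
* the set of `measurable_ej` (`d = δ`, `κ = δ^4`), `j ≠ l`, coordinate `l`: `ej_ball` with `η = δ`:
  `≤ Λ 5 (16 δ)^3`;
* the set of `measurable_dip` (`κ = δ^2`), coordinate `l`: `≤ Λ 40 δ^3`;
* `IllC q (δ^5/128) (C₀/δ^2) (δ^58)`, coordinate `l`: its section is contained in `Ill`, `ill_vol`.
(For `μ j ≤ ofReal Λ • volume.restrict ..`, `μ j B ≤ Λ volume B`.)  The configurations outside the unit ball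
have measure `0`.  Total `≤ C' n^2 Λ δ`.  Take `δ = exp (-t)/(2 (C'+1) n^2 Λ)`; then
`log (1/δ) = t + log (2 (C'+1) n^2 Λ) ≤ C'' (t + log (2 n Λ))`.
-/

set_option autoImplicit false

namespace SM992

open MeasureTheory N62f3cee0

private theorem vol_ball (c : E) {r : ℝ} (hr : 0 ≤ r) :
    volume (Metric.closedBall c r) ≤ ENNReal.ofReal (5 * r ^ 3) := by
  rw [EuclideanSpace.volume_closedBall_fin_three, ← ENNReal.ofReal_pow hr,
    ← ENNReal.ofReal_mul (by positivity)]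
  refine ENNReal.ofReal_le_ofReal ?_
  have hpi : Real.pi * 4 / 3 ≤ 5 := by
    have := Real.pi_lt_d2
    linarith
  have h := mul_le_mul_of_nonneg_left hpi (pow_nonneg hr 3)
  linarith

private theorem num {C₀ δ : ℝ} (hC : 100 ≤ C₀) (hδ : 0 < δ) (hδ1 : δ ≤ 1 / 2) :
    10 * δ ^ 58 * (C₀ / δ ^ 2 + 1) ^ 12 / (δ ^ 3 * (δ ^ 5 / 128) ^ 6) ≤
      10 * 128 ^ 6 * (2 * C₀) ^ 12 * δ := by
  have h1 : C₀ / δ ^ 2 + 1 ≤ 2 * C₀ / δ ^ 2 := by
    rw [div_add_one (by positivity)]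
    refine div_le_div_of_nonneg_right ?_ (by positivity)
    have : δ ^ 2 ≤ 1 := by nlinarith
    linarith
  have h2 : (C₀ / δ ^ 2 + 1) ^ 12 ≤ (2 * C₀ / δ ^ 2) ^ 12 :=
    pow_le_pow_left₀ (by positivity) h1 12
  calc 10 * δ ^ 58 * (C₀ / δ ^ 2 + 1) ^ 12 / (δ ^ 3 * (δ ^ 5 / 128) ^ 6)
      ≤ 10 * δ ^ 58 * (2 * C₀ / δ ^ 2) ^ 12 / (δ ^ 3 * (δ ^ 5 / 128) ^ 6) := by gcongr
    _ = 10 * 128 ^ 6 * (2 * C₀) ^ 12 * δ := by
        field_simp

variable {n : ℕ}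

private theorem mu_le {μ : Measure E} {Λ : ℝ} (hΛ : 0 ≤ Λ)
    (h : μ ≤ ENNReal.ofReal Λ • volume.restrict (Metric.closedBall 0 1)) {B : Set E} {b : ℝ}
    (hB : volume B ≤ ENNReal.ofReal b) : μ B ≤ ENNReal.ofReal (Λ * b) := by
  refine (h B).trans ?_
  rw [Measure.smul_apply, smul_eq_mul, ENNReal.ofReal_mul hΛ]
  gcongr
  exact (Measure.restrict_apply_le _ _).trans hB

/-- the exceptional set for the norm of coordinate `i` -/
private def Out (n : ℕ) (i : Fin n) : Set (Fin n → E) := {a | 1 < ‖a i‖}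

private def Sep (n : ℕ) (δ : ℝ) (i j : Fin n) : Set (Fin n → E) := {a | ‖a i - a j‖ < δ}

private def EJ (q : Fin n → ℝ) (δ : ℝ) (j : Fin n) : Set (Fin n → E) :=
  {a : Fin n → E | (∀ i, ‖a i‖ ≤ 1) ∧ (∀ i, i ≠ j → δ ≤ ‖a j - a i‖) ∧
      ‖Ej q a j‖ < δ ^ 4 * Mj q a j}

private def Dip (q : Fin n → ℝ) (δ : ℝ) : Set (Fin n → E) :=
  {a : Fin n → E | (∀ i, ‖a i‖ ≤ 1) ∧ ‖dip q a‖ < δ ^ 2 * S q}

section Est

variable {q : Fin n → ℝ} {Λ δ C₀ : ℝ} {μ : Fin n → Measure E} [∀ j, IsProbabilityMeasure (μ j)]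
  {l : Fin n}

private theorem est_out (hμ : ∀ j, μ j ≤ ENNReal.ofReal Λ • volume.restrict (Metric.closedBall 0 1))
    (i : Fin n) : Measure.pi μ (Out n i) = 0 := by
  rw [← nonpos_iff_eq_zero]
  refine pi_le μ i ?_ ?_
  · exact measurableSet_lt measurable_const (by fun_prop)
  · intro a
    refine (hμ i _).trans ?_
    rw [Measure.smul_apply, smul_eq_mul]
    have h : (volume.restrict (Metric.closedBall (0 : E) 1))
        {z : E | Function.update a i z ∈ Out n i} = 0 := by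
      have hs : {z : E | Function.update a i z ∈ Out n i} = (Metric.closedBall (0 : E) 1)ᶜ := by
        ext z
        simp only [Out, Set.mem_ofPred_eq, Function.update_self, Set.mem_compl_iff,
          mem_closedBall_zero_iff, not_le]
      rw [hs, Measure.restrict_apply Metric.isClosed_closedBall.measurableSet.compl,
        Set.compl_inter_self, measure_empty]
    rw [h, mul_zero]

private theorem est_sep (hΛ : 1 ≤ Λ) (hδ : 0 < δ)
    (hμ : ∀ j, μ j ≤ ENNReal.ofReal Λ • volume.restrict (Metric.closedBall 0 1))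
    {i j : Fin n} (hij : i ≠ j) :
    Measure.pi μ (Sep n δ i j) ≤ ENNReal.ofReal (Λ * (5 * δ ^ 3)) := by
  refine pi_le μ i ?_ ?_
  · exact measurableSet_lt (by fun_prop) measurable_const
  · intro a
    refine mu_le (by linarith) (hμ i) ((measure_mono ?_).trans (vol_ball (a j) hδ.le))
    intro z hz
    rw [mem_closedBall_iff_norm]
    have h : ‖Function.update a i z i - Function.update a i z j‖ < δ := hz
    rw [Function.update_self, Function.update_of_ne hij.symm] at h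
    exact h.le

private theorem est_ej (hΛ : 1 ≤ Λ) (hδ : 0 < δ) (hq : q l ≠ 0) (hl : δ * S q ≤ |q l|)
    (hμ : ∀ j, μ j ≤ ENNReal.ofReal Λ • volume.restrict (Metric.closedBall 0 1))
    {j : Fin n} (hj : j ≠ l) :
    Measure.pi μ (EJ q δ j) ≤ ENNReal.ofReal (Λ * (5 * (16 * δ) ^ 3)) := by
  refine pi_le μ l (measurable_ej q j δ (δ ^ 4)) ?_
  intro a
  refine mu_le (by linarith) (hμ l) ?_
  by_cases ha : ‖a j‖ ≤ 1
  · obtain ⟨c, hc⟩ := ej_ball q a l j hj hq hδ (by positivity : 0 ≤ δ ^ 4) hδ hl ha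
    have hr : 16 * δ ^ 4 / (δ ^ 2 * δ) = 16 * δ := by field_simp
    rw [hr] at hc
    refine (measure_mono ?_).trans (vol_ball c (by positivity))
    refine Set.Subset.trans ?_ hc
    rintro z ⟨h1, h2, h3⟩
    have := h1 l
    rw [Function.update_self] at this
    exact ⟨this, h2, h3⟩
  · have h : {z | Function.update a l z ∈ EJ q δ j} = ∅ := by
      rw [Set.eq_empty_iff_forall_notMem]
      rintro z ⟨h1, -⟩
      have := h1 j
      rw [Function.update_of_ne hj] at this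
      exact ha this
    have h' : volume {z | Function.update a l z ∈ EJ q δ j} = 0 := by
      rw [h, measure_empty]
    exact (le_of_eq h').trans zero_le

private theorem est_dip (hΛ : 1 ≤ Λ) (hδ : 0 < δ) (hq : q l ≠ 0) (hl : δ * S q ≤ |q l|)
    (hμ : ∀ j, μ j ≤ ENNReal.ofReal Λ • volume.restrict (Metric.closedBall 0 1)) :
    Measure.pi μ (Dip q δ) ≤ ENNReal.ofReal (Λ * (5 * (2 * δ) ^ 3)) := by
  refine pi_le μ l (measurable_dip q (δ ^ 2)) ?_
  intro a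
  refine mu_le (by linarith) (hμ l) ?_
  obtain ⟨c, hc⟩ := dip_ball q a l hq (by positivity : 0 ≤ δ ^ 2) hδ hl
  have hr : 2 * δ ^ 2 / δ = 2 * δ := by field_simp
  rw [hr] at hc
  refine (measure_mono ?_).trans (vol_ball c (by positivity))
  exact Set.Subset.trans (fun z hz => hz.2) hc

private theorem est_ill (hC : 100 ≤ C₀) (hΛ : 1 ≤ Λ) (hδ : 0 < δ) (hδ1 : δ ≤ 1 / 2) (hq : q l ≠ 0)
    (hl : δ * S q ≤ |q l|)
    (hμ : ∀ j, μ j ≤ ENNReal.ofReal Λ • volume.restrict (Metric.closedBall 0 1)) :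
    Measure.pi μ (IllC q (δ ^ 5 / 128) (C₀ / δ ^ 2) (δ ^ 58)) ≤
      ENNReal.ofReal (Λ * (10 * 128 ^ 6 * (2 * C₀) ^ 12 * δ)) := by
  refine pi_le μ l (measurable_ill q (by positivity)) ?_
  intro a
  refine mu_le (by linarith) (hμ l) ?_
  have hR : 1 ≤ C₀ / δ ^ 2 := by
    rw [le_div_iff₀ (by positivity)]
    nlinarith
  have v4 := ill_vol q a l hq (by positivity : 0 < δ ^ 5 / 128) hR
    (by positivity : 0 ≤ δ ^ 58) hδ hl
  refine (measure_mono ?_).trans (v4.trans (ENNReal.ofReal_le_ofReal (num hC hδ hδ1)))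
  rintro z ⟨h1, h2⟩
  have := h1 l
  rw [Function.update_self] at this
  exact ⟨this, h2⟩

end Est

private theorem exists_max (hn : 1 ≤ n) (q : Fin n → ℝ) : ∃ l, S q ≤ n * |q l| := by
  obtain ⟨l, -, hl⟩ := Finset.exists_max_image (Finset.univ : Finset (Fin n)) (fun i => |q i|)
    ⟨⟨0, hn⟩, Finset.mem_univ _⟩
  refine ⟨l, ?_⟩
  unfold S
  refine (Finset.sum_le_card_nsmul _ _ _ hl).trans (le_of_eq ?_)
  rw [Finset.card_univ, Fintype.card_fin, nsmul_eq_mul]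

/-- the measure of the bad configurations for a given `δ` -/
private theorem bad_le : ∃ C' : ℝ, 0 < C' ∧ ∃ C₁ : ℝ, 0 < C₁ ∧
    ∀ (n : ℕ) (q : Fin n → ℝ) (Λ δ : ℝ) (μ : Fin n → Measure E),
    1 ≤ n → (∀ j, q j ≠ 0) → 1 ≤ Λ → (∀ j, IsProbabilityMeasure (μ j)) →
    (∀ j, μ j ≤ ENNReal.ofReal Λ • volume.restrict (Metric.closedBall 0 1)) → 0 < δ →
    δ ≤ 1 / 2 → δ * n ≤ 1 →
    Measure.pi μ {a : Fin n → E | ¬ ((equilibria q a).Finite ∧
      ((equilibria q a).ncard : ℝ) ≤ C₁ * n * Real.log (1 / δ) ^ 4)} ≤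
      ENNReal.ofReal (C' * n ^ 2 * Λ * δ) := by
  obtain ⟨C₀, hC₀, C₁, hC₁, hdet⟩ := det_count
  refine ⟨20525 + 10 * 128 ^ 6 * (2 * C₀) ^ 12, by positivity, C₁, hC₁, ?_⟩
  intro n q Λ δ μ hn hq hΛ hprob hμ hδ hδ1 hδn
  obtain ⟨l, hl⟩ := exists_max hn q
  have hS0 : 0 ≤ S q := Finset.sum_nonneg fun _ _ => abs_nonneg _
  have hnR : (1 : ℝ) ≤ n := by exact_mod_cast hn
  have hδS : δ * S q ≤ |q l| := by
    calc δ * S q ≤ δ * (n * |q l|) := by gcongr
      _ = (δ * n) * |q l| := by ring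
      _ ≤ 1 * |q l| := by gcongr
      _ = |q l| := one_mul _
  have hsub : {a : Fin n → E | ¬ ((equilibria q a).Finite ∧
      ((equilibria q a).ncard : ℝ) ≤ C₁ * n * Real.log (1 / δ) ^ 4)} ⊆
      (⋃ i ∈ (Finset.univ : Finset (Fin n)), Out n i) ∪
      ((⋃ p ∈ (Finset.univ : Finset (Fin n × Fin n)).filter (fun p => p.1 ≠ p.2),
        Sep n δ p.1 p.2) ∪
      ((⋃ j ∈ (Finset.univ : Finset (Fin n)).erase l, EJ q δ j) ∪
      (Dip q δ ∪ IllC q (δ ^ 5 / 128) (C₀ / δ ^ 2) (δ ^ 58)))) := by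
    intro a ha
    by_contra hcon
    simp only [Set.mem_union, not_or] at hcon
    obtain ⟨h0, h1, h2, h3, h4⟩ := hcon
    have hnorm : ∀ i, ‖a i‖ ≤ 1 := by
      intro i
      by_contra hlt
      refine h0 ?_
      rw [Set.mem_iUnion₂]
      exact ⟨i, Finset.mem_univ i, not_le.1 hlt⟩
    have hsep : ∀ i j, i ≠ j → δ ≤ ‖a i - a j‖ := by
      intro i j hij
      by_contra hlt
      refine h1 ?_
      rw [Set.mem_iUnion₂]
      exact ⟨(i, j), Finset.mem_filter.2 ⟨Finset.mem_univ _, hij⟩, not_le.1 hlt⟩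
    have hE : ∀ j, j ≠ l → δ ^ 4 * Mj q a j ≤ ‖Ej q a j‖ := by
      intro j hj
      by_contra hlt
      refine h2 ?_
      rw [Set.mem_iUnion₂]
      exact ⟨j, Finset.mem_erase.2 ⟨hj, Finset.mem_univ j⟩, hnorm,
        fun i hi => hsep j i hi.symm, not_le.1 hlt⟩
    have hdip : δ ^ 2 * S q ≤ ‖dip q a‖ := by
      by_contra hlt
      exact h3 ⟨hnorm, not_le.1 hlt⟩
    have hill : ∀ x, ‖x‖ ≤ C₀ / δ ^ 2 → (∀ j, δ ^ 5 / 128 ≤ ‖x - a j‖) →
        F q a x = 0 → ∀ v, δ ^ 58 * S q * ‖v‖ ≤ ‖DF q a x v‖ := by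
      intro x hx hxj hF v
      by_contra hlt
      rw [not_le] at hlt
      have hv0 : 0 < ‖v‖ := by
        rcases (norm_nonneg v).eq_or_lt with h | h
        · rw [← h, mul_zero] at hlt
          exact absurd hlt (not_lt.2 (norm_nonneg _))
        · exact h
      refine h4 ⟨hnorm, x, hx, hxj, hF, ‖v‖⁻¹ • v, ?_, ?_⟩
      · rw [norm_smul, norm_inv, norm_norm, inv_mul_cancel₀ hv0.ne']
      · rw [map_smul, norm_smul, norm_inv, norm_norm, inv_mul_le_iff₀ hv0]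
        linarith
    obtain ⟨hfin, hcard⟩ := hdet n q a l δ hq hnorm hδ hδ1 hδS hsep hE hdip hill
    have heq : equilibria q a = {x | IsEq q a x} := by
      ext x
      exact mem_equilibria_iff q a x
    refine ha ?_
    rw [heq]
    exact ⟨hfin, hcard⟩
  refine (measure_mono hsub).trans ?_
  have v0 : Measure.pi μ (⋃ i ∈ (Finset.univ : Finset (Fin n)), Out n i) = 0 := by
    rw [← nonpos_iff_eq_zero]
    refine (measure_biUnion_finset_le _ _).trans (le_of_eq ?_)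
    exact Finset.sum_eq_zero fun i _ => est_out hμ i
  have v1 : Measure.pi μ (⋃ p ∈ (Finset.univ : Finset (Fin n × Fin n)).filter
      (fun p => p.1 ≠ p.2), Sep n δ p.1 p.2) ≤ ENNReal.ofReal (n ^ 2 * (Λ * (5 * δ ^ 3))) := by
    refine (measure_biUnion_finset_le _ _).trans ?_
    refine (Finset.sum_le_sum fun p hp => est_sep hΛ hδ hμ (Finset.mem_filter.1 hp).2).trans ?_
    rw [Finset.sum_const, nsmul_eq_mul, ENNReal.ofReal_mul (by positivity : (0 : ℝ) ≤ (n : ℝ) ^ 2)]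
    refine mul_le_mul' ?_ le_rfl
    rw [← Nat.cast_pow, ENNReal.ofReal_natCast, Nat.cast_le]
    refine (Finset.card_filter_le _ _).trans (le_of_eq ?_)
    rw [Finset.card_univ, Fintype.card_prod, Fintype.card_fin, sq]
  have v2 : Measure.pi μ (⋃ j ∈ (Finset.univ : Finset (Fin n)).erase l, EJ q δ j) ≤
      ENNReal.ofReal (n * (Λ * (5 * (16 * δ) ^ 3))) := by
    refine (measure_biUnion_finset_le _ _).trans ?_
    refine (Finset.sum_le_sum fun j hj => est_ej hΛ hδ (hq l) hδS hμ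
      (Finset.mem_erase.1 hj).1).trans ?_
    rw [Finset.sum_const, nsmul_eq_mul, ENNReal.ofReal_mul (Nat.cast_nonneg n),
      ENNReal.ofReal_natCast]
    gcongr
    refine (Finset.card_le_univ _).trans (le_of_eq ?_)
    rw [Fintype.card_fin]
  have v3 := est_dip (q := q) hΛ hδ (hq l) hδS hμ
  have v4 := est_ill (q := q) hC₀ hΛ hδ hδ1 (hq l) hδS hμ
  refine (measure_union_le _ _).trans ?_
  rw [v0, zero_add]
  refine (measure_union_le _ _).trans ((add_le_add v1 ((measure_union_le _ _).trans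
    (add_le_add v2 ((measure_union_le _ _).trans (add_le_add v3 v4))))).trans ?_)
  rw [← ENNReal.ofReal_add (by positivity) (by positivity),
    ← ENNReal.ofReal_add (by positivity) (by positivity),
    ← ENNReal.ofReal_add (by positivity) (by positivity)]
  refine ENNReal.ofReal_le_ofReal ?_
  have hd3 : δ ^ 3 ≤ δ := by
    have : δ ^ 2 ≤ 1 := by nlinarith
    nlinarith
  have hnn : (n : ℝ) ≤ n ^ 2 := by nlinarith
  have hn1 : (1 : ℝ) ≤ n ^ 2 := by nlinarith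
  have e1 : (n : ℝ) ^ 2 * (Λ * (5 * δ ^ 3)) ≤ n ^ 2 * Λ * (5 * δ) := by
    calc (n : ℝ) ^ 2 * (Λ * (5 * δ ^ 3)) = n ^ 2 * Λ * (5 * δ ^ 3) := by ring
      _ ≤ _ := by gcongr
  have e2 : (n : ℝ) * (Λ * (5 * (16 * δ) ^ 3)) ≤ n ^ 2 * Λ * (20480 * δ) := by
    calc (n : ℝ) * (Λ * (5 * (16 * δ) ^ 3)) = n * Λ * (20480 * δ ^ 3) := by ring
      _ ≤ _ := by gcongr
  have e3 : Λ * (5 * (2 * δ) ^ 3) ≤ n ^ 2 * Λ * (40 * δ) := by
    calc Λ * (5 * (2 * δ) ^ 3) = 1 * Λ * (40 * δ ^ 3) := by ring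
      _ ≤ _ := by gcongr
  have e4 : Λ * (10 * 128 ^ 6 * (2 * C₀) ^ 12 * δ) ≤
      n ^ 2 * Λ * (10 * 128 ^ 6 * (2 * C₀) ^ 12 * δ) := by
    calc Λ * (10 * 128 ^ 6 * (2 * C₀) ^ 12 * δ) = 1 * Λ * (10 * 128 ^ 6 * (2 * C₀) ^ 12 * δ) := by
          ring
      _ ≤ _ := by gcongr
  nlinarith

theorem all_charges : ∃ C : ℝ, 0 < C ∧
    ∀ (n : ℕ) (q : Fin n → ℝ) (Λ t : ℝ) (μ : Fin n → Measure E),
    1 ≤ n → (∀ j, q j ≠ 0) → 1 ≤ Λ → (∀ j, IsProbabilityMeasure (μ j)) →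
    (∀ j, μ j ≤ ENNReal.ofReal Λ • volume.restrict (Metric.closedBall 0 1)) → 0 ≤ t →
    Measure.pi μ {a : Fin n → E | ¬ ((equilibria q a).Finite ∧
      ((equilibria q a).ncard : ℝ) ≤ C * n * (t + Real.log (2 * n * Λ)) ^ 4)} ≤
      ENNReal.ofReal (Real.exp (-t)) := by
  obtain ⟨C', hC', C₁, hC₁, hbad⟩ := bad_le
  obtain ⟨C₂, hC₂⟩ : ∃ C₂ : ℝ, C₂ = 2 * (C' + 1) := ⟨_, rfl⟩
  have hC₂2 : 2 ≤ C₂ := by rw [hC₂]; linarith
  have hlog2 : 0 < Real.log 2 := Real.log_pos (by norm_num)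
  have hlogC : 0 ≤ Real.log C₂ := Real.log_nonneg (by linarith)
  obtain ⟨C₃, hC₃⟩ : ∃ C₃ : ℝ, C₃ = 2 + Real.log C₂ / Real.log 2 := ⟨_, rfl⟩
  have hC₃0 : 2 ≤ C₃ := by
    rw [hC₃]
    have : 0 ≤ Real.log C₂ / Real.log 2 := by positivity
    linarith
  refine ⟨C₁ * C₃ ^ 4, by positivity, ?_⟩
  intro n q Λ t μ hn hq hΛ hprob hμ ht
  have hnR : (1 : ℝ) ≤ n := by exact_mod_cast hn
  have hn2 : (1 : ℝ) ≤ n ^ 2 := by nlinarith
  obtain ⟨D, hD⟩ : ∃ D : ℝ, D = C₂ * n ^ 2 * Λ := ⟨_, rfl⟩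
  have hD2 : 2 * n ≤ D := by
    rw [hD]
    have h1 : (n : ℝ) ≤ n ^ 2 := by nlinarith
    calc (2 : ℝ) * n = 2 * n * 1 := by ring
      _ ≤ C₂ * n ^ 2 * Λ := by gcongr
  have hD0 : 0 < D := by linarith
  obtain ⟨δ, hδ⟩ : ∃ δ : ℝ, δ = Real.exp (-t) / D := ⟨_, rfl⟩
  have hδ0 : 0 < δ := by
    rw [hδ]
    positivity
  have hexp : Real.exp (-t) ≤ 1 := by
    rw [Real.exp_le_one_iff]
    linarith
  have hδn : δ * n ≤ 1 / 2 := by
    rw [hδ, div_mul_eq_mul_div, div_le_div_iff₀ hD0 (by norm_num)]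
    nlinarith
  have hδ1 : δ ≤ 1 / 2 := le_trans (le_mul_of_one_le_right hδ0.le hnR) hδn
  have h := hbad n q Λ δ μ hn hq hΛ hprob hμ hδ0 hδ1 (by linarith)
  have hlog : Real.log (1 / δ) = t + Real.log D := by
    rw [hδ, one_div_div, Real.log_div hD0.ne' (Real.exp_pos _).ne', Real.log_exp]
    ring
  have hL0 : Real.log 2 ≤ Real.log (2 * n * Λ) := by
    refine Real.log_le_log (by norm_num) ?_
    calc (2 : ℝ) = 2 * 1 * 1 := by norm_num
      _ ≤ 2 * n * Λ := by gcongr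
  have hlogD : Real.log D ≤ C₃ * Real.log (2 * n * Λ) := by
    have h1 : D ≤ C₂ * (2 * n * Λ) ^ 2 := by
      rw [hD]
      have : (n : ℝ) ^ 2 * Λ ≤ (2 * n * Λ) ^ 2 := by
        have h2 : Λ ≤ 4 * Λ ^ 2 := by nlinarith
        calc (n : ℝ) ^ 2 * Λ ≤ n ^ 2 * (4 * Λ ^ 2) := by gcongr
          _ = (2 * n * Λ) ^ 2 := by ring
      calc C₂ * n ^ 2 * Λ = C₂ * (n ^ 2 * Λ) := by ring
        _ ≤ _ := by gcongr
    have h2 := Real.log_le_log hD0 h1
    rw [Real.log_mul (by positivity) (by positivity), Real.log_pow] at h2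
    push_cast at h2
    have h3 : Real.log C₂ ≤ Real.log C₂ / Real.log 2 * Real.log (2 * n * Λ) := by
      rw [div_mul_eq_mul_div, le_div_iff₀ hlog2]
      gcongr
    rw [hC₃]
    nlinarith
  have hlogle : Real.log (1 / δ) ≤ C₃ * (t + Real.log (2 * n * Λ)) := by
    rw [hlog]
    nlinarith
  have hlog0 : 0 ≤ Real.log (1 / δ) := by
    refine Real.log_nonneg ?_
    rw [le_div_iff₀ hδ0]
    linarith
  refine (measure_mono ?_).trans (h.trans (ENNReal.ofReal_le_ofReal ?_))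
  · rintro a ha ⟨h1, h2⟩
    refine ha ⟨h1, h2.trans ?_⟩
    have h3 : Real.log (1 / δ) ^ 4 ≤ (C₃ * (t + Real.log (2 * n * Λ))) ^ 4 :=
      pow_le_pow_left₀ hlog0 hlogle 4
    calc C₁ * n * Real.log (1 / δ) ^ 4
        ≤ C₁ * n * (C₃ * (t + Real.log (2 * n * Λ))) ^ 4 := by gcongr
      _ = C₁ * C₃ ^ 4 * n * (t + Real.log (2 * n * Λ)) ^ 4 := by ring
  · rw [hδ, mul_div_assoc', div_le_iff₀ hD0, hD]
    have hCC : C' ≤ C₂ := by rw [hC₂]; linarith
    have he := Real.exp_pos (-t)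
    calc C' * n ^ 2 * Λ * Real.exp (-t) ≤ C₂ * n ^ 2 * Λ * Real.exp (-t) := by gcongr
      _ = Real.exp (-t) * (C₂ * n ^ 2 * Λ) := by ring

end SM992
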