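import Pool.Agent.Work.MP_992d6e_an.SM.Core
import Pool.Agent.Work.MP_992d6e_an.SM.Grad

/-!
MODULE One (MP_992d6e_an, smoothed analysis): one random charge.

`μ ≤ ofReal Λ • volume.restrict (closedBall 0 1)`, so `μ B ≤ Λ volume (B ∩ closedBall 0 1)` for every set `B`
(`Measure.restrict_apply_superset`-type facts; use `Measure.le_iff'` and
`Measure.restrict_apply'` with the measurable closed ball).  With `core` and
`δ = exp (-t) η / (2 (C+1) n Λ)`, `η = d |q_l| / S ≤ 1`, one has `δ ≤ 1/2`, `δ ≤ d`, `δ S ≤ |q_l|`,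
`Λ C n δ ≤ exp (-t)` and `log (1/δ) = t + log (2 (C+1) n Λ/η) ≤ C' (t + log (2 n Λ/η))` as `2 n Λ/η ≥ 2`.
-/

set_option autoImplicit false

namespace SM992

open MeasureTheory N62f3cee0

theorem one_charge : ∃ C : ℝ, 0 < C ∧
    ∀ (n : ℕ) (q : Fin n → ℝ) (a : Fin n → E) (l : Fin n) (d Λ t : ℝ) (μ : Measure E),
    (∀ j, q j ≠ 0) → (∀ j, j ≠ l → ‖a j‖ ≤ 1) → 0 < d → d ≤ 1 →
    (∀ i j, i ≠ l → j ≠ l → i ≠ j → d ≤ dist (a i) (a j)) → 1 ≤ Λ →
    μ ≤ ENNReal.ofReal Λ • volume.restrict (Metric.closedBall 0 1) → 0 ≤ t →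
    μ {z : E | ¬ ((equilibria q (Function.update a l z)).Finite ∧
      ((equilibria q (Function.update a l z)).ncard : ℝ) ≤
        C * n * (t + Real.log (2 * n * Λ * (∑ j, |q j|) / (d * |q l|))) ^ 4)} ≤
      ENNReal.ofReal (Real.exp (-t)) := by
  obtain ⟨Cc, hCc, hcore⟩ := core
  set c1 : ℝ := Real.log (Cc + 1) / Real.log 2 with hc1
  have hlog2 : 0 < Real.log 2 := Real.log_pos (by norm_num)
  have hlogC : 0 ≤ Real.log (Cc + 1) := Real.log_nonneg (by linarith)
  have hc10 : 0 ≤ c1 := div_nonneg hlogC hlog2.le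
  refine ⟨Cc * (1 + c1) ^ 4, by positivity, ?_⟩
  intro n q a l d Λ t μ hq ha hd hd1 hsep hΛ hμ ht
  have hn : (1 : ℝ) ≤ n := by
    have : 1 ≤ n := (Nat.zero_le _).trans_lt l.2
    exact_mod_cast this
  have hql : 0 < |q l| := abs_pos.2 (hq l)
  have hSdef : ∑ j, |q j| = S q := rfl
  rw [hSdef]
  have hSl : |q l| ≤ S q :=
    Finset.single_le_sum (f := fun j => |q j|) (fun _ _ => abs_nonneg _) (Finset.mem_univ l)
  have hS : 0 < S q := hql.trans_le hSl
  set X : ℝ := 2 * n * Λ * S q / (d * |q l|) with hX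
  have hdq : 0 < d * |q l| := mul_pos hd hql
  have hX2 : 2 ≤ X := by
    rw [hX, le_div_iff₀ hdq]
    have h1 : d * |q l| ≤ 1 * S q := mul_le_mul hd1 hSl hql.le zero_le_one
    have h2 : 1 ≤ (n : ℝ) * Λ := by nlinarith
    have h3 : 1 * S q ≤ (n : ℝ) * Λ * S q := mul_le_mul_of_nonneg_right h2 hS.le
    nlinarith
  have hX0 : 0 < X := by linarith
  have het : 0 < Real.exp (-t) := Real.exp_pos _
  have het1 : Real.exp (-t) ≤ 1 := Real.exp_le_one_iff.2 (by linarith)
  set δ : ℝ := Real.exp (-t) / ((Cc + 1) * X) with hδ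
  have hC1 : 0 < Cc + 1 := by linarith
  have hδ0 : 0 < δ := by positivity
  have hδX : δ ≤ 1 / X := by
    rw [hδ]
    calc Real.exp (-t) / ((Cc + 1) * X) ≤ 1 / ((Cc + 1) * X) := by gcongr
      _ ≤ 1 / X := by
        apply div_le_div_of_nonneg_left zero_le_one hX0
        nlinarith
  have h1X : 1 / X = d * |q l| / (2 * n * Λ * S q) := by
    rw [hX, one_div_div]
  have hδ2 : δ ≤ 1 / 2 := hδX.trans (div_le_div_of_nonneg_left zero_le_one (by norm_num) hX2)
  have hnΛ : 1 ≤ (n : ℝ) * Λ := by nlinarith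
  have hδS : δ * S q ≤ |q l| := by
    have h1 : δ * S q ≤ 1 / X * S q := mul_le_mul_of_nonneg_right hδX hS.le
    have h2 : 1 / X * S q = d * |q l| / (2 * (n * Λ)) := by
      rw [h1X]
      field_simp
    rw [h2] at h1
    refine h1.trans ?_
    rw [div_le_iff₀ (by positivity)]
    nlinarith
  have hδd : δ ≤ d := by
    rw [h1X] at hδX
    refine hδX.trans ?_
    rw [div_le_iff₀ (by positivity)]
    have h1 : d * |q l| ≤ d * S q := mul_le_mul_of_nonneg_left hSl hd.le
    have h2 : d * S q ≤ d * (2 * (n * Λ) * S q) := by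
      apply mul_le_mul_of_nonneg_left _ hd.le
      nlinarith
    calc d * |q l| ≤ d * (2 * (n * Λ) * S q) := h1.trans h2
      _ = d * (2 * n * Λ * S q) := by ring
  have hfin : Λ * (Cc * n * δ) ≤ Real.exp (-t) := by
    have h1 : Λ * (Cc * n * δ) = Real.exp (-t) * ((Cc / (Cc + 1)) * (d * |q l| / (2 * S q))) := by
      rw [hδ, hX]
      field_simp
    rw [h1]
    have h2 : Cc / (Cc + 1) ≤ 1 := by
      rw [div_le_one hC1]
      linarith
    have h3 : d * |q l| / (2 * S q) ≤ 1 := by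
      rw [div_le_one (by positivity)]
      nlinarith
    have h4 : (Cc / (Cc + 1)) * (d * |q l| / (2 * S q)) ≤ 1 :=
      mul_le_one₀ h2 (by positivity) h3
    nlinarith
  have hlog : Real.log (1 / δ) ≤ (1 + c1) * (t + Real.log X) := by
    have h1 : 1 / δ = (Cc + 1) * X * Real.exp t := by
      rw [hδ, one_div_div, Real.exp_neg]
      field_simp
    rw [h1, Real.log_mul (by positivity) (Real.exp_ne_zero _), Real.log_mul (by positivity)
      (by positivity), Real.log_exp]
    have h2 : Real.log 2 ≤ t + Real.log X := by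
      have := Real.log_le_log (by norm_num) hX2
      linarith
    have h3 : Real.log (Cc + 1) = c1 * Real.log 2 := by
      rw [hc1, div_mul_cancel₀ _ hlog2.ne']
    have h4 : c1 * Real.log 2 ≤ c1 * (t + Real.log X) := mul_le_mul_of_nonneg_left h2 hc10
    rw [h3]
    linarith
  have hlog0 : 0 ≤ Real.log (1 / δ) := by
    apply Real.log_nonneg
    rw [le_div_iff₀ hδ0]
    linarith
  have hpow : Cc * n * Real.log (1 / δ) ^ 4 ≤ Cc * (1 + c1) ^ 4 * n * (t + Real.log X) ^ 4 := by
    have h1 : Real.log (1 / δ) ^ 4 ≤ ((1 + c1) * (t + Real.log X)) ^ 4 :=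
      pow_le_pow_left₀ hlog0 hlog 4
    calc Cc * n * Real.log (1 / δ) ^ 4 ≤ Cc * n * ((1 + c1) * (t + Real.log X)) ^ 4 := by
          gcongr
      _ = Cc * (1 + c1) ^ 4 * n * (t + Real.log X) ^ 4 := by ring
  have hvol := hcore n q a l δ hq ha hδ0 hδ2 hδS (fun i j hi hj hij => by
    have := hsep i j hi hj hij
    rw [dist_eq_norm] at this
    linarith)
  set A : Set E := {z : E | ¬ ((equilibria q (Function.update a l z)).Finite ∧
      ((equilibria q (Function.update a l z)).ncard : ℝ) ≤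
        Cc * (1 + c1) ^ 4 * n * (t + Real.log X) ^ 4)} with hA
  have hsub : A ∩ Metric.closedBall 0 1 ⊆ {z : E | ‖z‖ ≤ 1 ∧
      ¬ ({x | IsEq q (Function.update a l z) x}.Finite ∧
      ({x | IsEq q (Function.update a l z) x}.ncard : ℝ) ≤ Cc * n * Real.log (1 / δ) ^ 4)} := by
    rintro z ⟨hz, hz1⟩
    refine ⟨by simpa using hz1, fun hcon => hz ?_⟩
    have he : equilibria q (Function.update a l z) = {x | IsEq q (Function.update a l z) x} := by
      ext x
      exact mem_equilibria_iff q _ x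
    rw [he]
    exact ⟨hcon.1, hcon.2.trans hpow⟩
  calc μ A ≤ (ENNReal.ofReal Λ • volume.restrict (Metric.closedBall 0 1)) A := hμ A
    _ = ENNReal.ofReal Λ * volume (A ∩ Metric.closedBall 0 1) := by
        rw [Measure.smul_apply, smul_eq_mul,
          Measure.restrict_apply' Metric.isClosed_closedBall.measurableSet]
    _ ≤ ENNReal.ofReal Λ * ENNReal.ofReal (Cc * n * δ) := by
        gcongr
        exact (measure_mono hsub).trans hvol
    _ = ENNReal.ofReal (Λ * (Cc * n * δ)) := (ENNReal.ofReal_mul (by linarith)).symm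
    _ ≤ ENNReal.ofReal (Real.exp (-t)) := ENNReal.ofReal_le_ofReal hfin

end SM992
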