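import Pool.Agent.Work.MP_992d6e_an.SM.Pack

/-!
MODULE PackS (MP_992d6e_an, condition numbers): the sum over all scales.

`tele`: for `f : ℤ → ℤ` antitone with values in `[0, N]`,
`Σ_{k<J} (f (k - m) - f (k + m)) = Σ_{i=-m}^{m-1} Σ_{k<J} (f (k+i) - f (k+i+1)) = Σ_i (f i - f (J+i)) ≤ 2 m N`.
`cover`: at the scale `s_k = b 2^k` let `O_k` be a maximal `s_k`-separated subset of the set of `x ∈ A` that have
a `y ∈ A` with `4 s_k ≤ dist x y ≤ L s_k`, and `N_k` a maximal `20 s_k`-separated subset of the set of `x ∈ A`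
that have a `y ∈ A` with `s_k/L ≤ dist x y < 4 s_k`.  `U k = O_k ∪ N_k`; by `pack_out`, `pack_in`, `pk_anti`
(`40 ≤ 4L`), `|U k| ≤ 3 (pk A (s_k/L) - pk A (4 L s_k)) ≤ 3 (f (k - m) - f (k + m))`, `f k = pk A (b 2^k)`.
-/

set_option autoImplicit false

namespace SM992

private theorem tele1 (f : ℤ → ℤ) (N : ℤ) (h0 : ∀ k, 0 ≤ f k) (hN : ∀ k, f k ≤ N) (c : ℤ) (J : ℕ) :
    ∑ k ∈ Finset.range J, (f ((k : ℤ) + c) - f ((k : ℤ) + c + 1)) ≤ N := by
  have h1 := Finset.sum_range_sub' (fun k : ℕ => f ((k : ℤ) + c)) J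
  have h2 : ∀ k : ℕ, f (((k + 1 : ℕ) : ℤ) + c) = f ((k : ℤ) + c + 1) := by
    intro k
    congr 1
    push_cast
    ring
  simp only [h2] at h1
  rw [h1]
  have h3 := hN (((0 : ℕ) : ℤ) + c)
  have h4 := h0 ((J : ℤ) + c)
  linarith

theorem tele (f : ℤ → ℤ) (hf : Antitone f) (N : ℤ) (h0 : ∀ k, 0 ≤ f k) (hN : ∀ k, f k ≤ N)
    (m J : ℕ) : ∑ k ∈ Finset.range J, (f ((k : ℤ) - m) - f ((k : ℤ) + m)) ≤ 2 * m * N := by
  induction m with
  | zero => simp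
  | succ m ih =>
    have h1 := tele1 f N h0 hN (-(m : ℤ) - 1) J
    have h2 := tele1 f N h0 hN m J
    have h3 : ∀ k : ℕ, f ((k : ℤ) - ((m + 1 : ℕ) : ℤ)) - f ((k : ℤ) + ((m + 1 : ℕ) : ℤ)) =
        (f ((k : ℤ) - m) - f ((k : ℤ) + m)) +
          (f ((k : ℤ) + (-(m : ℤ) - 1)) - f ((k : ℤ) + (-(m : ℤ) - 1) + 1)) +
          (f ((k : ℤ) + m) - f ((k : ℤ) + m + 1)) := by
      intro k
      have e1 : (k : ℤ) - ((m + 1 : ℕ) : ℤ) = (k : ℤ) + (-(m : ℤ) - 1) := by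
        push_cast
        ring
      have e2 : (k : ℤ) + ((m + 1 : ℕ) : ℤ) = (k : ℤ) + m + 1 := by
        push_cast
        ring
      have e3 : (k : ℤ) + (-(m : ℤ) - 1) + 1 = (k : ℤ) - m := by ring
      rw [e1, e2, e3]
      ring
    rw [Finset.sum_congr rfl fun k _ => h3 k, Finset.sum_add_distrib, Finset.sum_add_distrib]
    push_cast
    linarith

theorem cover (A : Finset E) {b L : ℝ} (hb : 0 < b) (hL : 10 ≤ L) (m J : ℕ)
    (hm : 4 * L ≤ 2 ^ m) : ∃ U : ℕ → Finset E, ∑ k ∈ Finset.range J, (U k).card ≤ 6 * m * A.card ∧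
      ∀ k < J, ∀ x ∈ A, (∃ y ∈ A, b * 2 ^ k / L ≤ dist x y ∧ dist x y ≤ L * (b * 2 ^ k)) →
        ∃ c ∈ U k, dist x c ≤ 20 * (b * 2 ^ k) := by
  classical
  have hs : ∀ k : ℕ, 0 < b * 2 ^ k := fun k => by positivity
  have hemp : ∀ (A' : Finset E) (s : ℝ), SepS A' ∅ s := fun A' s =>
    ⟨Finset.empty_subset _, by simp⟩
  let A₁ : ℕ → Finset E := fun k => A.filter fun x =>
    ∃ y ∈ A, 4 * (b * 2 ^ k) ≤ dist x y ∧ dist x y ≤ L * (b * 2 ^ k)
  let A₂ : ℕ → Finset E := fun k => A.filter fun x =>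
    ∃ y ∈ A, b * 2 ^ k / L ≤ dist x y ∧ dist x y < 4 * (b * 2 ^ k)
  choose O hO1 hO2 hO3 using fun k : ℕ => exists_max_sep (hs k) (hemp (A₁ k) (b * 2 ^ k))
  choose V hV1 hV2 hV3 using fun k : ℕ =>
    exists_max_sep (by have := hs k; positivity : 0 < 20 * (b * 2 ^ k)) (hemp (A₂ k) (20 * (b * 2 ^ k)))
  let f : ℤ → ℤ := fun i => (pk A (b * 2 ^ i) : ℤ)
  have hf : Antitone f := by
    intro i j hij
    have h1 : b * (2 : ℝ) ^ i ≤ b * 2 ^ j :=
      mul_le_mul_of_nonneg_left (zpow_le_zpow_right₀ (by norm_num) hij) hb.le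
    exact Int.ofNat_le.2 (pk_anti A h1)
  have hbound : ∀ k : ℕ, ((O k ∪ V k).card : ℤ) ≤ 3 * (f ((k : ℤ) - m) - f ((k : ℤ) + m)) := by
    intro k
    have h1 : (O k).card + 2 * pk A (4 * L * (b * 2 ^ k)) ≤ 2 * pk A (b * 2 ^ k) := by
      refine pack_out (hs k) hL ⟨(hO2 k).1.trans (Finset.filter_subset _ _), (hO2 k).2⟩ ?_
      intro x hx
      exact (Finset.mem_filter.1 ((hO2 k).1 hx)).2
    have h2 : (V k).card + pk A (40 * (b * 2 ^ k)) ≤ pk A (b * 2 ^ k / L) := by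
      refine pack_in (hs k) hL ⟨(hV2 k).1.trans (Finset.filter_subset _ _), (hV2 k).2⟩ ?_
      intro x hx
      exact (Finset.mem_filter.1 ((hV2 k).1 hx)).2
    have h3 : (pk A (b * 2 ^ k / L) : ℤ) ≤ f ((k : ℤ) - m) := by
      have e1 : b * (2 : ℝ) ^ ((k : ℤ) - m) ≤ b * 2 ^ k / L := by
        rw [zpow_sub₀ (by norm_num), zpow_natCast, zpow_natCast, ← mul_div_assoc]
        have hk := hs k
        rw [div_le_div_iff₀ (by positivity) (by linarith)]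
        exact mul_le_mul_of_nonneg_left (by linarith) hk.le
      exact Int.ofNat_le.2 (pk_anti A e1)
    have e2 : b * (2 : ℝ) ^ ((k : ℤ) + m) = b * 2 ^ k * 2 ^ m := by
      rw [zpow_add₀ (by norm_num), zpow_natCast, zpow_natCast, mul_assoc]
    have h4 : f ((k : ℤ) + m) ≤ (pk A (4 * L * (b * 2 ^ k)) : ℤ) := by
      have e1 : 4 * L * (b * 2 ^ k) ≤ b * (2 : ℝ) ^ ((k : ℤ) + m) := by
        rw [e2, mul_comm (4 * L)]
        exact mul_le_mul_of_nonneg_left hm (hs k).le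
      exact Int.ofNat_le.2 (pk_anti A e1)
    have h5 : f ((k : ℤ) + m) ≤ (pk A (40 * (b * 2 ^ k)) : ℤ) := by
      have e1 : 40 * (b * 2 ^ k) ≤ b * (2 : ℝ) ^ ((k : ℤ) + m) := by
        rw [e2, mul_comm 40]
        exact mul_le_mul_of_nonneg_left (by linarith) (hs k).le
      exact Int.ofNat_le.2 (pk_anti A e1)
    have h6 : (pk A (b * 2 ^ k) : ℤ) ≤ f ((k : ℤ) - m) := by
      refine le_trans ?_ h3
      have e1 : b * 2 ^ k / L ≤ b * 2 ^ k := div_le_self (hs k).le (by linarith)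
      exact Int.ofNat_le.2 (pk_anti A e1)
    have h7 := Finset.card_union_le (O k) (V k)
    zify at h1 h2 h7
    linarith
  refine ⟨fun k => O k ∪ V k, ?_, ?_⟩
  · have h1 := tele f hf A.card (fun k => by positivity) (fun k => Int.ofNat_le.2 (pk_le_card A _)) m J
    have h2 : (∑ k ∈ Finset.range J, ((O k ∪ V k).card : ℤ)) ≤
        ∑ k ∈ Finset.range J, 3 * (f ((k : ℤ) - m) - f ((k : ℤ) + m)) :=
      Finset.sum_le_sum fun k _ => hbound k
    rw [← Finset.mul_sum] at h2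
    have h3 : (∑ k ∈ Finset.range J, ((O k ∪ V k).card : ℤ)) ≤ 6 * m * A.card := by linarith
    exact_mod_cast h3
  · intro k _ x hx ⟨y, hy, hy1, hy2⟩
    rcases le_or_gt (4 * (b * 2 ^ k)) (dist x y) with h | h
    · obtain ⟨c, hc, hxc⟩ := hO3 k x (Finset.mem_filter.2 ⟨hx, y, hy, h, hy2⟩)
      refine ⟨c, Finset.mem_union_left _ hc, ?_⟩
      have := hs k
      linarith
    · obtain ⟨c, hc, hxc⟩ := hV3 k x (Finset.mem_filter.2 ⟨hx, y, hy, hy1, h⟩)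
      exact ⟨c, Finset.mem_union_right _ hc, hxc.le⟩

end SM992
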