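import Pool.Agent.Work.MP_992d6e_an.SM.Defs

/-!
MODULE Pert (MP_992d6e_an, smoothed analysis): perturbation of well-conditioned zeros.

For `x₀ ∈ Z`, `T = F' x₀` is injective, so a linear equivalence with `‖T⁻¹‖ ≤ 1/σ`.  On
`closedBall x₀ r ⊆ closedBall y (2ρ)` (`r ≤ ρ`) the map `G` satisfies
`ApproximatesLinearOn G T (closedBall x₀ r) c` with `c = L r + ε₁ ≤ σ/2`
(`Convex.norm_image_sub_le_of_norm_hasFDerivWithin_le` applied to `G - T`), so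
`ApproximatesLinearOn.surjOn_closedBall_of_nonlinearRightInverse` (or the contraction
`x ↦ x - T⁻¹ (G x)`) gives a zero `x'` of `G` in `closedBall x₀ r` because
`‖G x₀‖ ≤ ε₀ ≤ (σ/4) r`.  At `x'`, `‖G' x' v‖ ≥ ‖T v‖ - (L r + ε₁)‖v‖ ≥ (σ/2)‖v‖`.
Injectivity of `x₀ ↦ x'`: if `x₀, x₁ ∈ Z` have the same `x'` then `‖x₀ - x₁‖ ≤ 2r`, and on
`closedBall x₀ (2r) ∩ closedBall y (2ρ)` (convex) `F` approximates `T` with constant `2 L r ≤ σ/4 < σ`, so
`0 = ‖F x₀ - F x₁‖ ≥ (σ - σ/4)‖x₀ - x₁‖`, `x₀ = x₁`.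
-/

set_option autoImplicit false

namespace SM992

open Metric

private theorem mvt {H : E → E} {H' : E → E →L[ℝ] E} {s : Set E} (hs : Convex ℝ s) {T : E →L[ℝ] E}
    {c : ℝ} (hc : 0 ≤ c) (hH : ∀ x ∈ s, HasFDerivAt H (H' x) x)
    (hb : ∀ x ∈ s, ∀ v, ‖H' x v - T v‖ ≤ c * ‖v‖) {x z : E} (hx : x ∈ s) (hz : z ∈ s) :
    ‖H x - H z - T (x - z)‖ ≤ c * ‖x - z‖ := by
  have h1 := hs.norm_image_sub_le_of_norm_hasFDerivWithin_le
    (f := fun x => H x - T x) (f' := fun x => H' x - T) (C := c)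
    (fun w hw => ((hH w hw).sub T.hasFDerivAt).hasFDerivWithinAt)
    (fun w hw => ContinuousLinearMap.opNorm_le_bound _ hc fun v => by simpa using hb w hw v) hz hx
  have h2 : H x - H z - T (x - z) = (H x - T x) - (H z - T z) := by
    rw [map_sub]; abel
  rw [h2]
  exact h1

theorem pert {F G : E → E} {F' G' : E → E →L[ℝ] E} {y : E} {ρ r σ L ε₀ ε₁ : ℝ}
    (hr : 0 < r) (hσ : 0 < σ) (hL0 : 0 ≤ L) (hrρ : 2 * r ≤ ρ)
    (hF : ∀ x ∈ closedBall y (2 * ρ), HasFDerivAt F (F' x) x)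
    (hG : ∀ x ∈ closedBall y (2 * ρ), HasFDerivAt G (G' x) x)
    (hL : ∀ x ∈ closedBall y (2 * ρ), ∀ x' ∈ closedBall y (2 * ρ), ∀ v,
      ‖F' x v - F' x' v‖ ≤ L * ‖x - x'‖ * ‖v‖)
    (h0 : ∀ x ∈ closedBall y (2 * ρ), ‖F x - G x‖ ≤ ε₀)
    (h1 : ∀ x ∈ closedBall y (2 * ρ), ∀ v, ‖F' x v - G' x v‖ ≤ ε₁ * ‖v‖)
    (hLr : 8 * (L * r) ≤ σ) (h1σ : 4 * ε₁ ≤ σ) (h0σ : 4 * ε₀ ≤ σ * r)
    (Z : Finset E) (hZ : ∀ x ∈ Z, x ∈ closedBall y ρ ∧ F x = 0 ∧ ∀ v, σ * ‖v‖ ≤ ‖F' x v‖) :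
    ∃ Z' : Finset E, Z'.card = Z.card ∧
      ∀ x ∈ Z', x ∈ closedBall y (2 * ρ) ∧ G x = 0 ∧ ∀ v, G' x v = 0 → v = 0 := by
  classical
  have hρ : 0 < ρ := by linarith
  rcases Z.eq_empty_or_nonempty with hZe | ⟨z0, hz0⟩
  · exact ⟨∅, by rw [hZe], fun x hx => absurd hx (Finset.notMem_empty x)⟩
  -- nonnegativity of ε₁
  have hε1 : 0 ≤ ε₁ := by
    have hz := hZ z0 hz0
    have hz2 : z0 ∈ closedBall y (2 * ρ) := closedBall_subset_closedBall (by linarith) hz.1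
    obtain ⟨v, hv⟩ := exists_ne (0 : E)
    have h2 := (norm_nonneg _).trans (h1 z0 hz2 v)
    exact nonneg_of_mul_nonneg_left h2 (norm_pos_iff.2 hv)
  have hsub : ∀ x₀ ∈ Z, closedBall x₀ (2 * r) ⊆ closedBall y (2 * ρ) := by
    intro x₀ hx₀ x hx
    have h2 := (hZ x₀ hx₀).1
    rw [mem_closedBall] at hx h2 ⊢
    have := dist_triangle x x₀ y
    linarith
  have hsub1 : ∀ x₀ ∈ Z, closedBall x₀ r ⊆ closedBall y (2 * ρ) := fun x₀ hx₀ =>
    (closedBall_subset_closedBall (by linarith)).trans (hsub x₀ hx₀)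
  have hself : ∀ x₀ ∈ Z, x₀ ∈ closedBall y (2 * ρ) := fun x₀ hx₀ =>
    hsub x₀ hx₀ (mem_closedBall_self (by linarith))
  have hex : ∀ x₀ ∈ Z, ∃ x ∈ closedBall x₀ r, G x = 0 := by
    intro x₀ hx₀
    obtain ⟨hx1, hx2, hx3⟩ := hZ x₀ hx₀
    have hinj : Function.Injective (F' x₀ : E →ₗ[ℝ] E) := by
      refine (injective_iff_map_eq_zero _).2 fun v hv => ?_
      have h2 := hx3 v
      have h3 : F' x₀ v = 0 := hv
      rw [h3, norm_zero] at h2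
      have h4 : ‖v‖ ≤ 0 := by
        by_contra h5
        have : 0 < σ * ‖v‖ := mul_pos hσ (not_le.1 h5)
        linarith
      exact norm_le_zero_iff.1 h4
    let e := LinearEquiv.ofInjectiveEndo (F' x₀ : E →ₗ[ℝ] E) hinj
    have he : ∀ v, F' x₀ (e.symm v) = v := fun v => e.apply_symm_apply v
    let Ri : (F' x₀).NonlinearRightInverse :=
      { toFun := fun v => e.symm v
        nnnorm := ⟨σ⁻¹, by positivity⟩
        bound' := fun v => by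
          have h2 := hx3 (e.symm v)
          rw [he] at h2
          change ‖e.symm v‖ ≤ σ⁻¹ * ‖v‖
          rw [le_inv_mul_iff₀ hσ]
          exact h2
        right_inv' := fun v => he v }
    have happ : ApproximatesLinearOn G (F' x₀) (closedBall x₀ r) ⟨L * r + ε₁, by positivity⟩ := by
      intro x hx z hz
      refine mvt (convex_closedBall x₀ r) (c := L * r + ε₁) (by positivity)
        (fun w hw => hG w (hsub1 x₀ hx₀ hw)) (fun w hw v => ?_) hx hz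
      have h2 := h1 w (hsub1 x₀ hx₀ hw) v
      have h3 := hL w (hsub1 x₀ hx₀ hw) x₀ (hself x₀ hx₀) v
      have h4 : ‖w - x₀‖ ≤ r := by rwa [mem_closedBall, dist_eq_norm] at hw
      have h5 : L * ‖w - x₀‖ * ‖v‖ ≤ L * r * ‖v‖ := by gcongr
      have h6 : G' w v - F' x₀ v = -(F' w v - G' w v) + (F' w v - F' x₀ v) := by abel
      rw [h6]
      refine (norm_add_le _ _).trans ?_
      rw [norm_neg]
      linarith
    have hsurj := happ.surjOn_closedBall_of_nonlinearRightInverse Ri hr.le (subset_refl _)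
    have h0m : (0 : E) ∈ closedBall (G x₀) ((((Ri.nnnorm : NNReal) : ℝ)⁻¹ -
        ((⟨L * r + ε₁, by positivity⟩ : NNReal) : ℝ)) * r) := by
      rw [mem_closedBall, dist_eq_norm, zero_sub, norm_neg]
      have h2 : ((Ri.nnnorm : NNReal) : ℝ)⁻¹ = σ := by
        change (σ⁻¹)⁻¹ = σ
        rw [inv_inv]
      rw [h2]
      change ‖G x₀‖ ≤ (σ - (L * r + ε₁)) * r
      have h3 := h0 x₀ (hself x₀ hx₀)
      rw [hx2, zero_sub, norm_neg] at h3
      nlinarith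
    obtain ⟨x, hx, hGx⟩ := hsurj h0m
    exact ⟨x, hx, hGx⟩
  choose! φ hφ1 hφ2 using hex
  refine ⟨Z.image φ, ?_, ?_⟩
  · refine Finset.card_image_of_injOn ?_
    intro x₀ hx₀ x₁ hx₁ h
    have hx₀' : x₀ ∈ Z := hx₀
    have hx₁' : x₁ ∈ Z := hx₁
    have h2 := hφ1 x₀ hx₀'
    have h3 := hφ1 x₁ hx₁'
    rw [mem_closedBall] at h2 h3
    have h4 : dist x₁ x₀ ≤ 2 * r := by
      have h5 := dist_triangle x₁ (φ x₀) x₀
      have h6 : dist x₁ (φ x₀) ≤ r := by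
        have h : φ x₀ = φ x₁ := h
        rw [h, dist_comm]; exact h3
      linarith
    have h5 := mvt (convex_closedBall x₀ (2 * r)) (H := F) (H' := F') (T := F' x₀)
      (c := L * (2 * r)) (by positivity)
      (fun w hw => hF w (hsub x₀ hx₀' hw)) (fun w hw v => by
        refine (hL w (hsub x₀ hx₀' hw) x₀ (hself x₀ hx₀') v).trans ?_
        have h4 : ‖w - x₀‖ ≤ 2 * r := by rwa [mem_closedBall, dist_eq_norm] at hw
        gcongr) (x := x₁) (z := x₀) h4 (mem_closedBall_self (by linarith))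
    rw [(hZ x₀ hx₀').2.1, (hZ x₁ hx₁').2.1, sub_zero, zero_sub, norm_neg] at h5
    have h6 := (hZ x₀ hx₀').2.2 (x₁ - x₀)
    have h7 : ‖x₁ - x₀‖ ≤ 0 := by
      by_contra h8
      have h9 := not_le.1 h8
      have h10 : σ * ‖x₁ - x₀‖ ≤ L * (2 * r) * ‖x₁ - x₀‖ := h6.trans h5
      have h11 : σ ≤ L * (2 * r) := le_of_mul_le_mul_right h10 h9
      linarith
    have h8 := norm_le_zero_iff.1 h7
    exact (sub_eq_zero.1 h8).symm
  · intro x hx
    obtain ⟨x₀, hx₀, rfl⟩ := Finset.mem_image.1 hx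
    have hm := hsub1 x₀ hx₀ (hφ1 x₀ hx₀)
    refine ⟨hm, hφ2 x₀ hx₀, fun v hv => ?_⟩
    have h2 := h1 (φ x₀) hm v
    have h3 := hL (φ x₀) hm x₀ (hself x₀ hx₀) v
    have h4 : ‖φ x₀ - x₀‖ ≤ r := by
      have := hφ1 x₀ hx₀
      rwa [mem_closedBall, dist_eq_norm] at this
    have h5 : L * ‖φ x₀ - x₀‖ * ‖v‖ ≤ L * r * ‖v‖ := by gcongr
    have h6 := (hZ x₀ hx₀).2.2 v
    rw [hv, sub_zero] at h2
    have h7 : ‖F' x₀ v‖ ≤ ‖F' (φ x₀) v‖ + ‖F' (φ x₀) v - F' x₀ v‖ := by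
      have h8 : F' x₀ v = F' (φ x₀) v - (F' (φ x₀) v - F' x₀ v) := by abel
      calc ‖F' x₀ v‖ = ‖F' (φ x₀) v - (F' (φ x₀) v - F' x₀ v)‖ := by rw [← h8]
        _ ≤ _ := norm_sub_le _ _
    have h8 : ‖v‖ ≤ 0 := by
      by_contra h9
      have h10 := not_le.1 h9
      have h11 : σ * ‖v‖ ≤ (ε₁ + L * r) * ‖v‖ := by linarith
      have h12 : σ ≤ ε₁ + L * r := le_of_mul_le_mul_right h11 h10
      linarith
    exact norm_le_zero_iff.1 h8

end SM992
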