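import Pool.Agent.Work.MP_992d6e_an.SM.Defs

/-!
MODULE Lam (MP_992d6e_an, condition numbers): laminar families are small.

There are at most `n` singletons.  For `I ∈ 𝓛` with at least two elements let `I'` be the largest member of
`𝓛 ∪ {{min I}}` that contains `min I` and is a proper subset of `I` (the members of `𝓛` containing `min I` form a
chain), and `e(I) = min (I \ I')`.  `e` is injective: suppose `e(I) = e(J) = e`, `I ≠ J`; as `e ∈ I ∩ J` they are
nested, say `I ⊂ J`.  If `min I = min J` then `I ⊆ J'`, so `e ∈ J'`, contradiction.  If `min J < min I`: if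
`J'` and `I` are disjoint then `min I ∈ J \ J'` so `e ≤ min I`, so `e = min I ∈ I'`, contradiction; if
`I ⊆ J'` then `e ∈ J'`, contradiction; if `J' ⊆ I` then `min J ∈ I`, contradiction.
(Other proofs of a bound `2 * n` are equally fine, e.g. induction on `n`.)
-/

set_option autoImplicit false

namespace SM992

private theorem laminar_aux {α : Type*} [DecidableEq α] (s : Finset α) :
    ∀ 𝓛 : Finset (Finset α), (∀ I ∈ 𝓛, I ⊆ s) → (∀ I ∈ 𝓛, I.Nonempty) →
      (∀ I ∈ 𝓛, ∀ J ∈ 𝓛, I ⊆ J ∨ J ⊆ I ∨ Disjoint I J) → 𝓛.card ≤ 2 * s.card := by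
  induction s using Finset.induction_on with
  | empty =>
    intro 𝓛 h0 h1 _
    have h : 𝓛 = ∅ := by
      rw [Finset.eq_empty_iff_forall_notMem]
      intro I hI
      obtain ⟨x, hx⟩ := h1 I hI
      exact Finset.notMem_empty x (h0 I hI hx)
    rw [h]
    simp
  | insert x s hx ih =>
    intro 𝓛 h0 h1 h2
    have hA : ((𝓛.image (fun I => I.erase x)).erase ∅).card ≤ 2 * s.card := by
      refine ih _ ?_ ?_ ?_
      · intro I hI
        rw [Finset.mem_erase, Finset.mem_image] at hI
        obtain ⟨-, J, hJ, rfl⟩ := hI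
        intro z hz
        rw [Finset.mem_erase] at hz
        exact (Finset.mem_insert.1 (h0 J hJ hz.2)).resolve_left hz.1
      · intro I hI
        exact Finset.nonempty_iff_ne_empty.2 (Finset.mem_erase.1 hI).1
      · intro I hI J hJ
        rw [Finset.mem_erase, Finset.mem_image] at hI hJ
        obtain ⟨-, I', hI', rfl⟩ := hI
        obtain ⟨-, J', hJ', rfl⟩ := hJ
        rcases h2 I' hI' J' hJ' with h | h | h
        · exact Or.inl (Finset.erase_subset_erase x h)
        · exact Or.inr (Or.inl (Finset.erase_subset_erase x h))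
        · exact Or.inr (Or.inr (Finset.disjoint_of_subset_left (Finset.erase_subset x I')
            (Finset.disjoint_of_subset_right (Finset.erase_subset x J') h)))
    have hB1 : (𝓛.filter (fun I => I = {x})).card ≤ 1 := by
      rw [Finset.card_le_one]
      intro a ha b hb
      rw [(Finset.mem_filter.1 ha).2, (Finset.mem_filter.1 hb).2]
    have hB2 : (𝓛.filter (fun I => x ∈ I ∧ I.erase x ∈ 𝓛)).card ≤ 1 := by
      rw [Finset.card_le_one]
      have key : ∀ a ∈ 𝓛, ∀ b ∈ 𝓛, x ∈ a → x ∈ b → a.erase x ∈ 𝓛 → b.erase x ∈ 𝓛 → a ⊆ b →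
          b ⊆ a := by
        intro a ha b hb hxa hxb hea heb hab
        rcases h2 _ ha _ heb with h | h | h
        · exact absurd (h hxa) (Finset.notMem_erase x b)
        · intro z hz
          by_cases hzx : z = x
          · rw [hzx]
            exact hxa
          · exact h (Finset.mem_erase.2 ⟨hzx, hz⟩)
        · obtain ⟨z, hz⟩ := h1 _ hea
          rw [Finset.mem_erase] at hz
          exact absurd (Finset.mem_erase.2 ⟨hz.1, hab hz.2⟩)
            (Finset.disjoint_left.1 h hz.2)
      intro a ha b hb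
      obtain ⟨ha1, ha2, ha3⟩ := Finset.mem_filter.1 ha
      obtain ⟨hb1, hb2, hb3⟩ := Finset.mem_filter.1 hb
      rcases h2 a ha1 b hb1 with h | h | h
      · exact Finset.Subset.antisymm h (key a ha1 b hb1 ha2 hb2 ha3 hb3 h)
      · exact Finset.Subset.antisymm (key b hb1 a ha1 hb2 ha2 hb3 ha3 h) h
      · exact absurd hb2 (Finset.disjoint_left.1 h ha2)
    have hC : (𝓛 \ (𝓛.filter (fun I => I = {x}) ∪
        𝓛.filter (fun I => x ∈ I ∧ I.erase x ∈ 𝓛))).card ≤
        ((𝓛.image (fun I => I.erase x)).erase ∅).card := by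
      have hmem : ∀ I ∈ 𝓛 \ (𝓛.filter (fun I => I = {x}) ∪
          𝓛.filter (fun I => x ∈ I ∧ I.erase x ∈ 𝓛)),
          I ∈ 𝓛 ∧ I ≠ {x} ∧ (x ∈ I → I.erase x ∉ 𝓛) := by
        intro I hI
        rw [Finset.mem_sdiff, Finset.mem_union, Finset.mem_filter, Finset.mem_filter] at hI
        refine ⟨hI.1, fun h => hI.2 (Or.inl ⟨hI.1, h⟩), fun h h' => hI.2 (Or.inr ⟨hI.1, h, h'⟩)⟩
      refine Finset.card_le_card_of_injOn (fun I => I.erase x) ?_ ?_
      · intro I hI
        obtain ⟨hI1, hI2, hI3⟩ := hmem I hI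
        rw [Finset.mem_coe, Finset.mem_erase]
        refine ⟨fun h => ?_, Finset.mem_image_of_mem _ hI1⟩
        rcases Finset.erase_eq_empty_iff I x |>.1 h with h4 | h4
        · exact (h1 I hI1).ne_empty h4
        · exact hI2 h4
      · intro I hI J hJ hIJ
        obtain ⟨hI1, hI2, hI3⟩ := hmem I hI
        obtain ⟨hJ1, hJ2, hJ3⟩ := hmem J hJ
        have hIJ' : I.erase x = J.erase x := hIJ
        by_cases hxI : x ∈ I
        · by_cases hxJ : x ∈ J
          · rw [← Finset.insert_erase hxI, ← Finset.insert_erase hxJ, hIJ']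
          · exfalso
            apply hI3 hxI
            rw [hIJ', Finset.erase_eq_of_notMem hxJ]
            exact hJ1
        · by_cases hxJ : x ∈ J
          · exfalso
            apply hJ3 hxJ
            rw [← hIJ', Finset.erase_eq_of_notMem hxI]
            exact hI1
          · rw [← Finset.erase_eq_of_notMem hxI, hIJ', Finset.erase_eq_of_notMem hxJ]
    have h3 : 𝓛.card ≤ (𝓛 \ (𝓛.filter (fun I => I = {x}) ∪
        𝓛.filter (fun I => x ∈ I ∧ I.erase x ∈ 𝓛))).card +
        (𝓛.filter (fun I => I = {x}) ∪ 𝓛.filter (fun I => x ∈ I ∧ I.erase x ∈ 𝓛)).card := by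
      have := Finset.le_card_sdiff (𝓛.filter (fun I => I = {x}) ∪
        𝓛.filter (fun I => x ∈ I ∧ I.erase x ∈ 𝓛)) 𝓛
      omega
    have h4 := Finset.card_union_le (𝓛.filter (fun I => I = {x}))
      (𝓛.filter (fun I => x ∈ I ∧ I.erase x ∈ 𝓛))
    rw [Finset.card_insert_of_notMem hx]
    omega

theorem laminar_card {n : ℕ} (𝓛 : Finset (Finset (Fin n))) (h1 : ∀ I ∈ 𝓛, I.Nonempty)
    (h2 : ∀ I ∈ 𝓛, ∀ J ∈ 𝓛, I ⊆ J ∨ J ⊆ I ∨ Disjoint I J) : 𝓛.card ≤ 2 * n := by
  have h := laminar_aux (Finset.univ : Finset (Fin n)) 𝓛 (fun I _ => Finset.subset_univ I) h1 h2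
  rwa [Finset.card_univ, Fintype.card_fin] at h

end SM992
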