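import Pool.Agent.Work.MP_992d6e_an.SM.CondA
import Pool.Agent.Work.MP_992d6e_an.SM.Lam
import Pool.Agent.Work.MP_992d6e_an.SM.Grad

/-!
MODULE FinA (MP_992d6e_an, condition numbers): the theorem.

Let `L = 10 C₂ K` (`annulus_unique`).  `Z = Z₁ ∪ Z₂`, `Z₁` as in `cond_near`, so
`|Z₁| ≤ C n log L (log K)^3 ≤ C' n (log K)^4`.  For `x ∈ Z₂` with nearest charge `j`, `r = ‖x - a_j‖`, all `i ≠ j` have
`‖a_i - a_j‖ < r/L` or `> L r`; let `I x = {i | ‖a_i - a_j‖ < r}`, so `j ∈ I x`.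
`I` is injective on `Z₂`: if `I x = I x'` with nearest charges `j`, `j'` then for `i ∈ I`
`‖a_i - a_j‖ ≤ 2 r'/L`, `r' ≤ ‖x' - a_j‖ ≤ 2 r'`, and for `i ∉ I`, `‖a_i - a_j‖ ≥ L r' - r'/L ≥ L r'/2`, so
`annulus_unique` applies to `x, x'` and `j`.
The sets `I x` form a laminar family: if `r ≤ r'` and `c ∈ I x ∩ I x'` then for `i ∈ I x`
`‖a_i - a_{j'}‖ ≤ ‖a_i - a_c‖ + ‖a_c - a_{j'}‖ ≤ 2r/L + r'/L < r'`, so `I x ⊆ I x'`.  So `|Z₂| ≤ 2 n`.
`cond_count'`: `mem_equilibria_iff`, and `fderiv ℝ (fderiv ℝ (potential q a)) x v = -innerSL ℝ (DF q a x v)`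
(the first derivative is `-innerSL ℝ (F q a y)` for `y` near `x`), whose norm is `‖DF q a x v‖`; the minimum over
`j` is expressed by `∀ j`.  `Set.encard_le` from the bound for all finsets (a set all of whose finite
subsets have at most `N` elements).
-/

set_option autoImplicit false

namespace SM992

open N62f3cee0

/-- the charges near `x`, seen from the charge `j` -/
private noncomputable def In {n : ℕ} (a : Fin n → E) (j : Fin n) (r : ℝ) : Finset (Fin n) :=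
  Finset.univ.filter fun i => ‖a i - a j‖ < r

private theorem mem_In {n : ℕ} (a : Fin n → E) (j : Fin n) (r : ℝ) (i : Fin n) :
    i ∈ In a j r ↔ ‖a i - a j‖ < r := by
  simp [In]

private theorem exists_near {n : ℕ} (hn : 1 ≤ n) (a : Fin n → E) (x : E) :
    ∃ j, ∀ l, ‖x - a j‖ ≤ ‖x - a l‖ := by
  obtain ⟨j, _, hj⟩ := Finset.exists_min_image (Finset.univ : Finset (Fin n))
    (fun l => ‖x - a l‖) ⟨⟨0, hn⟩, Finset.mem_univ _⟩
  exact ⟨j, fun l => hj l (Finset.mem_univ l)⟩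

/-- the laminar part -/
private theorem lam_part {C₂ : ℝ} (hC₂ : 1 ≤ C₂)
    (hann : ∀ (n : ℕ) (q : Fin n → ℝ) (a : Fin n → E) (j : Fin n)
    (I : Finset (Fin n)) (K : ℝ) (x y : E),
    (∀ l, q l ≠ 0) → j ∈ I → 2 ≤ K → Rob q a K x → Rob q a K y →
    (∀ i ∈ I, C₂ * K * ‖a i - a j‖ ≤ ‖x - a j‖) → (∀ i, i ∉ I → C₂ * K * ‖x - a j‖ ≤ ‖a i - a j‖) →
    (∀ i ∈ I, C₂ * K * ‖a i - a j‖ ≤ ‖y - a j‖) → (∀ i, i ∉ I → C₂ * K * ‖y - a j‖ ≤ ‖a i - a j‖) →
    x = y)
    {n : ℕ} (q : Fin n → ℝ) (a : Fin n → E) {K : ℝ} (hq : ∀ l, q l ≠ 0) (hK : 2 ≤ K)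
    (nr : E → Fin n) (hnr : ∀ x l, ‖x - a (nr x)‖ ≤ ‖x - a l‖) (Z : Finset E)
    (hZ : ∀ x ∈ Z, Rob q a K x ∧ ∀ i, ‖a i - a (nr x)‖ < ‖x - a (nr x)‖ / (10 * C₂ * K) ∨
      10 * C₂ * K * ‖x - a (nr x)‖ < ‖a i - a (nr x)‖) : Z.card ≤ 2 * n := by
  classical
  have hCK : 2 ≤ C₂ * K := by nlinarith
  have hL : 0 < 10 * C₂ * K := by nlinarith
  have hpos : ∀ x ∈ Z, 0 < ‖x - a (nr x)‖ := fun x hx =>
    norm_pos_iff.2 (sub_ne_zero.2 ((hZ x hx).1.1.1 _))
  have hself : ∀ x ∈ Z, nr x ∈ In a (nr x) ‖x - a (nr x)‖ := by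
    intro x hx
    rw [mem_In, sub_self, norm_zero]
    exact hpos x hx
  -- members are very near, the others very far
  have hin : ∀ x ∈ Z, ∀ i ∈ In a (nr x) ‖x - a (nr x)‖,
      10 * C₂ * K * ‖a i - a (nr x)‖ ≤ ‖x - a (nr x)‖ := by
    intro x hx i hi
    rw [mem_In] at hi
    rcases (hZ x hx).2 i with h | h
    · rw [lt_div_iff₀ hL] at h
      linarith
    · exfalso
      have := hpos x hx
      nlinarith
  have hout : ∀ x ∈ Z, ∀ i, i ∉ In a (nr x) ‖x - a (nr x)‖ →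
      10 * C₂ * K * ‖x - a (nr x)‖ ≤ ‖a i - a (nr x)‖ := by
    intro x hx i hi
    rw [mem_In, not_lt] at hi
    rcases (hZ x hx).2 i with h | h
    · exfalso
      rw [lt_div_iff₀ hL] at h
      have := hpos x hx
      nlinarith
    · exact h.le
  have hinj : Set.InjOn (fun x => In a (nr x) ‖x - a (nr x)‖) (Z : Set E) := by
    intro x hx y hy hxy
    simp only at hxy
    have hx' := Finset.mem_coe.1 hx
    have hy' := Finset.mem_coe.1 hy
    have hy0 := hpos y hy'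
    have hjy : nr x ∈ In a (nr y) ‖y - a (nr y)‖ := by
      rw [← hxy]
      exact hself x hx'
    have hj := hin y hy' (nr x) hjy
    have hny := hnr y (nr x)
    refine hann n q a (nr x) (In a (nr x) ‖x - a (nr x)‖) K x y hq (hself x hx') hK (hZ x hx').1
      (hZ y hy').1 ?_ ?_ ?_ ?_
    · intro i hi
      have h1 := hin x hx' i hi
      have h2 : C₂ * K * ‖a i - a (nr x)‖ ≤ 10 * C₂ * K * ‖a i - a (nr x)‖ := by
        have := norm_nonneg (a i - a (nr x))
        nlinarith [mul_nonneg (by linarith : (0 : ℝ) ≤ C₂ * K) this]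
      linarith
    · intro i hi
      have h1 := hout x hx' i hi
      have h2 : C₂ * K * ‖x - a (nr x)‖ ≤ 10 * C₂ * K * ‖x - a (nr x)‖ := by
        have := norm_nonneg (x - a (nr x))
        nlinarith [mul_nonneg (by linarith : (0 : ℝ) ≤ C₂ * K) this]
      linarith
    · intro i hi
      rw [hxy] at hi
      have h1 := hin y hy' i hi
      have h2 : ‖a i - a (nr x)‖ ≤ ‖a i - a (nr y)‖ + ‖a (nr x) - a (nr y)‖ := by
        rw [show a i - a (nr x) = (a i - a (nr y)) - (a (nr x) - a (nr y)) by abel]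
        exact norm_sub_le _ _
      have h3 : 10 * C₂ * K * ‖a i - a (nr x)‖ ≤ 2 * ‖y - a (nr y)‖ := by
        have := mul_le_mul_of_nonneg_left h2 hL.le
        rw [mul_add] at this
        linarith
      have h4 := norm_nonneg (y - a (nr y))
      have h5 : 10 * C₂ * K * ‖a i - a (nr x)‖ = 10 * (C₂ * K * ‖a i - a (nr x)‖) := by ring
      rw [h5] at h3
      linarith
    · intro i hi
      rw [hxy] at hi
      have h1 := hout y hy' i hi
      have h2 : ‖a i - a (nr y)‖ ≤ ‖a i - a (nr x)‖ + ‖a (nr x) - a (nr y)‖ := by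
        rw [show a i - a (nr y) = (a i - a (nr x)) + (a (nr x) - a (nr y)) by abel]
        exact norm_add_le _ _
      have h3 : ‖a (nr x) - a (nr y)‖ ≤ ‖y - a (nr y)‖ := by
        have h4 : 1 * ‖a (nr x) - a (nr y)‖ ≤ 10 * C₂ * K * ‖a (nr x) - a (nr y)‖ :=
          mul_le_mul_of_nonneg_right (by linarith) (norm_nonneg _)
        linarith
      have h5 : ‖y - a (nr x)‖ ≤ 2 * ‖y - a (nr y)‖ := by
        have h6 : ‖y - a (nr x)‖ ≤ ‖y - a (nr y)‖ + ‖a (nr x) - a (nr y)‖ := by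
          rw [show y - a (nr x) = (y - a (nr y)) - (a (nr x) - a (nr y)) by abel]
          exact norm_sub_le _ _
        linarith
      have h7 : C₂ * K * ‖y - a (nr x)‖ ≤ C₂ * K * (2 * ‖y - a (nr y)‖) :=
        mul_le_mul_of_nonneg_left h5 (by linarith)
      have h8 : 10 * C₂ * K * ‖y - a (nr y)‖ = 5 * (C₂ * K * (2 * ‖y - a (nr y)‖)) := by ring
      have h9 : 2 * (2 * ‖y - a (nr y)‖) ≤ C₂ * K * (2 * ‖y - a (nr y)‖) :=
        mul_le_mul_of_nonneg_right hCK (by positivity)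
      linarith
  have hlam : ∀ x ∈ Z, ∀ y ∈ Z, ‖x - a (nr x)‖ ≤ ‖y - a (nr y)‖ →
      In a (nr x) ‖x - a (nr x)‖ ⊆ In a (nr y) ‖y - a (nr y)‖ ∨
      Disjoint (In a (nr x) ‖x - a (nr x)‖) (In a (nr y) ‖y - a (nr y)‖) := by
    intro x hx y hy hle
    by_cases hdis : Disjoint (In a (nr x) ‖x - a (nr x)‖) (In a (nr y) ‖y - a (nr y)‖)
    · exact Or.inr hdis
    left
    rw [Finset.not_disjoint_iff] at hdis
    obtain ⟨c, hcx, hcy⟩ := hdis
    intro i hi
    rw [mem_In]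
    have h1 := hin x hx i hi
    have h2 := hin x hx c hcx
    have h3 := hin y hy c hcy
    have h4 : ‖a i - a (nr y)‖ ≤ ‖a i - a (nr x)‖ + ‖a c - a (nr x)‖ + ‖a c - a (nr y)‖ := by
      rw [show a i - a (nr y) = ((a i - a (nr x)) - (a c - a (nr x))) + (a c - a (nr y)) by abel]
      refine (norm_add_le _ _).trans ?_
      have := norm_sub_le (a i - a (nr x)) (a c - a (nr x))
      linarith
    have h5 := hpos y hy
    have h6 : 10 * C₂ * K * ‖a i - a (nr y)‖ ≤ 3 * ‖y - a (nr y)‖ := by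
      have := mul_le_mul_of_nonneg_left h4 hL.le
      rw [mul_add, mul_add] at this
      linarith
    have h7 : 20 * ‖a i - a (nr y)‖ ≤ 10 * C₂ * K * ‖a i - a (nr y)‖ :=
      mul_le_mul_of_nonneg_right (by linarith) (norm_nonneg _)
    linarith
  rw [← Finset.card_image_of_injOn hinj]
  refine laminar_card _ ?_ ?_
  · intro I hI
    obtain ⟨x, hx, rfl⟩ := Finset.mem_image.1 hI
    exact ⟨_, hself x hx⟩
  · intro I hI J hJ
    obtain ⟨x, hx, rfl⟩ := Finset.mem_image.1 hI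
    obtain ⟨y, hy, rfl⟩ := Finset.mem_image.1 hJ
    rcases le_total ‖x - a (nr x)‖ ‖y - a (nr y)‖ with h | h
    · rcases hlam x hx y hy h with h' | h'
      · exact Or.inl h'
      · exact Or.inr (Or.inr h')
    · rcases hlam y hy x hx h with h' | h'
      · exact Or.inr (Or.inl h')
      · exact Or.inr (Or.inr h'.symm)

theorem cond_count : ∃ C : ℝ, 0 < C ∧ ∀ (n : ℕ) (q : Fin n → ℝ) (a : Fin n → E) (K : ℝ),
    1 ≤ n → (∀ l, q l ≠ 0) → 2 ≤ K →
    ∀ Z : Finset E, (∀ x ∈ Z, Rob q a K x) → (Z.card : ℝ) ≤ C * n * Real.log K ^ 4 := by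
  classical
  obtain ⟨C, hC, hnear⟩ := cond_near
  obtain ⟨C₂, hC₂, hann⟩ := annulus_unique
  have hlog2 : 0 < Real.log 2 := Real.log_pos (by norm_num)
  have hlogC : 0 ≤ Real.log (10 * C₂) := Real.log_nonneg (by linarith)
  refine ⟨C * (Real.log (10 * C₂) / Real.log 2 + 1) + 2 / Real.log 2 ^ 4, by positivity, ?_⟩
  intro n q a K hn hq hK Z hZ
  have hlogK : Real.log 2 ≤ Real.log K := Real.log_le_log (by norm_num) hK
  have hlogK0 : 0 < Real.log K := hlog2.trans_le hlogK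
  choose nr hnr using exists_near hn a
  have hL : 10 ≤ 10 * C₂ * K := by nlinarith
  let P : E → Prop := fun x => ∃ i, i ≠ nr x ∧ ‖x - a (nr x)‖ / (10 * C₂ * K) ≤ ‖a i - a (nr x)‖ ∧
    ‖a i - a (nr x)‖ ≤ 10 * C₂ * K * ‖x - a (nr x)‖
  have h1 : ((Z.filter P).card : ℝ) ≤ C * n * Real.log (10 * C₂ * K) * Real.log K ^ 3 := by
    refine hnear n q a K (10 * C₂ * K) hn hq hK hL _ ?_
    intro x hx
    obtain ⟨hx1, i, hi, hi1, hi2⟩ := Finset.mem_filter.1 hx
    exact ⟨hZ x hx1, i, nr x, hi, hnr x, hi1, hi2⟩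
  have h2 : (Z.filter fun x => ¬ P x).card ≤ 2 * n := by
    refine lam_part hC₂ hann q a hq hK nr hnr _ ?_
    intro x hx
    obtain ⟨hx1, hx2⟩ := Finset.mem_filter.1 hx
    refine ⟨hZ x hx1, fun i => ?_⟩
    by_cases hi : i = nr x
    · left
      rw [hi, sub_self, norm_zero]
      have : 0 < ‖x - a (nr x)‖ := norm_pos_iff.2 (sub_ne_zero.2 ((hZ x hx1).1.1 _))
      positivity
    · by_contra hcon
      rw [not_or, not_lt, not_lt] at hcon
      exact hx2 ⟨i, hi, hcon.1, hcon.2⟩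
  have h3 : (Z.card : ℝ) = ((Z.filter P).card : ℝ) + ((Z.filter fun x => ¬ P x).card : ℝ) := by
    rw [← Nat.cast_add, Finset.card_filter_add_card_filter_not]
  have h2' : ((Z.filter fun x => ¬ P x).card : ℝ) ≤ 2 * n := by
    exact_mod_cast h2
  have h4 : Real.log (10 * C₂ * K) ≤ (Real.log (10 * C₂) / Real.log 2 + 1) * Real.log K := by
    rw [Real.log_mul (by positivity) (by positivity), add_mul, one_mul]
    have : Real.log (10 * C₂) = Real.log (10 * C₂) / Real.log 2 * Real.log 2 := by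
      field_simp
    have h5 : Real.log (10 * C₂) / Real.log 2 * Real.log 2 ≤
        Real.log (10 * C₂) / Real.log 2 * Real.log K := by gcongr
    linarith
  have h5 : C * n * Real.log (10 * C₂ * K) * Real.log K ^ 3 ≤
      C * (Real.log (10 * C₂) / Real.log 2 + 1) * n * Real.log K ^ 4 := by
    calc C * n * Real.log (10 * C₂ * K) * Real.log K ^ 3
        ≤ C * n * ((Real.log (10 * C₂) / Real.log 2 + 1) * Real.log K) * Real.log K ^ 3 := by gcongr
      _ = _ := by ring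
  have h6 : (2 * n : ℝ) ≤ 2 / Real.log 2 ^ 4 * n * Real.log K ^ 4 := by
    calc (2 * n : ℝ) = 2 / Real.log 2 ^ 4 * n * Real.log 2 ^ 4 := by field_simp
      _ ≤ 2 / Real.log 2 ^ 4 * n * Real.log K ^ 4 := by gcongr
  rw [h3]
  calc _ ≤ C * (Real.log (10 * C₂) / Real.log 2 + 1) * n * Real.log K ^ 4 +
        2 / Real.log 2 ^ 4 * n * Real.log K ^ 4 := by linarith
    _ = _ := by ring

/-- the inner product as a linear map into the dual -/
private noncomputable def B : E →L[ℝ] (E →L[ℝ] ℝ) :=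
  LinearMap.toContinuousLinearMap
    { toFun := fun w => innerSL ℝ w
      map_add' := fun u w => map_add _ u w
      map_smul' := fun c w => by
        rw [map_smul]
        rfl }

private theorem B_apply (w : E) : B w = innerSL ℝ w := rfl

private theorem hasFDerivAt_potential {n : ℕ} (q : Fin n → ℝ) (a : Fin n → E) {x : E}
    (hx : ∀ l, x ≠ a l) : HasFDerivAt (potential q a) (-(B (F q a x))) x := by
  have h1 : ∀ l ∈ (Finset.univ : Finset (Fin n)),
      HasFDerivAt (fun y : E => q l / dist y (a l))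
        (-(q l * (‖x - a l‖ ^ 3)⁻¹) • innerSL ℝ (x - a l)) x :=
    fun l _ => PC992.Sard.hasFDerivAt_inv_dist (q l) (hx l)
  have h2 := HasFDerivAt.fun_sum h1
  have h3 : ∑ l, -(q l * (‖x - a l‖ ^ 3)⁻¹) • innerSL ℝ (x - a l) = -(B (F q a x)) := by
    rw [F, map_sum, ← Finset.sum_neg_distrib]
    refine Finset.sum_congr rfl fun l _ => ?_
    rw [map_smul, g, map_smul, smul_smul, neg_smul, B_apply]
  rw [h3] at h2
  exact h2

theorem fderiv2_potential {n : ℕ} (q : Fin n → ℝ) (a : Fin n → E) {x : E} (hx : ∀ l, x ≠ a l)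
    (v : E) : ‖fderiv ℝ (fderiv ℝ (potential q a)) x v‖ = ‖DF q a x v‖ := by
  have h1 : fderiv ℝ (potential q a) =ᶠ[nhds x] fun y => -(B (F q a y)) := by
    have h2 : ∀ᶠ y in nhds x, ∀ l, y ≠ a l := by
      rw [Filter.eventually_all]
      intro l
      exact isOpen_ne.mem_nhds (hx l)
    filter_upwards [h2] with y hy
    exact (hasFDerivAt_potential q a hy).fderiv
  have h2 : HasFDerivAt (fun y => -(B (F q a y))) (-(B.comp (DF q a x))) x :=
    (B.hasFDerivAt.comp x (hasStrictFDerivAt_F q a hx).hasFDerivAt).neg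
  rw [h1.fderiv_eq, h2.fderiv]
  have h3 : (-(B.comp (DF q a x))) v = -(innerSL ℝ (DF q a x v)) := rfl
  rw [h3, norm_neg, innerSL_apply_norm]

private theorem set_bound {T : Set E} {N : ℝ} (h : ∀ Z : Finset E, (Z : Set E) ⊆ T → (Z.card : ℝ) ≤ N) :
    T.Finite ∧ (T.ncard : ℝ) ≤ N := by
  have hfin : T.Finite := by
    by_contra hcon
    obtain ⟨Z, hZ, hZc⟩ := (Set.Infinite.exists_subset_card_eq hcon (⌊N⌋₊ + 1))
    have h1 := h Z hZ
    rw [hZc] at h1
    have h2 := Nat.lt_floor_add_one N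
    push_cast at h1
    linarith
  refine ⟨hfin, ?_⟩
  rw [Set.ncard_eq_toFinset_card T hfin]
  exact h _ (by simp)

theorem cond_count' : ∃ C : ℝ, 0 < C ∧ ∀ (n : ℕ) (q : Fin n → ℝ) (a : Fin n → E) (K : ℝ),
    1 ≤ n → (∀ l, q l ≠ 0) → 2 ≤ K →
    {x ∈ equilibria q a | ∀ j v, (∑ l, |q l| / dist x (a l) ^ 2) * ‖v‖ ≤
      K * dist x (a j) * ‖fderiv ℝ (fderiv ℝ (potential q a)) x v‖}.Finite ∧
    ({x ∈ equilibria q a | ∀ j v, (∑ l, |q l| / dist x (a l) ^ 2) * ‖v‖ ≤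
      K * dist x (a j) * ‖fderiv ℝ (fderiv ℝ (potential q a)) x v‖}.ncard : ℝ) ≤
      C * n * Real.log K ^ 4 := by
  obtain ⟨C, hC, h⟩ := cond_count
  refine ⟨C, hC, ?_⟩
  intro n q a K hn hq hK
  apply set_bound
  intro Z hZ
  refine h n q a K hn hq hK Z ?_
  intro x hx
  obtain ⟨h1, h2⟩ := hZ hx
  rw [mem_equilibria_iff] at h1
  refine ⟨h1, fun j v => ?_⟩
  have h3 := h2 j v
  rw [fderiv2_potential q a h1.1 v] at h3
  simp only [dist_eq_norm] at h3
  exact h3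

end SM992
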