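import Pool.Agent.Work.MP_992d6e_an.SM.Defs

/-!
MODULE DgLip (MP_992d6e_an, smoothed analysis): Lipschitz estimate for `Dg`.

`Dg u w = |u|^{-3} w - 3 |u|^{-3} (û·w) û`, `û = u/|u|`.  With `δ = ‖u - v‖`:
`| |u|^{-3} - |v|^{-3} | ≤ 3 δ / m^4` (`|v|^3 - |u|^3 = (|v|-|u|)(|u|^2+|u||v|+|v|^2)`), `‖û - v̂‖ ≤ δ/m`
(`‖u-v‖^2 = (|u|-|v|)^2 + |u||v| ‖û-v̂‖^2`; the cruder `2δ/m` would give 30 in place of 20, so prove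
this one or change nothing in the statement), `‖(û·w)û - (v̂·w)v̂‖ ≤ 2‖û-v̂‖‖w‖`.  Total
`3 + 3 (2 + 3) = 18 ≤ 20`.
-/

set_option autoImplicit false

namespace SM992

private theorem t0 {u : E} (hu : u ≠ 0) (w : E) :
    Dg u w = (‖u‖ ^ 3)⁻¹ • (w - (3 * inner ℝ (‖u‖⁻¹ • u) w) • (‖u‖⁻¹ • u)) := by
  have h1 : 0 < ‖u‖ := norm_pos_iff.2 hu
  simp only [Dg, sub_apply, smul_apply,
    ContinuousLinearMap.id_apply, ContinuousLinearMap.smulRight_apply, innerSL_apply_apply, smul_smul,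
    smul_sub, inner_smul_left, conj_trivial]
  congr 2
  field_simp

private theorem t1 {a b m : ℝ} (hm : 0 < m) (ha : m ≤ a) (hb : m ≤ b) :
    |(a ^ 3)⁻¹ - (b ^ 3)⁻¹| ≤ 3 * (m ^ 4)⁻¹ * |a - b| := by
  have ha0 : 0 < a := hm.trans_le ha
  have hb0 : 0 < b := hm.trans_le hb
  have h1 : (a ^ 3)⁻¹ - (b ^ 3)⁻¹ =
      -((a * b ^ 3)⁻¹ + (a ^ 2 * b ^ 2)⁻¹ + (a ^ 3 * b)⁻¹) * (a - b) := by
    field_simp
    ring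
  have h2 : (a * b ^ 3)⁻¹ ≤ (m ^ 4)⁻¹ := by
    rw [show m ^ 4 = m * m ^ 3 by ring]
    gcongr
  have h3 : (a ^ 2 * b ^ 2)⁻¹ ≤ (m ^ 4)⁻¹ := by
    rw [show m ^ 4 = m ^ 2 * m ^ 2 by ring]
    gcongr
  have h4 : (a ^ 3 * b)⁻¹ ≤ (m ^ 4)⁻¹ := by
    rw [show m ^ 4 = m ^ 3 * m by ring]
    gcongr
  rw [h1, abs_mul, abs_neg, abs_of_nonneg (by positivity)]
  exact mul_le_mul_of_nonneg_right (by linarith) (abs_nonneg _)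

private theorem t2 {u v : E} {m : ℝ} (hm : 0 < m) (hu : m ≤ ‖u‖) (hv : m ≤ ‖v‖) :
    ‖‖u‖⁻¹ • u - ‖v‖⁻¹ • v‖ ≤ m⁻¹ * ‖u - v‖ := by
  have ha0 : 0 < ‖u‖ := hm.trans_le hu
  have hb0 : 0 < ‖v‖ := hm.trans_le hv
  have h3 := real_inner_le_norm u v
  refine le_of_sq_le_sq ?_ (by positivity)
  rw [mul_pow, norm_sub_sq_real, norm_sub_sq_real, norm_smul, norm_smul, inner_smul_left,
    inner_smul_right, norm_inv, norm_inv, norm_norm, norm_norm]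
  simp only [conj_trivial]
  generalize inner ℝ u v = c at h3 ⊢
  generalize ‖u‖ = a at ha0 hu h3 ⊢
  generalize ‖v‖ = b at hb0 hv h3 ⊢
  rw [← sub_nonneg]
  have h4 : m⁻¹ ^ 2 * (a ^ 2 - 2 * c + b ^ 2) -
      ((a⁻¹ * a) ^ 2 - 2 * (a⁻¹ * (b⁻¹ * c)) + (b⁻¹ * b) ^ 2) =
      (m ^ 2)⁻¹ * (a * b)⁻¹ * (a * b * (a - b) ^ 2 + 2 * (a * b - c) * (a * b - m * m)) := by
    field_simp
    ring
  rw [h4]
  have h5 : 0 ≤ a * b - c := by linarith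
  have h6 : 0 ≤ a * b - m * m := sub_nonneg.2 (mul_le_mul hu hv hm.le ha0.le)
  positivity

theorem Dg_lip {u v : E} {m : ℝ} (hm : 0 < m) (hu : m ≤ ‖u‖) (hv : m ≤ ‖v‖) (w : E) :
    ‖Dg u w - Dg v w‖ ≤ 20 * (m ^ 4)⁻¹ * ‖u - v‖ * ‖w‖ := by
  have ha0 : 0 < ‖u‖ := hm.trans_le hu
  have hb0 : 0 < ‖v‖ := hm.trans_le hv
  have h1 := t1 hm hu hv
  have h2 := t2 hm hu hv
  have h3 : |‖u‖ - ‖v‖| ≤ ‖u - v‖ := abs_norm_sub_norm_le u v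
  rw [t0 (norm_pos_iff.1 ha0) w, t0 (norm_pos_iff.1 hb0) w]
  have hp : ‖‖u‖⁻¹ • u‖ = 1 := by
    rw [norm_smul, norm_inv, norm_norm, inv_mul_cancel₀ ha0.ne']
  have hq : ‖‖v‖⁻¹ • v‖ = 1 := by
    rw [norm_smul, norm_inv, norm_norm, inv_mul_cancel₀ hb0.ne']
  have hB : (‖v‖ ^ 3)⁻¹ ≤ (m ^ 3)⁻¹ := by gcongr
  generalize ‖u‖⁻¹ • u = p at h2 hp ⊢
  generalize ‖v‖⁻¹ • v = q at h2 hq ⊢
  have hA : |(‖u‖ ^ 3)⁻¹ - (‖v‖ ^ 3)⁻¹| ≤ 3 * (m ^ 4)⁻¹ * ‖u - v‖ :=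
    h1.trans (mul_le_mul_of_nonneg_left h3 (by positivity))
  have hB0 : 0 ≤ (‖v‖ ^ 3)⁻¹ := by positivity
  generalize (‖u‖ ^ 3)⁻¹ = A at hA ⊢
  generalize (‖v‖ ^ 3)⁻¹ = B at hA hB hB0 ⊢
  have h4 : A • (w - (3 * inner ℝ p w) • p) - B • (w - (3 * inner ℝ q w) • q) =
      (A - B) • w - (3 * (A - B) * inner ℝ p w) • p -
        ((3 * B * inner ℝ (p - q) w) • p + (3 * B * inner ℝ q w) • (p - q)) := by
    rw [inner_sub_left]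
    module
  have h5 : |inner ℝ p w| ≤ ‖w‖ := by
    have := abs_real_inner_le_norm p w
    rwa [hp, one_mul] at this
  have h6 : |inner ℝ q w| ≤ ‖w‖ := by
    have := abs_real_inner_le_norm q w
    rwa [hq, one_mul] at this
  have h7 : |inner ℝ (p - q) w| ≤ m⁻¹ * ‖u - v‖ * ‖w‖ :=
    (abs_real_inner_le_norm (p - q) w).trans (mul_le_mul_of_nonneg_right h2 (norm_nonneg _))
  have k1 : ‖(A - B) • w‖ ≤ 3 * (m ^ 4)⁻¹ * ‖u - v‖ * ‖w‖ := by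
    rw [norm_smul, Real.norm_eq_abs]
    exact mul_le_mul_of_nonneg_right hA (norm_nonneg _)
  have k2 : ‖(3 * (A - B) * inner ℝ p w) • p‖ ≤ 3 * (3 * (m ^ 4)⁻¹ * ‖u - v‖) * ‖w‖ := by
    rw [norm_smul, Real.norm_eq_abs, hp, mul_one, abs_mul, abs_mul, abs_of_pos (by norm_num : (0 : ℝ) < 3)]
    gcongr
  have k3 : ‖(3 * B * inner ℝ (p - q) w) • p‖ ≤ 3 * (m ^ 3)⁻¹ * (m⁻¹ * ‖u - v‖ * ‖w‖) := by
    rw [norm_smul, Real.norm_eq_abs, hp, mul_one, abs_mul, abs_mul, abs_of_pos (by norm_num : (0 : ℝ) < 3),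
      abs_of_nonneg hB0]
    gcongr
  have k4 : ‖(3 * B * inner ℝ q w) • (p - q)‖ ≤ 3 * (m ^ 3)⁻¹ * ‖w‖ * (m⁻¹ * ‖u - v‖) := by
    rw [norm_smul, Real.norm_eq_abs, abs_mul, abs_mul, abs_of_pos (by norm_num : (0 : ℝ) < 3),
      abs_of_nonneg hB0]
    gcongr
  rw [h4]
  refine (norm_sub_le _ _).trans ?_
  have k5 := norm_sub_le ((A - B) • w) ((3 * (A - B) * inner ℝ p w) • p)
  have k6 := norm_add_le ((3 * B * inner ℝ (p - q) w) • p) ((3 * B * inner ℝ q w) • (p - q))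
  have k7 : (m ^ 3)⁻¹ * m⁻¹ = (m ^ 4)⁻¹ := by
    rw [← mul_inv]
    ring_nf
  have k8 : 3 * (m ^ 3)⁻¹ * (m⁻¹ * ‖u - v‖ * ‖w‖) = 3 * (m ^ 4)⁻¹ * ‖u - v‖ * ‖w‖ := by
    rw [← k7]
    ring
  have k9 : 3 * (m ^ 3)⁻¹ * ‖w‖ * (m⁻¹ * ‖u - v‖) = 3 * (m ^ 4)⁻¹ * ‖u - v‖ * ‖w‖ := by
    rw [← k7]
    ring
  have k10 : 0 ≤ (m ^ 4)⁻¹ * ‖u - v‖ * ‖w‖ := by positivity
  rw [k8] at k3
  rw [k9] at k4
  linarith

end SM992
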