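import Pool.Agent.Work.MP_992d6e_an.SM.Defs

/-!
MODULE InvL (MP_992d6e_an, smoothed analysis): Lipschitz estimates for `g` and its inverse.

Let `r = ‖u‖`, `r' = ‖v‖`, `c = u·v`.  `‖u - v‖^2 = r^2 + r'^2 - 2c`,
`‖g u - g v‖^2 = r^{-4} + r'^{-4} - 2 c r^{-3} r'^{-3}`, `|c| ≤ r r'`.

`inv_lip`: by symmetry `r ≥ r'`; with `r = ρ r'`, `c = γ r r'`, the claim
`‖u-v‖^2 ≤ r^6 ‖g u - g v‖^2` becomes, after division by `r'^2`,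
`ρ^2 + 1 - 2γρ ≤ ρ^2 + ρ^6 - 2γρ^4`, i.e. `(ρ^3 - 1)(ρ^3 + 1 - 2γρ) ≥ 0`, and
`ρ^3 + 1 - 2ρ = (ρ - 1)(ρ^2 + ρ - 1) ≥ 0` for `ρ ≥ 1`.
`g_lip`: by symmetry `r ≥ r' ≥ m`; it suffices to take `m = r'`;
`‖g u - g v‖^2 r'^6 ≤ 4 ‖u - v‖^2` becomes (divide by `r'^2`)
`ρ^{-4} + 1 - 2γρ^{-2} ≤ 4ρ^2 + 4 - 8γρ`; the difference is at least its value at `γ = 1`
(as `4ρ ≥ ρ^{-2}`), `4(ρ-1)^2 - (1 - ρ^{-2})^2 ≥ 0` since `1 - ρ^{-2} = (ρ-1)(ρ+1)/ρ^2 ≤ 2(ρ-1)`.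
-/

set_option autoImplicit false

namespace SM992

private theorem t1 {u v : E} (hu : u ≠ 0) (hv : v ≠ 0) :
    ‖g u - g v‖ ^ 2 = (‖u‖ ^ 4)⁻¹ + (‖v‖ ^ 4)⁻¹ - 2 * (inner ℝ u v) * (‖u‖ ^ 3)⁻¹ * (‖v‖ ^ 3)⁻¹ := by
  have h1 : 0 < ‖u‖ := norm_pos_iff.2 hu
  have h2 : 0 < ‖v‖ := norm_pos_iff.2 hv
  rw [g, g, norm_sub_sq_real, norm_smul, norm_smul, inner_smul_left, inner_smul_right, mul_pow,
    mul_pow, Real.norm_eq_abs, Real.norm_eq_abs, sq_abs, sq_abs]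
  simp only [conj_trivial]
  field_simp
  ring

private theorem t2 {u v : E} (hu : u ≠ 0) (hv : v ≠ 0) (hvu : ‖v‖ ≤ ‖u‖) :
    ‖u - v‖ ≤ ‖u‖ ^ 3 * ‖g u - g v‖ := by
  have h1 : 0 < ‖u‖ := norm_pos_iff.2 hu
  have h2 : 0 < ‖v‖ := norm_pos_iff.2 hv
  have h3 := real_inner_le_norm u v
  refine le_of_sq_le_sq ?_ (by positivity)
  rw [mul_pow, t1 hu hv, norm_sub_sq_real]
  generalize inner ℝ u v = c at h3 ⊢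
  generalize ‖u‖ = a at h1 h3 hvu ⊢
  generalize ‖v‖ = b at h2 h3 hvu ⊢
  rw [← sub_nonneg]
  have h4 : (a ^ 3) ^ 2 * ((a ^ 4)⁻¹ + (b ^ 4)⁻¹ - 2 * c * (a ^ 3)⁻¹ * (b ^ 3)⁻¹) -
      (a ^ 2 - 2 * c + b ^ 2) = (b ^ 4)⁻¹ * ((a ^ 3 - b ^ 3) * (a ^ 3 + b ^ 3 - 2 * (c * b))) := by
    field_simp
    ring
  rw [h4]
  have h5 : 0 ≤ a ^ 3 - b ^ 3 := sub_nonneg.2 (pow_le_pow_left₀ h2.le hvu 3)
  have h6 : 0 ≤ (a - b) * (a * (a - b) + (2 * a * b - b ^ 2)) :=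
    mul_nonneg (sub_nonneg.2 hvu) (by nlinarith [mul_nonneg h1.le (sub_nonneg.2 hvu), mul_pos h1 h2])
  have h7 : c * b ≤ a * b * b := mul_le_mul_of_nonneg_right h3 h2.le
  have h8 : 0 ≤ a ^ 3 + b ^ 3 - 2 * (c * b) := by nlinarith
  positivity

theorem inv_lip {u v : E} (hu : u ≠ 0) (hv : v ≠ 0) {r : ℝ} (hur : ‖u‖ ≤ r) (hvr : ‖v‖ ≤ r) :
    ‖u - v‖ ≤ r ^ 3 * ‖g u - g v‖ := by
  rcases le_total ‖v‖ ‖u‖ with h | h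
  · exact (t2 hu hv h).trans (mul_le_mul_of_nonneg_right
      (pow_le_pow_left₀ (norm_nonneg _) hur 3) (norm_nonneg _))
  · rw [norm_sub_rev u v, norm_sub_rev (g u) (g v)]
    exact (t2 hv hu h).trans (mul_le_mul_of_nonneg_right
      (pow_le_pow_left₀ (norm_nonneg _) hvr 3) (norm_nonneg _))

private theorem t3 {u v : E} (hu : u ≠ 0) (hv : v ≠ 0) (hvu : ‖v‖ ≤ ‖u‖) :
    ‖g u - g v‖ ≤ 2 * (‖v‖ ^ 3)⁻¹ * ‖u - v‖ := by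
  have h1 : 0 < ‖u‖ := norm_pos_iff.2 hu
  have h2 : 0 < ‖v‖ := norm_pos_iff.2 hv
  have h3 := real_inner_le_norm u v
  refine le_of_sq_le_sq ?_ (by positivity)
  rw [mul_pow, mul_pow, t1 hu hv, norm_sub_sq_real]
  generalize inner ℝ u v = c at h3 ⊢
  generalize ‖u‖ = a at h1 h3 hvu ⊢
  generalize ‖v‖ = b at h2 h3 hvu ⊢
  rw [← sub_nonneg]
  have h4 : 2 ^ 2 * (b ^ 3)⁻¹ ^ 2 * (a ^ 2 - 2 * c + b ^ 2) -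
      ((a ^ 4)⁻¹ + (b ^ 4)⁻¹ - 2 * c * (a ^ 3)⁻¹ * (b ^ 3)⁻¹) =
      (b ^ 6)⁻¹ * (a ^ 4)⁻¹ * ((a - b) ^ 2 * ((2 * a ^ 2 - b * (a + b)) * (2 * a ^ 2 + b * (a + b))) +
        (a * b - c) * (2 * a * (4 * a ^ 3 - b ^ 3))) := by
    field_simp
    ring
  rw [h4]
  have h5 : 0 ≤ a ^ 3 - b ^ 3 := sub_nonneg.2 (pow_le_pow_left₀ h2.le hvu 3)
  have h6 : 0 ≤ 4 * a ^ 3 - b ^ 3 := by
    have := pow_pos h1 3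
    linarith
  have h7 : 0 ≤ a * b - c := by linarith
  have h8 : 0 ≤ 2 * a ^ 2 - b * (a + b) := by nlinarith
  positivity

theorem g_lip {u v : E} {m : ℝ} (hm : 0 < m) (hu : m ≤ ‖u‖) (hv : m ≤ ‖v‖) :
    ‖g u - g v‖ ≤ 2 * (m ^ 3)⁻¹ * ‖u - v‖ := by
  have hu0 : u ≠ 0 := norm_pos_iff.1 (hm.trans_le hu)
  have hv0 : v ≠ 0 := norm_pos_iff.1 (hm.trans_le hv)
  rcases le_total ‖v‖ ‖u‖ with h | h
  · refine (t3 hu0 hv0 h).trans ?_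
    gcongr
  · rw [norm_sub_rev (g u) (g v), norm_sub_rev u v]
    refine (t3 hv0 hu0 h).trans ?_
    gcongr

end SM992
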