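import Pool.Agent.Work.MP_992d6e_an.SM.Der
import Pool.Agent.Work.MP_992d6e_an.SM.InvL
import Pool.Agent.Work.MP_992d6e_an.SM.DgLip

/-!
MODULE Ann (MP_992d6e_an, condition numbers): at most one robust equilibrium around an isolated cluster
`I ∋ j` of charges.

Put `X = x - a_j`, `r = |X|`, `Y = y - a_j`, `r' = |Y|`, `θ = 1/(C₂ K)` (small), `S_I = Σ_I |q_i|`, `Q = Σ_I q_i`,
`M_O = Σ_{i ∉ I} |q_i|/|a_i - a_j|^2`, `m = S_I/r^2 + M_O`.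
(1) `|x - a_i| ∈ [(1-θ) r, (1+θ) r]` for `i ∈ I` and `|x - a_i| ∈ [(1-θ)|a_i - a_j|, (1+θ)|a_i - a_j|]` for
`i ∉ I`, so `m/2 ≤ M q a x ≤ 2 m`.
(2) By `Dg_lip` and `norm_Dg_apply_le`, `‖DF v - Q Dg(X) v‖ ≤ Σ_I |q_i| 20 |a_i-a_j|/((1-θ)r)^4 ‖v‖ +
Σ_{i∉I} 2|q_i|/((1-θ)|a_i-a_j|)^3 ‖v‖ ≤ 44 θ (m/r) ‖v‖`.  With the hypothesis `Rob` for the index `j`,
`2|Q|/r^3 ≥ m/(2Kr) - 44 θ m/r ≥ m/(4Kr)`, i.e. `|Q|/r^2 ≥ m/(8K)`.
(3) With `E_O = Σ_{i∉I} q_i g (a_j - a_i)` and `err x = Σ_I q_i (g (x - a_i) - g X) + Σ_{i∉I} q_i (g (x-a_i) - g (a_j - a_i))`,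
`Q g X = - E_O - err x` and `|err x| ≤ 4 θ m` (`g_lip`), so `||Q|/r^2 - |E_O|| ≤ 4θm ≤ (32/C₂)|Q|/r^2`; the same
for `y` with the same `Q`, `E_O`, hence `r'/r ∈ [0.9, 1.12]`.
(4) `|err x - err y| ≤ C θ (m/r) ‖x - y‖`: the outer part by `g_lip`; for the inner part put
`h(X) = g (X - b) - g X`, `b = a_i - a_j`: if `‖X - Y‖ ≤ r/2` use the mean value inequality on the segment
(its points have norm `≥ r/3`, derivative `Dg (X - b) - Dg X`, `Dg_lip`), otherwise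
`|h X| + |h Y| ≤ C |b|/r^3 ≤ 2 C |b| ‖X - Y‖/r^4`.
(5) `inv_lip`: `‖x - y‖ = ‖X - Y‖ ≤ (max r r')^3 ‖g X - g Y‖ = (max r r')^3 |err x - err y|/|Q|
≤ C' θ r^2 m/|Q| ‖x - y‖ ≤ (8 C'/C₂) ‖x - y‖`, so `x = y` if `C₂` is large.
(`M q a x > 0`, `m > 0` since `q_j ≠ 0`.)
-/

set_option autoImplicit false

namespace SM992

variable {n : ℕ}

/-- equilibria whose condition number is at most `K` -/
def Rob (q : Fin n → ℝ) (a : Fin n → E) (K : ℝ) (x : E) : Prop :=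
  IsEq q a x ∧ ∀ j v, M q a x * ‖v‖ ≤ K * ‖x - a j‖ * ‖DF q a x v‖

/-! Geometry of an annulus. -/

private theorem near_in {X b : E} {r θ : ℝ} (hθ : θ ≤ 1 / 100) (hX : ‖X‖ = r)
    (hb : ‖b‖ ≤ θ * r) : 99 / 100 * r ≤ ‖X - b‖ ∧ ‖X - b‖ ≤ 101 / 100 * r := by
  have h0 : 0 ≤ r := hX ▸ norm_nonneg X
  have h1 : ‖b‖ ≤ 1 / 100 * r := hb.trans (mul_le_mul_of_nonneg_right hθ h0)
  have h2 := norm_sub_norm_le X b
  have h3 := norm_sub_le X b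
  constructor <;> linarith

private theorem near_out {X b : E} {θ : ℝ} (hθ : θ ≤ 1 / 100) (hX : ‖X‖ ≤ θ * ‖b‖) :
    99 / 100 * ‖b‖ ≤ ‖X - b‖ ∧ ‖X - b‖ ≤ 101 / 100 * ‖b‖ := by
  have h1 : ‖X‖ ≤ 1 / 100 * ‖b‖ := hX.trans (mul_le_mul_of_nonneg_right hθ (norm_nonneg b))
  have h2 := norm_sub_norm_le b X
  have h3 := norm_sub_le X b
  rw [norm_sub_rev] at h2
  constructor <;> linarith

private theorem inv3 {r : ℝ} (hr : 0 < r) :
    2 * ((99 / 100 * r) ^ 3)⁻¹ ≤ 21 / 10 * (r ^ 3)⁻¹ := by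
  rw [mul_pow, mul_inv, ← mul_assoc]
  refine mul_le_mul_of_nonneg_right ?_ (by positivity)
  norm_num

private theorem inv4 {r : ℝ} (hr : 0 < r) :
    20 * ((99 / 100 * r) ^ 4)⁻¹ ≤ 21 * (r ^ 4)⁻¹ := by
  rw [mul_pow, mul_inv, ← mul_assoc]
  refine mul_le_mul_of_nonneg_right ?_ (by positivity)
  norm_num

private theorem t1 {X b : E} {r θ : ℝ} (hr : 0 < r) (hθ : θ ≤ 1 / 100) (hX : ‖X‖ = r)
    (hb : ‖b‖ ≤ θ * r) (v : E) : ‖Dg (X - b) v - Dg X v‖ ≤ 21 * θ * (r ^ 3)⁻¹ * ‖v‖ := by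
  have h1 := near_in hθ hX hb
  have h2 := Dg_lip (u := X - b) (v := X) (m := 99 / 100 * r) (by linarith) h1.1
    (by rw [hX]; linarith) v
  have h3 : ‖X - b - X‖ = ‖b‖ := by
    rw [show X - b - X = -b by abel, norm_neg]
  rw [h3] at h2
  refine h2.trans ?_
  have h4 := inv4 hr
  have h5 : (r ^ 4)⁻¹ * (θ * r) = θ * (r ^ 3)⁻¹ := by
    field_simp
  calc 20 * ((99 / 100 * r) ^ 4)⁻¹ * ‖b‖ * ‖v‖
      ≤ (21 * (r ^ 4)⁻¹) * (θ * r) * ‖v‖ := by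
        refine mul_le_mul_of_nonneg_right ?_ (norm_nonneg v)
        exact mul_le_mul h4 hb (norm_nonneg b) (by positivity)
    _ = 21 * ((r ^ 4)⁻¹ * (θ * r)) * ‖v‖ := by ring
    _ = 21 * θ * (r ^ 3)⁻¹ * ‖v‖ := by rw [h5]; ring

private theorem inv_out {b : E} {r θ : ℝ} (hr : 0 < r) (hb0 : 0 < ‖b‖) (h : r ≤ θ * ‖b‖) :
    (‖b‖ ^ 3)⁻¹ ≤ θ * r⁻¹ * (‖b‖ ^ 2)⁻¹ := by
  have h1 : ‖b‖⁻¹ ≤ θ * r⁻¹ := by
    rw [inv_le_iff_one_le_mul₀ hb0, ← mul_inv_cancel₀ hr.ne']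
    calc r * r⁻¹ ≤ (θ * ‖b‖) * r⁻¹ := mul_le_mul_of_nonneg_right h (by positivity)
      _ = θ * r⁻¹ * ‖b‖ := by ring
  have h2 : (‖b‖ ^ 3)⁻¹ = ‖b‖⁻¹ * (‖b‖ ^ 2)⁻¹ := by
    rw [← mul_inv]
    congr 1
    ring
  rw [h2]
  exact mul_le_mul_of_nonneg_right h1 (by positivity)

private theorem t2 {X b : E} {r θ : ℝ} (hr : 0 < r) (hθ0 : 0 < θ) (hθ : θ ≤ 1 / 100) (hX : ‖X‖ = r)
    (hb : r ≤ θ * ‖b‖) (v : E) :
    ‖Dg (X - b) v‖ ≤ 21 / 10 * θ * r⁻¹ * (‖b‖ ^ 2)⁻¹ * ‖v‖ := by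
  have hb0 : 0 < ‖b‖ := by
    by_contra hcon
    have : ‖b‖ = 0 := le_antisymm (not_lt.1 hcon) (norm_nonneg b)
    rw [this, mul_zero] at hb
    linarith
  have h1 := near_out hθ (X := X) (b := b) (by rw [hX]; exact hb)
  refine (norm_Dg_apply_le (X - b) v).trans ?_
  refine mul_le_mul_of_nonneg_right ?_ (norm_nonneg v)
  have h2 : (‖X - b‖ ^ 3)⁻¹ ≤ ((99 / 100 * ‖b‖) ^ 3)⁻¹ := by
    refine inv_anti₀ (by positivity) ?_
    exact pow_le_pow_left₀ (by positivity) h1.1 3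
  calc 2 * (‖X - b‖ ^ 3)⁻¹ ≤ 2 * ((99 / 100 * ‖b‖) ^ 3)⁻¹ := by linarith
    _ ≤ 21 / 10 * (‖b‖ ^ 3)⁻¹ := inv3 hb0
    _ ≤ 21 / 10 * (θ * r⁻¹ * (‖b‖ ^ 2)⁻¹) :=
        mul_le_mul_of_nonneg_left (inv_out hr hb0 hb) (by norm_num)
    _ = 21 / 10 * θ * r⁻¹ * (‖b‖ ^ 2)⁻¹ := by ring

private theorem t3 {X b : E} {r θ : ℝ} (hr : 0 < r) (hθ : θ ≤ 1 / 100) (hX : ‖X‖ = r)
    (hb : ‖b‖ ≤ θ * r) : ‖g (X - b) - g X‖ ≤ 3 * θ * (r ^ 2)⁻¹ := by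
  have h1 := near_in hθ hX hb
  have h2 := g_lip (u := X - b) (v := X) (m := 99 / 100 * r) (by linarith) h1.1
    (by rw [hX]; linarith)
  have h3 : ‖X - b - X‖ = ‖b‖ := by
    rw [show X - b - X = -b by abel, norm_neg]
  rw [h3] at h2
  refine h2.trans ?_
  have h5 : (r ^ 3)⁻¹ * (θ * r) = θ * (r ^ 2)⁻¹ := by
    field_simp
  have hθ0 : 0 ≤ θ := by
    by_contra hcon
    have := norm_nonneg b
    nlinarith [not_le.1 hcon]
  calc 2 * ((99 / 100 * r) ^ 3)⁻¹ * ‖b‖ ≤ (21 / 10 * (r ^ 3)⁻¹) * (θ * r) :=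
        mul_le_mul (inv3 hr) hb (norm_nonneg b) (by positivity)
    _ = 21 / 10 * ((r ^ 3)⁻¹ * (θ * r)) := by ring
    _ = 21 / 10 * (θ * (r ^ 2)⁻¹) := by rw [h5]
    _ ≤ 3 * θ * (r ^ 2)⁻¹ := by
        have : 0 ≤ θ * (r ^ 2)⁻¹ := by positivity
        linarith

private theorem t4 {X b : E} {r θ : ℝ} (hr : 0 < r) (hθ : θ ≤ 1 / 100) (hX : ‖X‖ = r)
    (hb : r ≤ θ * ‖b‖) : ‖g (X - b) - g (-b)‖ ≤ 3 * θ * (‖b‖ ^ 2)⁻¹ := by
  have hb0 : 0 < ‖b‖ := by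
    by_contra hcon
    have : ‖b‖ = 0 := le_antisymm (not_lt.1 hcon) (norm_nonneg b)
    rw [this, mul_zero] at hb
    linarith
  have h1 := near_out hθ (X := X) (b := b) (by rw [hX]; exact hb)
  have h2 := g_lip (u := X - b) (v := -b) (m := 99 / 100 * ‖b‖) (by linarith) h1.1
    (by rw [norm_neg]; linarith)
  have h3 : ‖X - b - -b‖ = r := by
    rw [show X - b - -b = X by abel, hX]
  rw [h3] at h2
  refine h2.trans ?_
  have h5 : (‖b‖ ^ 3)⁻¹ * (θ * ‖b‖) = θ * (‖b‖ ^ 2)⁻¹ := by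
    field_simp
  have hθ0 : 0 ≤ θ := by
    by_contra hcon
    nlinarith [not_le.1 hcon]
  calc 2 * ((99 / 100 * ‖b‖) ^ 3)⁻¹ * r ≤ (21 / 10 * (‖b‖ ^ 3)⁻¹) * (θ * ‖b‖) :=
        mul_le_mul (inv3 hb0) hb hr.le (by positivity)
    _ = 21 / 10 * ((‖b‖ ^ 3)⁻¹ * (θ * ‖b‖)) := by ring
    _ = 21 / 10 * (θ * (‖b‖ ^ 2)⁻¹) := by rw [h5]
    _ ≤ 3 * θ * (‖b‖ ^ 2)⁻¹ := by
        have : 0 ≤ θ * (‖b‖ ^ 2)⁻¹ := by positivity
        linarith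

private theorem t5 {X Y b : E} {R θ : ℝ} (hR : 0 < R) (hθ : θ ≤ 1 / 100) (hX : ‖X‖ ≤ R)
    (hY : ‖Y‖ ≤ R) (hb : R ≤ θ * ‖b‖) :
    ‖g (X - b) - g (Y - b)‖ ≤ 3 * θ * R⁻¹ * (‖b‖ ^ 2)⁻¹ * ‖X - Y‖ := by
  have hb0 : 0 < ‖b‖ := by
    by_contra hcon
    have : ‖b‖ = 0 := le_antisymm (not_lt.1 hcon) (norm_nonneg b)
    rw [this, mul_zero] at hb
    linarith
  have h1 := near_out hθ (X := X) (b := b) (hX.trans hb)
  have h1' := near_out hθ (X := Y) (b := b) (hY.trans hb)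
  have h2 := g_lip (u := X - b) (v := Y - b) (m := 99 / 100 * ‖b‖) (by linarith) h1.1 h1'.1
  have h3 : X - b - (Y - b) = X - Y := by abel
  rw [h3] at h2
  refine h2.trans (mul_le_mul_of_nonneg_right ?_ (norm_nonneg _))
  have hθ0 : 0 ≤ θ := by
    by_contra hcon
    nlinarith [not_le.1 hcon]
  calc 2 * ((99 / 100 * ‖b‖) ^ 3)⁻¹ ≤ 21 / 10 * (‖b‖ ^ 3)⁻¹ := inv3 hb0
    _ ≤ 21 / 10 * (θ * R⁻¹ * (‖b‖ ^ 2)⁻¹) :=
        mul_le_mul_of_nonneg_left (inv_out hR hb0 hb) (by norm_num)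
    _ ≤ 3 * θ * R⁻¹ * (‖b‖ ^ 2)⁻¹ := by
        have : 0 ≤ θ * R⁻¹ * (‖b‖ ^ 2)⁻¹ := by positivity
        linarith

private theorem t6 {X Y b : E} {r θ : ℝ} (hr : 0 < r) (hθ : θ ≤ 1 / 100) (hX : ‖X‖ = r)
    (hY : r ≤ ‖Y‖) (hb : ‖b‖ ≤ θ * r) :
    ‖(g (X - b) - g X) - (g (Y - b) - g Y)‖ ≤ 1620 * θ * (r ^ 3)⁻¹ * ‖X - Y‖ := by
  have hθ0 : 0 ≤ θ := by
    by_contra hcon
    have := norm_nonneg b
    nlinarith [not_le.1 hcon]
  have hbr : ‖b‖ ≤ 1 / 100 * r := hb.trans (mul_le_mul_of_nonneg_right hθ hr.le)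
  by_cases hd : ‖X - Y‖ ≤ r / 2
  · have hball : ∀ P ∈ Metric.closedBall X (r / 2), r / 2 ≤ ‖P‖ ∧ r / 3 ≤ ‖P - b‖ := by
      intro P hP
      rw [Metric.mem_closedBall, dist_eq_norm] at hP
      have h1 := norm_sub_norm_le X P
      rw [norm_sub_rev, hX] at h1
      have h2 : r / 2 ≤ ‖P‖ := by linarith
      have h3 := norm_sub_norm_le P b
      exact ⟨h2, by linarith⟩
    have hder : ∀ P ∈ Metric.closedBall X (r / 2),
        HasFDerivWithinAt (fun P => g (P - b) - g P)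
          ((Dg (P - b)).comp (ContinuousLinearMap.id ℝ E) - Dg P) (Metric.closedBall X (r / 2)) P := by
      intro P hP
      obtain ⟨h1, h2⟩ := hball P hP
      have hP0 : P ≠ 0 := by
        rintro rfl
        rw [norm_zero] at h1
        linarith
      have hPb : P - b ≠ 0 := by
        intro h0
        rw [h0, norm_zero] at h2
        linarith
      have h3 : HasFDerivAt (fun P : E => g (P - b)) ((Dg (P - b)).comp (ContinuousLinearMap.id ℝ E)) P :=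
        HasFDerivAt.comp (g := g) P (hasStrictFDerivAt_g hPb).hasFDerivAt
          (show HasFDerivAt (fun P : E => P - b) (ContinuousLinearMap.id ℝ E) P from
            (hasFDerivAt_id P).sub_const b)
      exact (h3.sub (hasStrictFDerivAt_g hP0).hasFDerivAt).hasFDerivWithinAt
    have hbd : ∀ P ∈ Metric.closedBall X (r / 2),
        ‖(Dg (P - b)).comp (ContinuousLinearMap.id ℝ E) - Dg P‖ ≤ 1620 * θ * (r ^ 3)⁻¹ := by
      intro P hP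
      obtain ⟨h1, h2⟩ := hball P hP
      refine ContinuousLinearMap.opNorm_le_bound _ (by positivity) ?_
      intro w
      have h3 := Dg_lip (u := P - b) (v := P) (m := r / 3) (by linarith) h2 (by linarith) w
      have h4 : ‖P - b - P‖ = ‖b‖ := by
        rw [show P - b - P = -b by abel, norm_neg]
      rw [h4] at h3
      have h5 : ((Dg (P - b)).comp (ContinuousLinearMap.id ℝ E) - Dg P) w =
        Dg (P - b) w - Dg P w := rfl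
      rw [h5]
      refine h3.trans (mul_le_mul_of_nonneg_right ?_ (norm_nonneg w))
      calc 20 * ((r / 3) ^ 4)⁻¹ * ‖b‖ ≤ 20 * ((r / 3) ^ 4)⁻¹ * (θ * r) :=
            mul_le_mul_of_nonneg_left hb (by positivity)
        _ = 1620 * θ * (r ^ 3)⁻¹ := by
            field_simp
            ring
    have h6 := (convex_closedBall X (r / 2)).norm_image_sub_le_of_norm_hasFDerivWithin_le hder hbd
      (Metric.mem_closedBall.2 (by rw [dist_comm, dist_eq_norm]; exact hd))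
      (Metric.mem_closedBall_self (by linarith))
    exact h6
  · have h1 := t3 hr hθ hX hb
    have hY0 : 0 < ‖Y‖ := by linarith
    have h2 := t3 hY0 hθ rfl (hb.trans (mul_le_mul_of_nonneg_left hY hθ0))
    have h3 : (‖Y‖ ^ 2)⁻¹ ≤ (r ^ 2)⁻¹ :=
      inv_anti₀ (by positivity) (pow_le_pow_left₀ hr.le hY 2)
    have h4 : 3 * θ * (‖Y‖ ^ 2)⁻¹ ≤ 3 * θ * (r ^ 2)⁻¹ :=
      mul_le_mul_of_nonneg_left h3 (by positivity)
    have h5 : (r ^ 2)⁻¹ ≤ 2 * ((r ^ 3)⁻¹ * ‖X - Y‖) := by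
      have h6 : (r ^ 2)⁻¹ = (r ^ 3)⁻¹ * r := by
        field_simp
      rw [h6]
      have h7 : 0 ≤ (r ^ 3)⁻¹ := by positivity
      have h8 := mul_le_mul_of_nonneg_left (not_le.1 hd).le h7
      linarith
    have h6 : 6 * θ * (r ^ 2)⁻¹ ≤ 6 * θ * (2 * ((r ^ 3)⁻¹ * ‖X - Y‖)) :=
      mul_le_mul_of_nonneg_left h5 (by positivity)
    have h7 : 0 ≤ θ * ((r ^ 3)⁻¹ * ‖X - Y‖) := by positivity
    refine (norm_sub_le _ _).trans ?_
    nlinarith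

/-! Sums over the cluster and over the other charges. -/

/-- the strength of the cluster -/
private noncomputable def SI (q : Fin n → ℝ) (I : Finset (Fin n)) : ℝ := ∑ i ∈ I, |q i|

/-- the other charges at the charge `j` -/
private noncomputable def MO (q : Fin n → ℝ) (a : Fin n → E) (I : Finset (Fin n)) (j : Fin n) : ℝ :=
  ∑ i ∈ Iᶜ, |q i| * (‖a i - a j‖ ^ 2)⁻¹

private theorem SI_nonneg (q : Fin n → ℝ) (I : Finset (Fin n)) : 0 ≤ SI q I :=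
  Finset.sum_nonneg fun _ _ => abs_nonneg _

private theorem MO_nonneg (q : Fin n → ℝ) (a : Fin n → E) (I : Finset (Fin n)) (j : Fin n) :
    0 ≤ MO q a I j :=
  Finset.sum_nonneg fun _ _ => mul_nonneg (abs_nonneg _) (by positivity)

private theorem split_le (q : Fin n → ℝ) (a : Fin n → E) (I : Finset (Fin n)) (j : Fin n)
    (f : Fin n → E) {c d : ℝ} (h1 : ∀ i ∈ I, ‖f i‖ ≤ |q i| * c)
    (h2 : ∀ i, i ∉ I → ‖f i‖ ≤ |q i| * (‖a i - a j‖ ^ 2)⁻¹ * d) :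
    ‖∑ i, f i‖ ≤ SI q I * c + MO q a I j * d := by
  rw [← Finset.sum_add_sum_compl I]
  refine (norm_add_le _ _).trans (add_le_add ?_ ?_)
  · rw [SI, Finset.sum_mul]
    exact (norm_sum_le _ _).trans (Finset.sum_le_sum h1)
  · rw [MO, Finset.sum_mul]
    exact (norm_sum_le _ _).trans (Finset.sum_le_sum fun i hi => h2 i (Finset.mem_compl.1 hi))

private theorem M_lower (q : Fin n → ℝ) (a : Fin n → E) (I : Finset (Fin n)) (j : Fin n) {x : E}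
    {r θ : ℝ} (hr : 0 < r) (hθ : θ ≤ 1 / 100) (hX : ‖x - a j‖ = r)
    (hI : ∀ i ∈ I, ‖a i - a j‖ ≤ θ * r) (hO : ∀ i, i ∉ I → r ≤ θ * ‖a i - a j‖) :
    SI q I * (r ^ 2)⁻¹ + MO q a I j ≤ 2 * M q a x := by
  have hxa : ∀ i, x - a i = (x - a j) - (a i - a j) := fun i => by abel
  rw [M, ← Finset.sum_add_sum_compl I, mul_add, SI, MO, Finset.sum_mul, Finset.mul_sum,
    Finset.mul_sum]
  have key : ∀ s t : ℝ, 0 < s → 0 < t → s ≤ 101 / 100 * t → (t ^ 2)⁻¹ ≤ 2 * (s ^ 2)⁻¹ := by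
    intro s t hs ht hst
    have h1 : s ^ 2 ≤ 2 * t ^ 2 := by nlinarith
    have h2 : (t ^ 2)⁻¹ = 2 * (2 * t ^ 2)⁻¹ := by
      rw [mul_inv]
      ring
    rw [h2]
    have h3 : (2 * t ^ 2)⁻¹ ≤ (s ^ 2)⁻¹ := inv_anti₀ (by positivity) h1
    linarith
  refine add_le_add (Finset.sum_le_sum ?_) (Finset.sum_le_sum ?_)
  · intro i hi
    have h1 := near_in hθ hX (hI i hi)
    rw [← hxa i] at h1
    have h2 := key ‖x - a i‖ r (by linarith) hr h1.2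
    rw [div_eq_mul_inv]
    have := mul_le_mul_of_nonneg_left h2 (abs_nonneg (q i))
    linarith
  · intro i hi
    have hi' := hO i (Finset.mem_compl.1 hi)
    have hb0 : 0 < ‖a i - a j‖ := by
      by_contra hcon
      have : ‖a i - a j‖ = 0 := le_antisymm (not_lt.1 hcon) (norm_nonneg _)
      rw [this, mul_zero] at hi'
      linarith
    have h1 := near_out hθ (X := x - a j) (b := a i - a j) (by rw [hX]; exact hi')
    rw [← hxa i] at h1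
    have h2 := key ‖x - a i‖ ‖a i - a j‖ (by linarith) hb0 h1.2
    rw [div_eq_mul_inv]
    have := mul_le_mul_of_nonneg_left h2 (abs_nonneg (q i))
    linarith

/-- the field of the cluster is not small -/
private theorem Q_lower (q : Fin n → ℝ) (a : Fin n → E) (I : Finset (Fin n)) (j : Fin n) {x : E}
    {r θ K : ℝ} (hr : 0 < r) (hθ0 : 0 < θ) (hθ : θ ≤ 1 / 100) (hK : 0 < K) (hKθ : K * θ ≤ 1 / 200)
    (hX : ‖x - a j‖ = r) (hI : ∀ i ∈ I, ‖a i - a j‖ ≤ θ * r)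
    (hO : ∀ i, i ∉ I → r ≤ θ * ‖a i - a j‖) (hR : Rob q a K x) :
    SI q I * (r ^ 2)⁻¹ + MO q a I j ≤ 8 * K * (|∑ i ∈ I, q i| * (r ^ 2)⁻¹) := by
  have hxa : ∀ i, x - a i = (x - a j) - (a i - a j) := fun i => by abel
  obtain ⟨X, hXd⟩ : ∃ X : E, X = x - a j := ⟨_, rfl⟩
  obtain ⟨Q, hQ⟩ : ∃ Q : ℝ, Q = ∑ i ∈ I, q i := ⟨_, rfl⟩
  obtain ⟨m, hm⟩ : ∃ m : ℝ, m = SI q I * (r ^ 2)⁻¹ + MO q a I j := ⟨_, rfl⟩
  have hXn : ‖X‖ = r := by rw [hXd, hX]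
  have h1 := M_lower q a I j hr hθ hX hI hO
  have h2 := hR.2 j X
  rw [hXn, hX] at h2
  have h3 : DF q a x X - Q • Dg X X = ∑ i, (q i • Dg (x - a i) X -
      (if i ∈ I then q i • Dg X X else 0)) := by
    rw [Finset.sum_sub_distrib, Finset.sum_ite_mem, Finset.univ_inter, ← Finset.sum_smul, ← hQ, DF]
    simp
  have h4 : ‖DF q a x X - Q • Dg X X‖ ≤ SI q I * (21 * θ * (r ^ 3)⁻¹ * r) +
      MO q a I j * (21 / 10 * θ * r⁻¹ * r) := by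
    rw [h3]
    refine split_le q a I j _ ?_ ?_
    · intro i hi
      rw [if_pos hi, ← smul_sub, norm_smul, Real.norm_eq_abs, hxa i, ← hXd]
      refine mul_le_mul_of_nonneg_left ?_ (abs_nonneg _)
      have := t1 hr hθ hXn (hI i hi) X
      rwa [hXn] at this
    · intro i hi
      rw [if_neg hi, sub_zero, norm_smul, Real.norm_eq_abs, hxa i, ← hXd, mul_assoc]
      refine mul_le_mul_of_nonneg_left ?_ (abs_nonneg _)
      have := t2 hr hθ0 hθ hXn (hO i hi) X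
      rw [hXn] at this
      refine this.trans (le_of_eq ?_)
      ring
  have h5 : SI q I * (21 * θ * (r ^ 3)⁻¹ * r) + MO q a I j * (21 / 10 * θ * r⁻¹ * r) ≤
      21 * θ * m := by
    have e1 : (r ^ 3)⁻¹ * r = (r ^ 2)⁻¹ := by
      field_simp
    have e2 : r⁻¹ * r = 1 := inv_mul_cancel₀ hr.ne'
    have e3 : SI q I * (21 * θ * (r ^ 3)⁻¹ * r) = 21 * θ * (SI q I * ((r ^ 3)⁻¹ * r)) := by ring
    have e4 : MO q a I j * (21 / 10 * θ * r⁻¹ * r) = 21 / 10 * θ * (MO q a I j * (r⁻¹ * r)) := by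
      ring
    rw [e3, e4, e1, e2, mul_one, hm]
    have e5 : 0 ≤ θ * MO q a I j := mul_nonneg hθ0.le (MO_nonneg q a I j)
    linarith
  have h6 : ‖Q • Dg X X‖ ≤ 2 * (|Q| * (r ^ 2)⁻¹) := by
    rw [norm_smul, Real.norm_eq_abs]
    have := norm_Dg_apply_le X X
    rw [hXn] at this
    have e1 : 2 * (r ^ 3)⁻¹ * r = 2 * (r ^ 2)⁻¹ := by
      field_simp
    rw [e1] at this
    have := mul_le_mul_of_nonneg_left this (abs_nonneg Q)
    linarith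
  have h7 : ‖DF q a x X‖ ≤ 2 * (|Q| * (r ^ 2)⁻¹) + 21 * θ * m := by
    have e1 : DF q a x X = Q • Dg X X + (DF q a x X - Q • Dg X X) := by abel
    rw [e1]
    refine (norm_add_le _ _).trans ?_
    linarith
  have h8 : M q a x * r ≤ K * r * (2 * (|Q| * (r ^ 2)⁻¹) + 21 * θ * m) :=
    h2.trans (mul_le_mul_of_nonneg_left h7 (by positivity))
  have h9 : M q a x ≤ K * (2 * (|Q| * (r ^ 2)⁻¹) + 21 * θ * m) := by
    have e1 : M q a x * r ≤ (K * (2 * (|Q| * (r ^ 2)⁻¹) + 21 * θ * m)) * r := by linarith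
    exact le_of_mul_le_mul_right e1 hr
  have hm0 : 0 ≤ m := by
    rw [hm]
    have := SI_nonneg q I
    have := MO_nonneg q a I j
    positivity
  have h10 : K * θ * m ≤ 1 / 200 * m := mul_le_mul_of_nonneg_right hKθ hm0
  rw [← hm] at h1 ⊢
  rw [← hQ]
  have e1 : K * (2 * (|Q| * (r ^ 2)⁻¹) + 21 * θ * m) = 2 * K * (|Q| * (r ^ 2)⁻¹) + 21 * (K * θ * m) := by
    ring
  rw [e1] at h9
  linarith

/-- the field of the cluster cancels the field of the other charges at `j` -/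
private theorem E_near (q : Fin n → ℝ) (a : Fin n → E) (I : Finset (Fin n)) (j : Fin n) {x : E}
    {r θ : ℝ} (hr : 0 < r) (hθ : θ ≤ 1 / 100) (hX : ‖x - a j‖ = r)
    (hI : ∀ i ∈ I, ‖a i - a j‖ ≤ θ * r) (hO : ∀ i, i ∉ I → r ≤ θ * ‖a i - a j‖)
    (hF : F q a x = 0) :
    ‖(∑ i ∈ I, q i) • g (x - a j) + ∑ i ∈ Iᶜ, q i • g (-(a i - a j))‖ ≤
      3 * θ * (SI q I * (r ^ 2)⁻¹ + MO q a I j) := by
  have hxa : ∀ i, x - a i = (x - a j) - (a i - a j) := fun i => by abel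
  have h1 : (∑ i ∈ I, q i) • g (x - a j) + ∑ i ∈ Iᶜ, q i • g (-(a i - a j)) =
      -(∑ i, (q i • g (x - a i) -
        (if i ∈ I then q i • g (x - a j) else q i • g (-(a i - a j))))) := by
    rw [Finset.sum_sub_distrib]
    have h2 : ∑ i, q i • g (x - a i) = 0 := hF
    rw [h2, zero_sub, neg_neg, ← Finset.sum_add_sum_compl I, Finset.sum_smul]
    refine congrArg₂ _ (Finset.sum_congr rfl fun i hi => ?_) (Finset.sum_congr rfl fun i hi => ?_)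
    · rw [if_pos hi]
    · rw [if_neg (Finset.mem_compl.1 hi)]
  rw [h1, norm_neg]
  refine (split_le q a I j _ (c := 3 * θ * (r ^ 2)⁻¹) (d := 3 * θ) ?_ ?_).trans (le_of_eq (by ring))
  · intro i hi
    rw [if_pos hi, ← smul_sub, norm_smul, Real.norm_eq_abs, hxa i]
    exact mul_le_mul_of_nonneg_left (t3 hr hθ hX (hI i hi)) (abs_nonneg _)
  · intro i hi
    rw [if_neg hi, ← smul_sub, norm_smul, Real.norm_eq_abs, hxa i, mul_assoc]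
    refine mul_le_mul_of_nonneg_left ?_ (abs_nonneg _)
    refine (t4 hr hθ hX (hO i hi)).trans (le_of_eq ?_)
    ring

/-- the Lipschitz estimate for the error -/
private theorem err_lip (q : Fin n → ℝ) (a : Fin n → E) (I : Finset (Fin n)) (j : Fin n) {x y : E}
    {r R θ : ℝ} (hr : 0 < r) (hrR : r ≤ R) (hθ : θ ≤ 1 / 100) (hX : ‖x - a j‖ = r)
    (hY : ‖y - a j‖ = R) (hI : ∀ i ∈ I, ‖a i - a j‖ ≤ θ * r)
    (hO : ∀ i, i ∉ I → R ≤ θ * ‖a i - a j‖) (hF : F q a x = 0) (hF' : F q a y = 0) :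
    |∑ i ∈ I, q i| * ‖g (x - a j) - g (y - a j)‖ ≤
      (SI q I * (1620 * θ * (r ^ 3)⁻¹) + MO q a I j * (3 * θ * R⁻¹)) * ‖x - y‖ := by
  have hxa : ∀ i, x - a i = (x - a j) - (a i - a j) := fun i => by abel
  have hya : ∀ i, y - a i = (y - a j) - (a i - a j) := fun i => by abel
  have hxy : (x - a j) - (y - a j) = x - y := by abel
  have hR : 0 < R := lt_of_lt_of_le hr hrR
  rw [← Real.norm_eq_abs, ← norm_smul]
  have h1 : (∑ i ∈ I, q i) • (g (x - a j) - g (y - a j)) =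
      -(∑ i, q i • ((g (x - a i) - g (y - a i)) -
        (if i ∈ I then g (x - a j) - g (y - a j) else 0))) := by
    have e1 : ∀ i, q i • ((g (x - a i) - g (y - a i)) -
        (if i ∈ I then g (x - a j) - g (y - a j) else 0)) =
        q i • g (x - a i) - q i • g (y - a i) -
          (if i ∈ I then q i • (g (x - a j) - g (y - a j)) else 0) := by
      intro i
      split_ifs
      · rw [smul_sub, smul_sub]
      · rw [sub_zero, sub_zero, smul_sub]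
    rw [Finset.sum_congr rfl fun i _ => e1 i, Finset.sum_sub_distrib, Finset.sum_sub_distrib]
    have h2 : ∑ i, q i • g (x - a i) = 0 := hF
    have h3 : ∑ i, q i • g (y - a i) = 0 := hF'
    rw [h2, h3, sub_zero, zero_sub, neg_neg, Finset.sum_ite_mem, Finset.univ_inter,
      ← Finset.sum_smul]
  rw [h1, norm_neg]
  refine (split_le q a I j _ (c := 1620 * θ * (r ^ 3)⁻¹ * ‖x - y‖)
    (d := 3 * θ * R⁻¹ * ‖x - y‖) ?_ ?_).trans (le_of_eq (by ring))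
  · intro i hi
    rw [if_pos hi, norm_smul, Real.norm_eq_abs]
    refine mul_le_mul_of_nonneg_left ?_ (abs_nonneg _)
    have h2 := t6 hr hθ hX (hY.symm ▸ hrR) (hI i hi) (Y := y - a j)
    rw [hxy, ← hxa i, ← hya i] at h2
    refine le_trans (le_of_eq ?_) h2
    congr 1
    abel
  · intro i hi
    rw [if_neg hi, sub_zero, norm_smul, Real.norm_eq_abs, mul_assoc]
    refine mul_le_mul_of_nonneg_left ?_ (abs_nonneg _)
    have h2 := t5 hR hθ (hX.trans_le hrR) hY.le (hO i hi)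
    rw [hxy, ← hxa i, ← hya i] at h2
    refine h2.trans (le_of_eq ?_)
    ring

private theorem ann_aux (q : Fin n → ℝ) (a : Fin n → E) (j : Fin n)
    (I : Finset (Fin n)) (K : ℝ) (x y : E) (hq : ∀ l, q l ≠ 0) (hj : j ∈ I) (hK : 2 ≤ K)
    (hRx : Rob q a K x) (hRy : Rob q a K y)
    (hIx : ∀ i ∈ I, 200000 * K * ‖a i - a j‖ ≤ ‖x - a j‖)
    (hOx : ∀ i, i ∉ I → 200000 * K * ‖x - a j‖ ≤ ‖a i - a j‖)
    (hIy : ∀ i ∈ I, 200000 * K * ‖a i - a j‖ ≤ ‖y - a j‖)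
    (hOy : ∀ i, i ∉ I → 200000 * K * ‖y - a j‖ ≤ ‖a i - a j‖)
    (hle : ‖x - a j‖ ≤ ‖y - a j‖) : x = y := by
  obtain ⟨r, hr⟩ : ∃ r : ℝ, r = ‖x - a j‖ := ⟨_, rfl⟩
  obtain ⟨R, hR⟩ : ∃ R : ℝ, R = ‖y - a j‖ := ⟨_, rfl⟩
  obtain ⟨θ, hθ⟩ : ∃ θ : ℝ, θ = (200000 * K)⁻¹ := ⟨_, rfl⟩
  have hK0 : 0 < K := by linarith
  have hr0 : 0 < r := by
    rw [hr]
    exact norm_pos_iff.2 (sub_ne_zero.2 (hRx.1.1 j))
  have hrR : r ≤ R := by rw [hr, hR]; exact hle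
  have hR0 : 0 < R := lt_of_lt_of_le hr0 hrR
  have hθ0 : 0 < θ := by
    rw [hθ]
    positivity
  have hKθ : K * θ = 1 / 200000 := by
    rw [hθ]
    field_simp
  have hθ1 : θ ≤ 1 / 100 := by nlinarith
  have conv1 : ∀ s t : ℝ, 200000 * K * s ≤ t → s ≤ θ * t := by
    intro s t hst
    rw [hθ, ← div_eq_inv_mul, le_div_iff₀ (by positivity)]
    linarith
  have hIx' : ∀ i ∈ I, ‖a i - a j‖ ≤ θ * r := fun i hi => by
    rw [hr]; exact conv1 _ _ (hIx i hi)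
  have hOx' : ∀ i, i ∉ I → r ≤ θ * ‖a i - a j‖ := fun i hi => by
    rw [hr]; exact conv1 _ _ (hOx i hi)
  have hIy' : ∀ i ∈ I, ‖a i - a j‖ ≤ θ * R := fun i hi => by
    rw [hR]; exact conv1 _ _ (hIy i hi)
  have hOy' : ∀ i, i ∉ I → R ≤ θ * ‖a i - a j‖ := fun i hi => by
    rw [hR]; exact conv1 _ _ (hOy i hi)
  obtain ⟨Q, hQ⟩ : ∃ Q : ℝ, Q = |∑ i ∈ I, q i| := ⟨_, rfl⟩
  have hSI : 0 < SI q I := Finset.sum_pos (fun i _ => abs_pos.2 (hq i)) ⟨j, hj⟩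
  have hMO := MO_nonneg q a I j
  have hQx := Q_lower q a I j hr0 hθ0 hθ1 hK0 (by rw [hKθ]; norm_num) hr.symm hIx' hOx' hRx
  have hQy := Q_lower q a I j hR0 hθ0 hθ1 hK0 (by rw [hKθ]; norm_num) hR.symm hIy' hOy' hRy
  have hEx := E_near q a I j hr0 hθ1 hr.symm hIx' hOx' hRx.1.2
  have hEy := E_near q a I j hR0 hθ1 hR.symm hIy' hOy' hRy.1.2
  have hlip := err_lip q a I j hr0 hrR hθ1 hr.symm hR.symm hIx' hOy' hRx.1.2 hRy.1.2
  rw [← hQ] at hQx hQy hlip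
  have hQ0 : 0 < Q := by
    by_contra hcon
    have hQ1 : Q ≤ 0 := not_lt.1 hcon
    have e1 : 0 < SI q I * (r ^ 2)⁻¹ := by positivity
    have e2 : 8 * K * (Q * (r ^ 2)⁻¹) ≤ 0 := by
      have e3 : Q * (r ^ 2)⁻¹ ≤ 0 := mul_nonpos_of_nonpos_of_nonneg hQ1 (by positivity)
      nlinarith
    linarith
  -- comparison of the radii
  have hnx : ‖(∑ i ∈ I, q i) • g (x - a j)‖ = Q * (r ^ 2)⁻¹ := by
    rw [norm_smul, norm_g, Real.norm_eq_abs, ← hQ, ← hr]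
  have hny : ‖(∑ i ∈ I, q i) • g (y - a j)‖ = Q * (R ^ 2)⁻¹ := by
    rw [norm_smul, norm_g, Real.norm_eq_abs, ← hQ, ← hR]
  have k1 : 3 * θ * (SI q I * (r ^ 2)⁻¹ + MO q a I j) ≤ 1 / 100 * (Q * (r ^ 2)⁻¹) := by
    calc 3 * θ * (SI q I * (r ^ 2)⁻¹ + MO q a I j) ≤ 3 * θ * (8 * K * (Q * (r ^ 2)⁻¹)) :=
          mul_le_mul_of_nonneg_left hQx (by positivity)
      _ = 24 * (K * θ) * (Q * (r ^ 2)⁻¹) := by ring
      _ ≤ 1 / 100 * (Q * (r ^ 2)⁻¹) := by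
          rw [hKθ]
          refine mul_le_mul_of_nonneg_right (by norm_num) (by positivity)
  have k2 : 3 * θ * (SI q I * (R ^ 2)⁻¹ + MO q a I j) ≤ 1 / 100 * (Q * (R ^ 2)⁻¹) := by
    calc 3 * θ * (SI q I * (R ^ 2)⁻¹ + MO q a I j) ≤ 3 * θ * (8 * K * (Q * (R ^ 2)⁻¹)) :=
          mul_le_mul_of_nonneg_left hQy (by positivity)
      _ = 24 * (K * θ) * (Q * (R ^ 2)⁻¹) := by ring
      _ ≤ 1 / 100 * (Q * (R ^ 2)⁻¹) := by
          rw [hKθ]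
          refine mul_le_mul_of_nonneg_right (by norm_num) (by positivity)
  have k3 : Q * (r ^ 2)⁻¹ ≤ 2 * (Q * (R ^ 2)⁻¹) := by
    obtain ⟨P, hP⟩ : ∃ P : E, P = ∑ i ∈ Iᶜ, q i • g (-(a i - a j)) := ⟨_, rfl⟩
    rw [← hP] at hEx hEy
    have e1 : ‖(∑ i ∈ I, q i) • g (x - a j)‖ ≤
        ‖(∑ i ∈ I, q i) • g (x - a j) + P‖ + ‖P‖ := by
      have := norm_sub_le ((∑ i ∈ I, q i) • g (x - a j) + P) P
      rwa [add_sub_cancel_right] at this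
    have e2 : ‖P‖ ≤ ‖(∑ i ∈ I, q i) • g (y - a j) + P‖ + ‖(∑ i ∈ I, q i) • g (y - a j)‖ := by
      have := norm_sub_le ((∑ i ∈ I, q i) • g (y - a j) + P) ((∑ i ∈ I, q i) • g (y - a j))
      rwa [add_sub_cancel_left] at this
    rw [hnx] at e1
    rw [hny] at e2
    have e3 : 0 ≤ Q * (R ^ 2)⁻¹ := by positivity
    have e4 : 0 ≤ Q * (r ^ 2)⁻¹ := by positivity
    linarith
  have k4 : R ≤ 2 * r := by
    have e1 : (r ^ 2)⁻¹ ≤ 2 * (R ^ 2)⁻¹ := by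
      have e2 : Q * (r ^ 2)⁻¹ ≤ Q * (2 * (R ^ 2)⁻¹) := by linarith
      exact le_of_mul_le_mul_left e2 hQ0
    have e3 : R ^ 2 ≤ 2 * r ^ 2 := by
      have e4 := mul_le_mul_of_nonneg_left e1 (by positivity : 0 ≤ r ^ 2 * R ^ 2)
      have e5 : r ^ 2 * R ^ 2 * (r ^ 2)⁻¹ = R ^ 2 := by
        field_simp
      have e6 : r ^ 2 * R ^ 2 * (2 * (R ^ 2)⁻¹) = 2 * r ^ 2 := by
        field_simp
      rw [e5, e6] at e4
      exact e4
    nlinarith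
  -- the contraction
  have k5 : (r ^ 3)⁻¹ ≤ 8 * (R ^ 3)⁻¹ := by
    have e1 : R ^ 3 ≤ 8 * r ^ 3 := by
      calc R ^ 3 ≤ (2 * r) ^ 3 := pow_le_pow_left₀ hR0.le k4 3
        _ = 8 * r ^ 3 := by ring
    have e2 : (r ^ 3)⁻¹ = 8 * (8 * r ^ 3)⁻¹ := by
      rw [mul_inv]
      ring
    rw [e2]
    have e3 : (8 * r ^ 3)⁻¹ ≤ (R ^ 3)⁻¹ := inv_anti₀ (by positivity) e1
    linarith
  have k6 : SI q I * (1620 * θ * (r ^ 3)⁻¹) + MO q a I j * (3 * θ * R⁻¹) ≤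
      12960 * θ * R⁻¹ * (SI q I * (R ^ 2)⁻¹ + MO q a I j) := by
    have e1 : SI q I * (1620 * θ * (r ^ 3)⁻¹) ≤ SI q I * (1620 * θ * (8 * (R ^ 3)⁻¹)) :=
      mul_le_mul_of_nonneg_left (mul_le_mul_of_nonneg_left k5 (by positivity)) hSI.le
    have e2 : (R ^ 3)⁻¹ = R⁻¹ * (R ^ 2)⁻¹ := by
      rw [← mul_inv]
      congr 1
      ring
    have e3 : 0 ≤ MO q a I j * (θ * R⁻¹) := by positivity
    rw [e2] at e1
    nlinarith
  have k7 : (SI q I * (1620 * θ * (r ^ 3)⁻¹) + MO q a I j * (3 * θ * R⁻¹)) * ‖x - y‖ ≤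
      (12960 * θ * R⁻¹ * (8 * K * (Q * (R ^ 2)⁻¹))) * ‖x - y‖ := by
    refine mul_le_mul_of_nonneg_right (k6.trans ?_) (norm_nonneg _)
    exact mul_le_mul_of_nonneg_left hQy (by positivity)
  have k8 : 12960 * θ * R⁻¹ * (8 * K * (Q * (R ^ 2)⁻¹)) = Q * (103680 * (K * θ)) * (R ^ 3)⁻¹ := by
    have e2 : (R ^ 3)⁻¹ = R⁻¹ * (R ^ 2)⁻¹ := by
      rw [← mul_inv]
      congr 1
      ring
    rw [e2]
    ring
  rw [k8, hKθ] at k7
  have hX0 : x - a j ≠ 0 := sub_ne_zero.2 (hRx.1.1 j)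
  have hY0 : y - a j ≠ 0 := sub_ne_zero.2 (hRy.1.1 j)
  have k9 := inv_lip hX0 hY0 (r := R) (by rw [← hr]; exact hrR) (by rw [← hR])
  have hxy : (x - a j) - (y - a j) = x - y := by abel
  rw [hxy] at k9
  have k10 : Q * ‖g (x - a j) - g (y - a j)‖ ≤ Q * (103680 * (1 / 200000)) * (R ^ 3)⁻¹ * ‖x - y‖ :=
    hlip.trans k7
  have k11 : Q * ‖x - y‖ ≤ Q * (103680 * (1 / 200000)) * ‖x - y‖ := by
    calc Q * ‖x - y‖ ≤ Q * (R ^ 3 * ‖g (x - a j) - g (y - a j)‖) :=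
          mul_le_mul_of_nonneg_left k9 hQ0.le
      _ = R ^ 3 * (Q * ‖g (x - a j) - g (y - a j)‖) := by ring
      _ ≤ R ^ 3 * (Q * (103680 * (1 / 200000)) * (R ^ 3)⁻¹ * ‖x - y‖) :=
          mul_le_mul_of_nonneg_left k10 (by positivity)
      _ = Q * (103680 * (1 / 200000)) * ‖x - y‖ * (R ^ 3 * (R ^ 3)⁻¹) := by ring
      _ = Q * (103680 * (1 / 200000)) * ‖x - y‖ := by
          rw [mul_inv_cancel₀ (by positivity), mul_one]
  have k12 : Q * ‖x - y‖ ≤ 0 := by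
    have := mul_nonneg hQ0.le (norm_nonneg (x - y))
    nlinarith
  have k13 : ‖x - y‖ = 0 := by
    refine le_antisymm ?_ (norm_nonneg _)
    by_contra hcon
    have := mul_pos hQ0 (not_le.1 hcon)
    linarith
  exact sub_eq_zero.1 (norm_eq_zero.1 k13)

theorem annulus_unique : ∃ C₂ : ℝ, 1 ≤ C₂ ∧ ∀ (n : ℕ) (q : Fin n → ℝ) (a : Fin n → E) (j : Fin n)
    (I : Finset (Fin n)) (K : ℝ) (x y : E),
    (∀ l, q l ≠ 0) → j ∈ I → 2 ≤ K → Rob q a K x → Rob q a K y →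
    (∀ i ∈ I, C₂ * K * ‖a i - a j‖ ≤ ‖x - a j‖) → (∀ i, i ∉ I → C₂ * K * ‖x - a j‖ ≤ ‖a i - a j‖) →
    (∀ i ∈ I, C₂ * K * ‖a i - a j‖ ≤ ‖y - a j‖) → (∀ i, i ∉ I → C₂ * K * ‖y - a j‖ ≤ ‖a i - a j‖) →
    x = y := by
  refine ⟨200000, by norm_num, ?_⟩
  intro n q a j I K x y hq hj hK hRx hRy h1 h2 h3 h4
  rcases le_total ‖x - a j‖ ‖y - a j‖ with h | h
  · exact ann_aux q a j I K x y hq hj hK hRx hRy h1 h2 h3 h4 h
  · exact (ann_aux q a j I K y x hq hj hK hRy hRx h3 h4 h1 h2 h).symm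

end SM992
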