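import Pool.Agent.Work.MP_992d6e_an.SM.Der

/-!
MODULE Approx (MP_992d6e_an, smoothed analysis): approximation of `g` near a point by polynomial maps.

For `|v| ≤ |u|/8`, `w = (2 u·v + |v|^2)/|u|^2` satisfies `|w| ≤ 1/4 + 1/64 < 1/3` and
`|u + v|^2 = |u|^2 (1 + w)`, so `(√(1+w)) = |u+v|/|u|`.  Hence
`g (u+v) - gP P u v = |u|^{-3} ((√(1+w))^{-3} - P w) (u + v)`, of norm `≤ |u|^{-3} ε (9/8)|u| ≤ 2 ε |u|^{-2}`.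
Derivative of `v ↦ gP P u v` in the direction `h`:
`|u|^{-3} (P w • h + (P' w * (2 (u+v)·h)/|u|^2) • (u+v))`, compare with
`Dg (u+v) h = |u+v|^{-3} h - 3 |u+v|^{-5} ((u+v)·h) (u+v)
 = |u|^{-3} ((√(1+w))^{-3} h + 2 (-(3/2)(√(1+w))^{-5}) ((u+v)·h)/|u|^2 (u+v))`:
the difference has norm at most `|u|^{-3} ε (1 + 2 (9/8)^2) ‖h‖ ≤ 4 ε |u|^{-3}‖h‖`.
-/

set_option autoImplicit false

namespace SM992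

/-- the polynomial approximation of `g (u + v)` -/
noncomputable def gP (P : Polynomial ℝ) (u v : E) : E :=
  ((‖u‖ ^ 3)⁻¹ * P.eval ((2 * inner ℝ u v + ‖v‖ ^ 2) / ‖u‖ ^ 2)) • (u + v)

/-- its derivative with respect to `v` -/
noncomputable def DgP (P : Polynomial ℝ) (u v : E) : E →L[ℝ] E :=
  ((‖u‖ ^ 3)⁻¹ * P.eval ((2 * inner ℝ u v + ‖v‖ ^ 2) / ‖u‖ ^ 2)) • ContinuousLinearMap.id ℝ E +
    ((‖u‖ ^ 3)⁻¹ * (2 * P.derivative.eval ((2 * inner ℝ u v + ‖v‖ ^ 2) / ‖u‖ ^ 2) / ‖u‖ ^ 2)) •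
      (innerSL ℝ (u + v)).smulRight (u + v)

theorem hasFDerivAt_gP (P : Polynomial ℝ) (u v : E) :
    HasFDerivAt (gP P u) (DgP P u v) v := by
  have h1 : HasFDerivAt (fun v : E => inner ℝ u v) (innerSL ℝ u) v := (innerSL ℝ u).hasFDerivAt
  have h2 : HasFDerivAt (fun v : E => ‖v‖ ^ 2) (2 • innerSL ℝ v) v :=
    (hasStrictFDerivAt_norm_sq v).hasFDerivAt
  have h3 : HasFDerivAt (fun v : E => (2 * inner ℝ u v + ‖v‖ ^ 2) / ‖u‖ ^ 2)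
      ((‖u‖ ^ 2)⁻¹ • ((2 : ℝ) • innerSL ℝ u + 2 • innerSL ℝ v)) v := by
    have h4 := ((h1.const_mul (2 : ℝ)).add h2).mul_const ((‖u‖ ^ 2)⁻¹)
    exact h4
  have h5 := (P.hasDerivAt ((2 * inner ℝ u v + ‖v‖ ^ 2) / ‖u‖ ^ 2)).comp_hasFDerivAt v h3
  have h6 := h5.const_mul ((‖u‖ ^ 3)⁻¹)
  have h7 : HasFDerivAt (fun v : E => u + v) (ContinuousLinearMap.id ℝ E) v :=
    (hasFDerivAt_id v).const_add u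
  have h8 := h6.smul h7
  have h9 : HasFDerivAt (gP P u) _ v := h8
  refine h9.congr_fderiv ?_
  ext1 k
  simp only [DgP, add_apply, smul_apply, ContinuousLinearMap.id_apply,
    ContinuousLinearMap.smulRight_apply, innerSL_apply_apply, smul_eq_mul, nsmul_eq_mul,
    Nat.cast_ofNat, inner_add_left, smul_smul, Function.comp_apply]
  congr 2
  ring

private theorem a0 {u v : E} (hu : u ≠ 0) (hv : ‖v‖ ≤ ‖u‖ / 8) :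
    |(2 * inner ℝ u v + ‖v‖ ^ 2) / ‖u‖ ^ 2| ≤ 1 / 3 ∧
      √(1 + (2 * inner ℝ u v + ‖v‖ ^ 2) / ‖u‖ ^ 2) * ‖u‖ = ‖u + v‖ ∧
      0 < √(1 + (2 * inner ℝ u v + ‖v‖ ^ 2) / ‖u‖ ^ 2) ∧ ‖u + v‖ ≤ 9 / 8 * ‖u‖ := by
  have hu0 : 0 < ‖u‖ := norm_pos_iff.2 hu
  have h1 := abs_le.1 (abs_real_inner_le_norm u v)
  have h2 : ‖u‖ * ‖v‖ ≤ ‖u‖ * (‖u‖ / 8) := mul_le_mul_of_nonneg_left hv hu0.le
  have h3 : ‖v‖ ^ 2 ≤ (‖u‖ / 8) ^ 2 := pow_le_pow_left₀ (norm_nonneg v) hv 2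
  have h4 : |(2 * inner ℝ u v + ‖v‖ ^ 2) / ‖u‖ ^ 2| ≤ 1 / 3 := by
    rw [abs_div, abs_of_pos (by positivity : 0 < ‖u‖ ^ 2), div_le_iff₀ (by positivity), abs_le]
    constructor
    · nlinarith [sq_nonneg ‖v‖, sq_nonneg ‖u‖]
    · nlinarith [sq_nonneg ‖v‖, sq_nonneg ‖u‖]
  have hpos : 0 < 1 + (2 * inner ℝ u v + ‖v‖ ^ 2) / ‖u‖ ^ 2 := by
    linarith [(abs_le.1 h4).1]
  refine ⟨h4, ?_, Real.sqrt_pos.2 hpos, ?_⟩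
  · have h5 : ‖u + v‖ ^ 2 = (1 + (2 * inner ℝ u v + ‖v‖ ^ 2) / ‖u‖ ^ 2) * ‖u‖ ^ 2 := by
      rw [norm_add_sq_real]
      field_simp
      ring
    rw [← Real.sqrt_sq (norm_nonneg (u + v)), h5, Real.sqrt_mul hpos.le, Real.sqrt_sq hu0.le]
  · have := norm_add_le u v
    linarith

theorem gP_approx (P : Polynomial ℝ) {u v : E} {ε : ℝ} (hu : u ≠ 0) (hv : ‖v‖ ≤ ‖u‖ / 8)
    (h : ∀ w : ℝ, |w| ≤ 1 / 3 → |((√(1 + w)) ^ 3)⁻¹ - P.eval w| ≤ ε) :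
    ‖g (u + v) - gP P u v‖ ≤ 2 * ε * (‖u‖ ^ 2)⁻¹ := by
  have hu0 : 0 < ‖u‖ := norm_pos_iff.2 hu
  obtain ⟨hw, hs, hs0, huv⟩ := a0 hu hv
  set w := (2 * inner ℝ u v + ‖v‖ ^ 2) / ‖u‖ ^ 2 with hwd
  have h1 := h w hw
  have hε : 0 ≤ ε := (abs_nonneg _).trans h1
  have h2 : g (u + v) - gP P u v = ((‖u‖ ^ 3)⁻¹ * (((√(1 + w)) ^ 3)⁻¹ - P.eval w)) • (u + v) := by
    unfold g gP
    rw [← hwd, ← sub_smul, ← hs]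
    congr 1
    rw [mul_pow, mul_inv]
    ring
  rw [h2, norm_smul, norm_mul, Real.norm_eq_abs, Real.norm_eq_abs,
    abs_of_pos (by positivity : 0 < (‖u‖ ^ 3)⁻¹)]
  calc (‖u‖ ^ 3)⁻¹ * |((√(1 + w)) ^ 3)⁻¹ - P.eval w| * ‖u + v‖ ≤
      (‖u‖ ^ 3)⁻¹ * ε * (9 / 8 * ‖u‖) := by gcongr
    _ = 9 / 8 * ε * (‖u‖ ^ 2)⁻¹ := by field_simp
    _ ≤ 2 * ε * (‖u‖ ^ 2)⁻¹ := by gcongr; norm_num

theorem DgP_approx (P : Polynomial ℝ) {u v : E} {ε : ℝ} (hu : u ≠ 0) (hv : ‖v‖ ≤ ‖u‖ / 8)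
    (h : ∀ w : ℝ, |w| ≤ 1 / 3 → |((√(1 + w)) ^ 3)⁻¹ - P.eval w| ≤ ε)
    (h' : ∀ w : ℝ, |w| ≤ 1 / 3 → |-(3 / 2) * ((√(1 + w)) ^ 5)⁻¹ - P.derivative.eval w| ≤ ε) (k : E) :
    ‖Dg (u + v) k - DgP P u v k‖ ≤ 4 * ε * (‖u‖ ^ 3)⁻¹ * ‖k‖ := by
  have hu0 : 0 < ‖u‖ := norm_pos_iff.2 hu
  obtain ⟨hw, hs, hs0, huv⟩ := a0 hu hv
  set w := (2 * inner ℝ u v + ‖v‖ ^ 2) / ‖u‖ ^ 2 with hwd
  have h1 := h w hw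
  have h1' := h' w hw
  have hε : 0 ≤ ε := (abs_nonneg _).trans h1
  have h2 : Dg (u + v) k - DgP P u v k =
      ((‖u‖ ^ 3)⁻¹ * (((√(1 + w)) ^ 3)⁻¹ - P.eval w)) • k +
      ((‖u‖ ^ 3)⁻¹ * (2 * (-(3 / 2) * ((√(1 + w)) ^ 5)⁻¹ - P.derivative.eval w) / ‖u‖ ^ 2) *
        inner ℝ (u + v) k) • (u + v) := by
    rw [Dg_apply]
    simp only [DgP, add_apply, smul_apply, ContinuousLinearMap.id_apply,
      ContinuousLinearMap.smulRight_apply, innerSL_apply_apply, smul_smul]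
    rw [← hwd]
    have e1 : (‖u + v‖ ^ 3)⁻¹ = (‖u‖ ^ 3)⁻¹ * ((√(1 + w)) ^ 3)⁻¹ := by
      rw [← hs, mul_pow, mul_inv]; ring
    have e2 : (‖u + v‖ ^ 5)⁻¹ = (‖u‖ ^ 5)⁻¹ * ((√(1 + w)) ^ 5)⁻¹ := by
      rw [← hs, mul_pow, mul_inv]; ring
    rw [e1, e2]
    have e3 : (‖u‖ ^ 3)⁻¹ * (2 * (-(3 / 2) * ((√(1 + w)) ^ 5)⁻¹ - P.derivative.eval w) / ‖u‖ ^ 2) *
        inner ℝ (u + v) k = -(3 * ((‖u‖ ^ 5)⁻¹ * ((√(1 + w)) ^ 5)⁻¹) * inner ℝ (u + v) k) -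
          (‖u‖ ^ 3)⁻¹ * (2 * P.derivative.eval w / ‖u‖ ^ 2) * inner ℝ (u + v) k := by
      field_simp
    rw [e3, mul_sub, sub_smul, sub_smul, neg_smul]
    abel
  rw [h2]
  refine (norm_add_le _ _).trans ?_
  rw [norm_smul, norm_smul, norm_mul, norm_mul, norm_mul, norm_div, norm_mul]
  simp only [Real.norm_eq_abs]
  rw [abs_of_pos (by positivity : 0 < (‖u‖ ^ 3)⁻¹), abs_of_pos (by norm_num : (0 : ℝ) < 2),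
    abs_of_pos (by positivity : 0 < ‖u‖ ^ 2)]
  have h3 := abs_real_inner_le_norm (u + v) k
  have hk := norm_nonneg k
  calc (‖u‖ ^ 3)⁻¹ * |((√(1 + w)) ^ 3)⁻¹ - P.eval w| * ‖k‖ +
      (‖u‖ ^ 3)⁻¹ * (2 * |-(3 / 2) * ((√(1 + w)) ^ 5)⁻¹ - P.derivative.eval w| / ‖u‖ ^ 2) *
        |inner ℝ (u + v) k| * ‖u + v‖ ≤
      (‖u‖ ^ 3)⁻¹ * ε * ‖k‖ + (‖u‖ ^ 3)⁻¹ * (2 * ε / ‖u‖ ^ 2) *
        ((9 / 8 * ‖u‖) * ‖k‖) * (9 / 8 * ‖u‖) := by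
        gcongr
        exact h3.trans (by gcongr)
    _ = (1 + 81 / 32) * ε * (‖u‖ ^ 3)⁻¹ * ‖k‖ := by field_simp; ring
    _ ≤ 4 * ε * (‖u‖ ^ 3)⁻¹ * ‖k‖ := by gcongr; norm_num

end SM992
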