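import Pool.Agent.Work.MP_992d6e_an.SM.BezD
import Pool.Agent.Work.MP_992d6e_an.SA.Loc

/-!
MODULE Bez (MP_992d6e_an, smoothed analysis): a Bezout bound for nondegenerate real zeros.

Suppose `Z.card > 27 m^3`.  Choose a linear form `y = Σ c_i X_i` with distinct values on `Z`
(`Module.exists_dual_forall_apply_ne_zero`, as in `SA992.exists_sep`).  `bez_dep` gives `p α`, `α < K = Z.card`,
not all zero, with `Σ_α (p α)(f) y^α = 0`.  The map `Φ x = (f_i x)_i` is smooth, vanishes at `z ∈ Z` and has an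
invertible strict derivative there (polynomial maps are `C^∞`: `ContDiff`, `HasStrictFDerivAt`), so
`map_nhds_eq_of_equiv`: for all `v` near `0` and all `z ∈ Z` there is `x_z` near `z` with `Φ x_z = v` and the
`y (x_z)` distinct.  Then `Σ_α (p α)(v) Y^α` has `K` roots and degree `< K`, so it is `0` and `(p α)(v) = 0`
for all `v` near `0`, so `p α = 0` (`SA992.poly_zero`).  The proof of `SA992.card_le` in
Work/MP_992d6e_an/SA/Loc.lean is exactly this and can be copied.
-/

set_option autoImplicit false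

namespace SM992

open Filter Topology

/-- a polynomial map -/
noncomputable def Pm (f : Fin 3 → MvPolynomial (Fin 3) ℝ) (x : E) : E :=
  WithLp.toLp 2 (fun i => MvPolynomial.eval (fun k => x k) (f i))

private theorem bz_sep (Z : Finset E) : ∃ c : Fin 3 → ℝ, ∀ z ∈ Z, ∀ z' ∈ Z, z ≠ z' →
    ∑ i, c i * z i ≠ ∑ i, c i * z' i := by
  classical
  obtain ⟨f, hf⟩ := Module.exists_dual_forall_apply_ne_zero (K := ℝ) (M := Fin 3 → ℝ)
    (ι := {p : (↥Z) × (↥Z) // p.1 ≠ p.2})
    (fun p => (fun i => p.1.1.1 i) - (fun i => p.1.2.1 i))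
    (fun p => by
      rw [Ne, sub_eq_zero]
      intro h
      refine p.2 (Subtype.ext ?_)
      ext i
      exact congrFun h i)
  have key : ∀ x : Fin 3 → ℝ, ∑ i, f (Pi.single i 1) * x i = f x := by
    intro x
    have h1 : x = ∑ j, (x j) • (Pi.single j (1 : ℝ) : Fin 3 → ℝ) := by
      ext j
      simp [Finset.sum_apply, Pi.single_apply]
    conv_rhs => rw [h1]
    rw [map_sum]
    refine Finset.sum_congr rfl fun i _ => ?_
    rw [map_smul, smul_eq_mul, mul_comm]
  refine ⟨fun i => f (Pi.single i 1), fun z hz z' hz' hne h => ?_⟩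
  have h2 := hf ⟨(⟨z, hz⟩, ⟨z', hz'⟩), fun hc => hne (congrArg Subtype.val hc)⟩
  apply h2
  rw [map_sub, sub_eq_zero]
  rw [key (fun i => z i), key (fun i => z' i)] at h
  exact h

private theorem bz_eval (f : Fin 3 → MvPolynomial (Fin 3) ℝ) (P : MvPolynomial (Fin 3) ℝ)
    (x : Fin 3 → ℝ) : MvPolynomial.eval x (MvPolynomial.aeval f P) =
      MvPolynomial.eval (fun i => MvPolynomial.eval x (f i)) P := by
  induction P using MvPolynomial.induction_on with
  | C c => simp [MvPolynomial.algebraMap_eq]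
  | add p q hp hq => rw [map_add, map_add, map_add, hp, hq]
  | mul_X p i hp =>
    rw [map_mul, map_mul, map_mul, hp, MvPolynomial.aeval_X, MvPolynomial.eval_X]

private theorem bz_smooth (P : MvPolynomial (Fin 3) ℝ) :
    ContDiff ℝ 1 (fun x : E => MvPolynomial.eval (fun k => x k) P) := by
  induction P using MvPolynomial.induction_on with
  | C c =>
    simp only [MvPolynomial.eval_C]
    exact contDiff_const
  | add p q hp hq =>
    simp only [map_add]
    exact hp.add hq
  | mul_X p i hp =>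
    simp only [map_mul, MvPolynomial.eval_X]
    exact hp.mul (EuclideanSpace.proj (𝕜 := ℝ) i : E →L[ℝ] ℝ).contDiff

private theorem bz_strict (f : Fin 3 → MvPolynomial (Fin 3) ℝ) (x : E) (T : E →L[ℝ] E)
    (hT : HasFDerivAt (Pm f) T x) (hinj : ∀ v, T v = 0 → v = 0) :
    ∃ T' : E ≃L[ℝ] E, HasStrictFDerivAt (Pm f) (T' : E →L[ℝ] E) x := by
  have hcd : ContDiff ℝ 1 (Pm f) := by
    rw [contDiff_euclidean]
    intro i
    exact bz_smooth (f i)
  have h1 : HasStrictFDerivAt (Pm f) (fderiv ℝ (Pm f) x) x :=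
    hcd.contDiffAt.hasStrictFDerivAt one_ne_zero
  rw [hT.fderiv] at h1
  have h2 : Function.Injective (T : E →ₗ[ℝ] E) := by
    rw [← LinearMap.ker_eq_bot, LinearMap.ker_eq_bot']
    exact hinj
  refine ⟨(LinearEquiv.ofInjectiveEndo (T : E →ₗ[ℝ] E) h2).toContinuousLinearEquiv, ?_⟩
  have h3 : (((LinearEquiv.ofInjectiveEndo (T : E →ₗ[ℝ] E) h2).toContinuousLinearEquiv :
      E ≃L[ℝ] E) : E →L[ℝ] E) = T := by
    ext v
    rfl
  rw [h3]
  exact h1

theorem bezout (m : ℕ) (f : Fin 3 → MvPolynomial (Fin 3) ℝ) (hf : ∀ i, (f i).totalDegree ≤ m)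
    (Z : Finset E) (hZ : ∀ x ∈ Z, Pm f x = 0 ∧ ∃ T : E →L[ℝ] E, HasFDerivAt (Pm f) T x ∧
      ∀ v, T v = 0 → v = 0) : Z.card ≤ 27 * m ^ 3 := by
  classical
  by_contra hcon
  rw [not_le] at hcon
  obtain ⟨c, hsep⟩ := bz_sep Z
  set y : MvPolynomial (Fin 3) ℝ := ∑ i, MvPolynomial.C (c i) * MvPolynomial.X i with hy
  set Y : E → ℝ := fun x => ∑ i, c i * x i with hY
  have hyev : ∀ x : E, MvPolynomial.eval (fun k => x k) y = Y x := by
    intro x
    rw [hy, hY]
    simp
  have hydeg : y.totalDegree ≤ 1 := by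
    have h1 : ∀ i, (MvPolynomial.C (c i) * MvPolynomial.X i :
        MvPolynomial (Fin 3) ℝ).totalDegree ≤ 1 := by
      intro i
      refine (MvPolynomial.totalDegree_mul _ _).trans ?_
      rw [MvPolynomial.totalDegree_C, MvPolynomial.totalDegree_X]
    rw [hy, Fin.sum_univ_three]
    refine (MvPolynomial.totalDegree_add _ _).trans (max_le
      ((MvPolynomial.totalDegree_add _ _).trans (max_le (h1 0) (h1 1))) (h1 2))
  have hYc : Continuous Y := by
    refine continuous_finsetSum _ fun i _ => ?_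
    exact continuous_const.mul (EuclideanSpace.proj i).continuous
  obtain ⟨p, ⟨α0, hα0, hp0⟩, hsum⟩ := bez_dep m Z.card hcon f hf y hydeg
  -- separating neighbourhoods
  set T : Set ℝ := Y '' (Z : Set _) with hT
  have hTfin : T.Finite := Z.finite_toSet.image _
  obtain ⟨U, hU, hdisj⟩ := hTfin.t2_separation
  have hloc : ∀ z ∈ Z, ∀ᶠ v : E in 𝓝 0, ∃ x : E, Y x ∈ U (Y z) ∧ Pm f x = v := by
    intro z hz
    obtain ⟨h0, T0, hT0, hinj⟩ := hZ z hz
    obtain ⟨F', hF'⟩ := bz_strict f z T0 hT0 hinj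
    have hm := hF'.map_nhds_eq_of_equiv
    rw [h0] at hm
    have hW : {x : E | Y x ∈ U (Y z)} ∈ 𝓝 z :=
      hYc.continuousAt.preimage_mem_nhds ((hU _).2.mem_nhds (hU _).1)
    have h2 := image_mem_map (m := Pm f) hW
    rw [hm] at h2
    filter_upwards [h2] with v hv
    obtain ⟨x, hx1, hx2⟩ := hv
    exact ⟨x, hx1, hx2⟩
  have hall : ∀ᶠ v : E in 𝓝 0, ∀ z ∈ Z, ∃ x : E, Y x ∈ U (Y z) ∧ Pm f x = v :=
    (Filter.eventually_all_finset Z).mpr hloc
  refine hp0 (SA992.poly_zero _ ?_)
  filter_upwards [hall] with v hv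
  choose! X hX1 hX2 using hv
  set P : Polynomial ℝ := ∑ α ∈ Finset.range Z.card,
    Polynomial.C (MvPolynomial.eval (fun i => v i) (p α)) * Polynomial.X ^ α with hP
  have hroot : ∀ z ∈ Z, P.eval (Y (X z)) = 0 := by
    intro z hz
    have h1 := congrArg (MvPolynomial.eval (fun k => X z k)) hsum
    rw [map_sum, map_zero] at h1
    have h2 : (fun i => MvPolynomial.eval (fun k => X z k) (f i)) = fun i => v i := by
      funext i
      exact congrArg (fun w : E => w i) (hX2 z hz)
    have h3 : ∀ α, MvPolynomial.eval (fun k => X z k) (MvPolynomial.aeval f (p α) * y ^ α) =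
        MvPolynomial.eval (fun i => v i) (p α) * Y (X z) ^ α := by
      intro α
      rw [map_mul, map_pow, bz_eval, hyev, h2]
    simp only [h3] at h1
    rw [hP, Polynomial.eval_finsetSum]
    simpa using h1
  have hinj : Set.InjOn (fun z : E => Y (X z)) (Z : Set _) := by
    intro z hz z' hz' he
    by_contra hne
    have h3 := hsep z hz z' hz' hne
    have h4 := hdisj (Set.mem_image_of_mem _ hz) (Set.mem_image_of_mem _ hz') h3
    have h5 := hX1 z hz
    have h6 := hX1 z' hz'
    simp only at he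
    rw [← he] at h6
    exact Set.disjoint_left.mp h4 h5 h6
  have hdeg : P.degree < Z.card := by
    rw [hP]
    refine lt_of_le_of_lt (Polynomial.degree_sum_le _ _) ?_
    rw [Finset.sup_lt_iff (by
      rw [bot_lt_iff_ne_bot]
      exact WithBot.natCast_ne_bot _)]
    intro α hα
    exact lt_of_le_of_lt (Polynomial.degree_C_mul_X_pow_le _ _)
      (by exact_mod_cast Finset.mem_range.mp hα)
  have hPz : P = 0 := by
    by_contra hP0
    have h7 : (Z.image (fun z : E => Y (X z))).card = Z.card :=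
      Finset.card_image_of_injOn hinj
    have h8 := Polynomial.card_le_degree_of_subset_roots (p := P)
      (Z := Z.image (fun z : E => Y (X z))) ?_
    · rw [h7] at h8
      have h9 : P.natDegree < Z.card := (Polynomial.natDegree_lt_iff_degree_lt hP0).mpr hdeg
      omega
    · intro r hr
      rw [Finset.mem_val, Finset.mem_image] at hr
      obtain ⟨z, hz, rfl⟩ := hr
      exact (Polynomial.mem_roots hP0).mpr (hroot z hz)
  have h10 := congrArg (fun Q : Polynomial ℝ => Q.coeff α0) hPz
  simp only [hP, Polynomial.finsetSum_coeff, Polynomial.coeff_C_mul, Polynomial.coeff_X_pow,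
    Polynomial.coeff_zero, mul_ite, mul_one, mul_zero] at h10
  rw [Finset.sum_ite_eq (Finset.range Z.card) α0] at h10
  simpa [hα0] using h10

end SM992
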