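import Pool.Agent.Work.MP_992d6e_an.SM.Defs

/-!
MODULE BezD (MP_992d6e_an, smoothed analysis): algebraic dependence of polynomials by counting.

Let `K > 27 m^3` and choose `B ≥ 1` with `K B^3 > (K + 3 B m + 1)^3` (possible for large `B`, as
`K > (3m)^3`).  The polynomials `y^α f^b`, `α < K`, `b ∈ {0..B-1}^3`, have total degree
`≤ K - 1 + 3 (B-1) m ≤ N := K + 3 B m`, so they lie in the span of the monomials with all exponents
`≤ N` (`MvPolynomial.restrictDegree (Fin 3) ℝ N`, or the span of the `(N+1)^3` monomials `monomial e 1`,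
`e i ≤ N`), of dimension at most `(N+1)^3`.  Hence they are linearly dependent, and grouping by `α` gives
the claim: `p α = Σ_b λ_{α,b} X_0^{b_0} X_1^{b_1} X_2^{b_2}`.
Compare `SA992.dep` in Work/MP_992d6e_an/SA/Dep.lean, whose proof can be copied with these changes.
-/

set_option autoImplicit false

namespace SM992

/-- exponent vector -/
private noncomputable def bdE (b : ℕ × ℕ × ℕ) : Fin 3 →₀ ℕ :=
  Finsupp.single 0 b.1 + Finsupp.single 1 b.2.1 + Finsupp.single 2 b.2.2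

private theorem bdE_inj : Function.Injective bdE := by
  intro b b' h
  have h0 := DFunLike.congr_fun h 0
  have h1 := DFunLike.congr_fun h 1
  have h2 := DFunLike.congr_fun h 2
  simp [bdE] at h0 h1 h2
  exact Prod.ext h0 (Prod.ext h1 h2)

private theorem bdE_surj (e : Fin 3 →₀ ℕ) : bdE (e 0, e 1, e 2) = e := by
  ext i
  fin_cases i <;> simp [bdE]

private theorem bdE_prod (f : Fin 3 → MvPolynomial (Fin 3) ℝ) (b : ℕ × ℕ × ℕ) (r : ℝ) :
    MvPolynomial.aeval f (MvPolynomial.monomial (bdE b) r) =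
      r • (f 0 ^ b.1 * f 1 ^ b.2.1 * f 2 ^ b.2.2) := by
  rw [MvPolynomial.aeval_monomial, Algebra.smul_def]
  congr 1
  rw [Finsupp.prod_fintype _ _ (fun i => pow_zero _), Fin.prod_univ_three]
  simp [bdE]

private theorem bd_numeric (m K : ℕ) (hK : 27 * m ^ 3 < K) :
    ∃ B : ℕ, (K + 3 * B * m + 1) ^ 3 < K * (B * (B * B)) := by
  set L := K + 1 with hL
  set M := 27 * m ^ 2 * L + 9 * m * L ^ 2 + L ^ 3 with hM
  refine ⟨M + 1, ?_⟩
  set B := M + 1 with hB
  have hB1 : 1 ≤ B := by omega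
  have hBB : B ≤ B ^ 2 := by nlinarith
  have h1B : 1 ≤ B ^ 2 := by nlinarith
  have h1 : 27 * m ^ 2 * L * B ^ 2 + 9 * m * L ^ 2 * B + L ^ 3 ≤ B ^ 2 * M := by
    have e1 : 9 * m * L ^ 2 * B ≤ 9 * m * L ^ 2 * B ^ 2 := Nat.mul_le_mul_left _ hBB
    have e2 : L ^ 3 * 1 ≤ L ^ 3 * B ^ 2 := Nat.mul_le_mul_left _ h1B
    have e3 : B ^ 2 * M = 27 * m ^ 2 * L * B ^ 2 + 9 * m * L ^ 2 * B ^ 2 + L ^ 3 * B ^ 2 := by
      rw [hM]; ring
    omega
  have h2 : B ^ 2 * M < B ^ 3 := by
    have : B ^ 3 = B ^ 2 * M + B ^ 2 := by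
      have : B ^ 3 = B ^ 2 * B := by ring
      rw [this, hB]; ring
    omega
  have h3 : (K + 3 * B * m + 1) ^ 3 = 27 * m ^ 3 * B ^ 3 +
      (27 * m ^ 2 * L * B ^ 2 + 9 * m * L ^ 2 * B + L ^ 3) := by
    rw [hL]; ring
  have h4 : K * (B * (B * B)) = K * B ^ 3 := by ring
  rw [h3, h4]
  have h5 : (27 * m ^ 3 + 1) * B ^ 3 ≤ K * B ^ 3 := Nat.mul_le_mul_right _ hK
  have h6 : (27 * m ^ 3 + 1) * B ^ 3 = 27 * m ^ 3 * B ^ 3 + B ^ 3 := by ring
  omega

/-- the polynomials with all exponents at most `N` -/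
private noncomputable def bdW (N : ℕ) : Submodule ℝ (MvPolynomial (Fin 3) ℝ) :=
  Submodule.span ℝ (((Finset.range (N + 1) ×ˢ (Finset.range (N + 1) ×ˢ Finset.range (N + 1))).image
    (fun b => MvPolynomial.monomial (bdE b) (1 : ℝ)) : Finset (MvPolynomial (Fin 3) ℝ)) :
      Set (MvPolynomial (Fin 3) ℝ))

private theorem bdW_finrank (N : ℕ) : Module.finrank ℝ (bdW N) ≤ (N + 1) ^ 3 := by
  classical
  refine (finrank_span_finset_le_card _).trans (Finset.card_image_le.trans ?_)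
  rw [Finset.card_product, Finset.card_product, Finset.card_range]
  exact le_of_eq (by ring)

private theorem bdW_mem (N : ℕ) (P : MvPolynomial (Fin 3) ℝ) (hP : P.totalDegree ≤ N) :
    P ∈ bdW N := by
  classical
  rw [P.as_sum]
  refine Submodule.sum_mem _ fun e he => ?_
  have h1 : ∀ i, e i ≤ N := by
    intro i
    have h2 : e i ≤ e.sum fun _ x => x := by
      by_cases h : e i = 0
      · omega
      · exact Finset.single_le_sum (f := fun i => e i) (fun _ _ => Nat.zero_le _)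
          (Finsupp.mem_support_iff.2 h)
    exact h2.trans ((MvPolynomial.le_totalDegree he).trans hP)
  have h3 : MvPolynomial.monomial e (MvPolynomial.coeff e P) =
      (MvPolynomial.coeff e P) • MvPolynomial.monomial (bdE (e 0, e 1, e 2)) (1 : ℝ) := by
    rw [bdE_surj, MvPolynomial.smul_monomial, smul_eq_mul, mul_one]
  rw [h3]
  refine Submodule.smul_mem _ _ (Submodule.subset_span ?_)
  rw [Finset.mem_coe, Finset.mem_image]
  refine ⟨(e 0, e 1, e 2), ?_, rfl⟩
  simp only [Finset.mem_product, Finset.mem_range]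
  exact ⟨Nat.lt_succ_of_le (h1 0), Nat.lt_succ_of_le (h1 1), Nat.lt_succ_of_le (h1 2)⟩

theorem bez_dep (m K : ℕ) (hK : 27 * m ^ 3 < K) (f : Fin 3 → MvPolynomial (Fin 3) ℝ)
    (hf : ∀ i, (f i).totalDegree ≤ m) (y : MvPolynomial (Fin 3) ℝ) (hy : y.totalDegree ≤ 1) :
    ∃ p : ℕ → MvPolynomial (Fin 3) ℝ, (∃ α < K, p α ≠ 0) ∧
      ∑ α ∈ Finset.range K, MvPolynomial.aeval f (p α) * y ^ α = 0 := by
  classical
  obtain ⟨B, hB⟩ := bd_numeric m K hK
  set N := K + 3 * B * m with hN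
  set tr := Finset.range B ×ˢ (Finset.range B ×ˢ Finset.range B) with htr
  set s := Finset.range K ×ˢ tr with hs
  set v : ℕ × (ℕ × ℕ × ℕ) → MvPolynomial (Fin 3) ℝ :=
    fun x => y ^ x.1 * (f 0 ^ x.2.1 * f 1 ^ x.2.2.1 * f 2 ^ x.2.2.2) with hv
  have hpow : ∀ (g : MvPolynomial (Fin 3) ℝ) (d k D : ℕ), g.totalDegree ≤ d → k ≤ D →
      (g ^ k).totalDegree ≤ D * d := by
    intro g d k D h1 h2
    exact (MvPolynomial.totalDegree_pow g k).trans (Nat.mul_le_mul h2 h1)
  have hmem : ∀ x ∈ s, v x ∈ bdW N := by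
    intro x hx
    rw [hs, htr, Finset.mem_product, Finset.mem_product, Finset.mem_product, Finset.mem_range,
      Finset.mem_range, Finset.mem_range, Finset.mem_range] at hx
    apply bdW_mem
    have e1 := hpow y 1 x.1 K hy hx.1.le
    have e2 := hpow (f 0) m x.2.1 B (hf 0) hx.2.1.le
    have e3 := hpow (f 1) m x.2.2.1 B (hf 1) hx.2.2.1.le
    have e4 := hpow (f 2) m x.2.2.2 B (hf 2) hx.2.2.2.le
    have e5 := MvPolynomial.totalDegree_mul (f 0 ^ x.2.1) (f 1 ^ x.2.2.1)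
    have e6 := MvPolynomial.totalDegree_mul (f 0 ^ x.2.1 * f 1 ^ x.2.2.1) (f 2 ^ x.2.2.2)
    have e7 := MvPolynomial.totalDegree_mul (y ^ x.1)
      (f 0 ^ x.2.1 * f 1 ^ x.2.2.1 * f 2 ^ x.2.2.2)
    have e8 : N = K * 1 + (B * m + B * m + B * m) := by rw [hN]; ring
    show (y ^ x.1 * (f 0 ^ x.2.1 * f 1 ^ x.2.2.1 * f 2 ^ x.2.2.2)).totalDegree ≤ N
    omega
  have hfin : Module.Finite ℝ (bdW N) := by
    unfold bdW
    infer_instance
  set w : {x // x ∈ s} → bdW N := fun x => ⟨v x.1, hmem x.1 x.2⟩ with hw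
  have hcard : Module.finrank ℝ (bdW N) < Fintype.card {x // x ∈ s} := by
    rw [Fintype.card_coe, hs, Finset.card_product, htr, Finset.card_product, Finset.card_product,
      Finset.card_range, Finset.card_range]
    exact lt_of_le_of_lt (bdW_finrank N) hB
  have hnli : ¬ LinearIndependent ℝ w := by
    intro h
    exact absurd h.fintype_card_le_finrank (by omega)
  rw [Fintype.not_linearIndependent_iff] at hnli
  obtain ⟨g, hg0, x0, hx0⟩ := hnli
  set G : ℕ × (ℕ × ℕ × ℕ) → ℝ := fun x => if h : x ∈ s then g ⟨x, h⟩ else 0 with hG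
  have hGs : ∀ x : {x // x ∈ s}, G x.1 = g x := fun x => dif_pos x.2
  have hsum : ∑ x ∈ s, G x • v x = 0 := by
    have h1 : ∑ x : {x // x ∈ s}, g x • v x.1 = 0 := by
      have := congrArg (Submodule.subtype (bdW N)) hg0
      rw [map_sum, map_zero] at this
      simpa [hw] using this
    rw [← Finset.sum_coe_sort, ← h1]
    exact Finset.sum_congr rfl fun x _ => by rw [hGs]
  refine ⟨fun α => ∑ b ∈ tr, MvPolynomial.monomial (bdE b) (G (α, b)), ?_, ?_⟩
  · obtain ⟨⟨α0, b0⟩, hx0s⟩ := x0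
    have hx0' := hx0s
    rw [hs, Finset.mem_product, Finset.mem_range] at hx0'
    refine ⟨α0, hx0'.1, fun h => hx0 ?_⟩
    have h1 := congrArg (MvPolynomial.coeff (bdE b0)) h
    rw [MvPolynomial.coeff_sum, MvPolynomial.coeff_zero,
      Finset.sum_eq_single_of_mem b0 hx0'.2] at h1
    · rw [MvPolynomial.coeff_monomial, if_pos rfl] at h1
      rw [← hGs]
      exact h1
    · intro b _ hb
      rw [MvPolynomial.coeff_monomial, if_neg fun h => hb (bdE_inj h)]
  · rw [← hsum, hs, Finset.sum_product]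
    refine Finset.sum_congr rfl fun α _ => ?_
    rw [map_sum, Finset.sum_mul]
    refine Finset.sum_congr rfl fun b _ => ?_
    rw [bdE_prod, hv]
    simp only [smul_mul_assoc]
    congr 1
    ring

end SM992
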