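import Pool.Agent.Work.MP_992d6e_an.SM.Defs

/-!
MODULE Net (MP_992d6e_an, smoothed analysis): finite nets of balls, uniformly in scale.

`closedBall 0 22` is compact, so it is covered by finitely many balls of radius `1/32` with centres in a
finset `T₀`; for `(c, σ)` take `T = T₀.image (fun t => c + σ • t)`.
-/

set_option autoImplicit false

namespace SM992

open Metric

theorem net : ∃ N₀ : ℕ, ∀ (c : E) (σ : ℝ), 0 < σ → ∃ T : Finset E, T.card ≤ N₀ ∧
    ∀ x : E, ‖x - c‖ ≤ 22 * σ → ∃ y ∈ T, ‖x - y‖ ≤ σ / 32 := by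
  classical
  have hK : IsCompact (closedBall (0 : E) 22) := isCompact_closedBall _ _
  obtain ⟨t, ht⟩ := hK.elim_finite_subcover (fun y : E => ball y (1 / 32)) (fun _ => isOpen_ball)
    (fun x _ => Set.mem_iUnion.2 ⟨x, mem_ball_self (by norm_num)⟩)
  refine ⟨t.card, fun c σ hσ => ⟨t.image (fun y => c + σ • y), Finset.card_image_le, ?_⟩⟩
  intro x hx
  have h1 : σ⁻¹ • (x - c) ∈ closedBall (0 : E) 22 := by
    rw [mem_closedBall_zero_iff, norm_smul, norm_inv, Real.norm_of_nonneg hσ.le,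
      inv_mul_le_iff₀ hσ]
    linarith
  obtain ⟨y, hy, hxy⟩ := Set.mem_iUnion₂.1 (ht h1)
  refine ⟨c + σ • y, Finset.mem_image.2 ⟨y, hy, rfl⟩, ?_⟩
  rw [mem_ball, dist_eq_norm] at hxy
  have h2 : x - (c + σ • y) = σ • (σ⁻¹ • (x - c) - y) := by
    rw [smul_sub, smul_inv_smul₀ hσ.ne']
    abel
  rw [h2, norm_smul, Real.norm_of_nonneg hσ.le]
  have := mul_le_mul_of_nonneg_left hxy.le hσ.le
  linarith

end SM992
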