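import Pool.Agent.Work.MP_992d6e_an.SM.Local
import Pool.Agent.Work.MP_992d6e_an.SM.Net
import Pool.Agent.Work.MP_992d6e_an.SM.Ann
import Pool.Agent.Work.MP_992d6e_an.SM.PackS

/-!
MODULE CondA (MP_992d6e_an, condition numbers): robust equilibria near two charges of comparable
distance.

We may assume `Z` nonempty.  For `x ∈ Z` let `r x = ‖x - a_j‖` be the distance to the nearest charge, `b > 0` the
minimum of `r` on `Z`, `J` with `r x < b 2^J` on `Z`, `k < J` with `s ≤ r x < 2 s`, `s = b 2^k`.  Apply `cover` to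
`A = univ.image a` with `2 L` in place of `L` (`r/L ≥ s/(2L)`, `L r ≤ 2 L s`), `m` with `8 L ≤ 2^m ≤ 16 L` or so:
there is `c ∈ U k` with `‖a_j - c‖ ≤ 20 s`, so `‖x - c‖ ≤ 22 s`, and a point `y` of the net of `net` for
`(c, s)` with `‖x - y‖ ≤ s/32`.  Put `s' = s/2`: every charge has distance `≥ r - s/32 ≥ s'` from `y`,
`‖x - y‖ ≤ s'/16`, `M q a y ≤ 2 M q a x` (`‖x - a_i‖ ≤ (17/16)‖y - a_i‖`), so for all `v`
`M q a y ‖v‖ ≤ 2 K r ‖DF v‖ ≤ 8 K s' ‖DF v‖` and `local_count` with `8 K` bounds the number of such `x` by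
`C (log (8K))^3 ≤ 64 C (log K)^3` for each triple `(k, c, y)`.  The number of triples is at most
`N₀ * 6 m n`, and `m ≤ C' log L` (`L ≥ 10`).  (`M q a y > 0` since `n ≥ 1`, `q ≠ 0`.)
-/

set_option autoImplicit false

namespace SM992

private theorem M_le {n : ℕ} (q : Fin n → ℝ) (a : Fin n → E) {x y : E} {s : ℝ} (hs : 0 < s)
    (hy : ∀ l, s ≤ ‖y - a l‖) (hx : ∀ l, s ≤ ‖x - a l‖) (hxy : ‖x - y‖ ≤ s / 16) :
    M q a y ≤ 2 * M q a x := by
  rw [M, M, Finset.mul_sum]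
  refine Finset.sum_le_sum fun l _ => ?_
  have h1 := hy l
  have h0 : 0 < ‖y - a l‖ := hs.trans_le h1
  have h2 : ‖x - a l‖ ≤ 17 / 16 * ‖y - a l‖ := by
    have h3 : ‖x - a l‖ ≤ ‖x - y‖ + ‖y - a l‖ := by
      rw [show x - a l = (x - y) + (y - a l) by abel]
      exact norm_add_le _ _
    linarith
  have h00 : 0 < ‖x - a l‖ := hs.trans_le (hx l)
  have h5 : ‖x - a l‖ ^ 2 ≤ 2 * ‖y - a l‖ ^ 2 := by
    calc ‖x - a l‖ ^ 2 ≤ (17 / 16 * ‖y - a l‖) ^ 2 := by gcongr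
      _ ≤ 2 * ‖y - a l‖ ^ 2 := by nlinarith [sq_nonneg ‖y - a l‖]
  rw [← mul_div_assoc, div_le_div_iff₀ (by positivity) (by positivity)]
  calc |q l| * ‖x - a l‖ ^ 2 ≤ |q l| * (2 * ‖y - a l‖ ^ 2) :=
        mul_le_mul_of_nonneg_left h5 (abs_nonneg _)
    _ = 2 * |q l| * ‖y - a l‖ ^ 2 := by ring

private theorem M_pos {n : ℕ} (hn : 1 ≤ n) (q : Fin n → ℝ) (a : Fin n → E) (hq : ∀ l, q l ≠ 0) {y : E}
    {s : ℝ} (hs : 0 < s) (hy : ∀ l, s ≤ ‖y - a l‖) : 0 < M q a y := by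
  rw [M]
  refine Finset.sum_pos (fun l _ => ?_) ⟨⟨0, hn⟩, Finset.mem_univ _⟩
  have h1 := abs_pos.2 (hq l)
  have h2 : 0 < ‖y - a l‖ := hs.trans_le (hy l)
  positivity

private theorem scale {L : ℝ} (hL : 10 ≤ L) : ∃ m : ℕ, 4 * (2 * L) ≤ 2 ^ m ∧
    (m : ℝ) ≤ 3 / Real.log 2 * Real.log L := by
  obtain ⟨m, hm1, hm2⟩ := exists_nat_pow_near (by linarith : 1 ≤ 8 * L) (by norm_num : (1 : ℝ) < 2)
  refine ⟨m + 1, by linarith, ?_⟩
  have hlog2 : 0 < Real.log 2 := Real.log_pos (by norm_num)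
  have h1 : (2 : ℝ) ^ (m + 1) ≤ L ^ 3 := by
    calc (2 : ℝ) ^ (m + 1) = 2 ^ m * 2 := pow_succ _ _
      _ ≤ 8 * L * 2 := by gcongr
      _ ≤ L ^ 3 := by nlinarith [mul_nonneg (by linarith : 0 ≤ L) (by nlinarith : 0 ≤ L ^ 2 - 16)]
  have h2 := Real.log_le_log (by positivity) h1
  rw [Real.log_pow, Real.log_pow] at h2
  rw [div_mul_eq_mul_div, le_div_iff₀ hlog2]
  exact_mod_cast h2

/-- the points of `Z` near `y` at the scale `s` -/
private theorem piece {C : ℝ} (hC : 0 < C) (hloc : ∀ (n : ℕ) (q : Fin n → ℝ) (a : Fin n → E) (y : E)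
    (s K : ℝ), 0 < s → 2 ≤ K → 0 < M q a y → (∀ l, s ≤ ‖y - a l‖) →
    ∀ Z : Finset E, (∀ x ∈ Z, ‖x - y‖ ≤ s / 16 ∧ F q a x = 0 ∧
      ∀ v, M q a y * ‖v‖ ≤ K * s * ‖DF q a x v‖) → (Z.card : ℝ) ≤ C * Real.log K ^ 3)
    {n : ℕ} (hn : 1 ≤ n) (q : Fin n → ℝ) (a : Fin n → E) (hq : ∀ l, q l ≠ 0) {K : ℝ} (hK : 2 ≤ K)
    {σ : ℝ} (hσ : 0 < σ) (y : E) (Z : Finset E) (hZ : ∀ x ∈ Z, Rob q a K x ∧ ‖x - y‖ ≤ σ / 32 ∧
      ∃ j, (∀ l, ‖x - a j‖ ≤ ‖x - a l‖) ∧ σ ≤ ‖x - a j‖ ∧ ‖x - a j‖ ≤ 2 * σ) :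
    (Z.card : ℝ) ≤ 64 * C * Real.log K ^ 3 := by
  have hK0 : 0 < Real.log K := Real.log_pos (by linarith)
  rcases Z.eq_empty_or_nonempty with h | ⟨x₀, hx₀⟩
  · rw [h, Finset.card_empty, Nat.cast_zero]
    positivity
  have hfar : ∀ x ∈ Z, ∀ l, σ ≤ ‖x - a l‖ := by
    intro x hx l
    obtain ⟨_, _, j, hj, hj1, _⟩ := hZ x hx
    exact hj1.trans (hj l)
  have hy : ∀ l, σ / 2 ≤ ‖y - a l‖ := by
    intro l
    have h1 := hfar x₀ hx₀ l
    have h2 := (hZ x₀ hx₀).2.1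
    have h3 : ‖x₀ - a l‖ ≤ ‖x₀ - y‖ + ‖y - a l‖ := by
      rw [show x₀ - a l = (x₀ - y) + (y - a l) by abel]
      exact norm_add_le _ _
    linarith
  have h1 := hloc n q a y (σ / 2) (8 * K) (by positivity) (by linarith)
    (M_pos hn q a hq (by positivity) hy) hy Z ?_
  · refine h1.trans ?_
    have h2 : Real.log (8 * K) ≤ 4 * Real.log K := by
      have h3 : 8 * K ≤ K ^ 4 := by
        have h4 : (8 : ℝ) ≤ K ^ 3 := by
          calc (8 : ℝ) = 2 ^ 3 := by norm_num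
            _ ≤ K ^ 3 := by gcongr
        calc 8 * K ≤ K ^ 3 * K := by gcongr
          _ = K ^ 4 := by ring
      have h5 := Real.log_le_log (by positivity) h3
      rw [Real.log_pow] at h5
      exact_mod_cast h5
    have h6 : 0 ≤ Real.log (8 * K) := Real.log_nonneg (by linarith)
    calc C * Real.log (8 * K) ^ 3 ≤ C * (4 * Real.log K) ^ 3 := by gcongr
      _ = 64 * C * Real.log K ^ 3 := by ring
  · intro x hx
    obtain ⟨hR, hxy, j, hj, hj1, hj2⟩ := hZ x hx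
    refine ⟨by linarith, hR.1.2, fun v => ?_⟩
    have h2 := M_le q a (by positivity : 0 < σ / 2) hy (fun l => by linarith [hfar x hx l])
      (by linarith : ‖x - y‖ ≤ σ / 2 / 16)
    have h3 := hR.2 j v
    calc M q a y * ‖v‖ ≤ 2 * M q a x * ‖v‖ := by gcongr
      _ = 2 * (M q a x * ‖v‖) := by ring
      _ ≤ 2 * (K * ‖x - a j‖ * ‖DF q a x v‖) := by gcongr
      _ ≤ 2 * (K * (2 * σ) * ‖DF q a x v‖) := by gcongr
      _ = 8 * K * (σ / 2) * ‖DF q a x v‖ := by ring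

theorem cond_near : ∃ C : ℝ, 0 < C ∧ ∀ (n : ℕ) (q : Fin n → ℝ) (a : Fin n → E) (K L : ℝ),
    1 ≤ n → (∀ l, q l ≠ 0) → 2 ≤ K → 10 ≤ L →
    ∀ Z : Finset E, (∀ x ∈ Z, Rob q a K x ∧ ∃ i j, i ≠ j ∧ (∀ l, ‖x - a j‖ ≤ ‖x - a l‖) ∧
      ‖x - a j‖ / L ≤ ‖a i - a j‖ ∧ ‖a i - a j‖ ≤ L * ‖x - a j‖) →
    (Z.card : ℝ) ≤ C * n * Real.log L * Real.log K ^ 3 := by
  classical
  obtain ⟨C, hC, hloc⟩ := local_count
  obtain ⟨N₀, hnet⟩ := net
  have hlog2 : 0 < Real.log 2 := Real.log_pos (by norm_num)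
  refine ⟨1152 * C * (N₀ + 1) / Real.log 2, by positivity, ?_⟩
  intro n q a K L hn hq hK hL Z hZ
  have hK0 : 0 < Real.log K := Real.log_pos (by linarith)
  have hL0 : 0 < Real.log L := Real.log_pos (by linarith)
  rcases Z.eq_empty_or_nonempty with h | hne
  · rw [h, Finset.card_empty, Nat.cast_zero]
    positivity
  -- the nearest charge
  have hex : ∀ x : E, ∃ j, x ∈ Z → (∀ l, ‖x - a j‖ ≤ ‖x - a l‖) ∧ ∃ i,
      ‖x - a j‖ / L ≤ ‖a i - a j‖ ∧ ‖a i - a j‖ ≤ L * ‖x - a j‖ := by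
    intro x
    by_cases hx : x ∈ Z
    · obtain ⟨_, i, j, _, h1, h2, h3⟩ := hZ x hx
      exact ⟨j, fun _ => ⟨h1, i, h2, h3⟩⟩
    · exact ⟨⟨0, hn⟩, fun h => absurd h hx⟩
  choose nr hnr using hex
  obtain ⟨xm, hxm, hmin⟩ := Finset.exists_min_image Z (fun x => ‖x - a (nr x)‖) hne
  obtain ⟨xM, hxM, hmax⟩ := Finset.exists_max_image Z (fun x => ‖x - a (nr x)‖) hne
  obtain ⟨b, hb⟩ : ∃ b : ℝ, b = ‖xm - a (nr xm)‖ := ⟨_, rfl⟩
  have hb0 : 0 < b := by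
    rw [hb]
    exact norm_pos_iff.2 (sub_ne_zero.2 ((hZ xm hxm).1.1.1 _))
  obtain ⟨J, hJ⟩ := pow_unbounded_of_one_lt (‖xM - a (nr xM)‖ / b) (by norm_num : (1 : ℝ) < 2)
  obtain ⟨m, hm, hmL⟩ := scale hL
  obtain ⟨U, hU, hcov⟩ := cover (Finset.univ.image a) hb0 (by linarith : 10 ≤ 2 * L) m J hm
  choose! T hT1 hT2 using fun (c : E) (σ : ℝ) => hnet c σ
  let Zp : ℕ → E → Finset E := fun k y => Z.filter fun x =>
    ‖x - y‖ ≤ b * 2 ^ k / 32 ∧ b * 2 ^ k ≤ ‖x - a (nr x)‖ ∧ ‖x - a (nr x)‖ ≤ 2 * (b * 2 ^ k)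
  have hsub : Z ⊆ (Finset.range J).biUnion fun k => (U k).biUnion fun c =>
      (T c (b * 2 ^ k)).biUnion fun y => Zp k y := by
    intro x hx
    have hx1 : b ≤ ‖x - a (nr x)‖ := by
      rw [hb]
      exact hmin x hx
    obtain ⟨k, hk1, hk2⟩ := exists_nat_pow_near
      (by rwa [one_le_div hb0] : 1 ≤ ‖x - a (nr x)‖ / b) (by norm_num : (1 : ℝ) < 2)
    rw [le_div_iff₀ hb0] at hk1
    rw [div_lt_iff₀ hb0, pow_succ] at hk2
    have hkJ : k < J := by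
      have h1 : (2 : ℝ) ^ k < 2 ^ J := by
        refine lt_of_le_of_lt ?_ hJ
        rw [le_div_iff₀ hb0]
        exact hk1.trans (hmax x hx)
      exact (pow_lt_pow_iff_right₀ (by norm_num)).1 h1
    have hσ : 0 < b * 2 ^ k := by positivity
    obtain ⟨hnx, i, hi1, hi2⟩ := hnr x hx
    obtain ⟨c, hc, hxc⟩ := hcov k hkJ (a (nr x)) (Finset.mem_image_of_mem a (Finset.mem_univ _))
      ⟨a i, Finset.mem_image_of_mem a (Finset.mem_univ _), by
        rw [dist_comm, dist_eq_norm]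
        refine le_trans ?_ hi1
        rw [div_le_div_iff₀ (by positivity) (by positivity)]
        have h0 : 0 ≤ L * ‖x - a (nr x)‖ := by positivity
        have h2 : b * 2 ^ k * L ≤ ‖x - a (nr x)‖ * L :=
          mul_le_mul_of_nonneg_right (by linarith) (by linarith)
        linarith, by
        rw [dist_comm, dist_eq_norm]
        refine hi2.trans ?_
        have h2 : L * ‖x - a (nr x)‖ ≤ L * (2 * (b * 2 ^ k)) :=
          mul_le_mul_of_nonneg_left (by linarith) (by linarith)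
        linarith⟩
    obtain ⟨y, hy, hxy⟩ := hT2 c (b * 2 ^ k) hσ x (by
      have h1 : ‖x - c‖ ≤ ‖x - a (nr x)‖ + ‖a (nr x) - c‖ := by
        rw [show x - c = (x - a (nr x)) + (a (nr x) - c) by abel]
        exact norm_add_le _ _
      rw [dist_eq_norm] at hxc
      linarith)
    simp only [Finset.mem_biUnion, Finset.mem_range]
    refine ⟨k, hkJ, c, hc, y, hy, ?_⟩
    rw [Finset.mem_filter]
    exact ⟨hx, hxy, by linarith, by linarith⟩
  have hpiece : ∀ k y, ((Zp k y).card : ℝ) ≤ 64 * C * Real.log K ^ 3 := by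
    intro k y
    refine piece hC hloc hn q a hq hK (by positivity : 0 < b * 2 ^ k) y _ ?_
    intro x hx
    obtain ⟨hx1, hx2, hx3, hx4⟩ := Finset.mem_filter.1 hx
    exact ⟨(hZ x hx1).1, hx2, nr x, (hnr x hx1).1, hx3, hx4⟩
  have hcard : (Z.card : ℝ) ≤ ∑ k ∈ Finset.range J, ((U k).card : ℝ) *
      ((N₀ : ℝ) * (64 * C * Real.log K ^ 3)) := by
    have h1 : Z.card ≤ ∑ k ∈ Finset.range J, ∑ c ∈ U k, ∑ y ∈ T c (b * 2 ^ k), (Zp k y).card := by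
      refine (Finset.card_le_card hsub).trans (Finset.card_biUnion_le.trans ?_)
      refine Finset.sum_le_sum fun k _ => Finset.card_biUnion_le.trans ?_
      exact Finset.sum_le_sum fun c _ => Finset.card_biUnion_le
    have h2 : (Z.card : ℝ) ≤ ∑ k ∈ Finset.range J, ∑ c ∈ U k, ∑ y ∈ T c (b * 2 ^ k),
        ((Zp k y).card : ℝ) := by
      exact_mod_cast h1
    refine h2.trans (Finset.sum_le_sum fun k _ => ?_)
    rw [← nsmul_eq_mul]
    refine Finset.sum_le_card_nsmul _ _ _ fun c _ => ?_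
    refine (Finset.sum_le_card_nsmul _ _ _ fun y _ => hpiece k y).trans ?_
    rw [nsmul_eq_mul]
    have h3 : ((T c (b * 2 ^ k)).card : ℝ) ≤ N₀ := by
      exact_mod_cast hT1 c (b * 2 ^ k) (by positivity)
    gcongr
  have hUr : ∑ k ∈ Finset.range J, ((U k).card : ℝ) ≤ 6 * m * n := by
    have h1 : (Finset.univ.image a).card ≤ n := by
      have := Finset.card_image_le (s := (Finset.univ : Finset (Fin n))) (f := a)
      rwa [Finset.card_univ, Fintype.card_fin] at this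
    have h2 : ∑ k ∈ Finset.range J, (U k).card ≤ 6 * m * n :=
      hU.trans (Nat.mul_le_mul_left _ h1)
    exact_mod_cast h2
  rw [← Finset.sum_mul] at hcard
  calc (Z.card : ℝ) ≤ (∑ k ∈ Finset.range J, ((U k).card : ℝ)) *
        ((N₀ : ℝ) * (64 * C * Real.log K ^ 3)) := hcard
    _ ≤ (6 * m * n) * ((N₀ + 1 : ℝ) * (64 * C * Real.log K ^ 3)) := by
        gcongr
        linarith
    _ ≤ (6 * (3 / Real.log 2 * Real.log L) * n) * ((N₀ + 1 : ℝ) * (64 * C * Real.log K ^ 3)) := by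
        gcongr
    _ = 1152 * C * (N₀ + 1) / Real.log 2 * n * Real.log L * Real.log K ^ 3 := by
        ring

end SM992
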