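import Pool.Agent.Work.MP_992d6e_an.SM.Det
import Pool.Agent.Work.MP_992d6e_an.SM.IllV
import Pool.Agent.Work.MP_992d6e_an.SM.Vol

/-!
MODULE Core (MP_992d6e_an, smoothed analysis): the volume of the bad positions of one charge.

`C₀`, `C` from `det_count`.  If `‖z‖ ≤ 1` and the conclusion fails for `a' = update a l z`, then one of the
hypotheses of `det_count` fails:
* `‖z - a_i‖ < δ` for some `i ≠ l`: volume `≤ n (π 4/3) δ^3 ≤ 5 n δ^3`;
* `‖Ej q a' j‖ < δ^4 Mj q a' j` for some `j ≠ l` while the distances are `≥ δ`: `ej_ball` with `d = δ`, `κ = δ^4`,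
  `η = δ`: radius `16 δ`, total volume `≤ 5 n (16 δ)^3`;
* `‖dip‖ < δ^2 S`: `dip_ball`, radius `2 δ`, volume `≤ 40 δ^3`;
* there are `x`, `v` with `‖DF v‖ < δ^58 S ‖v‖`, so (normalise `v`) `z ∈ Ill q a l (δ^5/128) (C₀/δ^2) (δ^58)`, of
  volume `≤ 10 δ^58 (C₀/δ^2 + 1)^12 / (δ^3 (δ^5/128)^6) ≤ 10 (2 C₀)^12 128^6 δ`.
Everything is `≤ C' n δ` as `δ ≤ 1`, `n ≥ 1`.  (`a' i = a i` for `i ≠ l`, `a' l = z`.)
`Bad` is a union of finitely many sets; outer measure suffices, `measure_mono`, `measure_union_le`,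
`measure_biUnion_finset_le`.
-/

set_option autoImplicit false

namespace SM992

open MeasureTheory

private theorem vol_ball (c : E) {r : ℝ} (hr : 0 ≤ r) :
    volume (Metric.closedBall c r) ≤ ENNReal.ofReal (5 * r ^ 3) := by
  rw [EuclideanSpace.volume_closedBall_fin_three, ← ENNReal.ofReal_pow hr,
    ← ENNReal.ofReal_mul (by positivity)]
  refine ENNReal.ofReal_le_ofReal ?_
  have hpi : Real.pi * 4 / 3 ≤ 5 := by
    have := Real.pi_lt_d2
    linarith
  have h := mul_le_mul_of_nonneg_left hpi (pow_nonneg hr 3)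
  linarith

private theorem sum_ball {n : ℕ} (s : Finset (Fin n)) (c : Fin n → E) {r : ℝ} (hr : 0 ≤ r) :
    volume (⋃ i ∈ s, Metric.closedBall (c i) r) ≤ ENNReal.ofReal (n * (5 * r ^ 3)) := by
  refine (measure_biUnion_finset_le s _).trans ?_
  refine (Finset.sum_le_sum fun i _ => vol_ball (c i) hr).trans ?_
  rw [Finset.sum_const, nsmul_eq_mul, ENNReal.ofReal_mul (Nat.cast_nonneg n),
    ENNReal.ofReal_natCast]
  gcongr
  have := Finset.card_le_univ s
  simpa using this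

private theorem num {C₀ δ : ℝ} (hC : 100 ≤ C₀) (hδ : 0 < δ) (hδ1 : δ ≤ 1 / 2) :
    10 * δ ^ 58 * (C₀ / δ ^ 2 + 1) ^ 12 / (δ ^ 3 * (δ ^ 5 / 128) ^ 6) ≤
      10 * 128 ^ 6 * (2 * C₀) ^ 12 * δ := by
  have h1 : C₀ / δ ^ 2 + 1 ≤ 2 * C₀ / δ ^ 2 := by
    rw [div_add_one (by positivity)]
    refine div_le_div_of_nonneg_right ?_ (by positivity)
    have : δ ^ 2 ≤ 1 := by nlinarith
    linarith
  have h2 : (C₀ / δ ^ 2 + 1) ^ 12 ≤ (2 * C₀ / δ ^ 2) ^ 12 :=
    pow_le_pow_left₀ (by positivity) h1 12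
  calc 10 * δ ^ 58 * (C₀ / δ ^ 2 + 1) ^ 12 / (δ ^ 3 * (δ ^ 5 / 128) ^ 6)
      ≤ 10 * δ ^ 58 * (2 * C₀ / δ ^ 2) ^ 12 / (δ ^ 3 * (δ ^ 5 / 128) ^ 6) := by gcongr
    _ = 10 * 128 ^ 6 * (2 * C₀) ^ 12 * δ := by
        field_simp

theorem core : ∃ C : ℝ, 0 < C ∧
    ∀ (n : ℕ) (q : Fin n → ℝ) (a : Fin n → E) (l : Fin n) (δ : ℝ),
    (∀ j, q j ≠ 0) → (∀ j, j ≠ l → ‖a j‖ ≤ 1) → 0 < δ → δ ≤ 1 / 2 → δ * S q ≤ |q l| →
    (∀ i j, i ≠ l → j ≠ l → i ≠ j → δ ≤ ‖a i - a j‖) →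
    volume {z : E | ‖z‖ ≤ 1 ∧ ¬ ({x | IsEq q (Function.update a l z) x}.Finite ∧
      ({x | IsEq q (Function.update a l z) x}.ncard : ℝ) ≤ C * n * Real.log (1 / δ) ^ 4)} ≤
      ENNReal.ofReal (C * n * δ) := by
  obtain ⟨C₀, hC₀, C₁, hC₁, hdet⟩ := det_count
  refine ⟨C₁ + 20525 + 10 * 128 ^ 6 * (2 * C₀) ^ 12, by positivity, ?_⟩
  intro n q a l δ hq ha hδ hδ1 hδS hsep
  obtain ⟨C, hC⟩ : ∃ C : ℝ, C = C₁ + 20525 + 10 * 128 ^ 6 * (2 * C₀) ^ 12 := ⟨_, rfl⟩
  rw [← hC]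
  have hn : (1 : ℝ) ≤ n := by
    have : 1 ≤ n := (Nat.zero_le _).trans_lt l.2
    exact_mod_cast this
  have hball : ∀ j, j ≠ l → ∃ c : E, {z : E | ‖z‖ ≤ 1 ∧
      (∀ i, i ≠ j → δ ≤ ‖Function.update a l z j - Function.update a l z i‖) ∧
      ‖Ej q (Function.update a l z) j‖ < δ ^ 4 * Mj q (Function.update a l z) j} ⊆
      Metric.closedBall c (16 * δ) := by
    intro j hj
    obtain ⟨c, hc⟩ := ej_ball q a l j hj (hq l) hδ (by positivity : 0 ≤ δ ^ 4) hδ hδS (ha j hj)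
    refine ⟨c, hc.trans (Metric.closedBall_subset_closedBall (le_of_eq ?_))⟩
    field_simp
  have hball' : ∀ j, ∃ c : E, j ≠ l → {z : E | ‖z‖ ≤ 1 ∧
      (∀ i, i ≠ j → δ ≤ ‖Function.update a l z j - Function.update a l z i‖) ∧
      ‖Ej q (Function.update a l z) j‖ < δ ^ 4 * Mj q (Function.update a l z) j} ⊆
      Metric.closedBall c (16 * δ) := by
    intro j
    by_cases hj : j = l
    · exact ⟨0, fun h => absurd hj h⟩
    · obtain ⟨c, hc⟩ := hball j hj
      exact ⟨c, fun _ => hc⟩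
  choose c hc using hball'
  obtain ⟨c', hc'⟩ := dip_ball q a l (hq l) (by positivity : 0 ≤ δ ^ 2) hδ hδS
  have hr' : 2 * δ ^ 2 / δ = 2 * δ := by field_simp
  rw [hr'] at hc'
  have hsub : {z : E | ‖z‖ ≤ 1 ∧ ¬ ({x | IsEq q (Function.update a l z) x}.Finite ∧
      ({x | IsEq q (Function.update a l z) x}.ncard : ℝ) ≤ C * n * Real.log (1 / δ) ^ 4)} ⊆
      (⋃ i ∈ (Finset.univ : Finset (Fin n)).erase l, Metric.closedBall (a i) δ) ∪
      ((⋃ i ∈ (Finset.univ : Finset (Fin n)).erase l, Metric.closedBall (c i) (16 * δ)) ∪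
      (Metric.closedBall c' (2 * δ) ∪ Ill q a l (δ ^ 5 / 128) (C₀ / δ ^ 2) (δ ^ 58))) := by
    rintro z ⟨hz1, hz⟩
    by_contra hcon
    simp only [Set.mem_union, not_or] at hcon
    obtain ⟨h1, h2, h3, h4⟩ := hcon
    have h1' : ∀ i, i ≠ l → δ ≤ ‖z - a i‖ := by
      intro i hi
      by_contra hlt
      refine h1 ?_
      rw [Set.mem_iUnion₂]
      refine ⟨i, Finset.mem_erase.2 ⟨hi, Finset.mem_univ i⟩, ?_⟩
      rw [mem_closedBall_iff_norm]
      exact (not_le.1 hlt).le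
    have hsep' : ∀ i j, i ≠ j →
        δ ≤ ‖Function.update a l z i - Function.update a l z j‖ := by
      intro i j hij
      by_cases hi : i = l
      · subst hi
        rw [Function.update_self, Function.update_of_ne hij.symm]
        exact h1' j hij.symm
      · by_cases hj : j = l
        · subst hj
          rw [Function.update_self, Function.update_of_ne hij, norm_sub_rev]
          exact h1' i hij
        · rw [Function.update_of_ne hi, Function.update_of_ne hj]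
          exact hsep i j hi hj hij
    have hnorm : ∀ j, ‖Function.update a l z j‖ ≤ 1 := by
      intro j
      by_cases hj : j = l
      · subst hj
        rw [Function.update_self]
        exact hz1
      · rw [Function.update_of_ne hj]
        exact ha j hj
    have hE : ∀ j, j ≠ l → δ ^ 4 * Mj q (Function.update a l z) j ≤
        ‖Ej q (Function.update a l z) j‖ := by
      intro j hj
      by_contra hlt
      refine h2 ?_
      rw [Set.mem_iUnion₂]
      refine ⟨j, Finset.mem_erase.2 ⟨hj, Finset.mem_univ j⟩, ?_⟩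
      exact hc j hj ⟨hz1, fun i hi => hsep' j i hi.symm, not_le.1 hlt⟩
    have hdip : δ ^ 2 * S q ≤ ‖dip q (Function.update a l z)‖ := by
      by_contra hlt
      exact h3 (hc' (not_le.1 hlt))
    have hill : ∀ x, ‖x‖ ≤ C₀ / δ ^ 2 → (∀ j, δ ^ 5 / 128 ≤ ‖x - Function.update a l z j‖) →
        F q (Function.update a l z) x = 0 →
        ∀ v, δ ^ 58 * S q * ‖v‖ ≤ ‖DF q (Function.update a l z) x v‖ := by
      intro x hx hxj hF v
      by_contra hlt
      rw [not_le] at hlt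
      have hS0 : 0 ≤ S q := Finset.sum_nonneg fun _ _ => abs_nonneg _
      have hv0 : 0 < ‖v‖ := by
        rcases (norm_nonneg v).eq_or_lt with h | h
        · rw [← h, mul_zero] at hlt
          exact absurd hlt (not_lt.2 (norm_nonneg _))
        · exact h
      refine h4 ⟨hz1, x, hx, hxj, hF, ‖v‖⁻¹ • v, ?_, ?_⟩
      · rw [norm_smul, norm_inv, norm_norm, inv_mul_cancel₀ hv0.ne']
      · rw [map_smul, norm_smul, norm_inv, norm_norm, inv_mul_le_iff₀ hv0]
        linarith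
    obtain ⟨hfin, hcard⟩ := hdet n q (Function.update a l z) l δ hq hnorm hδ hδ1 hδS hsep' hE
      hdip hill
    refine hz ⟨hfin, hcard.trans ?_⟩
    have hlog : 0 ≤ Real.log (1 / δ) ^ 4 := by positivity
    have hCC : C₁ ≤ C := by
      rw [hC]
      have : 0 ≤ 10 * 128 ^ 6 * (2 * C₀) ^ 12 := by positivity
      linarith
    gcongr
  refine (measure_mono hsub).trans ?_
  have v1 := sum_ball ((Finset.univ : Finset (Fin n)).erase l) a hδ.le
  have v2 := sum_ball ((Finset.univ : Finset (Fin n)).erase l) c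
    (by positivity : (0 : ℝ) ≤ 16 * δ)
  have v3 := vol_ball c' (by positivity : (0 : ℝ) ≤ 2 * δ)
  have hR : 1 ≤ C₀ / δ ^ 2 := by
    rw [le_div_iff₀ (by positivity)]
    nlinarith
  have v4 := ill_vol q a l (hq l) (by positivity : 0 < δ ^ 5 / 128) hR
    (by positivity : 0 ≤ δ ^ 58) hδ hδS
  have v4' := v4.trans (ENNReal.ofReal_le_ofReal (num hC₀ hδ hδ1))
  refine (measure_union_le _ _).trans ?_
  refine (add_le_add v1 ((measure_union_le _ _).trans (add_le_add v2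
    ((measure_union_le _ _).trans (add_le_add v3 v4'))))).trans ?_
  rw [← ENNReal.ofReal_add (by positivity) (by positivity),
    ← ENNReal.ofReal_add (by positivity) (by positivity),
    ← ENNReal.ofReal_add (by positivity) (by positivity)]
  refine ENNReal.ofReal_le_ofReal ?_
  have hd3 : δ ^ 3 ≤ δ := by
    have : δ ^ 2 ≤ 1 := by nlinarith
    nlinarith
  have e1 : (n : ℝ) * (5 * δ ^ 3) ≤ n * (5 * δ) := by gcongr
  have e2 : (n : ℝ) * (5 * (16 * δ) ^ 3) ≤ n * (20480 * δ) := by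
    have : 5 * (16 * δ) ^ 3 = 20480 * δ ^ 3 := by ring
    rw [this]
    gcongr
  have e3 : 5 * (2 * δ) ^ 3 ≤ n * (40 * δ) := by
    have : 5 * (2 * δ) ^ 3 = 40 * δ ^ 3 := by ring
    rw [this]
    nlinarith
  have e4 : 10 * 128 ^ 6 * (2 * C₀) ^ 12 * δ ≤ n * (10 * 128 ^ 6 * (2 * C₀) ^ 12 * δ) :=
    le_mul_of_one_le_left (by positivity) hn
  have e5 : 0 ≤ C₁ * n * δ := by positivity
  rw [hC]
  nlinarith

end SM992
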