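import Pool.Agent.Work.MP_992d6e_an.SM.Defs

/-!
MODULE FarA (MP_992d6e_an, smoothed analysis): the quadratic system at infinity.

Let `A_z = Q + 3 z·p`.  Equation 1: `A_z z = |z|^2 p - Ez`, `‖Ez‖ ≤ ε ‖p‖ |z|^2` (as `‖z‖ ≤ m`).
So `||A_z| - |z||p|| ≤ ε |z||p|`; with `σ_z = sign A_z` and `e = p/|p|`, `‖z - σ_z |z| e‖ ≤ 2ε|z|`, hence
`|3 z·p - 3σ_z|z||p|| ≤ 6ε|z||p|` and `|Q + 2σ_z|z||p|| ≤ 7ε|z||p|`.  The same for `w`.  So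
`|σ_z|z| - σ_w|w|| ≤ 3.5 ε (|z| + |w|)`; as `3.5 ε < 1` the signs agree, `σ`, and `||z| - |w|| ≤ 7ε m'`,
`m' = max ‖z‖ ‖w‖`.  With `ζ = z - w` subtract the equations:
`Y := A_w ζ + 3 (ζ·p) z - (ζ·(z+w)) p = -(Ez - Ew)`.  As `|A_w - σm'|p|| ≤ 8εm'|p|`, `‖z - σm'e‖, ‖w - σm'e‖ ≤ 9εm'`,
`‖Y - σm'|p|(ζ + (ζ·e)e)‖ ≤ 53 ε m'|p|‖ζ‖`, while `‖ζ + (ζ·e)e‖ ≥ ‖ζ‖`.  So `m'|p|‖ζ‖ (1 - 53ε) ≤ ‖Ez - Ew‖ ≤
ε m' |p| ‖ζ‖`, and `ζ = 0` since `54 ε < 1`, `m'|p| > 0`.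
(Here `hEzw` has the factor `max ‖z‖ ‖w‖`.)
-/

set_option autoImplicit false

namespace SM992

/-- the direction and the approximate size of a solution -/
private theorem sol {p e : E} {P Q ε : ℝ} (hP : 0 < P) (he : ‖e‖ = 1) (hpe : p = P • e)
    {z Ez : E} (hz : z ≠ 0)
    (h1 : Q • z + (3 * inner ℝ z p) • z - ‖z‖ ^ 2 • p + Ez = 0)
    (hEz : ‖Ez‖ ≤ ε * P * ‖z‖ ^ 2) :
    ∃ s : ℝ, |s| = ‖z‖ ∧ |Q + 3 * inner ℝ z p - s * P| ≤ ε * P * ‖z‖ ∧ ‖z - s • e‖ ≤ 2 * ε * ‖z‖ := by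
  have hz0 : 0 < ‖z‖ := norm_pos_iff.2 hz
  obtain ⟨A, hA⟩ : ∃ A : ℝ, A = Q + 3 * inner ℝ z p := ⟨_, rfl⟩
  rw [← hA]
  have h2 : A • z - ‖z‖ ^ 2 • p = -Ez := by
    rw [hA, add_smul]
    exact eq_neg_of_add_eq_zero_left h1
  have h3 : ‖A • z - ‖z‖ ^ 2 • p‖ ≤ ε * P * ‖z‖ ^ 2 := by
    rw [h2, norm_neg]
    exact hEz
  have hp : ‖p‖ = P := by
    rw [hpe, norm_smul, he, mul_one, Real.norm_eq_abs, abs_of_pos hP]
  have h4 : |‖A • z‖ - ‖‖z‖ ^ 2 • p‖| ≤ ε * P * ‖z‖ ^ 2 := (abs_norm_sub_norm_le _ _).trans h3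
  rw [norm_smul, norm_smul, hp, Real.norm_eq_abs, Real.norm_eq_abs, abs_of_nonneg (sq_nonneg ‖z‖)] at h4
  have h5 : |(|A| - ‖z‖ * P)| ≤ ε * P * ‖z‖ := by
    have e1 : |A| * ‖z‖ - ‖z‖ ^ 2 * P = (|A| - ‖z‖ * P) * ‖z‖ := by ring
    rw [e1, abs_mul, abs_of_pos hz0] at h4
    have e2 : |(|A| - ‖z‖ * P)| * ‖z‖ ≤ ε * P * ‖z‖ * ‖z‖ := by
      rw [mul_assoc (ε * P), ← sq]
      exact h4
    exact le_of_mul_le_mul_right e2 hz0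
  have h6 : ∃ s : ℝ, |s| = ‖z‖ ∧ |A - s * P| ≤ ε * P * ‖z‖ := by
    rcases le_total 0 A with h | h
    · refine ⟨‖z‖, abs_norm z, ?_⟩
      rwa [abs_of_nonneg h] at h5
    · refine ⟨-‖z‖, by rw [abs_neg, abs_norm], ?_⟩
      rw [abs_of_nonpos h, ← abs_neg] at h5
      rw [show A - -‖z‖ * P = -(-A - ‖z‖ * P) by ring]
      exact h5
  obtain ⟨s, hs, hAs⟩ := h6
  refine ⟨s, hs, hAs, ?_⟩
  have hs2 : s * s = ‖z‖ ^ 2 := by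
    rw [← hs, sq_abs, sq]
  have h7 : (s * P) • (z - s • e) = -((A - s * P) • z) + (A • z - ‖z‖ ^ 2 • p) := by
    rw [← hs2, hpe]
    module
  have h8 : ‖z‖ * P * ‖z - s • e‖ ≤ 2 * (ε * P * ‖z‖ ^ 2) := by
    have e1 : ‖(s * P) • (z - s • e)‖ = ‖z‖ * P * ‖z - s • e‖ := by
      rw [norm_smul, Real.norm_eq_abs, abs_mul, hs, abs_of_pos hP]
    rw [← e1, h7]
    refine (norm_add_le _ _).trans ?_
    rw [norm_neg, norm_smul, Real.norm_eq_abs]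
    have e2 : |A - s * P| * ‖z‖ ≤ ε * P * ‖z‖ * ‖z‖ := mul_le_mul_of_nonneg_right hAs hz0.le
    have e3 : ε * P * ‖z‖ * ‖z‖ = ε * P * ‖z‖ ^ 2 := by ring
    linarith
  have h9 : ‖z‖ * P * ‖z - s • e‖ ≤ ‖z‖ * P * (2 * ε * ‖z‖) := by
    refine h8.trans (le_of_eq ?_)
    ring
  exact le_of_mul_le_mul_left h9 (mul_pos hz0 hP)

private theorem main {p e : E} {P Q ε : ℝ} (hP : 0 < P) (he : ‖e‖ = 1) (hpe : p = P • e)
    (hε : 0 ≤ ε) (hε1 : 100 * ε ≤ 1)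
    {z w Ez Ew : E} (hz : z ≠ 0) (hw : w ≠ 0) (hwz : ‖w‖ ≤ ‖z‖)
    (h1 : Q • z + (3 * inner ℝ z p) • z - ‖z‖ ^ 2 • p + Ez = 0)
    (h2 : Q • w + (3 * inner ℝ w p) • w - ‖w‖ ^ 2 • p + Ew = 0)
    (hEz : ‖Ez‖ ≤ ε * P * ‖z‖ ^ 2) (hEw : ‖Ew‖ ≤ ε * P * ‖w‖ ^ 2)
    (hEzw : ‖Ez - Ew‖ ≤ ε * P * ‖z‖ * ‖z - w‖) : z = w := by
  obtain ⟨s, hs, hAs, hzs⟩ := sol hP he hpe hz h1 hEz
  obtain ⟨t, ht, hAt, hwt⟩ := sol hP he hpe hw h2 hEw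
  have hz0 : 0 < ‖z‖ := norm_pos_iff.2 hz
  have hp : ‖p‖ = P := by
    rw [hpe, norm_smul, he, mul_one, Real.norm_eq_abs, abs_of_pos hP]
  have hee : inner ℝ e e = (1 : ℝ) := by
    rw [real_inner_self_eq_norm_sq, he, one_pow]
  -- the coefficient `Q`
  have q0 : ∀ (y : E) (r : ℝ), ‖y - r • e‖ ≤ 2 * ε * ‖y‖ →
      |inner ℝ y p - r * P| ≤ 2 * ε * ‖y‖ * P := by
    intro y r hyr
    have e1 : inner ℝ y p - r * P = inner ℝ (y - r • e) p := by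
      rw [inner_sub_left, inner_smul_left, hpe, inner_smul_right, inner_smul_right, hee]
      simp only [conj_trivial, mul_one]
    rw [e1]
    refine (abs_real_inner_le_norm _ _).trans ?_
    rw [hp]
    exact mul_le_mul_of_nonneg_right hyr hP.le
  have qz := abs_le.1 (q0 z s hzs)
  have qw := abs_le.1 (q0 w t hwt)
  have hAs' := abs_le.1 hAs
  have hAt' := abs_le.1 hAt
  have hst : |s - t| ≤ 7 * ε * ‖z‖ := by
    have m1 : ε * P * ‖w‖ ≤ ε * P * ‖z‖ := by gcongr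
    have m2 : 2 * ε * ‖z‖ * P = 2 * (ε * P * ‖z‖) := by ring
    have m3 : 2 * ε * ‖w‖ * P = 2 * (ε * P * ‖w‖) := by ring
    rw [m2] at qz
    rw [m3] at qw
    have m4 : |(s - t) * P| ≤ 7 * ε * ‖z‖ * P := by
      have m5 : 7 * ε * ‖z‖ * P = 7 * (ε * P * ‖z‖) := by ring
      rw [m5, abs_le, sub_mul]
      constructor
      · linarith [qz.1, qz.2, qw.1, qw.2, hAs'.1, hAs'.2, hAt'.1, hAt'.2]
      · linarith [qz.1, qz.2, qw.1, qw.2, hAs'.1, hAs'.2, hAt'.1, hAt'.2]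
    rw [abs_mul, abs_of_pos hP] at m4
    exact le_of_mul_le_mul_right m4 hP
  have hAw : |Q + 3 * inner ℝ w p - s * P| ≤ 8 * ε * P * ‖z‖ := by
    have m1 : ε * P * ‖w‖ ≤ ε * P * ‖z‖ := by gcongr
    have m2 : Q + 3 * inner ℝ w p - s * P = (Q + 3 * inner ℝ w p - t * P) - (s - t) * P := by ring
    rw [m2]
    refine (abs_sub _ _).trans ?_
    rw [abs_mul, abs_of_pos hP]
    have m3 : |s - t| * P ≤ 7 * ε * ‖z‖ * P := mul_le_mul_of_nonneg_right hst hP.le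
    have m4 : 7 * ε * ‖z‖ * P = 7 * (ε * P * ‖z‖) := by ring
    have m5 : 8 * ε * P * ‖z‖ = 8 * (ε * P * ‖z‖) := by ring
    linarith
  have hwe : ‖w - s • e‖ ≤ 9 * ε * ‖z‖ := by
    have m1 : ε * ‖w‖ ≤ ε * ‖z‖ := by gcongr
    have m2 : w - s • e = (w - t • e) - (s - t) • e := by module
    rw [m2]
    refine (norm_sub_le _ _).trans ?_
    rw [norm_smul, he, mul_one, Real.norm_eq_abs]
    linarith
  have hzwe : ‖z + w - (2 * s) • e‖ ≤ 11 * ε * ‖z‖ := by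
    have m2 : z + w - (2 * s) • e = (z - s • e) + (w - s • e) := by module
    rw [m2]
    refine (norm_add_le _ _).trans ?_
    linarith
  -- the difference of the equations
  obtain ⟨ζ, hζ⟩ : ∃ ζ : E, ζ = z - w := ⟨_, rfl⟩
  have hzζ : z = w + ζ := by rw [hζ]; abel
  have hd : (s * P) • (ζ + (inner ℝ ζ e) • e) =
      -((Q + 3 * inner ℝ w p - s * P) • ζ) - (3 * P * inner ℝ ζ e) • (z - s • e) +
        (inner ℝ ζ (z + w - (2 * s) • e)) • p - (Ez - Ew) := by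
    have e1 : Ez = ‖z‖ ^ 2 • p - Q • z - (3 * inner ℝ z p) • z := by
      rw [← sub_eq_zero, ← h1]
      abel
    have e2 : Ew = ‖w‖ ^ 2 • p - Q • w - (3 * inner ℝ w p) • w := by
      rw [← sub_eq_zero, ← h2]
      abel
    have e3 : inner ℝ ζ (z + w - (2 * s) • e) = ‖z‖ ^ 2 - ‖w‖ ^ 2 - 2 * s * inner ℝ ζ e := by
      rw [inner_sub_right, inner_smul_right, ← real_inner_self_eq_norm_sq, ← real_inner_self_eq_norm_sq,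
        hζ, inner_add_right, inner_sub_left, inner_sub_left, real_inner_comm z w]
      ring
    have e4 : inner ℝ z p = inner ℝ w p + P * inner ℝ ζ e := by
      rw [hzζ, inner_add_left]
      congr 1
      rw [hpe, inner_smul_right]
    rw [e1, e2, e3, e4, hζ]
    rw [hpe]
    module
  have hlow : ‖ζ‖ ≤ ‖ζ + (inner ℝ ζ e) • e‖ := by
    refine le_of_sq_le_sq ?_ (norm_nonneg _)
    rw [norm_add_sq_real, norm_smul, he, mul_one, Real.norm_eq_abs, sq_abs, inner_smul_right]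
    nlinarith [sq_nonneg (inner ℝ ζ e)]
  have hζe : |inner ℝ ζ e| ≤ ‖ζ‖ := by
    have := abs_real_inner_le_norm ζ e
    rwa [he, mul_one] at this
  have n1 : ‖(Q + 3 * inner ℝ w p - s * P) • ζ‖ ≤ 8 * ε * P * ‖z‖ * ‖ζ‖ := by
    rw [norm_smul, Real.norm_eq_abs]
    exact mul_le_mul_of_nonneg_right hAw (norm_nonneg _)
  have n2 : ‖(3 * P * inner ℝ ζ e) • (z - s • e)‖ ≤ 3 * P * ‖ζ‖ * (2 * ε * ‖z‖) := by
    rw [norm_smul, Real.norm_eq_abs, abs_mul, abs_of_pos (by positivity : 0 < 3 * P)]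
    gcongr
  have n3 : ‖(inner ℝ ζ (z + w - (2 * s) • e)) • p‖ ≤ ‖ζ‖ * (11 * ε * ‖z‖) * P := by
    rw [norm_smul, Real.norm_eq_abs, hp]
    refine mul_le_mul_of_nonneg_right ((abs_real_inner_le_norm _ _).trans ?_) hP.le
    exact mul_le_mul_of_nonneg_left hzwe (norm_nonneg _)
  have n4 : ‖z‖ * P * ‖ζ‖ ≤ ‖(s * P) • (ζ + (inner ℝ ζ e) • e)‖ := by
    rw [norm_smul, Real.norm_eq_abs, abs_mul, hs, abs_of_pos hP]
    exact mul_le_mul_of_nonneg_left hlow (by positivity)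
  rw [hd] at n4
  rw [← hζ] at hEzw
  have n5 := norm_sub_le (-((Q + 3 * inner ℝ w p - s * P) • ζ) - (3 * P * inner ℝ ζ e) • (z - s • e) +
        (inner ℝ ζ (z + w - (2 * s) • e)) • p) (Ez - Ew)
  have n6 := norm_add_le (-((Q + 3 * inner ℝ w p - s * P) • ζ) -
    (3 * P * inner ℝ ζ e) • (z - s • e)) ((inner ℝ ζ (z + w - (2 * s) • e)) • p)
  have n7 := norm_sub_le (-((Q + 3 * inner ℝ w p - s * P) • ζ)) ((3 * P * inner ℝ ζ e) • (z - s • e))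
  rw [norm_neg] at n7
  have n8 : ‖z‖ * P * ‖ζ‖ ≤ 26 * ε * (‖z‖ * P * ‖ζ‖) := by
    have r1 : 8 * ε * P * ‖z‖ * ‖ζ‖ = 8 * ε * (‖z‖ * P * ‖ζ‖) := by ring
    have r2 : 3 * P * ‖ζ‖ * (2 * ε * ‖z‖) = 6 * ε * (‖z‖ * P * ‖ζ‖) := by ring
    have r3 : ‖ζ‖ * (11 * ε * ‖z‖) * P = 11 * ε * (‖z‖ * P * ‖ζ‖) := by ring
    have r4 : ε * P * ‖z‖ * ‖ζ‖ = ε * (‖z‖ * P * ‖ζ‖) := by ring
    rw [r1] at n1
    rw [r2] at n2
    rw [r3] at n3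
    rw [r4] at hEzw
    linarith
  by_contra hne
  have hζ0 : 0 < ‖ζ‖ := by
    rw [hζ]
    exact norm_pos_iff.2 (sub_ne_zero.2 hne)
  have n9 : 0 < ‖z‖ * P * ‖ζ‖ := by positivity
  nlinarith

theorem far_alg (p : E) (Q ε : ℝ) (hp : p ≠ 0) (hε : 0 ≤ ε) (hε1 : 100 * ε ≤ 1)
    {z w Ez Ew : E} (hz : z ≠ 0) (hw : w ≠ 0)
    (h1 : Q • z + (3 * inner ℝ z p) • z - ‖z‖ ^ 2 • p + Ez = 0)
    (h2 : Q • w + (3 * inner ℝ w p) • w - ‖w‖ ^ 2 • p + Ew = 0)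
    (hEz : ‖Ez‖ ≤ ε * ‖p‖ * ‖z‖ ^ 2) (hEw : ‖Ew‖ ≤ ε * ‖p‖ * ‖w‖ ^ 2)
    (hEzw : ‖Ez - Ew‖ ≤ ε * ‖p‖ * max ‖z‖ ‖w‖ * ‖z - w‖) : z = w := by
  have hP : 0 < ‖p‖ := norm_pos_iff.2 hp
  have he : ‖‖p‖⁻¹ • p‖ = 1 := by
    rw [norm_smul, norm_inv, norm_norm, inv_mul_cancel₀ hP.ne']
  have hpe : p = ‖p‖ • (‖p‖⁻¹ • p) := by
    rw [smul_smul, mul_inv_cancel₀ hP.ne', one_smul]
  rcases le_total ‖w‖ ‖z‖ with h | h
  · rw [max_eq_left h] at hEzw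
    exact main hP he hpe hε hε1 hz hw h h1 h2 hEz hEw hEzw
  · rw [max_eq_right h, norm_sub_rev Ez, norm_sub_rev z] at hEzw
    exact (main hP he hpe hε hε1 hw hz h h2 h1 hEw hEz hEzw).symm

end SM992
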