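import Pool.Agent.Work.MP_992d6e_an.SM.FarE
import Pool.Agent.Work.MP_992d6e_an.SM.FarA

/-!
MODULE Far (MP_992d6e_an, smoothed analysis): at most one equilibrium far away if the dipole moment is
not small.

`C₀ = 100 C₁` with `C₁` of `Er_lip` (so `C₀ ≥ 100`).  Let `z = x/|x|^2`, `w = y/|y|^2`, `‖z‖, ‖w‖ ≤ κ/C₀ ≤ 1/100`,
`x = z/|z|^2`, `y = w/|w|^2`.  By `kelvin`, `F q a x = 0` gives
`Σ q_l (√Kd)^{-3}(z - |z|^2 a_l) = 0`, i.e. `Q z + 3 (z·p) z - |z|^2 p + Ez = 0`, `Q = Σ q_l`, `p = dip q a`,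
`Ez = Σ q_l Er a_l z`.  `Er_lip` (with `m = ‖z‖` and `w = 0`, `Er_zero`) gives `‖Ez‖ ≤ S C₁ ‖z‖^3 ≤
(C₁ ‖z‖/κ) ‖p‖ ‖z‖^2`, and with `m = max ‖z‖ ‖w‖`, `‖Ez - Ew‖ ≤ C₁ S m^2 ‖z - w‖`.  So `far_alg` applies
with `ε = C₁ max ‖z‖ ‖w‖ / κ ≤ 1/100` (`p ≠ 0` since `S > 0`, as `n ≥ 1` and `q ≠ 0`).
-/

set_option autoImplicit false

namespace SM992

variable {n : ℕ}

private theorem eqn (q : Fin n → ℝ) (a : Fin n → E) {z : E} (hz : z ≠ 0)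
    (h : F q a ((‖z‖ ^ 2)⁻¹ • z) = 0) :
    (∑ l, q l) • z + (3 * inner ℝ z (dip q a)) • z - ‖z‖ ^ 2 • dip q a + ∑ l, q l • Er (a l) z = 0 := by
  have h0 : ‖z‖ ≠ 0 := norm_ne_zero_iff.2 hz
  have h1 : F q a ((‖z‖ ^ 2)⁻¹ • z) =
      ‖z‖ • ((∑ l, q l) • z + (3 * inner ℝ z (dip q a)) • z - ‖z‖ ^ 2 • dip q a +
        ∑ l, q l • Er (a l) z) := by
    have e1 : ∀ l, q l • g ((‖z‖ ^ 2)⁻¹ • z - a l) =
        ‖z‖ • (q l • z + (3 * (q l * inner ℝ z (a l))) • z - ‖z‖ ^ 2 • (q l • a l) +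
          q l • Er (a l) z) := by
      intro l
      rw [kelvin (a l) hz, Er]
      module
    rw [F, Finset.sum_congr rfl fun l _ => e1 l, ← Finset.smul_sum, Finset.sum_add_distrib,
      Finset.sum_sub_distrib, Finset.sum_add_distrib, ← Finset.sum_smul, ← Finset.sum_smul,
      ← Finset.mul_sum, ← Finset.smul_sum, dip, inner_sum]
    simp only [inner_smul_right]
  rw [h1] at h
  exact (smul_eq_zero.1 h).resolve_left h0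

private theorem kel {x : E} (hx : x ≠ 0) : ∃ z : E, z ≠ 0 ∧ ‖z‖ = ‖x‖⁻¹ ∧ x = (‖z‖ ^ 2)⁻¹ • z := by
  have h0 : ‖x‖ ≠ 0 := norm_ne_zero_iff.2 hx
  have h1 : ‖(‖x‖ ^ 2)⁻¹ • x‖ = ‖x‖⁻¹ := by
    rw [norm_smul, norm_inv, norm_pow, norm_norm]
    field_simp
  refine ⟨(‖x‖ ^ 2)⁻¹ • x, ?_, h1, ?_⟩
  · exact smul_ne_zero (inv_ne_zero (pow_ne_zero 2 h0)) hx
  · rw [h1, smul_smul]
    have : (‖x‖⁻¹ ^ 2)⁻¹ * (‖x‖ ^ 2)⁻¹ = 1 := by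
      field_simp
    rw [this, one_smul]

theorem far_unique : ∃ C₀ : ℝ, 100 ≤ C₀ ∧ ∀ (n : ℕ) (q : Fin n → ℝ) (a : Fin n → E) (κ : ℝ),
    1 ≤ n → (∀ l, q l ≠ 0) → (∀ l, ‖a l‖ ≤ 1) → 0 < κ → κ ≤ 1 → κ * S q ≤ ‖dip q a‖ →
    ∀ x y : E, IsEq q a x → IsEq q a y → C₀ / κ ≤ ‖x‖ → C₀ / κ ≤ ‖y‖ → x = y := by
  obtain ⟨C₁, hC₁, hEr⟩ := Er_lip
  refine ⟨100 * C₁, by linarith, ?_⟩
  intro n q a κ hn hq ha hκ hκ1 hdip x y hx hy hxR hyR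
  have hS : 0 < S q := by
    rw [S]
    exact Finset.sum_pos (fun i _ => abs_pos.2 (hq i)) ⟨⟨0, hn⟩, Finset.mem_univ _⟩
  have hC0 : 0 < C₁ := by linarith
  have hR0 : 0 < 100 * C₁ / κ := by positivity
  have hx0 : 0 < ‖x‖ := hR0.trans_le hxR
  have hy0 : 0 < ‖y‖ := hR0.trans_le hyR
  obtain ⟨z, hz, hzx, hxz⟩ := kel (norm_pos_iff.1 hx0)
  obtain ⟨w, hw, hwy, hyw⟩ := kel (norm_pos_iff.1 hy0)
  have hzb : ‖z‖ ≤ κ / (100 * C₁) := by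
    rw [hzx, ← inv_div]
    exact inv_anti₀ hR0 hxR
  have hwb : ‖w‖ ≤ κ / (100 * C₁) := by
    rw [hwy, ← inv_div]
    exact inv_anti₀ hR0 hyR
  have e1 := eqn q a hz (by rw [← hxz]; exact hx.2)
  have e2 := eqn q a hw (by rw [← hyw]; exact hy.2)
  have hsmall : κ / (100 * C₁) ≤ 1 / 10 := by
    rw [div_le_div_iff₀ (by positivity) (by norm_num)]
    nlinarith
  have hp : dip q a ≠ 0 := by
    intro h
    rw [h, norm_zero] at hdip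
    have := mul_pos hκ hS
    linarith
  have hSp : S q ≤ ‖dip q a‖ / κ := by
    rw [le_div_iff₀ hκ]
    linarith
  have hz0 := norm_nonneg z
  have hw0 := norm_nonneg w
  have gen : ∀ u v : E, ∀ m : ℝ, 0 ≤ m → m ≤ κ / (100 * C₁) → ‖u‖ ≤ m → ‖v‖ ≤ m →
      ‖∑ l, q l • Er (a l) u - ∑ l, q l • Er (a l) v‖ ≤ C₁ * m / κ * ‖dip q a‖ * m * ‖u - v‖ := by
    intro u v m hm0 hm hu hv
    rw [← Finset.sum_sub_distrib]
    have k1 : ‖∑ l, (q l • Er (a l) u - q l • Er (a l) v)‖ ≤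
        ∑ l, |q l| * (C₁ * m ^ 2 * ‖u - v‖) := by
      refine (norm_sum_le _ _).trans (Finset.sum_le_sum fun l _ => ?_)
      rw [← smul_sub, norm_smul, Real.norm_eq_abs]
      exact mul_le_mul_of_nonneg_left (hEr (a l) u v m (ha l) (hm.trans hsmall) hu hv) (abs_nonneg _)
    refine k1.trans ?_
    rw [← Finset.sum_mul]
    have k2 : (∑ l, |q l|) * (C₁ * m ^ 2 * ‖u - v‖) ≤
        ‖dip q a‖ / κ * (C₁ * m ^ 2 * ‖u - v‖) :=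
      mul_le_mul_of_nonneg_right hSp (by positivity)
    refine k2.trans (le_of_eq ?_)
    ring
  have hmaxb : max ‖z‖ ‖w‖ ≤ κ / (100 * C₁) := max_le hzb hwb
  have hmax0 : 0 ≤ max ‖z‖ ‖w‖ := le_max_of_le_left hz0
  have hzero : ∑ l, q l • Er (a l) (0 : E) = 0 := by
    refine Finset.sum_eq_zero fun l _ => ?_
    rw [Er_zero, smul_zero]
  have hone : ∀ u : E, ‖u‖ ≤ max ‖z‖ ‖w‖ →
      ‖∑ l, q l • Er (a l) u‖ ≤ C₁ * max ‖z‖ ‖w‖ / κ * ‖dip q a‖ * ‖u‖ ^ 2 := by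
    intro u hu
    have k1 := gen u 0 ‖u‖ (norm_nonneg _) (hu.trans hmaxb) le_rfl (by rw [norm_zero]; exact norm_nonneg _)
    rw [hzero, sub_zero, sub_zero] at k1
    refine k1.trans ?_
    have k2 : C₁ * ‖u‖ / κ * ‖dip q a‖ * ‖u‖ * ‖u‖ = C₁ * ‖u‖ / κ * ‖dip q a‖ * ‖u‖ ^ 2 := by ring
    rw [k2]
    gcongr
  have hzw : z = w := by
    refine far_alg (dip q a) (∑ l, q l) (C₁ * max ‖z‖ ‖w‖ / κ) hp (by positivity) ?_ hz hw e1 e2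
      (hone z (le_max_left _ _)) (hone w (le_max_right _ _))
      (gen z w (max ‖z‖ ‖w‖) hmax0 hmaxb (le_max_left _ _) (le_max_right _ _))
    calc 100 * (C₁ * max ‖z‖ ‖w‖ / κ) ≤ 100 * (C₁ * (κ / (100 * C₁)) / κ) := by gcongr
      _ = 1 := by field_simp
  rw [hxz, hyw, hzw]

end SM992
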