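import Pool.Agent.Work.MP_992d6e_an.SM.Local
import Pool.Agent.Work.MP_992d6e_an.SM.Net

/-!
MODULE Mid (MP_992d6e_an, smoothed analysis): the equilibria in the middle region.

For `x ∈ Z` let `l` be a nearest charge, `ρ = ‖x - a_l‖ ∈ [ρ₀, R + 1]`, `k ∈ ℕ` with
`2^k ρ₀ ≤ ρ < 2^{k+1} ρ₀`, `k ≤ J := ⌊log₂ ((R+1)/ρ₀)⌋`, `σ = 2^k ρ₀`, and `y` a point of the net `T_{l,k}` of
`net` for `c = a_l`, `σ`, with `‖x - y‖ ≤ σ/32`.  Put `s = σ/2`.  All charges have distance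
`≥ ρ - σ/32 ≥ s` from `y`, and `‖x - y‖ ≤ s/16`.  Moreover `|x - a_i| ≤ (17/16)|y - a_i|`,
so `M q a y ≤ 2 M q a x ≤ 2 S/ρ₀^2 `, and (for all `v`) `M q a y ‖v‖ ≤ 2 S ρ₀^{-2}‖v‖ ≤ (2/(ρ₀^2 τ)) ‖DF v‖ ≤
K s ‖DF v‖` with `K = 4/(ρ₀^3 τ)` (as `s ≥ ρ₀/2`).  So each of the at most `n (J+1) N₀` triples `(l,k,y)`
accounts for at most `C (log K)^3` points of `Z` (`local_count`; `M q a y > 0` since `n ≥ 1`, `q ≠ 0`;
`Finset.card_le_mul_card_image` or a union bound with `Finset.biUnion`), and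
`J + 1 ≤ C' log (R/ρ₀)`, `log K ≤ C' log (1/(ρ₀ τ))` because `ρ₀, τ ≤ 1/2`, `R ≥ 1`.
-/

set_option autoImplicit false

namespace SM992

private theorem mid_M_pos {n : ℕ} (q : Fin n → ℝ) (a : Fin n → E) (y : E) (hn : 1 ≤ n)
    (hq : ∀ l, q l ≠ 0) {s : ℝ} (hs : 0 < s) (hy : ∀ l, s ≤ ‖y - a l‖) : 0 < M q a y := by
  unfold M
  have : Nonempty (Fin n) := ⟨⟨0, hn⟩⟩
  refine Finset.sum_pos (fun l _ => ?_) Finset.univ_nonempty
  have h1 : 0 < ‖y - a l‖ := lt_of_lt_of_le hs (hy l)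
  have h2 : 0 < |q l| := abs_pos.2 (hq l)
  positivity

private theorem mid_M_le {n : ℕ} (q : Fin n → ℝ) (a : Fin n → E) (y : E) {s : ℝ} (hs : 0 < s)
    (hy : ∀ l, s ≤ ‖y - a l‖) : M q a y ≤ S q / s ^ 2 := by
  unfold M S
  rw [Finset.sum_div]
  refine Finset.sum_le_sum fun l _ => ?_
  have h1 := hy l
  gcongr

theorem mid_count : ∃ C : ℝ, 0 < C ∧ ∀ (n : ℕ) (q : Fin n → ℝ) (a : Fin n → E) (ρ₀ R τ : ℝ),
    1 ≤ n → (∀ l, q l ≠ 0) → (∀ l, ‖a l‖ ≤ 1) → 0 < ρ₀ → ρ₀ ≤ 1 / 2 → 1 ≤ R → 0 < τ → τ ≤ 1 / 2 →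
    ∀ Z : Finset E, (∀ x ∈ Z, F q a x = 0 ∧ (∀ l, ρ₀ ≤ ‖x - a l‖) ∧ ‖x‖ ≤ R ∧
      ∀ v, τ * S q * ‖v‖ ≤ ‖DF q a x v‖) →
    (Z.card : ℝ) ≤ C * n * Real.log (R / ρ₀) * Real.log (1 / (ρ₀ * τ)) ^ 3 := by
  classical
  obtain ⟨C1, hC1, hloc⟩ := local_count
  obtain ⟨N₀, hnet⟩ := net
  choose! T hT using hnet
  refine ⟨750 * N₀ * C1 + 1, by positivity, ?_⟩
  intro n q a ρ₀ R τ hn hq ha hρ hρ2 hR hτ hτ2 Z hZ
  have : Nonempty (Fin n) := ⟨⟨0, hn⟩⟩
  set K : ℝ := 8 / (ρ₀ ^ 3 * τ) with hK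
  set X : ℝ := 1 / (ρ₀ * τ) with hX
  have hρτ : 0 < ρ₀ * τ := mul_pos hρ hτ
  have hX4 : 4 ≤ X := by
    rw [hX, le_div_iff₀ hρτ]
    nlinarith
  have hKpos : 0 < K := by positivity
  have hKX : K ≤ X ^ 5 := by
    have h1 : K ≤ 8 * X ^ 3 := by
      rw [hK, hX, div_pow, one_pow, mul_one_div, mul_pow]
      have h2 : ρ₀ ^ 3 * τ ^ 3 ≤ ρ₀ ^ 3 * τ := by
        have h3 : τ ^ 3 ≤ τ := by
          have : τ ^ 3 = τ * τ ^ 2 := by ring
          rw [this]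
          nlinarith [sq_nonneg τ]
        exact mul_le_mul_of_nonneg_left h3 (by positivity)
      exact div_le_div_of_nonneg_left (by norm_num) (by positivity) h2
    have h2 : (8 : ℝ) * X ^ 3 ≤ X ^ 5 := by
      have h3 : (8 : ℝ) ≤ X ^ 2 := by nlinarith
      have h4 : X ^ 5 = X ^ 2 * X ^ 3 := by ring
      rw [h4]
      exact mul_le_mul_of_nonneg_right h3 (by positivity)
    exact h1.trans h2
  have hK2 : 2 ≤ K := by
    rw [hK, le_div_iff₀ (by positivity)]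
    have h1 : ρ₀ ^ 3 ≤ 1 := by
      have := pow_le_one₀ hρ.le (by linarith : ρ₀ ≤ 1) (n := 3)
      exact this
    nlinarith [mul_le_mul h1 hτ2 hτ.le zero_le_one]
  have hlogK : Real.log K ≤ 5 * Real.log X := by
    have h1 := Real.log_le_log hKpos hKX
    rw [Real.log_pow] at h1
    exact_mod_cast h1
  have hlogK0 : 0 ≤ Real.log K := Real.log_nonneg (by linarith)
  have hlogX0 : 0 ≤ Real.log X := Real.log_nonneg (by linarith)
  set B : ℝ := C1 * Real.log K ^ 3 with hB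
  have hB0 : 0 ≤ B := by positivity
  set J : ℕ := ⌊Real.log ((R + 1) / ρ₀) / Real.log 2⌋₊ with hJ
  have hlog2 : 1 / 2 < Real.log 2 := by
    have := Real.log_two_gt_d9
    linarith
  -- the pieces
  set Zf : Fin n × ℕ → E → Finset E := fun lk y => Z.filter (fun x =>
    ‖x - y‖ ≤ 2 ^ lk.2 * ρ₀ / 32 ∧ ∀ i, 2 ^ lk.2 * ρ₀ ≤ ‖x - a i‖) with hZf
  have hpiece : ∀ lk y, (Zf lk y).card ≤ ⌊B⌋₊ := by
    intro lk y
    rw [Nat.le_floor_iff hB0]
    rcases (Zf lk y).eq_empty_or_nonempty with h0 | ⟨x0, hx0⟩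
    · rw [h0, Finset.card_empty, Nat.cast_zero]
      exact hB0
    · set σ : ℝ := 2 ^ lk.2 * ρ₀ with hσ
      have hσ0 : 0 < σ := by positivity
      have hσρ : ρ₀ ≤ σ := by
        have : (1 : ℝ) ≤ 2 ^ lk.2 := one_le_pow₀ (by norm_num)
        nlinarith
      have hy : ∀ i, σ / 2 ≤ ‖y - a i‖ := by
        intro i
        rw [hZf, Finset.mem_filter] at hx0
        have h1 := hx0.2.2 i
        have h2 := hx0.2.1
        have h3 : ‖x0 - a i‖ ≤ ‖x0 - y‖ + ‖y - a i‖ := by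
          have : x0 - a i = (x0 - y) + (y - a i) := by abel
          rw [this]
          exact norm_add_le _ _
        linarith
      refine hloc n q a y (σ / 2) K (by positivity) hK2
        (mid_M_pos q a y hn hq (by positivity) hy) hy _ ?_
      intro x hx
      rw [hZf, Finset.mem_filter] at hx
      obtain ⟨hx1, hx2, hx3⟩ := hx
      obtain ⟨hF, -, -, hDF⟩ := hZ x hx1
      refine ⟨by linarith, hF, fun v => ?_⟩
      have h1 := mid_M_le q a y (by positivity : 0 < σ / 2) hy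
      have h2 := hDF v
      have hs : 0 < σ / 2 := by positivity
      have h3 : M q a y * ‖v‖ ≤ S q / (σ / 2) ^ 2 * ‖v‖ :=
        mul_le_mul_of_nonneg_right h1 (norm_nonneg v)
      have h4 : S q / (σ / 2) ^ 2 * ‖v‖ = (1 / ((σ / 2) ^ 2 * τ)) * (τ * S q * ‖v‖) := by
        field_simp
      have h5 : (1 / ((σ / 2) ^ 2 * τ)) * (τ * S q * ‖v‖) ≤
          (1 / ((σ / 2) ^ 2 * τ)) * ‖DF q a x v‖ :=
        mul_le_mul_of_nonneg_left h2 (by positivity)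
      have h6 : 1 / ((σ / 2) ^ 2 * τ) ≤ K * (σ / 2) := by
        rw [div_le_iff₀ (by positivity)]
        have h7 : K * (σ / 2) * ((σ / 2) ^ 2 * τ) = K * (σ ^ 3 * τ) / 8 := by ring
        rw [h7, hK]
        rw [div_mul_eq_mul_div, div_div, le_div_iff₀ (by positivity), one_mul]
        have h8 : ρ₀ ^ 3 ≤ σ ^ 3 := pow_le_pow_left₀ hρ.le hσρ 3
        nlinarith [mul_le_mul_of_nonneg_right h8 hτ.le]
      have h9 : (1 / ((σ / 2) ^ 2 * τ)) * ‖DF q a x v‖ ≤ K * (σ / 2) * ‖DF q a x v‖ :=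
        mul_le_mul_of_nonneg_right h6 (norm_nonneg _)
      linarith
  -- covering
  have hcov : Z ⊆ (Finset.univ ×ˢ Finset.range (J + 1)).biUnion (fun lk : Fin n × ℕ =>
      (T (a lk.1) (2 ^ lk.2 * ρ₀)).biUnion (fun y => Zf lk y)) := by
    intro x hx
    obtain ⟨hF, hx1, hx2, hDF⟩ := hZ x hx
    obtain ⟨l, -, hl⟩ := Finset.exists_min_image Finset.univ (fun l => ‖x - a l‖)
      Finset.univ_nonempty
    have h1 : 1 ≤ ‖x - a l‖ / ρ₀ := by
      rw [le_div_iff₀ hρ, one_mul]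
      exact hx1 l
    obtain ⟨k, hk1, hk2⟩ := exists_nat_pow_near h1 (by norm_num : (1 : ℝ) < 2)
    rw [le_div_iff₀ hρ] at hk1
    rw [div_lt_iff₀ hρ] at hk2
    have h3 : ‖x - a l‖ ≤ R + 1 := by
      have := norm_sub_le x (a l)
      have := ha l
      linarith
    have hkJ : k ≤ J := by
      rw [hJ, Nat.le_floor_iff (by
        apply div_nonneg
        · apply Real.log_nonneg
          rw [le_div_iff₀ hρ]
          linarith
        · linarith)]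
      rw [le_div_iff₀ (by linarith)]
      have h4 : (2 : ℝ) ^ k ≤ (R + 1) / ρ₀ := by
        rw [le_div_iff₀ hρ]
        linarith
      have h5 := Real.log_le_log (by positivity) h4
      rw [Real.log_pow] at h5
      exact h5
    have hσ0 : 0 < 2 ^ k * ρ₀ := by positivity
    obtain ⟨y, hy1, hy2⟩ := (hT (a l) (2 ^ k * ρ₀) hσ0).2 x (by
      have : (2 : ℝ) ^ (k + 1) * ρ₀ = 2 * (2 ^ k * ρ₀) := by ring
      linarith)
    rw [Finset.mem_biUnion]
    refine ⟨(l, k), Finset.mem_product.2 ⟨Finset.mem_univ _, Finset.mem_range.2 (by omega)⟩, ?_⟩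
    rw [Finset.mem_biUnion]
    refine ⟨y, hy1, ?_⟩
    rw [hZf, Finset.mem_filter]
    exact ⟨hx, hy2, fun i => hk1.trans (hl i (Finset.mem_univ i))⟩
  have hcard : Z.card ≤ (n * (J + 1)) * (N₀ * ⌊B⌋₊) := by
    refine (Finset.card_le_card hcov).trans ?_
    refine (Finset.card_biUnion_le_card_mul _ _ (N₀ * ⌊B⌋₊) ?_).trans ?_
    · intro lk _
      refine (Finset.card_biUnion_le_card_mul _ _ ⌊B⌋₊ fun y _ => hpiece lk y).trans ?_
      exact Nat.mul_le_mul_right _ (hT _ _ (by positivity)).1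
    · rw [Finset.card_product, Finset.card_univ, Fintype.card_fin, Finset.card_range]
  -- numerics
  have hRρ : 2 ≤ R / ρ₀ := by
    rw [le_div_iff₀ hρ]
    linarith
  have hlogR : Real.log 2 ≤ Real.log (R / ρ₀) := Real.log_le_log (by norm_num) hRρ
  have hJle : (J : ℝ) + 1 ≤ 6 * Real.log (R / ρ₀) := by
    have h1 : (J : ℝ) ≤ Real.log ((R + 1) / ρ₀) / Real.log 2 := by
      rw [hJ]
      apply Nat.floor_le
      apply div_nonneg
      · apply Real.log_nonneg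
        rw [le_div_iff₀ hρ]
        linarith
      · linarith
    have h2 : Real.log ((R + 1) / ρ₀) ≤ Real.log 2 + Real.log (R / ρ₀) := by
      rw [← Real.log_mul (by norm_num) (by positivity)]
      apply Real.log_le_log (by positivity)
      rw [← mul_div_assoc]
      gcongr
      linarith
    have h3 : Real.log ((R + 1) / ρ₀) / Real.log 2 ≤ 4 * Real.log (R / ρ₀) := by
      rw [div_le_iff₀ (by linarith)]
      nlinarith
    linarith
  have h1 : (Z.card : ℝ) ≤ (n * (J + 1)) * (N₀ * B) := by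
    have h2 : (Z.card : ℝ) ≤ (n * (J + 1)) * (N₀ * (⌊B⌋₊ : ℝ)) := by exact_mod_cast hcard
    refine h2.trans ?_
    have h3 := Nat.floor_le hB0
    gcongr
  have h2 : B ≤ C1 * (125 * Real.log X ^ 3) := by
    rw [hB]
    apply mul_le_mul_of_nonneg_left _ hC1.le
    calc Real.log K ^ 3 ≤ (5 * Real.log X) ^ 3 := pow_le_pow_left₀ hlogK0 hlogK 3
      _ = 125 * Real.log X ^ 3 := by ring
  have hlR0 : 0 ≤ Real.log (R / ρ₀) := by linarith
  calc (Z.card : ℝ) ≤ (n * (J + 1)) * (N₀ * B) := h1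
    _ ≤ (n * (6 * Real.log (R / ρ₀))) * (N₀ * (C1 * (125 * Real.log X ^ 3))) := by
        gcongr
    _ = 750 * N₀ * C1 * n * Real.log (R / ρ₀) * Real.log X ^ 3 := by ring
    _ ≤ (750 * N₀ * C1 + 1) * n * Real.log (R / ρ₀) * Real.log X ^ 3 := by
        gcongr
        linarith

end SM992
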