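import Pool.Agent.Work.MP_992d6e_an.SM.Near
import Pool.Agent.Work.MP_992d6e_an.SM.Far
import Pool.Agent.Work.MP_992d6e_an.SM.Mid

/-!
MODULE Det (MP_992d6e_an, smoothed analysis): the deterministic count.

`C₀` is the constant of `far_unique`.  With `ρ₀ = δ^5/128`, `R = C₀/δ^2`, an equilibrium `x` satisfies one of:
`‖x - a_j‖ ≤ ρ₀` for some `j ≠ l` (at most one for each `j`, `near_unique` with `d = δ`, `κ = δ^4`);
`‖x - a_l‖ ≤ ρ₀` (none, `near_none` with `d = δ`, `η = δ`); `‖x‖ ≥ R` (at most one, `far_unique`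
with `κ = δ^2`); or it is one of the points counted by `mid_count` with `τ = δ^58`.  So every finset of
equilibria has at most `n + 1 + C n log (R/ρ₀) (log (1/(ρ₀ τ)))^3 ≤ C' n (log (1/δ))^4` elements
(`δ ≤ 1/2`, so `log (1/δ) ≥ 1/2` and `log (R/ρ₀) = log (128 C₀) + 7 log (1/δ) ≤ C'' log (1/δ)`), which gives
finiteness as well (`Set.infinite_of_...`, e.g. `Set.Infinite.exists_subset_card_eq`).
-/

set_option autoImplicit false

namespace SM992

theorem det_count : ∃ C₀ : ℝ, 100 ≤ C₀ ∧ ∃ C : ℝ, 0 < C ∧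
    ∀ (n : ℕ) (q : Fin n → ℝ) (a : Fin n → E) (l : Fin n) (δ : ℝ),
    (∀ j, q j ≠ 0) → (∀ j, ‖a j‖ ≤ 1) → 0 < δ → δ ≤ 1 / 2 → δ * S q ≤ |q l| →
    (∀ i j, i ≠ j → δ ≤ ‖a i - a j‖) → (∀ j, j ≠ l → δ ^ 4 * Mj q a j ≤ ‖Ej q a j‖) →
    δ ^ 2 * S q ≤ ‖dip q a‖ →
    (∀ x, ‖x‖ ≤ C₀ / δ ^ 2 → (∀ j, δ ^ 5 / 128 ≤ ‖x - a j‖) → F q a x = 0 →
      ∀ v, δ ^ 58 * S q * ‖v‖ ≤ ‖DF q a x v‖) →
    {x | IsEq q a x}.Finite ∧ ({x | IsEq q a x}.ncard : ℝ) ≤ C * n * Real.log (1 / δ) ^ 4 := by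
  classical
  obtain ⟨C₀, hC₀, hfar⟩ := far_unique
  obtain ⟨C1, hC1, hmid⟩ := mid_count
  set c0 : ℝ := Real.log (128 * C₀) with hc0
  have hc00 : 0 ≤ c0 := Real.log_nonneg (by linarith)
  refine ⟨C₀, hC₀, 32 + C1 * (2 * c0 + 7) * 70 ^ 3, by positivity, ?_⟩
  intro n q a l δ hq ha hδ hδ2 hql hsep hE hdip hDF
  have hn : 1 ≤ n := by have := l.2; omega
  set ρ₀ : ℝ := δ ^ 5 / 128 with hρ
  have hρ0 : 0 < ρ₀ := by positivity
  set R : ℝ := C₀ / δ ^ 2 with hR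
  set τ : ℝ := δ ^ 58 with hτ
  have hτ0 : 0 < τ := by positivity
  have hδ1 : δ ≤ 1 := by linarith
  have hτ2 : τ ≤ 1 / 2 := by
    rw [hτ]
    calc δ ^ 58 ≤ δ ^ 1 := pow_le_pow_of_le_one hδ.le hδ1 (by norm_num)
      _ ≤ 1 / 2 := by rw [pow_one]; exact hδ2
  have hδ5 : δ ^ 5 ≤ δ := by
    calc δ ^ 5 ≤ δ ^ 1 := pow_le_pow_of_le_one hδ.le hδ1 (by norm_num)
      _ = δ := pow_one δ
  have hρ2 : ρ₀ ≤ 1 / 2 := by
    rw [hρ, div_le_iff₀ (by norm_num)]
    linarith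
  have hR1 : 1 ≤ R := by
    rw [hR, le_div_iff₀ (by positivity), one_mul]
    have : δ ^ 2 ≤ 1 := pow_le_one₀ hδ.le hδ1
    linarith
  set Y : ℝ := Real.log (1 / δ) with hY
  have hY2 : Real.log 2 ≤ Y := by
    rw [hY]
    apply Real.log_le_log (by norm_num)
    rw [le_div_iff₀ hδ]
    linarith
  have hlog2 : 1 / 2 < Real.log 2 := by
    have := Real.log_two_gt_d9
    linarith
  have hY0 : 0 ≤ Y := by linarith
  have key : ∀ Z : Finset E, (∀ x ∈ Z, IsEq q a x) →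
      (Z.card : ℝ) ≤ (32 + C1 * (2 * c0 + 7) * 70 ^ 3) * n * Y ^ 4 := by
    intro Z hZ
    set Zm := Z.filter (fun x => (∀ j, ρ₀ ≤ ‖x - a j‖) ∧ ‖x‖ ≤ R) with hZm
    set Zr := Z.filter (fun x => R ≤ ‖x‖) with hZr
    set Zn : Fin n → Finset E := fun j => Z.filter (fun x => ‖x - a j‖ ≤ ρ₀) with hZn
    have h1 : Zr.card ≤ 1 := by
      rw [Finset.card_le_one]
      intro x hx y hy
      rw [hZr, Finset.mem_filter] at hx hy
      exact hfar n q a (δ ^ 2) hn hq ha (by positivity) (pow_le_one₀ hδ.le hδ1) hdip x y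
        (hZ x hx.1) (hZ y hy.1) hx.2 hy.2
    have h2 : ∀ j, (Zn j).card ≤ 1 := by
      intro j
      rw [Finset.card_le_one]
      intro x hx y hy
      rw [hZn, Finset.mem_filter] at hx hy
      by_cases hj : j = l
      · exfalso
        rw [hj] at hx
        have h3 := near_none q a l (d := δ) (η := δ) (ρ₀ := ρ₀) hq hδ hql
          (by rw [hρ]; linarith) (by
            rw [hρ]
            have e1 : δ ^ 10 ≤ δ ^ 3 := pow_le_pow_of_le_one hδ.le hδ1 (by norm_num)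
            have e2 : 0 < δ ^ 3 := by positivity
            have e3 : 4 * (δ ^ 5 / 128) ^ 2 = δ ^ 10 / 4096 := by ring
            have e4 : δ * δ ^ 2 = δ ^ 3 := by ring
            rw [e3, e4]
            linarith) (fun j hj => hsep l j hj.symm) (hZ x hx.1)
        linarith [hx.2]
      · exact near_unique q a j (d := δ) (κ := δ ^ 4) (ρ₀ := ρ₀) hq hδ (by positivity)
          (pow_le_one₀ hδ.le hδ1) (by rw [hρ]; apply le_of_eq; ring)
          (fun i hi => hsep j i hi.symm) (hE j hj) (hZ x hx.1) (hZ y hy.1) hx.2 hy.2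
    have h3 : Z ⊆ (Zr ∪ Finset.univ.biUnion Zn) ∪ Zm := by
      intro x hx
      by_cases hr : R ≤ ‖x‖
      · exact Finset.mem_union_left _ (Finset.mem_union_left _ (Finset.mem_filter.2 ⟨hx, hr⟩))
      · by_cases hj : ∃ j, ‖x - a j‖ ≤ ρ₀
        · obtain ⟨j, hj⟩ := hj
          refine Finset.mem_union_left _ (Finset.mem_union_right _ ?_)
          rw [Finset.mem_biUnion]
          exact ⟨j, Finset.mem_univ j, Finset.mem_filter.2 ⟨hx, hj⟩⟩
        · push Not at hj hr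
          exact Finset.mem_union_right _ (Finset.mem_filter.2 ⟨hx, fun j => (hj j).le, hr.le⟩)
    have h4 : Z.card ≤ 1 + n + Zm.card := by
      refine (Finset.card_le_card h3).trans ((Finset.card_union_le _ _).trans ?_)
      refine Nat.add_le_add_right ((Finset.card_union_le _ _).trans ?_) _
      refine Nat.add_le_add h1 ?_
      refine (Finset.card_biUnion_le_card_mul _ _ 1 fun j _ => h2 j).trans ?_
      rw [Finset.card_univ, Fintype.card_fin, mul_one]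
    have h5 := hmid n q a ρ₀ R τ hn hq ha hρ0 hρ2 hR1 hτ0 hτ2 Zm (by
      intro x hx
      rw [hZm, Finset.mem_filter] at hx
      exact ⟨(hZ x hx.1).2, hx.2.1, hx.2.2, hDF x hx.2.2 hx.2.1 (hZ x hx.1).2⟩)
    have h6 : Real.log (R / ρ₀) ≤ (2 * c0 + 7) * Y := by
      have e1 : R / ρ₀ = (128 * C₀) * (1 / δ) ^ 7 := by
        rw [hR, hρ]
        field_simp
      rw [e1, Real.log_mul (by positivity) (by positivity), Real.log_pow, ← hc0, ← hY]
      push_cast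
      nlinarith
    have h7 : Real.log (1 / (ρ₀ * τ)) ≤ 70 * Y := by
      have e1 : 1 / (ρ₀ * τ) = 2 ^ 7 * (1 / δ) ^ 63 := by
        rw [hρ, hτ]
        field_simp
        norm_num
      rw [e1, Real.log_mul (by positivity) (by positivity), Real.log_pow, Real.log_pow, ← hY]
      push_cast
      linarith
    have h8 : 0 ≤ Real.log (1 / (ρ₀ * τ)) := by
      apply Real.log_nonneg
      rw [le_div_iff₀ (by positivity)]
      nlinarith
    have h9 : (n : ℝ) + 1 ≤ 32 * n * Y ^ 4 := by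
      have e1 : (1 : ℝ) ≤ n := by exact_mod_cast hn
      have e2 : (1 / 2 : ℝ) ^ 4 ≤ Y ^ 4 := pow_le_pow_left₀ (by norm_num) (by linarith) 4
      have e3 : (n : ℝ) * (1 / 2) ^ 4 ≤ n * Y ^ 4 := mul_le_mul_of_nonneg_left e2 (by linarith)
      linarith
    have h10 : (Zm.card : ℝ) ≤ C1 * n * ((2 * c0 + 7) * Y) * (70 * Y) ^ 3 := by
      refine h5.trans ?_
      have e0 : 0 ≤ Real.log (R / ρ₀) := by
        apply Real.log_nonneg
        rw [le_div_iff₀ hρ0]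
        linarith
      gcongr
    have h11 : (Z.card : ℝ) ≤ 1 + n + Zm.card := by exact_mod_cast h4
    calc (Z.card : ℝ) ≤ (n + 1) + Zm.card := by linarith
      _ ≤ 32 * n * Y ^ 4 + C1 * n * ((2 * c0 + 7) * Y) * (70 * Y) ^ 3 := by linarith
      _ = (32 + C1 * (2 * c0 + 7) * 70 ^ 3) * n * Y ^ 4 := by ring
  set bd : ℝ := (32 + C1 * (2 * c0 + 7) * 70 ^ 3) * n * Y ^ 4 with hbd
  have hfin : {x | IsEq q a x}.Finite := by
    by_contra hinf
    obtain ⟨Z, hZ1, hZ2⟩ := Set.Infinite.exists_subset_card_eq (hinf : {x | IsEq q a x}.Infinite)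
      (⌊bd⌋₊ + 1)
    have h1 := key Z (fun x hx => hZ1 hx)
    rw [hZ2] at h1
    have h2 := Nat.lt_floor_add_one bd
    push_cast at h1
    linarith
  refine ⟨hfin, ?_⟩
  have h1 := key hfin.toFinset (fun x hx => (hfin.mem_toFinset.1 hx))
  rw [Set.ncard_eq_toFinset_card _ hfin]
  exact h1

end SM992
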