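import Pool.Agent.Work.MP_992d6e_an.SM.Defs

/-!
MODULE DetG (MP_992d6e_an, smoothed analysis): determinants.

`det_Dg`: matrix in the standard basis: `|u|^{-3} (1 - 3 û û^T)`, determinant `|u|^{-9} (1 - 3) `
(`Matrix.det_fin_three`, or `Matrix.det_one_add_replicateCol_mul_replicateRow`), using
`u_0^2 + u_1^2 + u_2^2 = |u|^2`.
`abs_det_le`: extend the unit vector `v` to an orthonormal basis `b` with `b 0 = v`
(`exists_orthonormalBasis_extension`, or `Orthonormal.exists_orthonormalBasis_extension_of_card_eq`);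
with an orientation `o` and its volume form `ω`, `ω (T ∘ b) = det T * ω b` , `|ω b| = 1`
(`Orientation.abs_volumeForm_apply_of_orthonormal`) and `|ω (T ∘ b)| ≤ ∏ ‖T (b i)‖`
(`Orientation.abs_volumeForm_apply_le`).
-/

set_option autoImplicit false

namespace SM992

theorem det_Dg {u : E} (hu : u ≠ 0) : (Dg u).det = -2 * (‖u‖ ^ 9)⁻¹ := by
  have hn : ‖u‖ ^ 2 = u 0 ^ 2 + u 1 ^ 2 + u 2 ^ 2 := by
    rw [EuclideanSpace.norm_sq_eq, Fin.sum_univ_three]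
    simp [Real.norm_eq_abs, sq_abs]
  have hu0 : ‖u‖ ≠ 0 := norm_ne_zero_iff.2 hu
  have hentry : ∀ i j : Fin 3, LinearMap.toMatrix (EuclideanSpace.basisFun (Fin 3) ℝ).toBasis
      (EuclideanSpace.basisFun (Fin 3) ℝ).toBasis (Dg u : E →ₗ[ℝ] E) i j =
      (‖u‖ ^ 3)⁻¹ * (if i = j then 1 else 0) - 3 * (‖u‖ ^ 5)⁻¹ * (u j * u i) := by
    intro i j
    rw [LinearMap.toMatrix_apply]
    simp [Dg, EuclideanSpace.inner_single_right, Pi.single_apply, mul_assoc]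
  have h1 : (Dg u).det = (LinearMap.toMatrix (EuclideanSpace.basisFun (Fin 3) ℝ).toBasis
      (EuclideanSpace.basisFun (Fin 3) ℝ).toBasis (Dg u : E →ₗ[ℝ] E)).det := by
    rw [LinearMap.det_toMatrix]
  rw [h1, Matrix.det_fin_three]
  simp only [hentry]
  have e1 : ((0 : Fin 3) = 1) = False := by simp
  simp only [Fin.isValue, if_true, show ¬ ((0 : Fin 3) = 1) by decide,
    show ¬ ((0 : Fin 3) = 2) by decide, show ¬ ((1 : Fin 3) = 0) by decide,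
    show ¬ ((1 : Fin 3) = 2) by decide, show ¬ ((2 : Fin 3) = 0) by decide,
    show ¬ ((2 : Fin 3) = 1) by decide, if_false]
  have h2 : (‖u‖ ^ 3)⁻¹ = (‖u‖ ^ 5)⁻¹ * (u 0 ^ 2 + u 1 ^ 2 + u 2 ^ 2) := by
    rw [← hn]
    field_simp
  have h3 : (‖u‖ ^ 9)⁻¹ = (‖u‖ ^ 3)⁻¹ ^ 3 := by
    rw [← inv_pow, ← inv_pow, ← pow_mul]
  rw [h3, h2]
  ring

theorem abs_det_le (T : E →L[ℝ] E) {v : E} {c B : ℝ} (hv : ‖v‖ = 1) (hc : ‖T v‖ ≤ c)
    (hB0 : 0 ≤ B) (hB : ∀ w, ‖T w‖ ≤ B * ‖w‖) : |T.det| ≤ c * B ^ 2 := by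
  haveI : Fact (Module.finrank ℝ E = 3) := ⟨by simp⟩
  have hcard : Module.finrank ℝ E = Fintype.card (Fin 3) := by simp
  obtain ⟨b, hb⟩ := Orthonormal.exists_orthonormalBasis_extension_of_card_eq (𝕜 := ℝ) hcard
    (v := fun _ : Fin 3 => v) (s := {0}) (by
      rw [orthonormal_iff_ite]
      rintro ⟨i, hi⟩ ⟨j, hj⟩
      rw [Set.mem_singleton_iff] at hi hj
      subst hi
      subst hj
      simp [hv])
  have hb0 : b 0 = v := hb 0 rfl
  set o := b.toBasis.orientation with ho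
  have h1 : o.volumeForm = b.toBasis.det := o.volumeForm_robust b rfl
  have h2 : b.toBasis.det ((T : E →ₗ[ℝ] E) ∘ b) = T.det := by
    have h3 := b.toBasis.det_comp (T : E →ₗ[ℝ] E) b
    rw [h3]
    have h4 : b.toBasis.det b = 1 := by
      rw [← b.coe_toBasis]
      exact b.toBasis.det_self
    rw [h4, mul_one]
  have h3 := o.abs_volumeForm_apply_le ((T : E →ₗ[ℝ] E) ∘ b)
  rw [h1, h2, Fin.prod_univ_three] at h3
  have h4 : ∀ i, ‖((T : E →ₗ[ℝ] E) ∘ b) i‖ ≤ B := by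
    intro i
    have := hB (b i)
    rw [b.orthonormal.1 i, mul_one] at this
    exact this
  have h5 : ‖((T : E →ₗ[ℝ] E) ∘ b) 0‖ ≤ c := by
    show ‖T (b 0)‖ ≤ c
    rw [hb0]
    exact hc
  have hc0 : 0 ≤ c := (norm_nonneg _).trans hc
  calc |T.det| ≤ ‖((T : E →ₗ[ℝ] E) ∘ b) 0‖ * ‖((T : E →ₗ[ℝ] E) ∘ b) 1‖ *
        ‖((T : E →ₗ[ℝ] E) ∘ b) 2‖ := h3
    _ ≤ c * B * B := by gcongr <;> apply h4
    _ = c * B ^ 2 := by ring

end SM992
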