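import Pool.Agent.Work.MP_992d6e_an.SM.Defs

/-!
MODULE FarE (MP_992d6e_an, smoothed analysis): expansion at infinity in the Kelvin coordinate
`z = x/|x|^2` (so `x = z/|z|^2`).

`kelvin`: `x - a = |z|^{-2} (z - |z|^2 a)`, `|z - |z|^2 a|^2 = |z|^2 Kd a z`, so
`‖x - a‖ = √(Kd a z) / |z|` and `g (x - a) = |z| (√Kd)^{-3} (z - |z|^2 a)`.

`Er_lip`: with `s(z) = Kd a z - 1 = -2 z·a + |z|^2 |a|^2`, `|s| ≤ 2m + m^2 ≤ 1/4`,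
`|s(z) - s(w)| ≤ (2 + 2m)‖z - w‖`, put `r(s) = (√(1+s))^{-3} - 1 + (3/2) s`; `r' (s) = -(3/2)((√(1+s))^{-5} - 1)`
so `|r(s) - r(s')| ≤ C max(|s|,|s'|) |s - s'|` and `|r(s)| ≤ C s^2` on `[-1/4, 1/4]`
(or elementary: with `t = √(1+s) ∈ [√(3/4), √(5/4)]`, `s = t^2 - 1`, everything is rational in `t`).
`e(z) := (√(1+s(z)))^{-3} - 1 - 3 z·a = r(s(z)) - (3/2)|z|^2|a|^2`, so `|e(z)| ≤ C m^2` and
`|e(z) - e(w)| ≤ C m ‖z - w‖`, and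
`Er a z = e(z) (z - |z|^2 a) - 3 |z|^2 (z·a) a`, whence the claim.
(Check: `(1 + 3 z·a + e)(z - |z|^2 a) - (z + 3 (z·a) z - |z|^2 a) = e (z - |z|^2 a) - 3 (z·a)|z|^2 a`.)
Any absolute constant `C₁` is fine.
-/

set_option autoImplicit false

namespace SM992

/-- `|z|^2 |x - a|^2` for `x = z/|z|^2` -/
noncomputable def Kd (a z : E) : ℝ := 1 - 2 * inner ℝ z a + ‖z‖ ^ 2 * ‖a‖ ^ 2

/-- the error of the expansion of `(√Kd)^{-3} (z - |z|^2 a)` to second order -/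
noncomputable def Er (a z : E) : E :=
  ((√(Kd a z)) ^ 3)⁻¹ • (z - ‖z‖ ^ 2 • a) - (z + (3 * inner ℝ z a) • z - ‖z‖ ^ 2 • a)

private theorem nsq (a z : E) : ‖z - ‖z‖ ^ 2 • a‖ ^ 2 = ‖z‖ ^ 2 * Kd a z := by
  rw [norm_sub_sq_real, norm_smul, inner_smul_right, Kd]
  rw [Real.norm_of_nonneg (by positivity)]
  ring

private theorem nn (a z : E) : ‖z - ‖z‖ ^ 2 • a‖ = ‖z‖ * √(Kd a z) := by
  have h := nsq a z
  rw [← Real.sqrt_sq (norm_nonneg (z - ‖z‖ ^ 2 • a)), h, Real.sqrt_mul (by positivity),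
    Real.sqrt_sq (norm_nonneg z)]

theorem kelvin (a : E) {z : E} (hz : z ≠ 0) :
    g ((‖z‖ ^ 2)⁻¹ • z - a) = ‖z‖ • (((√(Kd a z)) ^ 3)⁻¹ • (z - ‖z‖ ^ 2 • a)) := by
  have hz0 : ‖z‖ ≠ 0 := norm_ne_zero_iff.2 hz
  have h1 : (‖z‖ ^ 2)⁻¹ • z - a = (‖z‖ ^ 2)⁻¹ • (z - ‖z‖ ^ 2 • a) := by
    rw [smul_sub, smul_smul, inv_mul_cancel₀ (pow_ne_zero 2 hz0), one_smul]
  rw [h1, g, norm_smul, nn, Real.norm_of_nonneg (by positivity), smul_smul, smul_smul]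
  congr 1
  rcases eq_or_ne (√(Kd a z)) 0 with h2 | h2
  · rw [h2]
    simp
  · field_simp

theorem Er_zero (a : E) : Er a 0 = 0 := by
  simp [Er]

/-- remainder of the expansion of the power `-3/2` -/
private theorem rlip {t t' M : ℝ} (hM : M ≤ 1 / 4) (h : |t - 1| ≤ M) (h' : |t' - 1| ≤ M) :
    |((t ^ 3)⁻¹ + 3 / 2 * t ^ 2) - ((t' ^ 3)⁻¹ + 3 / 2 * t' ^ 2)| ≤ 400 * M * |t - t'| := by
  rw [abs_le] at h h'
  have ht0 : 3 / 4 ≤ t := by linarith [h.1]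
  have ht1 : t ≤ 5 / 4 := by linarith [h.2]
  have ht0' : 3 / 4 ≤ t' := by linarith [h'.1]
  have ht1' : t' ≤ 5 / 4 := by linarith [h'.2]
  have hM0 : 0 ≤ M := by linarith [h.1, h.2]
  obtain ⟨x, hx⟩ : ∃ x : ℝ, x = t * t' := ⟨_, rfl⟩
  obtain ⟨σ, hσ⟩ : ∃ σ : ℝ, σ = t + t' := ⟨_, rfl⟩
  have hx0 : 9 / 16 ≤ x := by
    rw [hx]
    nlinarith
  have hx1 : x ≤ 25 / 16 := by
    rw [hx]
    nlinarith
  have hxM : |x - 1| ≤ 9 / 4 * M := by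
    have : x - 1 = (t - 1) * t' + (t' - 1) := by
      rw [hx]
      ring
    rw [this, abs_le]
    constructor <;> nlinarith [h.1, h.2, h'.1, h'.2]
  have hσM : |σ - 2| ≤ 2 * M := by
    rw [hσ, abs_le]
    constructor <;> linarith [h.1, h.2, h'.1, h'.2]
  have hN : |σ ^ 2 - x - 3 / 2 * σ * x ^ 3| ≤ 60 * M := by
    have e1 : σ ^ 2 - x - 3 / 2 * σ * x ^ 3 =
        (σ - 2) * (σ + 2) - (x - 1) - 3 / 2 * ((σ - 2) * x ^ 3) - 3 * ((x - 1) * (x ^ 2 + x + 1)) := by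
      ring
    have b1 : |(σ - 2) * (σ + 2)| ≤ 9 * M := by
      rw [abs_mul]
      have : |σ + 2| ≤ 9 / 2 := by
        rw [hσ, abs_le]
        constructor <;> linarith
      calc |σ - 2| * |σ + 2| ≤ (2 * M) * (9 / 2) :=
            mul_le_mul hσM this (abs_nonneg _) (by linarith)
        _ = 9 * M := by ring
    have b2 : |3 / 2 * ((σ - 2) * x ^ 3)| ≤ 12 * M := by
      have hx3 : |x ^ 3| ≤ 4 := by
        rw [abs_of_nonneg (by positivity)]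
        calc x ^ 3 ≤ (25 / 16 : ℝ) ^ 3 := pow_le_pow_left₀ (by linarith) hx1 3
          _ ≤ 4 := by norm_num
      rw [abs_mul, abs_mul, abs_of_pos (by norm_num : (0 : ℝ) < 3 / 2)]
      calc 3 / 2 * (|σ - 2| * |x ^ 3|) ≤ 3 / 2 * ((2 * M) * 4) :=
            mul_le_mul_of_nonneg_left (mul_le_mul hσM hx3 (abs_nonneg _) (by linarith))
              (by norm_num)
        _ = 12 * M := by ring
    have b3 : |3 * ((x - 1) * (x ^ 2 + x + 1))| ≤ 36 * M := by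
      have hx3 : |x ^ 2 + x + 1| ≤ 16 / 3 := by
        rw [abs_of_nonneg (by positivity)]
        nlinarith
      rw [abs_mul, abs_mul, abs_of_pos (by norm_num : (0 : ℝ) < 3)]
      calc 3 * (|x - 1| * |x ^ 2 + x + 1|) ≤ 3 * ((9 / 4 * M) * (16 / 3)) :=
            mul_le_mul_of_nonneg_left (mul_le_mul hxM hx3 (abs_nonneg _) (by linarith))
              (by norm_num)
        _ = 36 * M := by ring
    rw [e1]
    rw [abs_le] at b1 b2 b3 hxM ⊢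
    constructor <;> linarith [b1.1, b1.2, b2.1, b2.2, b3.1, b3.2, hxM.1, hxM.2]
  have hx3 : 3 / 20 ≤ x ^ 3 := by
    calc (3 / 20 : ℝ) ≤ (9 / 16) ^ 3 := by norm_num
      _ ≤ x ^ 3 := pow_le_pow_left₀ (by norm_num) hx0 3
  have key : ((t ^ 3)⁻¹ + 3 / 2 * t ^ 2) - ((t' ^ 3)⁻¹ + 3 / 2 * t' ^ 2) =
      -(t - t') * ((σ ^ 2 - x - 3 / 2 * σ * x ^ 3) / x ^ 3) := by
    have e1 : t ≠ 0 := by linarith
    have e2 : t' ≠ 0 := by linarith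
    rw [hσ, hx]
    field_simp
    ring
  rw [key, abs_mul, abs_neg, abs_div, abs_of_pos (by positivity : 0 < x ^ 3)]
  have h5 : |σ ^ 2 - x - 3 / 2 * σ * x ^ 3| / x ^ 3 ≤ 400 * M := by
    rw [div_le_iff₀ (by positivity)]
    nlinarith
  calc |t - t'| * (|σ ^ 2 - x - 3 / 2 * σ * x ^ 3| / x ^ 3) ≤ |t - t'| * (400 * M) :=
        mul_le_mul_of_nonneg_left h5 (abs_nonneg _)
    _ = 400 * M * |t - t'| := by ring

/-- the scalar error -/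
private noncomputable def ee (a z : E) : ℝ := ((√(Kd a z)) ^ 3)⁻¹ - 1 - 3 * inner ℝ z a

private theorem inner_le {a z : E} (ha : ‖a‖ ≤ 1) : |inner ℝ z a| ≤ ‖z‖ := by
  refine (abs_real_inner_le_norm z a).trans ?_
  have := norm_nonneg z
  nlinarith

private theorem nsub {z w : E} {m : ℝ} (hz : ‖z‖ ≤ m) (hw : ‖w‖ ≤ m) :
    |‖z‖ ^ 2 - ‖w‖ ^ 2| ≤ 2 * m * ‖z - w‖ := by
  have h1 : |‖z‖ - ‖w‖| ≤ ‖z - w‖ := abs_norm_sub_norm_le z w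
  have h2 : ‖z‖ ^ 2 - ‖w‖ ^ 2 = (‖z‖ + ‖w‖) * (‖z‖ - ‖w‖) := by ring
  rw [h2, abs_mul, abs_of_nonneg (by positivity : 0 ≤ ‖z‖ + ‖w‖)]
  exact mul_le_mul (by linarith) h1 (abs_nonneg _) (by linarith [norm_nonneg z])

private theorem kd_sub {a z w : E} {m : ℝ} (ha : ‖a‖ ≤ 1) (hm : m ≤ 1 / 10) (hz : ‖z‖ ≤ m)
    (hw : ‖w‖ ≤ m) : |Kd a z - Kd a w| ≤ 3 * ‖z - w‖ := by
  have h1 : Kd a z - Kd a w = -2 * inner ℝ (z - w) a + (‖z‖ ^ 2 - ‖w‖ ^ 2) * ‖a‖ ^ 2 := by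
    rw [Kd, Kd, inner_sub_left]
    ring
  have h2 := inner_le (z := z - w) ha
  have h3 := nsub hz hw
  have h4 : ‖a‖ ^ 2 ≤ 1 := pow_le_one₀ (norm_nonneg a) ha
  have h5 : |(‖z‖ ^ 2 - ‖w‖ ^ 2) * ‖a‖ ^ 2| ≤ 2 * m * ‖z - w‖ := by
    rw [abs_mul, abs_of_nonneg (by positivity : 0 ≤ ‖a‖ ^ 2)]
    calc |‖z‖ ^ 2 - ‖w‖ ^ 2| * ‖a‖ ^ 2 ≤ |‖z‖ ^ 2 - ‖w‖ ^ 2| * 1 :=
          mul_le_mul_of_nonneg_left h4 (abs_nonneg _)
      _ ≤ 2 * m * ‖z - w‖ := by linarith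
  have h6 : 2 * m * ‖z - w‖ ≤ ‖z - w‖ := by
    have := norm_nonneg (z - w)
    nlinarith
  rw [h1]
  rw [abs_le] at h2 h5 ⊢
  constructor <;> linarith [h2.1, h2.2, h5.1, h5.2]

private theorem kd_near {a z : E} {m : ℝ} (ha : ‖a‖ ≤ 1) (hm : m ≤ 1 / 10) (hz : ‖z‖ ≤ m) :
    |Kd a z - 1| ≤ 9 / 4 * m := by
  have h2 := inner_le (z := z) ha
  have h4 : ‖a‖ ^ 2 ≤ 1 := pow_le_one₀ (norm_nonneg a) ha
  have h0 := norm_nonneg z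
  have h5 : ‖z‖ ^ 2 * ‖a‖ ^ 2 ≤ 1 / 4 * m := by
    have : ‖z‖ ^ 2 ≤ 1 / 4 * m := by nlinarith
    have h6 : 0 ≤ ‖z‖ ^ 2 := by positivity
    nlinarith
  have h6 : 0 ≤ ‖z‖ ^ 2 * ‖a‖ ^ 2 := by positivity
  rw [Kd]
  rw [abs_le] at h2 ⊢
  constructor <;> linarith [h2.1, h2.2]

private theorem sqrt_near {K m : ℝ} (hm : m ≤ 1 / 10) (h : |K - 1| ≤ 9 / 4 * m) :
    |√K - 1| ≤ 9 / 4 * m ∧ √K ^ 2 = K := by
  rw [abs_le] at h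
  have hK : 0 ≤ K := by linarith [h.1, h.2]
  have h2 : √K ^ 2 = K := Real.sq_sqrt hK
  have h3 := Real.sqrt_nonneg K
  have h4 : |√K - 1| ≤ |K - 1| := by
    have e1 : K - 1 = (√K - 1) * (√K + 1) := by
      linear_combination -h2
    rw [e1, abs_mul, abs_of_nonneg (by linarith : 0 ≤ √K + 1)]
    have := abs_nonneg (√K - 1)
    nlinarith
  refine ⟨h4.trans ?_, h2⟩
  rw [abs_le]
  exact h

private theorem ee_lip {a z w : E} {m : ℝ} (ha : ‖a‖ ≤ 1) (hm : m ≤ 1 / 10) (hz : ‖z‖ ≤ m)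
    (hw : ‖w‖ ≤ m) : |ee a z - ee a w| ≤ 3000 * m * ‖z - w‖ := by
  obtain ⟨h1, h1'⟩ := sqrt_near hm (kd_near ha hm hz)
  obtain ⟨h2, h2'⟩ := sqrt_near hm (kd_near ha hm hw)
  have hm0 : 0 ≤ m := (norm_nonneg z).trans hz
  have h3 := rlip (by linarith : 9 / 4 * m ≤ 1 / 4) h1 h2
  have h4 : |√(Kd a z) - √(Kd a w)| ≤ 3 * ‖z - w‖ := by
    refine le_trans ?_ (kd_sub ha hm hz hw)
    have e1 : Kd a z - Kd a w = (√(Kd a z) - √(Kd a w)) * (√(Kd a z) + √(Kd a w)) := by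
      have : (√(Kd a z) - √(Kd a w)) * (√(Kd a z) + √(Kd a w)) =
        √(Kd a z) ^ 2 - √(Kd a w) ^ 2 := by ring
      rw [this, h1', h2']
    have e2 : 1 ≤ √(Kd a z) + √(Kd a w) := by
      rw [abs_le] at h1 h2
      linarith [h1.1, h2.1]
    rw [e1, abs_mul, abs_of_nonneg (by linarith : 0 ≤ √(Kd a z) + √(Kd a w))]
    have := abs_nonneg (√(Kd a z) - √(Kd a w))
    nlinarith
  have h5 := nsub hz hw
  have h6 : ‖a‖ ^ 2 ≤ 1 := pow_le_one₀ (norm_nonneg a) ha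
  have h7 : |(‖z‖ ^ 2 - ‖w‖ ^ 2) * ‖a‖ ^ 2| ≤ 2 * m * ‖z - w‖ := by
    rw [abs_mul, abs_of_nonneg (by positivity : 0 ≤ ‖a‖ ^ 2)]
    calc |‖z‖ ^ 2 - ‖w‖ ^ 2| * ‖a‖ ^ 2 ≤ |‖z‖ ^ 2 - ‖w‖ ^ 2| * 1 :=
          mul_le_mul_of_nonneg_left h6 (abs_nonneg _)
      _ ≤ 2 * m * ‖z - w‖ := by linarith
  have key : ee a z - ee a w = (((√(Kd a z) ^ 3)⁻¹ + 3 / 2 * √(Kd a z) ^ 2) -
      ((√(Kd a w) ^ 3)⁻¹ + 3 / 2 * √(Kd a w) ^ 2)) - 3 / 2 * ((‖z‖ ^ 2 - ‖w‖ ^ 2) * ‖a‖ ^ 2) := by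
    rw [h1', h2']
    unfold ee Kd
    ring
  have h8 : 400 * (9 / 4 * m) * |√(Kd a z) - √(Kd a w)| ≤ 2700 * m * ‖z - w‖ := by
    calc 400 * (9 / 4 * m) * |√(Kd a z) - √(Kd a w)| ≤ 400 * (9 / 4 * m) * (3 * ‖z - w‖) :=
          mul_le_mul_of_nonneg_left h4 (by positivity)
      _ = 2700 * m * ‖z - w‖ := by ring
  have h9 : 0 ≤ m * ‖z - w‖ := by positivity
  rw [key]
  have h10 := h3.trans h8
  rw [abs_le] at h10 h7 ⊢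
  constructor <;> nlinarith [h10.1, h10.2, h7.1, h7.2]

private theorem ee_zero (a : E) : ee a 0 = 0 := by
  simp [ee, Kd]

private theorem Er_eq (a z : E) :
    Er a z = ee a z • (z - ‖z‖ ^ 2 • a) - (3 * (‖z‖ ^ 2 * inner ℝ z a)) • a := by
  unfold Er ee
  module

theorem Er_lip : ∃ C₁ : ℝ, 1 ≤ C₁ ∧ ∀ (a z w : E) (m : ℝ), ‖a‖ ≤ 1 → m ≤ 1 / 10 → ‖z‖ ≤ m → ‖w‖ ≤ m →
    ‖Er a z - Er a w‖ ≤ C₁ * m ^ 2 * ‖z - w‖ := by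
  refine ⟨20000, by norm_num, ?_⟩
  intro a z w m ha hm hz hw
  have hm0 : 0 ≤ m := (norm_nonneg z).trans hz
  have h1 := ee_lip ha hm hz hw
  have h2 : |ee a z| ≤ 3000 * m ^ 2 := by
    have h := ee_lip (w := 0) ha hm hz (by rw [norm_zero]; exact hm0)
    rw [ee_zero, sub_zero, sub_zero] at h
    refine h.trans ?_
    have : m * ‖z‖ ≤ m * m := mul_le_mul_of_nonneg_left hz hm0
    nlinarith
  have h3 : ‖(z - ‖z‖ ^ 2 • a) - (w - ‖w‖ ^ 2 • a)‖ ≤ 2 * ‖z - w‖ := by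
    have e1 : (z - ‖z‖ ^ 2 • a) - (w - ‖w‖ ^ 2 • a) = (z - w) - (‖z‖ ^ 2 - ‖w‖ ^ 2) • a := by
      module
    rw [e1]
    refine (norm_sub_le _ _).trans ?_
    rw [norm_smul, Real.norm_eq_abs]
    have e2 := nsub hz hw
    have e3 : |‖z‖ ^ 2 - ‖w‖ ^ 2| * ‖a‖ ≤ (2 * m * ‖z - w‖) * 1 :=
      mul_le_mul e2 ha (norm_nonneg _) (by positivity)
    have e4 : 2 * m * ‖z - w‖ ≤ ‖z - w‖ := by
      have := norm_nonneg (z - w)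
      nlinarith
    linarith
  have h4 : ‖w - ‖w‖ ^ 2 • a‖ ≤ 2 * m := by
    refine (norm_sub_le _ _).trans ?_
    rw [norm_smul, Real.norm_of_nonneg (by positivity)]
    have e1 : ‖w‖ ^ 2 * ‖a‖ ≤ m * 1 := by
      refine mul_le_mul ?_ ha (norm_nonneg _) hm0
      have := norm_nonneg w
      nlinarith
    linarith
  have h5 : |‖z‖ ^ 2 * inner ℝ z a - ‖w‖ ^ 2 * inner ℝ w a| ≤ 3 * m ^ 2 * ‖z - w‖ := by
    have e1 : ‖z‖ ^ 2 * inner ℝ z a - ‖w‖ ^ 2 * inner ℝ w a =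
        ‖z‖ ^ 2 * inner ℝ (z - w) a + (‖z‖ ^ 2 - ‖w‖ ^ 2) * inner ℝ w a := by
      rw [inner_sub_left]
      ring
    have e2 : |‖z‖ ^ 2 * inner ℝ (z - w) a| ≤ m ^ 2 * ‖z - w‖ := by
      rw [abs_mul, abs_of_nonneg (by positivity : 0 ≤ ‖z‖ ^ 2)]
      exact mul_le_mul (pow_le_pow_left₀ (norm_nonneg z) hz 2) (inner_le ha) (abs_nonneg _)
        (by positivity)
    have e3 : |(‖z‖ ^ 2 - ‖w‖ ^ 2) * inner ℝ w a| ≤ (2 * m * ‖z - w‖) * m := by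
      rw [abs_mul]
      exact mul_le_mul (nsub hz hw) ((inner_le ha).trans hw) (abs_nonneg _) (by positivity)
    rw [e1]
    refine (abs_add_le _ _).trans ?_
    nlinarith
  have key : Er a z - Er a w = ee a z • ((z - ‖z‖ ^ 2 • a) - (w - ‖w‖ ^ 2 • a)) +
      (ee a z - ee a w) • (w - ‖w‖ ^ 2 • a) -
      (3 * (‖z‖ ^ 2 * inner ℝ z a - ‖w‖ ^ 2 * inner ℝ w a)) • a := by
    rw [Er_eq, Er_eq]
    module
  have hD := norm_nonneg (z - w)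
  have f1 : ‖ee a z • ((z - ‖z‖ ^ 2 • a) - (w - ‖w‖ ^ 2 • a))‖ ≤
      (3000 * m ^ 2) * (2 * ‖z - w‖) := by
    rw [norm_smul, Real.norm_eq_abs]
    exact mul_le_mul h2 h3 (norm_nonneg _) (by positivity)
  have f2 : ‖(ee a z - ee a w) • (w - ‖w‖ ^ 2 • a)‖ ≤ (3000 * m * ‖z - w‖) * (2 * m) := by
    rw [norm_smul, Real.norm_eq_abs]
    exact mul_le_mul h1 h4 (norm_nonneg _) (by positivity)
  have f3 : ‖(3 * (‖z‖ ^ 2 * inner ℝ z a - ‖w‖ ^ 2 * inner ℝ w a)) • a‖ ≤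
      (3 * (3 * m ^ 2 * ‖z - w‖)) * 1 := by
    rw [norm_smul, Real.norm_eq_abs, abs_mul, abs_of_pos (by norm_num : (0 : ℝ) < 3)]
    exact mul_le_mul (mul_le_mul_of_nonneg_left h5 (by norm_num)) ha (norm_nonneg _)
      (by positivity)
  rw [key]
  calc ‖ee a z • ((z - ‖z‖ ^ 2 • a) - (w - ‖w‖ ^ 2 • a)) +
      (ee a z - ee a w) • (w - ‖w‖ ^ 2 • a) -
      (3 * (‖z‖ ^ 2 * inner ℝ z a - ‖w‖ ^ 2 * inner ℝ w a)) • a‖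
      ≤ ‖ee a z • ((z - ‖z‖ ^ 2 • a) - (w - ‖w‖ ^ 2 • a))‖ +
        ‖(ee a z - ee a w) • (w - ‖w‖ ^ 2 • a)‖ +
        ‖(3 * (‖z‖ ^ 2 * inner ℝ z a - ‖w‖ ^ 2 * inner ℝ w a)) • a‖ :=
        (norm_sub_le _ _).trans (add_le_add_left (norm_add_le _ _) _)
    _ ≤ (3000 * m ^ 2) * (2 * ‖z - w‖) + (3000 * m * ‖z - w‖) * (2 * m) +
        (3 * (3 * m ^ 2 * ‖z - w‖)) * 1 := add_le_add (add_le_add f1 f2) f3
    _ = 12009 * (m ^ 2 * ‖z - w‖) := by ring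
    _ ≤ 20000 * m ^ 2 * ‖z - w‖ := by
        have : 0 ≤ m ^ 2 * ‖z - w‖ := by positivity
        nlinarith

end SM992
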