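import Pool.Agent.Work.MP_992d6e_an.SM.Der
import Pool.Agent.Work.MP_992d6e_an.SM.DetG
import Pool.Agent.Work.MP_992d6e_an.Sard

/-!
MODULE IllA (MP_992d6e_an, smoothed analysis): the position of the charge `l` as a function of the
equilibrium.

`PC992.Sard.θ = g` (unfold), `PC992.Sard.κ` is its inverse (`κ_θ`), differentiable off `0` (`κ_diff`).
If `x ≠ a_i` (`i ≠ l`), `x ≠ z` and `F q (update a l z) x = 0` then `q_l g (x - z) = - Ul x`, so
`x - z = κ (-(q_l)⁻¹ Ul x)`, i.e. `Am x = z`.  `Am` is differentiable at `x` (the argument of `κ` is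
`g (x - z) ≠ 0` there), let `T` be its derivative.  Near `x`, `g (y - Am y) = -(q_l)⁻¹ Ul y`
(`θ (κ w) = w` for `w ≠ 0`: prove it as `κ_θ`), and differentiating at `x`:
`Dg (x - z) (v - T v) = -(q_l)⁻¹ D Ul v`, i.e. `q_l Dg (x - z) (T v) = q_l Dg (x-z) v + D Ul v = DF v`.

`am_det_le`: `|det DF| ≤ (τ S) (2 S/ρ₀^3)^2` by `abs_det_le`, `norm_DF_apply_le`; `det (q_l • Dg(u) ∘ T)
= q_l^3 (-2 |u|^{-9}) det T` (`LinearMap.det_comp`, `LinearMap.det_smul`, dimension 3), `u = x - z`,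
`|u| ≤ R + 1`, `S/|q_l| ≤ 1/η`.
-/

set_option autoImplicit false

namespace SM992

variable {n : ℕ}

/-- the field of the charges other than `l` -/
noncomputable def Ul (q : Fin n → ℝ) (a : Fin n → E) (l : Fin n) (x : E) : E :=
  ∑ i ∈ Finset.univ.erase l, q i • g (x - a i)

/-- the position of the charge `l` that makes `x` an equilibrium -/
noncomputable def Am (q : Fin n → ℝ) (a : Fin n → E) (l : Fin n) (x : E) : E :=
  x - PC992.Sard.κ (-((q l)⁻¹ • Ul q a l x))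

private theorem illa_F (q : Fin n → ℝ) (a : Fin n → E) (l : Fin n) (x z : E) :
    F q (Function.update a l z) x = q l • g (x - z) + Ul q a l x := by
  rw [F, Ul, ← Finset.add_sum_erase Finset.univ _ (Finset.mem_univ l), Function.update_self]
  congr 1
  refine Finset.sum_congr rfl fun i hi => ?_
  rw [Function.update_of_ne (Finset.ne_of_mem_erase hi)]

private theorem illa_DF (q : Fin n → ℝ) (a : Fin n → E) (l : Fin n) (x z : E) :
    DF q (Function.update a l z) x =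
      q l • Dg (x - z) + ∑ i ∈ Finset.univ.erase l, q i • Dg (x - a i) := by
  rw [DF, ← Finset.add_sum_erase Finset.univ _ (Finset.mem_univ l), Function.update_self]
  congr 1
  refine Finset.sum_congr rfl fun i hi => ?_
  rw [Function.update_of_ne (Finset.ne_of_mem_erase hi)]

private theorem illa_w (q : Fin n → ℝ) (a : Fin n → E) (l : Fin n) {x z : E} (hq : q l ≠ 0)
    (hF : F q (Function.update a l z) x = 0) : -((q l)⁻¹ • Ul q a l x) = g (x - z) := by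
  rw [illa_F] at hF
  have h1 : Ul q a l x = -(q l • g (x - z)) := by
    rw [← add_eq_zero_iff_eq_neg, add_comm]
    exact hF
  rw [h1, smul_neg, neg_neg, smul_smul, inv_mul_cancel₀ hq, one_smul]

private theorem illa_gk {w : E} (hw : w ≠ 0) : g (PC992.Sard.κ w) = w := by
  have hn : 0 < ‖w‖ := norm_pos_iff.2 hw
  have hs : 0 < √‖w‖ := Real.sqrt_pos.2 hn
  have hs2 : √‖w‖ * √‖w‖ = ‖w‖ := Real.mul_self_sqrt hn.le
  have h1 : ‖PC992.Sard.κ w‖ = (√‖w‖)⁻¹ := by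
    rw [PC992.Sard.κ, norm_smul, norm_inv, norm_mul, norm_norm, Real.norm_eq_abs,
      abs_of_pos hs]
    field_simp
  rw [g, h1, PC992.Sard.κ, smul_smul]
  have h2 : ((√‖w‖)⁻¹ ^ 3)⁻¹ * (‖w‖ * √‖w‖)⁻¹ = 1 := by
    have h3 : ‖w‖ * √‖w‖ = √‖w‖ ^ 3 := by
      rw [pow_succ, pow_two, hs2]
    rw [h3]
    field_simp
  rw [h2, one_smul]

private theorem illa_Ul (q : Fin n → ℝ) (a : Fin n → E) (l : Fin n) {x : E}
    (hx : ∀ i, i ≠ l → x ≠ a i) :
    HasFDerivAt (Ul q a l) (∑ i ∈ Finset.univ.erase l, q i • Dg (x - a i)) x := by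
  have h1 : ∀ i ∈ Finset.univ.erase l,
      HasFDerivAt (fun y => q i • g (y - a i)) (q i • Dg (x - a i)) x := by
    intro i hi
    have h2 : HasFDerivAt (fun y : E => y - a i) (ContinuousLinearMap.id ℝ E) x :=
      (hasFDerivAt_id x).sub_const (a i)
    have h3 : HasFDerivAt (fun y : E => g (y - a i))
        ((Dg (x - a i)).comp (ContinuousLinearMap.id ℝ E)) x :=
      HasFDerivAt.comp (g := g) x
        (hasStrictFDerivAt_g (sub_ne_zero.2 (hx i (Finset.ne_of_mem_erase hi)))).hasFDerivAt h2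
    rw [ContinuousLinearMap.comp_id] at h3
    exact h3.const_smul (q i)
  exact HasFDerivAt.fun_sum h1

private theorem illa_g_ne {u : E} (hu : u ≠ 0) : g u ≠ 0 := PC992.Sard.θ_ne hu

theorem am_eq (q : Fin n → ℝ) (a : Fin n → E) (l : Fin n) {x z : E} (hq : q l ≠ 0) (hz : x ≠ z)
    (hF : F q (Function.update a l z) x = 0) : Am q a l x = z := by
  have h1 : PC992.Sard.κ (g (x - z)) = x - z := PC992.Sard.κ_θ (sub_ne_zero.2 hz)
  rw [Am, illa_w q a l hq hF, h1, sub_sub_cancel]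

theorem am_deriv (q : Fin n → ℝ) (a : Fin n → E) (l : Fin n) {x z : E} (hq : q l ≠ 0)
    (hx : ∀ i, i ≠ l → x ≠ a i) (hz : x ≠ z) (hF : F q (Function.update a l z) x = 0) :
    ∃ T : E →L[ℝ] E, HasFDerivAt (Am q a l) T x ∧
      ∀ v, q l • Dg (x - z) (T v) = DF q (Function.update a l z) x v := by
  have hxz : x - z ≠ 0 := sub_ne_zero.2 hz
  have hU := illa_Ul q a l hx
  have hw := illa_w q a l hq hF
  set D : E →L[ℝ] E := ∑ i ∈ Finset.univ.erase l, q i • Dg (x - a i) with hD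
  have hW : HasFDerivAt (fun y => -((q l)⁻¹ • Ul q a l y)) (-((q l)⁻¹ • D)) x :=
    (hU.const_smul (q l)⁻¹).neg
  have hκ : DifferentiableAt ℝ PC992.Sard.κ (-((q l)⁻¹ • Ul q a l x)) := by
    rw [hw]
    exact PC992.Sard.κ_diff (illa_g_ne hxz)
  have hκ2 : HasFDerivAt (fun y => PC992.Sard.κ (-((q l)⁻¹ • Ul q a l y)))
      ((fderiv ℝ PC992.Sard.κ (-((q l)⁻¹ • Ul q a l x))).comp (-((q l)⁻¹ • D))) x :=
    HasFDerivAt.comp (g := PC992.Sard.κ) x hκ.hasFDerivAt hW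
  set T : E →L[ℝ] E := ContinuousLinearMap.id ℝ E -
    (fderiv ℝ PC992.Sard.κ (-((q l)⁻¹ • Ul q a l x))).comp (-((q l)⁻¹ • D)) with hT
  have hAm : HasFDerivAt (Am q a l) T x := (hasFDerivAt_id x).sub hκ2
  refine ⟨T, hAm, fun v => ?_⟩
  have hAx : Am q a l x = z := am_eq q a l hq hz hF
  -- the two sides as functions of `y`
  have h1 : HasFDerivAt (fun y => g (y - Am q a l y))
      ((Dg (x - z)).comp (ContinuousLinearMap.id ℝ E - T)) x := by
    have h2 : HasFDerivAt (fun y => y - Am q a l y) (ContinuousLinearMap.id ℝ E - T) x :=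
      (hasFDerivAt_id x).sub hAm
    have h3 : HasFDerivAt g (Dg (x - z)) (x - Am q a l x) := by
      rw [hAx]
      exact (hasStrictFDerivAt_g hxz).hasFDerivAt
    exact HasFDerivAt.comp (g := g) x h3 h2
  have hev : (fun y => g (y - Am q a l y)) =ᶠ[nhds x] fun y => -((q l)⁻¹ • Ul q a l y) := by
    have hne : ∀ᶠ y in nhds x, -((q l)⁻¹ • Ul q a l y) ≠ 0 := by
      apply hW.continuousAt.eventually_ne
      rw [hw]
      exact illa_g_ne hxz
    filter_upwards [hne] with y hy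
    rw [Am, sub_sub_cancel, illa_gk hy]
  have h4 := h1.unique (hW.congr_of_eventuallyEq hev)
  have h5 := congrArg (fun L : E →L[ℝ] E => L v) h4
  have h6 : Dg (x - z) (v - T v) = -((q l)⁻¹ • D v) := h5
  rw [map_sub] at h6
  have h7 : Dg (x - z) (T v) = Dg (x - z) v + (q l)⁻¹ • D v := by
    rw [sub_eq_iff_eq_add] at h6
    rw [h6]
    abel
  rw [h7, smul_add, smul_smul, mul_inv_cancel₀ hq, one_smul, illa_DF]
  rfl

theorem am_det_le (q : Fin n → ℝ) (a : Fin n → E) (l : Fin n) {x z : E} {ρ₀ R τ η : ℝ}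
    (hq : q l ≠ 0) (hρ : 0 < ρ₀) (hτ : 0 ≤ τ) (hη : 0 < η) (hηl : η * S q ≤ |q l|)
    (hx : ∀ i, i ≠ l → ρ₀ ≤ ‖x - a i‖) (hz : ρ₀ ≤ ‖x - z‖) (hxR : ‖x‖ ≤ R) (hz1 : ‖z‖ ≤ 1)
    (hF : F q (Function.update a l z) x = 0)
    (hv : ∃ v, ‖v‖ = 1 ∧ ‖DF q (Function.update a l z) x v‖ ≤ τ * S q) :
    DifferentiableAt ℝ (Am q a l) x ∧
      |(fderiv ℝ (Am q a l) x).det| ≤ 2 * τ * (R + 1) ^ 9 / (η ^ 3 * ρ₀ ^ 6) := by
  have hxz : x ≠ z := by
    intro h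
    rw [h, sub_self, norm_zero] at hz
    exact absurd hρ (not_lt.2 hz)
  have hxa : ∀ i, i ≠ l → x ≠ a i := by
    intro i hi h
    have h1 := hx i hi
    rw [h, sub_self, norm_zero] at h1
    exact absurd hρ (not_lt.2 h1)
  obtain ⟨T, hT, hTv⟩ := am_deriv q a l hq hxa hxz hF
  refine ⟨hT.differentiableAt, ?_⟩
  rw [hT.fderiv]
  obtain ⟨v, hv1, hv2⟩ := hv
  have hu : x - z ≠ 0 := sub_ne_zero.2 hxz
  have hu0 : 0 < ‖x - z‖ := norm_pos_iff.2 hu
  have hS0 : 0 ≤ S q := Finset.sum_nonneg fun i _ => abs_nonneg _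
  have hB0 : 0 ≤ 2 * S q / ρ₀ ^ 3 := by positivity
  have hB : ∀ w, ‖DF q (Function.update a l z) x w‖ ≤ 2 * S q / ρ₀ ^ 3 * ‖w‖ := by
    intro w
    refine (norm_DF_apply_le q _ x w).trans ?_
    refine mul_le_mul_of_nonneg_right ?_ (norm_nonneg w)
    have h1 : 2 * S q / ρ₀ ^ 3 = ∑ i, |q i| * (2 * (ρ₀ ^ 3)⁻¹) := by
      rw [← Finset.sum_mul, S]
      ring
    rw [h1]
    refine Finset.sum_le_sum fun i _ => ?_
    refine mul_le_mul_of_nonneg_left ?_ (abs_nonneg _)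
    refine mul_le_mul_of_nonneg_left ?_ (by norm_num)
    have h2 : ρ₀ ≤ ‖x - Function.update a l z i‖ := by
      by_cases hi : i = l
      · subst hi
        rw [Function.update_self]
        exact hz
      · rw [Function.update_of_ne hi]
        exact hx i hi
    exact inv_anti₀ (by positivity) (pow_le_pow_left₀ hρ.le h2 3)
  have h1 := abs_det_le (DF q (Function.update a l z) x) hv1 hv2 hB0 hB
  have h2 : (DF q (Function.update a l z) x).det =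
      q l ^ 3 * (-2 * (‖x - z‖ ^ 9)⁻¹) * T.det := by
    have h3 : (DF q (Function.update a l z) x : E →ₗ[ℝ] E) =
        q l • ((Dg (x - z) : E →ₗ[ℝ] E) ∘ₗ (T : E →ₗ[ℝ] E)) := by
      apply LinearMap.ext
      intro w
      exact (hTv w).symm
    rw [ContinuousLinearMap.det, h3, LinearMap.det_smul, LinearMap.det_comp]
    have h4 : LinearMap.det (Dg (x - z) : E →ₗ[ℝ] E) = -2 * (‖x - z‖ ^ 9)⁻¹ := det_Dg hu
    have h5 : Module.finrank ℝ E = 3 := by simp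
    rw [h4, h5, mul_assoc, mul_assoc, mul_assoc]
  have hq0 : 0 < |q l| := abs_pos.2 hq
  have hR0 : 0 ≤ R := (norm_nonneg x).trans hxR
  have huR : ‖x - z‖ ≤ R + 1 := (norm_sub_le x z).trans (add_le_add hxR hz1)
  rw [h2, abs_mul, abs_mul, abs_pow, abs_mul, abs_neg, abs_two, abs_inv, abs_pow,
    abs_of_pos hu0] at h1
  -- `|q|^3 * 2 / u^9 * |det T| ≤ τ S (2 S / ρ^3)^2`
  have h6 : |T.det| ≤ 2 * τ * S q ^ 3 * ‖x - z‖ ^ 9 / (|q l| ^ 3 * ρ₀ ^ 6) := by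
    rw [le_div_iff₀ (by positivity)]
    have h7 : |q l| ^ 3 * (2 * (‖x - z‖ ^ 9)⁻¹) * |T.det| * (‖x - z‖ ^ 9 * ρ₀ ^ 6) ≤
        τ * S q * (2 * S q / ρ₀ ^ 3) ^ 2 * (‖x - z‖ ^ 9 * ρ₀ ^ 6) :=
      mul_le_mul_of_nonneg_right h1 (by positivity)
    have h8 : |q l| ^ 3 * (2 * (‖x - z‖ ^ 9)⁻¹) * |T.det| * (‖x - z‖ ^ 9 * ρ₀ ^ 6) =
        2 * (|T.det| * (|q l| ^ 3 * ρ₀ ^ 6)) := by
      field_simp
    have h9 : τ * S q * (2 * S q / ρ₀ ^ 3) ^ 2 * (‖x - z‖ ^ 9 * ρ₀ ^ 6) =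
        2 * (2 * τ * S q ^ 3 * ‖x - z‖ ^ 9) := by
      have hρ' : ρ₀ ≠ 0 := hρ.ne'
      rw [div_pow, ← pow_mul]
      have e1 : (2 * S q) ^ 2 / ρ₀ ^ (3 * 2) * ρ₀ ^ 6 = (2 * S q) ^ 2 :=
        div_mul_cancel₀ _ (by positivity)
      calc τ * S q * ((2 * S q) ^ 2 / ρ₀ ^ (3 * 2)) * (‖x - z‖ ^ 9 * ρ₀ ^ 6)
          = τ * S q * ((2 * S q) ^ 2 / ρ₀ ^ (3 * 2) * ρ₀ ^ 6) * ‖x - z‖ ^ 9 := by ring
        _ = 2 * (2 * τ * S q ^ 3 * ‖x - z‖ ^ 9) := by rw [e1]; ring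
    rw [h8, h9] at h7
    linarith
  refine h6.trans ?_
  rw [div_le_div_iff₀ (by positivity) (by positivity)]
  have h10 : (η * S q) ^ 3 ≤ |q l| ^ 3 := pow_le_pow_left₀ (by positivity) hηl 3
  have h11 : ‖x - z‖ ^ 9 ≤ (R + 1) ^ 9 := pow_le_pow_left₀ hu0.le huR 9
  calc 2 * τ * S q ^ 3 * ‖x - z‖ ^ 9 * (η ^ 3 * ρ₀ ^ 6)
      = 2 * τ * (‖x - z‖ ^ 9 * (η * S q) ^ 3) * ρ₀ ^ 6 := by ring
    _ ≤ 2 * τ * ((R + 1) ^ 9 * |q l| ^ 3) * ρ₀ ^ 6 := by gcongr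
    _ = 2 * τ * (R + 1) ^ 9 * (|q l| ^ 3 * ρ₀ ^ 6) := by ring

end SM992
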