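import Pool.Agent.Work.MP_992d6e_an.SM.Approx

/-!
MODULE PolyF (MP_992d6e_an, smoothed analysis): the approximating map is polynomial.

`x ↦ gP P u (x - y)` has `i`-th coordinate
`|u|^{-3} P((2 Σ_k u_k (x_k - y_k) + Σ_k (x_k - y_k)^2)/|u|^2) (u_i + x_i - y_i)`.  With
`W : MvPolynomial (Fin 3) ℝ` for the argument, `totalDegree W ≤ 2`, take
`MvPolynomial.C (|u|^{-3}) * Polynomial.aeval W P * (C (u i - y i) + X i)`, of total degree at most
`2 natDegree P + 1` (`Polynomial.aeval_eq_sum_range`, `MvPolynomial.totalDegree_finset_sum`,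
`totalDegree_mul`, `totalDegree_pow`).  Then sum over `l` with the coefficients `q l`.
-/

set_option autoImplicit false

namespace SM992

variable {n : ℕ}

open MvPolynomial in
private theorem p1 (y u : E) : ∃ W : MvPolynomial (Fin 3) ℝ, W.totalDegree ≤ 2 ∧ ∀ x : E,
    MvPolynomial.eval (fun k => x k) W =
      (2 * inner ℝ u (x - y) + ‖x - y‖ ^ 2) / ‖u‖ ^ 2 := by
  refine ⟨C ((‖u‖ ^ 2)⁻¹) * (∑ k, (C (2 * u k) * (X k - C (y k)) + (X k - C (y k)) ^ 2)), ?_, ?_⟩
  · refine (totalDegree_mul _ _).trans ?_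
    rw [totalDegree_C, zero_add]
    refine totalDegree_finsetSum_le fun k _ => ?_
    have h1 : (X k - C (y k) : MvPolynomial (Fin 3) ℝ).totalDegree ≤ 1 := by
      refine (totalDegree_sub _ _).trans ?_
      rw [totalDegree_C, totalDegree_X]
      simp
    refine (totalDegree_add _ _).trans (max_le ?_ ?_)
    · refine (totalDegree_mul _ _).trans ?_
      rw [totalDegree_C]
      omega
    · refine (totalDegree_pow _ _).trans ?_
      omega
  · intro x
    simp only [map_mul, eval_C, map_sum, map_add, map_sub, map_pow, eval_X]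
    rw [EuclideanSpace.real_norm_sq_eq (x - y), div_eq_inv_mul]
    congr 1
    rw [PiLp.inner_apply, Finset.mul_sum, ← Finset.sum_add_distrib]
    refine Finset.sum_congr rfl fun k _ => ?_
    simp only [PiLp.sub_apply, RCLike.inner_apply, conj_trivial]
    ring

open MvPolynomial in
private theorem p2 (P : Polynomial ℝ) (W : MvPolynomial (Fin 3) ℝ) (hW : W.totalDegree ≤ 2) :
    (Polynomial.aeval W P).totalDegree ≤ 2 * P.natDegree := by
  rw [Polynomial.aeval_eq_sum_range]
  refine totalDegree_finsetSum_le fun k hk => ?_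
  refine (totalDegree_smul_le _ _).trans ((totalDegree_pow _ _).trans ?_)
  have h1 := Finset.mem_range.1 hk
  calc k * W.totalDegree ≤ P.natDegree * 2 := Nat.mul_le_mul (by omega) hW
    _ = 2 * P.natDegree := mul_comm _ _

open MvPolynomial in
private theorem p3 (P : Polynomial ℝ) (W : MvPolynomial (Fin 3) ℝ) (x : Fin 3 → ℝ) :
    MvPolynomial.eval x (Polynomial.aeval W P) = P.eval (MvPolynomial.eval x W) := by
  rw [Polynomial.aeval_def, Polynomial.hom_eval₂, Polynomial.eval, MvPolynomial.algebraMap_eq]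
  congr 1
  ext a
  simp

open MvPolynomial in
theorem exists_mv (P : Polynomial ℝ) (q : Fin n → ℝ) (u : Fin n → E) (y : E) :
    ∃ Q : Fin 3 → MvPolynomial (Fin 3) ℝ, (∀ i, (Q i).totalDegree ≤ 2 * P.natDegree + 1) ∧
      ∀ x : E, (WithLp.toLp 2 (fun i => MvPolynomial.eval (fun k => x k) (Q i)) : E) =
        ∑ l, q l • gP P (u l) (x - y) := by
  choose W hW hWe using fun l => p1 y (u l)
  refine ⟨fun i => ∑ l, C (q l) * (C ((‖u l‖ ^ 3)⁻¹) * Polynomial.aeval (W l) P *
    (C (u l i - y i) + X i)), ?_, ?_⟩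
  · intro i
    refine totalDegree_finsetSum_le fun l _ => ?_
    refine (totalDegree_mul _ _).trans ?_
    rw [totalDegree_C, zero_add]
    refine (totalDegree_mul _ _).trans (add_le_add ?_ ?_)
    · refine (totalDegree_mul _ _).trans ?_
      rw [totalDegree_C, zero_add]
      exact p2 P _ (hW l)
    · refine (totalDegree_add _ _).trans ?_
      rw [totalDegree_C, totalDegree_X]
      simp
  · intro x
    ext i
    simp only [map_sum, map_mul, map_add, eval_C, eval_X, p3, hWe]
    rw [WithLp.ofLp_sum, Finset.sum_apply]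
    refine Finset.sum_congr rfl fun l _ => ?_
    simp only [gP, PiLp.smul_apply, PiLp.add_apply, PiLp.sub_apply, smul_eq_mul]
    ring

end SM992
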