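import Pool.Agent.Work.MP_992d6e_an.SM.Ser
import Pool.Agent.Work.MP_992d6e_an.SM.PolyF
import Pool.Agent.Work.MP_992d6e_an.SM.DgLip
import Pool.Agent.Work.MP_992d6e_an.SM.Pert
import Pool.Agent.Work.MP_992d6e_an.SM.Bez

/-!
MODULE Local (MP_992d6e_an, smoothed analysis): the local count of well-conditioned equilibria.

Let `M = M q a y > 0`, `u_l = y - a_l`, `|u_l| ≥ s`.  Apply `pert` with `ρ = s/16`, `F = F q a`, `F' = DF q a`,
`G x = Σ q_l gP P u_l (x - y)`, `G' x = Σ q_l DgP P u_l (x - y)`, `σ = M/(K s)`.  For `x ∈ closedBall y (s/8)`: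
`|x - a_l| ≥ (7/8)|u_l|`, so `L = 40 M/s^2` by `Dg_lip` (`20 (8/7)^4 ≤ 40`,
`|u_l|^{-4} ≤ |u_l|^{-2} s^{-2}`); with `ε = C c^D` (`exists_poly`), `ε₀ = 2 M ε`, `ε₁ = 4 M ε / s`
(`gP_approx`, `DgP_approx`).  Take `r = s/(320 K)` (`8 L r = σ`, `2 r ≤ s/16`); the conditions become
`16 ε ≤ 1/K` and `8 ε ≤ 1/(320 K^2)`, both implied by `ε ≤ 1/(2560 K^2)`.  With
`D = ⌈log (2560 C K^2)/log (1/c)⌉₊` (or any `D` with `C c^D ≤ 1/(2560 K^2)` and `D + 2 ≤ C' log K`), `K ≥ 2`,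
the number of zeros is at most `27 (2 (D+1) + 1)^3 ≤ C'' (log K)^3` by `exists_mv` and `bezout`.
-/

set_option autoImplicit false

namespace SM992

open Metric

variable {n : ℕ}

/-- the approximating map -/
private noncomputable def lcG (P : Polynomial ℝ) (q : Fin n → ℝ) (a : Fin n → E) (y : E)
    (x : E) : E := ∑ l, q l • gP P (y - a l) (x - y)

private noncomputable def lcG' (P : Polynomial ℝ) (q : Fin n → ℝ) (a : Fin n → E) (y : E)
    (x : E) : E →L[ℝ] E := ∑ l, q l • DgP P (y - a l) (x - y)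

private theorem lc_deriv (P : Polynomial ℝ) (q : Fin n → ℝ) (a : Fin n → E) (y x : E) :
    HasFDerivAt (lcG P q a y) (lcG' P q a y x) x := by
  have h1 : ∀ l ∈ (Finset.univ : Finset (Fin n)),
      HasFDerivAt (fun x => q l • gP P (y - a l) (x - y)) (q l • DgP P (y - a l) (x - y)) x := by
    intro l _
    have h2 : HasFDerivAt (fun x : E => x - y) (ContinuousLinearMap.id ℝ E) x :=
      (hasFDerivAt_id x).sub_const y
    have h3 : HasFDerivAt (fun x : E => gP P (y - a l) (x - y))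
        ((DgP P (y - a l) (x - y)).comp (ContinuousLinearMap.id ℝ E)) x :=
      HasFDerivAt.comp (g := gP P (y - a l)) x (hasFDerivAt_gP P (y - a l) (x - y)) h2
    rw [ContinuousLinearMap.comp_id] at h3
    exact h3.const_smul (q l)
  exact HasFDerivAt.fun_sum h1

private theorem lc_far {a y x : E} {s : ℝ} (hs : 0 < s) (hsa : s ≤ ‖y - a‖)
    (hx : ‖x - y‖ ≤ s / 8) : ‖x - y‖ ≤ ‖y - a‖ / 8 ∧ 7 / 8 * ‖y - a‖ ≤ ‖x - a‖ ∧
      x - a = (y - a) + (x - y) ∧ y - a ≠ 0 := by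
  refine ⟨by linarith, ?_, by abel, fun h => ?_⟩
  · have h1 : ‖y - a‖ ≤ ‖x - a‖ + ‖x - y‖ := by
      have h2 : y - a = (x - a) - (x - y) := by abel
      rw [h2]
      exact norm_sub_le _ _
    linarith
  · rw [h, norm_zero] at hsa
    linarith

private theorem lc_lip (q : Fin n → ℝ) (a : Fin n → E) (y : E) {s : ℝ} (hs : 0 < s)
    (hsa : ∀ l, s ≤ ‖y - a l‖) {x x' : E} (hx : ‖x - y‖ ≤ s / 8) (hx' : ‖x' - y‖ ≤ s / 8)
    (v : E) : ‖DF q a x v - DF q a x' v‖ ≤ 40 * M q a y / s ^ 2 * ‖x - x'‖ * ‖v‖ := by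
  have h1 : DF q a x v - DF q a x' v =
      ∑ l, q l • (Dg (x - a l) v - Dg (x' - a l) v) := by
    rw [DF, DF, sum_apply, sum_apply, ← Finset.sum_sub_distrib]
    refine Finset.sum_congr rfl fun l _ => ?_
    rw [smul_apply, smul_apply, smul_sub]
  have h2 : 40 * M q a y / s ^ 2 * ‖x - x'‖ * ‖v‖ =
      ∑ l, |q l| / ‖y - a l‖ ^ 2 * (40 / s ^ 2 * ‖x - x'‖ * ‖v‖) := by
    rw [← Finset.sum_mul, M]
    ring
  rw [h1, h2]
  refine (norm_sum_le _ _).trans (Finset.sum_le_sum fun l _ => ?_)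
  rw [norm_smul, Real.norm_eq_abs, div_mul_eq_mul_div, mul_div_assoc]
  refine mul_le_mul_of_nonneg_left ?_ (abs_nonneg _)
  obtain ⟨-, h3, -, h4⟩ := lc_far hs (hsa l) hx
  obtain ⟨-, h3', -, -⟩ := lc_far hs (hsa l) hx'
  have hu : 0 < ‖y - a l‖ := norm_pos_iff.2 h4
  have h5 := Dg_lip (m := 7 / 8 * ‖y - a l‖) (by positivity) h3 h3' v
  have h6 : x - a l - (x' - a l) = x - x' := by abel
  rw [h6] at h5
  refine h5.trans ?_
  rw [div_eq_mul_inv (40 / s ^ 2 * ‖x - x'‖ * ‖v‖)]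
  have h7 : 20 * ((7 / 8 * ‖y - a l‖) ^ 4)⁻¹ ≤ 40 / s ^ 2 * (‖y - a l‖ ^ 2)⁻¹ := by
    rw [mul_pow, mul_inv]
    have e1 : (‖y - a l‖ ^ 4)⁻¹ ≤ (s ^ 2)⁻¹ * (‖y - a l‖ ^ 2)⁻¹ := by
      rw [← mul_inv]
      refine inv_anti₀ (by positivity) ?_
      have := pow_le_pow_left₀ hs.le (hsa l) 2
      calc s ^ 2 * ‖y - a l‖ ^ 2 ≤ ‖y - a l‖ ^ 2 * ‖y - a l‖ ^ 2 := by gcongr
        _ = ‖y - a l‖ ^ 4 := by ring
    have e2 : (0 : ℝ) < (‖y - a l‖ ^ 4)⁻¹ := by positivity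
    calc 20 * ((((7 : ℝ) / 8) ^ 4)⁻¹ * (‖y - a l‖ ^ 4)⁻¹)
        ≤ 40 * (‖y - a l‖ ^ 4)⁻¹ := by
          have e3 : 20 * (((7 : ℝ) / 8) ^ 4)⁻¹ ≤ 40 := by norm_num
          calc 20 * ((((7 : ℝ) / 8) ^ 4)⁻¹ * (‖y - a l‖ ^ 4)⁻¹)
              = 20 * (((7 : ℝ) / 8) ^ 4)⁻¹ * (‖y - a l‖ ^ 4)⁻¹ := by ring
            _ ≤ 40 * (‖y - a l‖ ^ 4)⁻¹ := by gcongr
      _ ≤ 40 * ((s ^ 2)⁻¹ * (‖y - a l‖ ^ 2)⁻¹) := by gcongr
      _ = 40 / s ^ 2 * (‖y - a l‖ ^ 2)⁻¹ := by ring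
  calc 20 * ((7 / 8 * ‖y - a l‖) ^ 4)⁻¹ * ‖x - x'‖ * ‖v‖
      ≤ 40 / s ^ 2 * (‖y - a l‖ ^ 2)⁻¹ * ‖x - x'‖ * ‖v‖ := by gcongr
    _ = 40 / s ^ 2 * ‖x - x'‖ * ‖v‖ * (‖y - a l‖ ^ 2)⁻¹ := by ring

private theorem lc_app0 (P : Polynomial ℝ) (q : Fin n → ℝ) (a : Fin n → E) (y : E) {s ε : ℝ}
    (hs : 0 < s) (hsa : ∀ l, s ≤ ‖y - a l‖)
    (h : ∀ w : ℝ, |w| ≤ 1 / 3 → |((√(1 + w)) ^ 3)⁻¹ - P.eval w| ≤ ε)
    {x : E} (hx : ‖x - y‖ ≤ s / 8) : ‖F q a x - lcG P q a y x‖ ≤ 2 * M q a y * ε := by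
  have h1 : F q a x - lcG P q a y x = ∑ l, q l • (g (x - a l) - gP P (y - a l) (x - y)) := by
    rw [F, lcG, ← Finset.sum_sub_distrib]
    refine Finset.sum_congr rfl fun l _ => ?_
    rw [smul_sub]
  have h2 : 2 * M q a y * ε = ∑ l, |q l| / ‖y - a l‖ ^ 2 * (2 * ε) := by
    rw [← Finset.sum_mul, M]
    ring
  rw [h1, h2]
  refine (norm_sum_le _ _).trans (Finset.sum_le_sum fun l _ => ?_)
  obtain ⟨h3, -, h4, h5⟩ := lc_far hs (hsa l) hx
  have h6 := gP_approx P h5 h3 h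
  rw [← h4] at h6
  rw [norm_smul, Real.norm_eq_abs, div_mul_eq_mul_div, mul_div_assoc]
  refine mul_le_mul_of_nonneg_left (h6.trans (le_of_eq ?_)) (abs_nonneg _)
  rw [div_eq_mul_inv]

private theorem lc_app1 (P : Polynomial ℝ) (q : Fin n → ℝ) (a : Fin n → E) (y : E) {s ε : ℝ}
    (hs : 0 < s) (hε : 0 ≤ ε) (hsa : ∀ l, s ≤ ‖y - a l‖)
    (h : ∀ w : ℝ, |w| ≤ 1 / 3 → |((√(1 + w)) ^ 3)⁻¹ - P.eval w| ≤ ε)
    (h' : ∀ w : ℝ, |w| ≤ 1 / 3 → |-(3 / 2) * ((√(1 + w)) ^ 5)⁻¹ - P.derivative.eval w| ≤ ε)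
    {x : E} (hx : ‖x - y‖ ≤ s / 8) (v : E) :
    ‖DF q a x v - lcG' P q a y x v‖ ≤ 4 * M q a y * ε / s * ‖v‖ := by
  have h1 : DF q a x v - lcG' P q a y x v =
      ∑ l, q l • (Dg (x - a l) v - DgP P (y - a l) (x - y) v) := by
    rw [DF, lcG', sum_apply, sum_apply, ← Finset.sum_sub_distrib]
    refine Finset.sum_congr rfl fun l _ => ?_
    rw [smul_apply, smul_apply, smul_sub]
  have h2 : 4 * M q a y * ε / s * ‖v‖ = ∑ l, |q l| / ‖y - a l‖ ^ 2 * (4 * ε / s * ‖v‖) := by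
    rw [← Finset.sum_mul, M]
    ring
  rw [h1, h2]
  refine (norm_sum_le _ _).trans (Finset.sum_le_sum fun l _ => ?_)
  obtain ⟨h3, -, h4, h5⟩ := lc_far hs (hsa l) hx
  have h6 := DgP_approx P h5 h3 h h' v
  rw [← h4] at h6
  rw [norm_smul, Real.norm_eq_abs, div_mul_eq_mul_div, mul_div_assoc]
  refine mul_le_mul_of_nonneg_left (h6.trans ?_) (abs_nonneg _)
  have hu : 0 < ‖y - a l‖ := norm_pos_iff.2 h5
  have h7 : (‖y - a l‖ ^ 3)⁻¹ ≤ s⁻¹ * (‖y - a l‖ ^ 2)⁻¹ := by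
    rw [← mul_inv]
    refine inv_anti₀ (by positivity) ?_
    calc s * ‖y - a l‖ ^ 2 ≤ ‖y - a l‖ * ‖y - a l‖ ^ 2 := by
          gcongr
          exact hsa l
      _ = ‖y - a l‖ ^ 3 := by ring
  calc 4 * ε * (‖y - a l‖ ^ 3)⁻¹ * ‖v‖ ≤ 4 * ε * (s⁻¹ * (‖y - a l‖ ^ 2)⁻¹) * ‖v‖ := by gcongr
    _ = 4 * ε / s * ‖v‖ / ‖y - a l‖ ^ 2 := by
      rw [div_eq_mul_inv, div_eq_mul_inv]
      ring

/-- the choice of the degree -/
private theorem lc_deg {C₀ c : ℝ} (hC : 0 < C₀) (hc0 : 0 < c) (hc1 : c < 1) :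
    ∃ C' : ℝ, 0 < C' ∧ ∀ K : ℝ, 2 ≤ K → ∃ D : ℕ, C₀ * c ^ D ≤ 1 / (2560 * K ^ 2) ∧
      (D : ℝ) + 2 ≤ C' * Real.log K := by
  have hk : 0 < -Real.log c := by
    have := Real.log_neg hc0 hc1
    linarith
  set k := -Real.log c with hkd
  refine ⟨2 * (|Real.log (2560 * C₀)| / k + 3) + 2 / k, by positivity, fun K hK => ?_⟩
  have hK0 : 0 < K := by linarith
  have hlK : 1 / 2 ≤ Real.log K := by
    have h1 : Real.log 2 ≤ Real.log K := Real.log_le_log (by norm_num) hK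
    have h2 := Real.log_two_gt_d9
    linarith
  refine ⟨⌈Real.log (2560 * C₀ * K ^ 2) / k⌉₊, ?_, ?_⟩
  · have h1 : Real.log (2560 * C₀ * K ^ 2) / k ≤ (⌈Real.log (2560 * C₀ * K ^ 2) / k⌉₊ : ℝ) :=
      Nat.le_ceil _
    set D := ⌈Real.log (2560 * C₀ * K ^ 2) / k⌉₊ with hD
    rw [div_le_iff₀ hk] at h1
    have h2 : c ^ D = Real.exp (-(D * k)) := by
      rw [hkd, mul_neg, neg_neg, mul_comm, Real.exp_mul, Real.exp_log hc0, Real.rpow_natCast]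
    have h3 : c ^ D ≤ (2560 * C₀ * K ^ 2)⁻¹ := by
      rw [h2]
      calc Real.exp (-(D * k)) ≤ Real.exp (-Real.log (2560 * C₀ * K ^ 2)) :=
            Real.exp_le_exp.2 (by linarith)
        _ = (2560 * C₀ * K ^ 2)⁻¹ := by
            rw [Real.exp_neg, Real.exp_log (by positivity)]
    calc C₀ * c ^ D ≤ C₀ * (2560 * C₀ * K ^ 2)⁻¹ := by gcongr
      _ = 1 / (2560 * K ^ 2) := by
        field_simp
  · have h1 : (⌈Real.log (2560 * C₀ * K ^ 2) / k⌉₊ : ℝ) ≤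
        |Real.log (2560 * C₀ * K ^ 2) / k| + 1 := by
      have h2 := Nat.ceil_mono (le_abs_self (Real.log (2560 * C₀ * K ^ 2) / k))
      have h3 := (Nat.ceil_lt_add_one (abs_nonneg (Real.log (2560 * C₀ * K ^ 2) / k))).le
      have h4 : (⌈Real.log (2560 * C₀ * K ^ 2) / k⌉₊ : ℝ) ≤
          (⌈|Real.log (2560 * C₀ * K ^ 2) / k|⌉₊ : ℝ) := by exact_mod_cast h2
      linarith
    have h2 : Real.log (2560 * C₀ * K ^ 2) = Real.log (2560 * C₀) + 2 * Real.log K := by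
      rw [Real.log_mul (by positivity) (by positivity), Real.log_pow]
      push_cast
      ring
    have h3 : |Real.log (2560 * C₀ * K ^ 2) / k| ≤
        |Real.log (2560 * C₀)| / k + 2 / k * Real.log K := by
      rw [h2, abs_div, abs_of_pos hk]
      have h4 : |Real.log (2560 * C₀) + 2 * Real.log K| ≤
          |Real.log (2560 * C₀)| + 2 * Real.log K := by
        refine (abs_add_le _ _).trans (le_of_eq ?_)
        rw [abs_of_nonneg (by linarith : (0 : ℝ) ≤ 2 * Real.log K)]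
      calc |Real.log (2560 * C₀) + 2 * Real.log K| / k
          ≤ (|Real.log (2560 * C₀)| + 2 * Real.log K) / k := by gcongr
        _ = |Real.log (2560 * C₀)| / k + 2 / k * Real.log K := by ring
    have h5 : 0 ≤ |Real.log (2560 * C₀)| / k + 3 := by positivity
    nlinarith

theorem local_count : ∃ C : ℝ, 0 < C ∧ ∀ (n : ℕ) (q : Fin n → ℝ) (a : Fin n → E) (y : E) (s K : ℝ),
    0 < s → 2 ≤ K → 0 < M q a y → (∀ l, s ≤ ‖y - a l‖) →
    ∀ Z : Finset E, (∀ x ∈ Z, ‖x - y‖ ≤ s / 16 ∧ F q a x = 0 ∧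
      ∀ v, M q a y * ‖v‖ ≤ K * s * ‖DF q a x v‖) → (Z.card : ℝ) ≤ C * Real.log K ^ 3 := by
  obtain ⟨C₀, c, hC₀, hc0, hc1, hP⟩ := exists_poly
  obtain ⟨C', hC', hdeg⟩ := lc_deg hC₀ hc0 hc1
  refine ⟨216 * C' ^ 3, by positivity, fun n q a y s K hs hK hM hsa Z hZ => ?_⟩
  obtain ⟨D, hD1, hD2⟩ := hdeg K hK
  obtain ⟨P, hPdeg, hPapp⟩ := hP D
  set ε : ℝ := C₀ * c ^ D with hε
  have hε0 : 0 ≤ ε := by positivity
  have hK0 : 0 < K := by linarith
  have hball : ∀ x, x ∈ closedBall y (2 * (s / 16)) → ‖x - y‖ ≤ s / 8 := by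
    intro x hx
    rw [mem_closedBall, dist_eq_norm] at hx
    linarith
  have hne : ∀ x, ‖x - y‖ ≤ s / 8 → ∀ l, x ≠ a l := by
    intro x hx l h
    obtain ⟨-, h1, -, h2⟩ := lc_far hs (hsa l) hx
    rw [h, sub_self, norm_zero] at h1
    have := norm_pos_iff.2 h2
    linarith
  have hεK : 2560 * K ^ 2 * ε ≤ 1 := by
    have h1 := mul_le_mul_of_nonneg_left hD1 (by positivity : (0 : ℝ) ≤ 2560 * K ^ 2)
    rwa [mul_one_div_cancel (by positivity)] at h1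
  obtain ⟨Z', hZ'c, hZ'⟩ := pert (F := F q a) (G := lcG P q a y) (F' := DF q a)
    (G' := lcG' P q a y) (y := y) (ρ := s / 16) (r := s / (320 * K)) (σ := M q a y / (K * s))
    (L := 40 * M q a y / s ^ 2) (ε₀ := 2 * M q a y * ε) (ε₁ := 4 * M q a y * ε / s)
    (by positivity) (by positivity) (by positivity)
    (by
      have h1 : 2 * (s / (320 * K)) = s / 16 * (1 / (10 * K)) := by
        field_simp
        norm_num
      rw [h1]
      have h2 : 1 / (10 * K) ≤ 1 := by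
        rw [div_le_one (by positivity)]
        linarith
      calc s / 16 * (1 / (10 * K)) ≤ s / 16 * 1 := by gcongr
        _ = s / 16 := mul_one _)
    (fun x hx => (hasStrictFDerivAt_F q a (hne x (hball x hx))).hasFDerivAt)
    (fun x _ => lc_deriv P q a y x)
    (fun x hx x' hx' v => lc_lip q a y hs hsa (hball x hx) (hball x' hx') v)
    (fun x hx => lc_app0 P q a y hs hsa (fun w hw => (hPapp w hw).1) (hball x hx))
    (fun x hx v => lc_app1 P q a y hs hε0 hsa (fun w hw => (hPapp w hw).1)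
      (fun w hw => (hPapp w hw).2) (hball x hx) v)
    (by
      apply le_of_eq
      field_simp
      norm_num)
    (by
      have h1 : 4 * (4 * M q a y * ε / s) = M q a y / (K * s) * (16 * K * ε) := by
        field_simp
        ring
      rw [h1]
      have h2 : 16 * K * ε ≤ 1 := by
        have h3 : 16 * K * ε ≤ 2560 * K ^ 2 * ε := by
          have h4 : 16 * K ≤ 2560 * K ^ 2 := by nlinarith
          exact mul_le_mul_of_nonneg_right h4 hε0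
        linarith
      calc M q a y / (K * s) * (16 * K * ε) ≤ M q a y / (K * s) * 1 := by gcongr
        _ = M q a y / (K * s) := mul_one _)
    (by
      have h1 : 4 * (2 * M q a y * ε) =
          M q a y / (K * s) * (s / (320 * K)) * (2560 * K ^ 2 * ε) := by
        field_simp
        ring
      rw [h1]
      calc M q a y / (K * s) * (s / (320 * K)) * (2560 * K ^ 2 * ε)
          ≤ M q a y / (K * s) * (s / (320 * K)) * 1 := by gcongr
        _ = M q a y / (K * s) * (s / (320 * K)) := mul_one _)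
    Z
    (fun x hx => by
      obtain ⟨h1, h2, h3⟩ := hZ x hx
      refine ⟨?_, h2, fun v => ?_⟩
      · rw [mem_closedBall, dist_eq_norm]
        exact h1
      · rw [div_mul_eq_mul_div, div_le_iff₀ (by positivity), mul_comm ‖DF q a x v‖]
        exact h3 v)
  obtain ⟨Q, hQdeg, hQ⟩ := exists_mv P q (fun l => y - a l) y
  have hPm : Pm Q = lcG P q a y := by
    funext x
    exact hQ x
  have hm : ∀ i, (Q i).totalDegree ≤ 2 * (D + 1) + 1 := fun i =>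
    (hQdeg i).trans (by omega)
  have hbz := bezout (2 * (D + 1) + 1) Q hm Z' (fun x hx => by
    obtain ⟨-, h2, h3⟩ := hZ' x hx
    rw [hPm]
    exact ⟨h2, lcG' P q a y x, lc_deriv P q a y x, h3⟩)
  rw [hZ'c] at hbz
  have h1 : (Z.card : ℝ) ≤ 27 * (2 * ((D : ℝ) + 1) + 1) ^ 3 := by exact_mod_cast hbz
  refine h1.trans ?_
  have h2 : 2 * ((D : ℝ) + 1) + 1 ≤ 2 * (C' * Real.log K) := by linarith
  calc 27 * (2 * ((D : ℝ) + 1) + 1) ^ 3 ≤ 27 * (2 * (C' * Real.log K)) ^ 3 := by gcongr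
    _ = 216 * C' ^ 3 * Real.log K ^ 3 := by ring

end SM992
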