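import Pool.Agent.Work.MP_992d6e_an.SM.Der
import Pool.Agent.Work.MP_992d6e_an.SM.InvL

/-!
MODULE Near (MP_992d6e_an, smoothed analysis): at most one equilibrium near a charge.

`near_unique`: let `G x = Σ_{l ≠ j} q_l g (x - a_l)`.  For `‖x - a_j‖, ‖y - a_j‖ ≤ ρ₀ ≤ d/128` and `l ≠ j`,
`‖x - a_l‖, ‖y - a_l‖ ≥ m_l := (3/4)‖a_j - a_l‖`, so by `g_lip`, `‖G x - G y‖ ≤ (5 M_j/d)‖x - y‖`
(`2 (4/3)^3 < 5`, `‖a_j - a_l‖ ≥ d`), and also `‖G x - E_j‖ ≤ (5 M_j / d) ρ₀ ≤ κ M_j / 2`.  Hence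
`‖G x‖ ≥ κ M_j / 2`.  As `x` is an equilibrium `q_j g(x - a_j) = - G x`, so
`|q_j| / ‖x - a_j‖^2 ≥ κ M_j / 2`, the same for `y`.  If `M_j = 0` then `G x = 0` (all `q_l ≠ 0`, so there
is no `l ≠ j`, or directly from `‖G x - G a_j‖`), contradicting `q_j ≠ 0`; so `M_j > 0`.
Let `r = max ‖x - a_j‖ ‖y - a_j‖ ≤ ρ₀`, `r^2 ≤ 2 |q_j| / (κ M_j)`; by `inv_lip`
`‖x - y‖ ≤ r^3 ‖g (x - a_j) - g (y - a_j)‖ = r^3 ‖G x - G y‖ / |q_j| ≤ r^3 (5 M_j / (d |q_j|)) ‖x - y‖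
 ≤ (10 r / (κ d)) ‖x - y‖ ≤ (10/128) ‖x - y‖`, so `x = y`.

`near_none`: if `x` is an equilibrium with `‖x - a_l‖ ≤ ρ₀ ≤ d/2` then
`|q_l| / ‖x - a_l‖^2 = ‖G x‖ ≤ Σ_{j≠l} |q_j| / (d/2)^2 ≤ 4 S / d^2`, so `‖x - a_l‖^2 ≥ η d^2/4`,
contradiction with `4 ρ₀^2 < η d^2`.
-/

set_option autoImplicit false

namespace SM992

variable {n : ℕ}

/-- the field of the other charges -/
private noncomputable def G (q : Fin n → ℝ) (a : Fin n → E) (j : Fin n) (x : E) : E :=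
  ∑ l ∈ Finset.univ.erase j, q l • g (x - a l)

private theorem F_split (q : Fin n → ℝ) (a : Fin n → E) (j : Fin n) (x : E) :
    F q a x = q j • g (x - a j) + G q a j x := by
  rw [F, G, Finset.add_sum_erase _ (fun l => q l • g (x - a l)) (Finset.mem_univ j)]

private theorem dist_le' (u v w : E) {d : ℝ} (h1 : d ≤ ‖u - v‖) (h2 : ‖w - u‖ ≤ d / 4) :
    3 / 4 * ‖u - v‖ ≤ ‖w - v‖ := by
  have h3 := norm_sub_norm_le (u - v) (u - w)
  rw [show u - v - (u - w) = w - v by abel, norm_sub_rev u w] at h3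
  linarith

private theorem G_lip (q : Fin n → ℝ) (a : Fin n → E) (j : Fin n) {d : ℝ} (hd : 0 < d)
    (hsep : ∀ l, l ≠ j → d ≤ ‖a j - a l‖) {x y : E} (hx : ‖x - a j‖ ≤ d / 4)
    (hy : ‖y - a j‖ ≤ d / 4) :
    ‖G q a j x - G q a j y‖ ≤ 5 * Mj q a j / d * ‖x - y‖ := by
  rw [G, G, ← Finset.sum_sub_distrib, Mj, Finset.mul_sum, Finset.sum_div, Finset.sum_mul]
  refine (norm_sum_le _ _).trans (Finset.sum_le_sum fun l hl => ?_)
  have hlj := Finset.ne_of_mem_erase hl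
  have hD := hsep l hlj
  have hD0 : 0 < ‖a j - a l‖ := hd.trans_le hD
  have e1 := dist_le' (a j) (a l) x hD hx
  have e2 := dist_le' (a j) (a l) y hD hy
  have e3 := g_lip (u := x - a l) (v := y - a l) (m := 3 / 4 * ‖a j - a l‖) (by positivity) e1 e2
  rw [← smul_sub, norm_smul, Real.norm_eq_abs]
  rw [show x - a l - (y - a l) = x - y by abel] at e3
  calc |q l| * ‖g (x - a l) - g (y - a l)‖
      ≤ |q l| * (2 * ((3 / 4 * ‖a j - a l‖) ^ 3)⁻¹ * ‖x - y‖) :=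
        mul_le_mul_of_nonneg_left e3 (abs_nonneg _)
    _ = 128 / 27 * (|q l| / (‖a j - a l‖ ^ 2 * ‖a j - a l‖)) * ‖x - y‖ := by
        field_simp
        ring
    _ ≤ 5 * (|q l| / (‖a j - a l‖ ^ 2 * d)) * ‖x - y‖ := by
        gcongr
        norm_num
    _ = 5 * (|q l| / ‖a j - a l‖ ^ 2) / d * ‖x - y‖ := by
        field_simp

private theorem G_self (q : Fin n → ℝ) (a : Fin n → E) (j : Fin n) : G q a j (a j) = Ej q a j := rfl

private theorem norm_Ej_le (q : Fin n → ℝ) (a : Fin n → E) (j : Fin n) : ‖Ej q a j‖ ≤ Mj q a j := by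
  rw [Ej, Mj]
  refine (norm_sum_le _ _).trans (Finset.sum_le_sum fun l _ => ?_)
  rw [norm_smul, Real.norm_eq_abs, norm_g, div_eq_mul_inv]

private theorem Mj_nonneg (q : Fin n → ℝ) (a : Fin n → E) (j : Fin n) : 0 ≤ Mj q a j := by
  rw [Mj]
  positivity

private theorem norm_eq (q : Fin n → ℝ) (a : Fin n → E) (j : Fin n) {x : E} (hx : IsEq q a x) :
    |q j| = ‖x - a j‖ ^ 2 * ‖G q a j x‖ := by
  have h0 : 0 < ‖x - a j‖ := norm_pos_iff.2 (sub_ne_zero.2 (hx.1 j))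
  have h1 : G q a j x = -(q j • g (x - a j)) := by
    have := hx.2
    rw [F_split q a j, add_comm] at this
    exact eq_neg_of_add_eq_zero_left this
  rw [h1, norm_neg, norm_smul, norm_g, Real.norm_eq_abs]
  field_simp

theorem near_unique (q : Fin n → ℝ) (a : Fin n → E) (j : Fin n) {d κ ρ₀ : ℝ} (hq : ∀ l, q l ≠ 0)
    (hd : 0 < d) (hκ : 0 < κ) (hκ1 : κ ≤ 1) (hρ : ρ₀ ≤ κ * d / 128)
    (hsep : ∀ l, l ≠ j → d ≤ ‖a j - a l‖) (hE : κ * Mj q a j ≤ ‖Ej q a j‖)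
    {x y : E} (hx : IsEq q a x) (hy : IsEq q a y) (hxj : ‖x - a j‖ ≤ ρ₀) (hyj : ‖y - a j‖ ≤ ρ₀) :
    x = y := by
  have hM := Mj_nonneg q a j
  have hρ1 : ρ₀ ≤ d / 128 := by
    refine hρ.trans ?_
    have : κ * d ≤ 1 * d := mul_le_mul_of_nonneg_right hκ1 hd.le
    linarith
  have hqj : 0 < |q j| := abs_pos.2 (hq j)
  have key : ∀ {z : E}, IsEq q a z → ‖z - a j‖ ≤ ρ₀ → κ * Mj q a j / 2 ≤ ‖G q a j z‖ ∧
      0 < ‖z - a j‖ := by
    intro z hz hzj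
    have h1 := G_lip q a j hd hsep (x := z) (y := a j) (by linarith) (by rw [sub_self, norm_zero]; linarith)
    rw [G_self] at h1
    have h2 : 5 * Mj q a j / d * ‖z - a j‖ ≤ κ * Mj q a j / 2 := by
      calc 5 * Mj q a j / d * ‖z - a j‖ ≤ 5 * Mj q a j / d * (κ * d / 128) := by
            gcongr
            exact hzj.trans hρ
        _ = 5 / 128 * (κ * Mj q a j) := by
            field_simp
        _ ≤ κ * Mj q a j / 2 := by
            have : 0 ≤ κ * Mj q a j := by positivity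
            linarith
    have h3 := norm_sub_norm_le (Ej q a j) (G q a j z)
    rw [norm_sub_rev] at h3
    exact ⟨by linarith, norm_pos_iff.2 (sub_ne_zero.2 (hz.1 j))⟩
  have hMpos : 0 < Mj q a j := by
    rcases hM.lt_or_eq with h | h
    · exact h
    exfalso
    have h1 := G_lip q a j hd hsep (x := x) (y := a j) (by linarith) (by rw [sub_self, norm_zero]; linarith)
    have h2 := norm_Ej_le q a j
    rw [G_self, ← h, mul_zero, zero_div, zero_mul] at h1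
    rw [← h] at h2
    have h3 : G q a j x = 0 := by
      have h4 := norm_le_zero_iff.1 h1
      rw [norm_le_zero_iff.1 h2, sub_zero] at h4
      exact h4
    have h4 := norm_eq q a j hx
    rw [h3, norm_zero, mul_zero] at h4
    exact hqj.ne' h4
  obtain ⟨hGx, hx0⟩ := key hx hxj
  obtain ⟨hGy, hy0⟩ := key hy hyj
  have hsq : ∀ {z : E}, IsEq q a z → κ * Mj q a j / 2 ≤ ‖G q a j z‖ →
      ‖z - a j‖ ^ 2 * (κ * Mj q a j / 2) ≤ |q j| := by
    intro z hz hGz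
    rw [norm_eq q a j hz]
    exact mul_le_mul_of_nonneg_left hGz (by positivity)
  have hr : ∃ r : ℝ, ‖x - a j‖ ≤ r ∧ ‖y - a j‖ ≤ r ∧ 0 ≤ r ∧ r ≤ ρ₀ ∧
      r ^ 2 * (κ * Mj q a j / 2) ≤ |q j| := by
    rcases le_total ‖x - a j‖ ‖y - a j‖ with h | h
    · exact ⟨‖y - a j‖, h, le_rfl, norm_nonneg _, hyj, hsq hy hGy⟩
    · exact ⟨‖x - a j‖, le_rfl, h, norm_nonneg _, hxj, hsq hx hGx⟩
  obtain ⟨r, hrx, hry, hr0, hrρ, hr2⟩ := hr
  have h1 := inv_lip (norm_pos_iff.1 hx0) (norm_pos_iff.1 hy0) hrx hry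
  rw [show x - a j - (y - a j) = x - y by abel] at h1
  have h2 : |q j| * ‖g (x - a j) - g (y - a j)‖ = ‖G q a j x - G q a j y‖ := by
    have e1 := hx.2
    have e2 := hy.2
    rw [F_split q a j] at e1 e2
    rw [← Real.norm_eq_abs, ← norm_smul, ← norm_neg (G q a j x - G q a j y)]
    congr 1
    rw [smul_sub, eq_neg_of_add_eq_zero_left e1, eq_neg_of_add_eq_zero_left e2]
    abel
  have h3 := G_lip q a j hd hsep (x := x) (y := y) (by linarith) (by linarith)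
  have h4 : |q j| * ‖x - y‖ ≤ r ^ 3 * (5 * Mj q a j / d * ‖x - y‖) := by
    calc |q j| * ‖x - y‖ ≤ |q j| * (r ^ 3 * ‖g (x - a j) - g (y - a j)‖) :=
          mul_le_mul_of_nonneg_left h1 hqj.le
      _ = r ^ 3 * (|q j| * ‖g (x - a j) - g (y - a j)‖) := by ring
      _ ≤ _ := by
          rw [h2]
          exact mul_le_mul_of_nonneg_left h3 (by positivity)
  have h5 : r ^ 3 * (5 * Mj q a j / d * ‖x - y‖) ≤ 10 / 128 * (|q j| * ‖x - y‖) := by
    have e1 : r ^ 3 * (5 * Mj q a j / d * ‖x - y‖) =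
        (10 / (κ * d)) * r * ((r ^ 2 * (κ * Mj q a j / 2)) * ‖x - y‖) := by
      field_simp
      ring
    rw [e1]
    have e2 : (10 / (κ * d)) * r ≤ 10 / 128 := by
      rw [div_mul_eq_mul_div, div_le_iff₀ (by positivity)]
      linarith [hrρ.trans hρ]
    gcongr
  by_contra hne
  have h6 : 0 < ‖x - y‖ := norm_pos_iff.2 (sub_ne_zero.2 hne)
  have h7 := mul_pos hqj h6
  linarith

theorem near_none (q : Fin n → ℝ) (a : Fin n → E) (l : Fin n) {d η ρ₀ : ℝ}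
    (hq : ∀ j, q j ≠ 0) (hd : 0 < d) (hη : η * S q ≤ |q l|) (hρ : ρ₀ ≤ d / 2)
    (hρ2 : 4 * ρ₀ ^ 2 < η * d ^ 2) (hsep : ∀ j, j ≠ l → d ≤ ‖a l - a j‖)
    {x : E} (hx : IsEq q a x) : ρ₀ < ‖x - a l‖ := by
  by_contra hcon
  push Not at hcon
  have hx0 : 0 < ‖x - a l‖ := norm_pos_iff.2 (sub_ne_zero.2 (hx.1 l))
  have hS : 0 < S q := by
    rw [S]
    exact Finset.sum_pos (fun i _ => abs_pos.2 (hq i)) ⟨l, Finset.mem_univ l⟩
  have h1 : ‖G q a l x‖ ≤ 4 * S q / d ^ 2 := by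
    have e1 : ‖G q a l x‖ ≤ ∑ j ∈ Finset.univ.erase l, 4 * |q j| / d ^ 2 := by
      rw [G]
      refine (norm_sum_le _ _).trans (Finset.sum_le_sum fun j hj => ?_)
      have hD := hsep j (Finset.ne_of_mem_erase hj)
      have e2 : d / 2 ≤ ‖x - a j‖ := by
        have h3 := norm_sub_norm_le (a l - a j) (a l - x)
        rw [show a l - a j - (a l - x) = x - a j by abel, norm_sub_rev (a l) x] at h3
        linarith
      rw [norm_smul, Real.norm_eq_abs, norm_g]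
      calc |q j| * (‖x - a j‖ ^ 2)⁻¹ ≤ |q j| * ((d / 2) ^ 2)⁻¹ := by gcongr
        _ = 4 * |q j| / d ^ 2 := by
            field_simp
            norm_num
    refine e1.trans ?_
    rw [S, Finset.mul_sum, Finset.sum_div]
    exact Finset.sum_le_sum_of_subset_of_nonneg (Finset.erase_subset _ _)
      fun i _ _ => by positivity
  have h2 := norm_eq q a l hx
  have h3 : |q l| ≤ ρ₀ ^ 2 * (4 * S q / d ^ 2) := by
    rw [h2]
    gcongr
  have h4 : η * S q * d ^ 2 ≤ 4 * ρ₀ ^ 2 * S q := by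
    have : |q l| * d ^ 2 ≤ 4 * ρ₀ ^ 2 * S q := by
      calc |q l| * d ^ 2 ≤ ρ₀ ^ 2 * (4 * S q / d ^ 2) * d ^ 2 := by gcongr
        _ = 4 * ρ₀ ^ 2 * S q := by field_simp
    exact (mul_le_mul_of_nonneg_right hη (by positivity)).trans this
  have h5 : 4 * ρ₀ ^ 2 * S q < η * d ^ 2 * S q := mul_lt_mul_of_pos_right hρ2 hS
  linarith

end SM992
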