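import Pool.Agent.Work.MP_992d6e_an.SM.Defs

/-!
MODULE Pack (MP_992d6e_an, condition numbers): packing numbers of a finite set at different scales.

`exists_max_sep`: among the supersets `T' ⊇ T` with `SepS A T' s` take one of maximal cardinality.

`pack_out`: let `T̂ ⊇ T` be maximal `s`-separated (`exists_max_sep`), every point of `A` is at distance `< s` from
`T̂`; let `B` be `4Ls`-separated with `B.card = pk A (4*L*s)` and `φ : B → T̂` with `dist b (φ b) < s`; `φ` is
injective and distinct `φ b`, `φ b'` have distance `> (4L-2)s`.  For `x ∈ T` with partner `y ∈ A` choose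
`y' x ∈ T̂` with `dist y (y' x) < s`; then `y' x ≠ x` and `dist x (y' x) ≤ (L+1)s < (4L-2)s`.  For
`x ∈ T ∩ φ(B)`: `y' x ∉ φ(B)`, and `y'` is injective on `T ∩ φ(B)` since `2(L+1) < 4L-2`.  So
`|T ∩ φ(B)| ≤ |T̂ \ φ(B)|`, `|T \ φ(B)| ≤ |T̂ \ φ(B)|` and `|T| ≤ 2 (|T̂| - |B|) ≤ 2 (pk A s - pk A (4Ls))`.

`pack_in`: let `T̂ ⊇ T` be maximal `20s`-separated, `|T̂| ≥ pk A (40 s)` (a `40s`-separated set injects into
`T̂`, each point going to a point at distance `< 20 s`).  For `x ∈ T` let `y x` be its partner.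
`T̂ ∪ {y x : x ∈ T}` is `s/L`-separated (`dist x (y x) ≥ s/L`; for `t ∈ T̂`, `t ≠ x`, `dist t (y x) ≥ 20s - 4s`;
`dist (y x) (y x') ≥ 20 s - 8 s`) and has `|T̂| + |T|` elements, so
`pk A (40 s) + |T| ≤ |T̂| + |T| ≤ pk A (s/L)`.
-/

set_option autoImplicit false

namespace SM992

/-- `T` is an `s`-separated subset of `A` -/
def SepS (A T : Finset E) (s : ℝ) : Prop := T ⊆ A ∧ ∀ x ∈ T, ∀ y ∈ T, x ≠ y → s ≤ dist x y

open Classical in
/-- the packing number of `A` at scale `s` -/
noncomputable def pk (A : Finset E) (s : ℝ) : ℕ :=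
  (A.powerset.filter (fun T => SepS A T s)).sup Finset.card

theorem le_pk {A T : Finset E} {s : ℝ} (h : SepS A T s) : T.card ≤ pk A s := by
  classical
  unfold pk
  exact Finset.le_sup (f := Finset.card)
    (Finset.mem_filter.2 ⟨Finset.mem_powerset.2 h.1, h⟩)

theorem exists_pk (A : Finset E) (s : ℝ) : ∃ T, SepS A T s ∧ T.card = pk A s := by
  classical
  obtain ⟨T, hT, hT'⟩ := Finset.exists_mem_eq_sup (A.powerset.filter (fun T => SepS A T s))
    ⟨∅, Finset.mem_filter.2 ⟨Finset.empty_mem_powerset _, Finset.empty_subset _, by simp⟩⟩ Finset.card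
  exact ⟨T, (Finset.mem_filter.1 hT).2, hT'.symm⟩

theorem pk_le_card (A : Finset E) (s : ℝ) : pk A s ≤ A.card := by
  obtain ⟨T, hT, hc⟩ := exists_pk A s
  rw [← hc]
  exact Finset.card_le_card hT.1

theorem pk_anti (A : Finset E) {s s' : ℝ} (h : s ≤ s') : pk A s' ≤ pk A s := by
  obtain ⟨T, hT, hc⟩ := exists_pk A s'
  rw [← hc]
  exact le_pk ⟨hT.1, fun x hx y hy hxy => h.trans (hT.2 x hx y hy hxy)⟩

theorem exists_max_sep {A T : Finset E} {s : ℝ} (hs : 0 < s) (hT : SepS A T s) :
    ∃ T', T ⊆ T' ∧ SepS A T' s ∧ ∀ x ∈ A, ∃ y ∈ T', dist x y < s := by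
  classical
  obtain ⟨T', hT', hmax⟩ := Finset.exists_max_image
    (A.powerset.filter fun T' => T ⊆ T' ∧ SepS A T' s) Finset.card
    ⟨T, Finset.mem_filter.2 ⟨Finset.mem_powerset.2 hT.1, Finset.Subset.refl _, hT⟩⟩
  obtain ⟨_, hTT', hsep⟩ := Finset.mem_filter.1 hT'
  refine ⟨T', hTT', hsep, fun x hx => ?_⟩
  by_contra hcon
  push Not at hcon
  have hxT : x ∉ T' := by
    intro h
    have := hcon x h
    rw [dist_self] at this
    linarith
  have hsub : insert x T' ⊆ A := by
    intro y hy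
    rcases Finset.mem_insert.1 hy with rfl | hy
    · exact hx
    · exact hsep.1 hy
  have hsep' : SepS A (insert x T') s := by
    refine ⟨hsub, ?_⟩
    intro y hy z hz hyz
    rcases Finset.mem_insert.1 hy with hyx | hy'
    · rcases Finset.mem_insert.1 hz with hzx | hz'
      · exact absurd (hyx.trans hzx.symm) hyz
      · rw [hyx]
        exact hcon z hz'
    · rcases Finset.mem_insert.1 hz with hzx | hz'
      · rw [hzx, dist_comm]
        exact hcon y hy'
      · exact hsep.2 y hy' z hz' hyz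
  have h1 := hmax (insert x T') (Finset.mem_filter.2 ⟨Finset.mem_powerset.2 hsub,
    hTT'.trans (Finset.subset_insert _ _), hsep'⟩)
  rw [Finset.card_insert_of_notMem hxT] at h1
  omega

theorem pack_out {A T : Finset E} {s L : ℝ} (hs : 0 < s) (hL : 10 ≤ L) (hT : SepS A T s)
    (h : ∀ x ∈ T, ∃ y ∈ A, 4 * s ≤ dist x y ∧ dist x y ≤ L * s) :
    T.card + 2 * pk A (4 * L * s) ≤ 2 * pk A s := by
  classical
  obtain ⟨T', hTT', hsep, hcov⟩ := exists_max_sep hs hT
  obtain ⟨B, hB, hBc⟩ := exists_pk A (4 * L * s)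
  have hLs : 10 * s ≤ L * s := mul_le_mul_of_nonneg_right hL hs.le
  choose! φ hφ1 hφ2 using hcov
  choose! y hyA hy1 hy2 using h
  have hfar : ∀ b ∈ B, ∀ c ∈ B, b ≠ c → 4 * L * s - 2 * s < dist (φ b) (φ c) := by
    intro b hb c hc hbc
    have h1 := hB.2 b hb c hc hbc
    have h2 := hφ2 b (hB.1 hb)
    have h3 := hφ2 c (hB.1 hc)
    have h4 := dist_triangle4 b (φ b) (φ c) c
    rw [dist_comm (φ c) c] at h4
    linarith
  have hinj : Set.InjOn φ (B : Set E) := by
    intro b hb c hc hbc
    by_contra hne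
    have h1 := hfar b hb c hc hne
    rw [hbc, dist_self] at h1
    nlinarith
  have hΦ : (B.image φ).card = B.card := Finset.card_image_of_injOn hinj
  have hΦT : B.image φ ⊆ T' := by
    intro z hz
    obtain ⟨b, hb, rfl⟩ := Finset.mem_image.1 hz
    exact hφ1 b (hB.1 hb)
  have hy' : ∀ x ∈ T, φ (y x) ∈ T' ∧ 3 * s < dist x (φ (y x)) ∧ dist x (φ (y x)) < (L + 1) * s := by
    intro x hx
    have h1 := hφ2 (y x) (hyA x hx)
    have h2 := dist_triangle x (y x) (φ (y x))
    have h3 := dist_triangle_right x (y x) (φ (y x))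
    have h4 := hy1 x hx
    have h5 := hy2 x hx
    exact ⟨hφ1 (y x) (hyA x hx), by linarith, by linarith⟩
  have hclose : ∀ u ∈ B.image φ, ∀ v ∈ B.image φ, dist u v ≤ 4 * L * s - 2 * s → u = v := by
    intro u hu v hv huv
    obtain ⟨b, hb, rfl⟩ := Finset.mem_image.1 hu
    obtain ⟨c, hc, rfl⟩ := Finset.mem_image.1 hv
    by_contra hne
    have hbc : b ≠ c := fun h => hne (by rw [h])
    have := hfar b hb c hc hbc
    linarith
  have h1 : (T ∩ B.image φ).card ≤ (T' \ B.image φ).card := by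
    refine Finset.card_le_card_of_injOn (fun x => φ (y x)) ?_ ?_
    · intro x hx
      obtain ⟨hx1, hx2⟩ := Finset.mem_inter.1 (Finset.mem_coe.1 hx)
      obtain ⟨k1, k2, k3⟩ := hy' x hx1
      refine Finset.mem_coe.2 (Finset.mem_sdiff.2 ⟨k1, fun hcon => ?_⟩)
      have h5 : x = φ (y x) := hclose x hx2 _ hcon (by linarith)
      rw [← h5, dist_self] at k2
      linarith
    · intro x hx x' hx' hxx'
      obtain ⟨hx1, hx2⟩ := Finset.mem_inter.1 (Finset.mem_coe.1 hx)
      obtain ⟨hx1', hx2'⟩ := Finset.mem_inter.1 (Finset.mem_coe.1 hx')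
      obtain ⟨k1, k2, k3⟩ := hy' x hx1
      obtain ⟨k1', k2', k3'⟩ := hy' x' hx1'
      simp only at hxx'
      rw [← hxx'] at k3'
      have h5 := dist_triangle_right x x' (φ (y x))
      exact hclose x hx2 x' hx2' (by linarith)
  have h2 : (T \ B.image φ).card ≤ (T' \ B.image φ).card :=
    Finset.card_le_card (Finset.sdiff_subset_sdiff hTT' (Finset.Subset.refl _))
  have h3 : (T' \ B.image φ).card + (B.image φ).card = T'.card :=
    Finset.card_sdiff_add_card_eq_card hΦT
  have h4 : (T ∩ B.image φ).card + (T \ B.image φ).card = T.card :=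
    Finset.card_inter_add_card_sdiff T (B.image φ)
  have h5 := le_pk hsep
  omega

theorem pack_in {A T : Finset E} {s L : ℝ} (hs : 0 < s) (hL : 10 ≤ L) (hT : SepS A T (20 * s))
    (h : ∀ x ∈ T, ∃ y ∈ A, s / L ≤ dist x y ∧ dist x y < 4 * s) :
    T.card + pk A (40 * s) ≤ pk A (s / L) := by
  classical
  obtain ⟨T', hTT', hsep, hcov⟩ := exists_max_sep (by positivity : 0 < 20 * s) hT
  obtain ⟨B, hB, hBc⟩ := exists_pk A (40 * s)
  choose! φ hφ1 hφ2 using hcov
  choose! y hyA hy1 hy2 using h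
  have hsL : s / L ≤ s := div_le_self hs.le (by linarith)
  have hsL0 : 0 < s / L := div_pos hs (by linarith)
  have h1 : B.card ≤ T'.card := by
    refine Finset.card_le_card_of_injOn φ ?_ ?_
    · intro b hb
      exact hφ1 b (hB.1 hb)
    · intro b hb c hc hbc
      by_contra hne
      have k1 := hB.2 b hb c hc hne
      have k2 := hφ2 b (hB.1 hb)
      have k3 := hφ2 c (hB.1 hc)
      have k4 := dist_triangle_right b c (φ b)
      rw [hbc] at k2 k4
      linarith
  have hty : ∀ t ∈ T', ∀ x ∈ T, s / L ≤ dist t (y x) := by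
    intro t ht x hx
    by_cases htx : t = x
    · rw [htx]
      exact hy1 x hx
    · have k1 := hsep.2 t ht x (hTT' hx) htx
      have k2 := hy2 x hx
      have k3 := dist_triangle_right t x (y x)
      linarith
  have hyy : ∀ x ∈ T, ∀ x' ∈ T, x ≠ x' → s / L ≤ dist (y x) (y x') := by
    intro x hx x' hx' hxx'
    have k1 := hT.2 x hx x' hx' hxx'
    have k2 := hy2 x hx
    have k3 := hy2 x' hx'
    have k4 := dist_triangle4 x (y x) (y x') x'
    rw [dist_comm (y x') x'] at k4
    linarith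
  have hinj : Set.InjOn y (T : Set E) := by
    intro x hx x' hx' hxx'
    by_contra hne
    have k1 := hyy x hx x' hx' hne
    rw [hxx', dist_self] at k1
    linarith
  have hdis : Disjoint T' (T.image y) := by
    rw [Finset.disjoint_left]
    intro t ht ht'
    obtain ⟨x, hx, rfl⟩ := Finset.mem_image.1 ht'
    have k1 := hty (y x) ht x hx
    rw [dist_self] at k1
    linarith
  have hS : SepS A (T' ∪ T.image y) (s / L) := by
    refine ⟨Finset.union_subset hsep.1 ?_, ?_⟩
    · intro z hz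
      obtain ⟨x, hx, rfl⟩ := Finset.mem_image.1 hz
      exact hyA x hx
    · intro u hu v hv huv
      rcases Finset.mem_union.1 hu with hu | hu
      · rcases Finset.mem_union.1 hv with hv | hv
        · have := hsep.2 u hu v hv huv
          linarith
        · obtain ⟨x, hx, rfl⟩ := Finset.mem_image.1 hv
          exact hty u hu x hx
      · obtain ⟨x, hx, rfl⟩ := Finset.mem_image.1 hu
        rcases Finset.mem_union.1 hv with hv | hv
        · rw [dist_comm]
          exact hty v hv x hx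
        · obtain ⟨x', hx', rfl⟩ := Finset.mem_image.1 hv
          exact hyy x hx x' hx' fun h => huv (by rw [h])
  have h2 := le_pk hS
  rw [Finset.card_union_of_disjoint hdis, Finset.card_image_of_injOn hinj] at h2
  omega

end SM992
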