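import Pool.Agent.Work.MP_992d6e_an.SM.Defs

/-!
MODULE Ser (MP_992d6e_an, smoothed analysis): polynomial approximation of `(1+w)^{-3/2}` and of its
derivative on `|w| ≤ 1/3` with geometric error.

`h w = -(3/2) (√(1+w))^{-5}` equals `-(3/2) (1+w)^(-5/2)` (rpow) for `|w| < 1`, which has a power series on the
unit ball (`Real.one_add_rpow_hasFPowerSeriesOnBall_zero`, `HasFPowerSeriesOnBall.const_smul` or multiply at
the end).  `HasFPowerSeriesOnBall.uniform_geometric_approx` with radius `1/2` gives polynomials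
`H_D` of degree `≤ D` (the partial sums, `FormalMultilinearSeries.partialSum`, terms `p k (fun _ => w) =
p.coeff k * w^k`) with `|h w - H_D w| ≤ C c^D` on `|w| < 1/2`.  Take `P = 1 + ∫_0 H_D` (explicitly
`1 + Σ coeff_k X^{k+1}/(k+1)`), so `P' = H_D`, `natDegree P ≤ D + 1`, and since
`f w = (√(1+w))^{-3}` has derivative `h`, `f 0 = 1 = P 0`, the mean value inequality gives
`|f w - P w| ≤ |w| C c^D ≤ C c^D`.
-/

set_option autoImplicit false

namespace SM992

private theorem s1 {x : ℝ} (hx : 0 < x) : ((√x) ^ 3)⁻¹ = x ^ (-(3 / 2) : ℝ) := by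
  rw [Real.rpow_neg hx.le, Real.sqrt_eq_rpow, ← Real.rpow_natCast, ← Real.rpow_mul hx.le]
  norm_num

private theorem s2 {x : ℝ} (hx : 0 < x) : ((√x) ^ 5)⁻¹ = x ^ (-(5 / 2) : ℝ) := by
  rw [Real.rpow_neg hx.le, Real.sqrt_eq_rpow, ← Real.rpow_natCast, ← Real.rpow_mul hx.le]
  norm_num

private theorem s3 {w : ℝ} (hw : |w| ≤ 1 / 3) :
    HasDerivAt (fun w : ℝ => (1 + w) ^ (-(3 / 2) : ℝ)) (-(3 / 2) * (1 + w) ^ (-(5 / 2) : ℝ)) w := by
  have h0 : 0 < 1 + w := by linarith [(abs_le.1 hw).1]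
  have h1 : HasDerivAt (fun w : ℝ => 1 + w) 1 w := (hasDerivAt_id w).const_add 1
  have h2 := h1.rpow_const (p := (-(3 / 2) : ℝ)) (Or.inl h0.ne')
  convert h2 using 1
  norm_num

theorem exists_poly : ∃ C c : ℝ, 0 < C ∧ 0 < c ∧ c < 1 ∧ ∀ D : ℕ, ∃ P : Polynomial ℝ,
    P.natDegree ≤ D + 1 ∧ ∀ w : ℝ, |w| ≤ 1 / 3 →
      |((√(1 + w)) ^ 3)⁻¹ - P.eval w| ≤ C * c ^ D ∧
      |-(3 / 2) * ((√(1 + w)) ^ 5)⁻¹ - P.derivative.eval w| ≤ C * c ^ D := by
  obtain ⟨a, ha, C, hC, hap⟩ := (Real.one_add_rpow_hasFPowerSeriesOnBall_zero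
    (a := (-(5 / 2) : ℝ))).uniform_geometric_approx (r' := 1 / 2)
    (by
      simp)
  set p := binomialSeries ℝ (-(5 / 2) : ℝ) with hp
  refine ⟨3 / 2 * C, a, by positivity, ha.1, ha.2, fun D => ?_⟩
  let P : Polynomial ℝ := 1 + ∑ k ∈ Finset.range (D + 1),
    Polynomial.C (-(3 / 2) * p.coeff k / (k + 1)) * Polynomial.X ^ (k + 1)
  have hdeg : P.natDegree ≤ D + 1 := by
    refine (Polynomial.natDegree_add_le _ _).trans (max_le (by simp) ?_)
    refine Polynomial.natDegree_sum_le_of_forall_le _ _ fun k hk => ?_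
    refine (Polynomial.natDegree_C_mul_X_pow_le _ _).trans ?_
    have := Finset.mem_range.1 hk
    omega
  have hder : ∀ w : ℝ, P.derivative.eval w = -(3 / 2) * p.partialSum (D + 1) w := by
    intro w
    simp only [P, Polynomial.derivative_add, Polynomial.derivative_one, zero_add,
      Polynomial.derivative_sum, Polynomial.eval_finsetSum, Polynomial.derivative_C_mul_X_pow,
      Polynomial.eval_mul, Polynomial.eval_pow, Polynomial.eval_X, Polynomial.eval_C]
    rw [FormalMultilinearSeries.partialSum, Finset.mul_sum]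
    refine Finset.sum_congr rfl fun k _ => ?_
    rw [FormalMultilinearSeries.apply_eq_prod_smul_coeff]
    simp only [Finset.prod_const, Finset.card_univ, Fintype.card_fin, smul_eq_mul,
      Nat.add_sub_cancel]
    have : ((k : ℝ) + 1) ≠ 0 := by positivity
    push_cast
    field_simp
  have h0 : P.eval 0 = 1 := by
    simp [P, Polynomial.eval_finsetSum]
  have hb : ∀ w : ℝ, |w| ≤ 1 / 3 →
      |-(3 / 2) * (1 + w) ^ (-(5 / 2) : ℝ) - P.derivative.eval w| ≤ 3 / 2 * C * a ^ D := by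
    intro w hw
    have h1 := hap w (by
      rw [mem_ball_zero_iff, Real.norm_eq_abs]
      refine lt_of_le_of_lt hw ?_
      push_cast
      norm_num) (D + 1)
    rw [zero_add, Real.norm_eq_abs] at h1
    rw [hder w, ← mul_sub, abs_mul, abs_neg, abs_of_pos (by norm_num : (0 : ℝ) < 3 / 2), mul_assoc]
    have h2 : C * a ^ (D + 1) ≤ C * a ^ D := by
      refine mul_le_mul_of_nonneg_left ?_ hC.le
      exact pow_le_pow_of_le_one ha.1.le ha.2.le (Nat.le_succ D)
    exact mul_le_mul_of_nonneg_left (h1.trans h2) (by norm_num)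
  refine ⟨P, hdeg, fun w hw => ⟨?_, ?_⟩⟩
  · have hpos : 0 < 1 + w := by linarith [(abs_le.1 hw).1]
    rw [s1 hpos]
    have hB : 0 ≤ 3 / 2 * C * a ^ D := by have := ha.1; positivity
    have h1 := (convex_Icc (-(1 / 3) : ℝ) (1 / 3)).norm_image_sub_le_of_norm_hasDerivWithin_le
      (f := fun w : ℝ => (1 + w) ^ (-(3 / 2) : ℝ) - P.eval w)
      (f' := fun w : ℝ => -(3 / 2) * (1 + w) ^ (-(5 / 2) : ℝ) - P.derivative.eval w)
      (C := 3 / 2 * C * a ^ D)
      (fun x hx => ((s3 (abs_le.2 hx)).sub (P.hasDerivAt x)).hasDerivWithinAt)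
      (fun x hx => hb x (abs_le.2 hx)) (x := 0) (y := w)
      ⟨by norm_num, by norm_num⟩ (abs_le.1 hw)
    simp only [add_zero, Real.one_rpow, h0, sub_self, sub_zero, Real.norm_eq_abs] at h1
    refine h1.trans ?_
    have h2 : |w| ≤ 1 := hw.trans (by norm_num)
    calc 3 / 2 * C * a ^ D * |w| ≤ 3 / 2 * C * a ^ D * 1 := mul_le_mul_of_nonneg_left h2 hB
      _ = _ := mul_one _
  · have hpos : 0 < 1 + w := by linarith [(abs_le.1 hw).1]
    rw [s2 hpos]
    exact hb w hw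

end SM992
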